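import Pool.Agent.SLB.EndA
import Pool.Agent.FTA.DivB

namespace Pool.Agent.SLB

private theorem pw {Y : ℝ} (hY : 0 ≤ Y) (r : ℝ) (n : ℕ) : (Y ^ r) ^ n = Y ^ (r * n) := by
  rw [Real.rpow_mul_natCast hY]

private theorem con_of {Y S del c : ℝ} (hd : 0 < del) (hd1 : del ≤ 1) (hY : 2 ≤ Y) (hS1 : 1 ≤ S)
    (hS : S ≤ Y ^ (del / 2))
    (hc : ∀ m : ℕ, m ≠ 0 → (m.divisors.card : ℝ) ≤ c * (m : ℝ) ^ (del / 80))
    (h1 : c ≤ Y ^ (del / 2)) (h2 : 100 * (1 + 2 / del) ≤ Y ^ (del / 2)) : Con Y S (Y ^ del) := by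
  have hY0 : 0 < Y := by linarith
  have hY1 : 1 ≤ Y := by linarith
  have hsq : Y ^ (del / 2) * Y ^ (del / 2) = Y ^ del := by
    rw [← Real.rpow_add hY0]
    congr 1
    ring
  have hle : Y ^ (del / 2) ≤ Y ^ del := Real.rpow_le_rpow_of_exponent_le hY1 (by linarith)
  have h0 : 1 ≤ Y ^ (del / 2) := Real.one_le_rpow hY1 (by linarith)
  refine ⟨hY, hS1, ?_, hS.trans hle, ?_, ?_⟩
  · refine hS.trans ?_
    calc Y ^ (del / 2) ≤ Y ^ (1 : ℝ) := Real.rpow_le_rpow_of_exponent_le hY1 (by linarith)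
      _ = Y := Real.rpow_one Y
  · have e1 : Real.log Y ≤ Y ^ (del / 2) / (del / 2) := Real.log_le_rpow_div hY0.le (by linarith)
    have e2 : Y ^ (del / 2) / (del / 2) = 2 / del * Y ^ (del / 2) := by
      field_simp
    rw [e2] at e1
    have e3 : 100 * (1 + Real.log Y) ≤ 100 * (1 + 2 / del) * Y ^ (del / 2) := by
      nlinarith
    have e4 : 100 * (1 + 2 / del) * Y ^ (del / 2) ≤ Y ^ (del / 2) * Y ^ (del / 2) :=
      mul_le_mul_of_nonneg_right h2 (by linarith)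
    linarith
  · intro n hn hn2
    have e1 := hc n (by omega)
    have e2 : (n : ℝ) ^ (del / 80) ≤ (Y ^ 40) ^ (del / 80) :=
      Real.rpow_le_rpow (by positivity) hn2 (by linarith)
    have e3 : (Y ^ 40) ^ (del / 80) = Y ^ (del / 2) := by
      rw [← Real.rpow_natCast, ← Real.rpow_mul hY0.le]
      congr 1
      push_cast
      ring
    rw [e3] at e2
    by_cases hc0 : 0 ≤ c
    · calc (n.divisors.card : ℝ) ≤ c * (n : ℝ) ^ (del / 80) := e1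
        _ ≤ c * Y ^ (del / 2) := mul_le_mul_of_nonneg_left e2 hc0
        _ ≤ Y ^ (del / 2) * Y ^ (del / 2) := mul_le_mul_of_nonneg_right h1 (by linarith)
        _ = Y ^ del := hsq
    · push Not at hc0
      have e4 : c * (n : ℝ) ^ (del / 80) ≤ 0 := mul_nonpos_of_nonpos_of_nonneg hc0.le (by positivity)
      have e5 : 0 ≤ Y ^ del := by positivity
      linarith

/-- THEOREM BAD (asymptotic form).
PROOF.  `del = eta^2/300`, `eps = del/2`, `D = Y^del`, `lam = Y^(-eta/4)` (`lam^4 = Y^(-eta)`), `J = ⌈1/eta⌉₊ <= 2/eta`.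
For `Y >= Y0`: `Con Y S D`: `divisor_bound` (FTA/DivB) with exponent `del/80`: `d(n) <= c n^(del/80) <= c Y^(del/2) <= Y^del` for `n <= Y^40`;
`100(1+log Y) <= Y^del`; `S <= Y^eps <= D <= Y`.  `16000 <= D`, `1152 D^2 lam^2 <= D^3 lam^2 = Y^(3 del - eta/2) <= 1`.
`hJ`: `lam^(6J) <= Y^(-3/2)`, `(2 S lam^4 Y)^3 <= 8 Y^(3 eps - 3 eta + 3) <= 8 Y^3`, `8 Y^(3/2) < Y^2` for `Y > 64`.
`(16000 D^16)^J <= D^(17 J) <= Y^(34 del/eta)`, so `bad_bound` gives four terms, each `<= Y^(4 - eta/3)/4`-ish: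
`4 (..)^J S^4 lam^2 Y^4 <= Y^(5 del + 34 del/eta - eta/2 + 4)`, `5 del + 34 del/eta <= 39 eta/300 < eta/6`; the first two have `lam^8 = Y^(-2 eta)`;
`32 S^5 D^3 Y^3 <= Y^(3 + 9 del)`.  Sum `<= 4 Y^(4 - eta/3) <= Y^(4 - eta/4)` for `Y` large. -/
theorem bad {eta : ℝ} (h0 : 0 < eta) (h1 : eta ≤ 1) :
    ∃ eps : ℝ, 0 < eps ∧ ∃ Y0 : ℝ, 2 ≤ Y0 ∧ ∀ Y : ℝ, Y0 ≤ Y → ∀ S : ℝ, 1 ≤ S → S ≤ Y ^ eps →
      (Bad Y S (Y ^ (-eta))).Finite ∧ ((Bad Y S (Y ^ (-eta))).ncard : ℝ) ≤ Y ^ (4 - eta / 4) := by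
  obtain ⟨del, hdel⟩ : ∃ del : ℝ, del = eta ^ 2 / 300 := ⟨_, rfl⟩
  have hd : 0 < del := by rw [hdel]; positivity
  have hdeta : del ≤ eta / 300 := by rw [hdel]; nlinarith
  have hd1 : del ≤ 1 := by linarith
  obtain ⟨c, hc0, hc⟩ := Pool.Agent.FTA.divisor_bound (ε := del / 80) (by linarith)
  obtain ⟨K, hK⟩ : ∃ K : ℝ, K = max 16000 (max c (100 * (1 + 2 / del))) := ⟨_, rfl⟩
  have hK1 : 16000 ≤ K := by rw [hK]; exact le_max_left _ _
  have hK2 : c ≤ K := by rw [hK]; exact (le_max_left _ _).trans (le_max_right _ _)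
  have hK3 : 100 * (1 + 2 / del) ≤ K := by rw [hK]; exact (le_max_right _ _).trans (le_max_right _ _)
  have hK0 : 0 < K := by linarith
  refine ⟨del / 2, by linarith, max 65 (K ^ (2 / del)), (by norm_num : (2 : ℝ) ≤ 65).trans (le_max_left _ _), ?_⟩
  intro Y hY S hS1 hS
  have hY65 : 65 ≤ Y := (le_max_left _ _).trans hY
  have hYK : K ≤ Y ^ (del / 2) := by
    have e1 : K ^ (2 / del) ≤ Y := (le_max_right _ _).trans hY
    have e2 : (K ^ (2 / del)) ^ (del / 2) ≤ Y ^ (del / 2) :=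
      Real.rpow_le_rpow (by positivity) e1 (by linarith)
    rw [← Real.rpow_mul hK0.le] at e2
    have e3 : 2 / del * (del / 2) = 1 := by field_simp
    rw [e3, Real.rpow_one] at e2
    exact e2
  have hY0 : 0 < Y := by linarith
  have hY1 : 1 ≤ Y := by linarith
  have hC : Con Y S (Y ^ del) :=
    con_of hd hd1 (by linarith) hS1 hS hc (hK2.trans hYK) (hK3.trans hYK)
  have hmono : ∀ {r s : ℝ}, r ≤ s → Y ^ r ≤ Y ^ s := fun h => Real.rpow_le_rpow_of_exponent_le hY1 h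
  have hD16 : 16000 ≤ Y ^ del := (hK1.trans hYK).trans (hmono (by linarith))
  have hS0 : 0 < S := by linarith
  obtain ⟨lam, hlam⟩ : ∃ lam : ℝ, lam = Y ^ (-(eta / 4)) := ⟨_, rfl⟩
  have hl0 : 0 < lam := by rw [hlam]; positivity
  have hl4 : Y ^ (-eta) = lam ^ 4 := by
    rw [hlam, pw hY0.le]
    congr 1
    push_cast
    ring
  have hl2 : lam ^ 2 = Y ^ (-(eta / 2)) := by
    rw [hlam, pw hY0.le]
    congr 1
    push_cast
    ring
  have hl8 : lam ^ 8 = Y ^ (-(2 * eta)) := by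
    rw [hlam, pw hY0.le]
    congr 1
    push_cast
    ring
  have hl1 : 1152 * (Y ^ del) ^ 2 * lam ^ 2 ≤ 1 := by
    have e1 : 1152 * (Y ^ del) ^ 2 * lam ^ 2 ≤ Y ^ del * (Y ^ del) ^ 2 * lam ^ 2 := by
      have : 1152 ≤ Y ^ del := by linarith
      gcongr
    have e2 : Y ^ del * (Y ^ del) ^ 2 * lam ^ 2 = Y ^ (del + del * (2 : ℕ) + -(eta / 2)) := by
      rw [hl2, pw hY0.le, ← Real.rpow_add hY0, ← Real.rpow_add hY0]
    have e3 : Y ^ (del + del * (2 : ℕ) + -(eta / 2)) ≤ Y ^ (0 : ℝ) := by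
      apply hmono
      push_cast
      linarith
    rw [Real.rpow_zero] at e3
    linarith
  have hY4 : Y ^ 4 = Y ^ (4 : ℝ) := by
    rw [← Real.rpow_natCast]
    norm_num
  have hY3 : Y ^ 3 = Y ^ (3 : ℝ) := by
    rw [← Real.rpow_natCast]
    norm_num
  have hhalf : 8 < Y ^ (1 / 2 : ℝ) := by
    have e1 : (64 : ℝ) ^ (1 / 2 : ℝ) = 8 := by
      rw [← Real.sqrt_eq_rpow]
      rw [show (64 : ℝ) = 8 ^ 2 by norm_num]
      exact Real.sqrt_sq (by norm_num)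
    rw [← e1]
    exact Real.rpow_lt_rpow (by norm_num) (by linarith) (by norm_num)
  have h2S : 2 * S < Y := by
    have e1 : S ≤ Y ^ (1 / 2 : ℝ) := hS.trans (hmono (by linarith))
    have e2 : Y ^ (1 / 2 : ℝ) * Y ^ (1 / 2 : ℝ) = Y := by
      rw [← Real.rpow_add hY0]
      norm_num
    nlinarith
  obtain ⟨J, hJ⟩ : ∃ J : ℕ, J = ⌈1 / eta⌉₊ := ⟨_, rfl⟩
  have hJ1 : 1 / eta ≤ J := by rw [hJ]; exact Nat.le_ceil _
  have hJ1' : 1 ≤ J * eta := by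
    rw [div_le_iff₀ h0] at hJ1
    exact hJ1
  have hJ2 : (J : ℝ) * eta ≤ 2 := by
    have e1 : (J : ℝ) < 1 / eta + 1 := by rw [hJ]; exact Nat.ceil_lt_add_one (by positivity)
    have e2 : (J : ℝ) * eta ≤ (1 / eta + 1) * eta := mul_le_mul_of_nonneg_right e1.le h0.le
    have e3 : (1 / eta + 1) * eta = 1 + eta := by field_simp
    linarith
  have hJJ : (2 * S * lam ^ 4 * Y) ^ 3 * lam ^ (6 * J) < Y ^ 2 := by
    have e1 : 2 * S * lam ^ 4 * Y ≤ 2 * Y := by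
      have f1 : S * lam ^ 4 ≤ 1 := by
        have g1 : S * lam ^ 4 ≤ Y ^ (del / 2) * Y ^ (-eta) := by
          rw [← hl4]
          gcongr
        rw [← Real.rpow_add hY0] at g1
        have g2 : Y ^ (del / 2 + -eta) ≤ Y ^ (0 : ℝ) := hmono (by linarith)
        rw [Real.rpow_zero] at g2
        linarith
      nlinarith
    have e2 : (2 * S * lam ^ 4 * Y) ^ 3 ≤ (2 * Y) ^ 3 := pow_le_pow_left₀ (by positivity) e1 3
    have e3 : lam ^ (6 * J) ≤ Y ^ (-(3 / 2) : ℝ) := by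
      rw [hlam, pw hY0.le]
      apply hmono
      push_cast
      nlinarith
    have e4 : (2 * S * lam ^ 4 * Y) ^ 3 * lam ^ (6 * J) ≤ (2 * Y) ^ 3 * Y ^ (-(3 / 2) : ℝ) :=
      mul_le_mul e2 e3 (by positivity) (by positivity)
    have e5 : (2 * Y) ^ 3 * Y ^ (-(3 / 2) : ℝ) = 8 * Y ^ (3 / 2 : ℝ) := by
      rw [mul_pow, hY3, mul_assoc, ← Real.rpow_add hY0]
      norm_num
    have e6 : Y ^ 2 = Y ^ (1 / 2 : ℝ) * Y ^ (3 / 2 : ℝ) := by
      rw [← Real.rpow_add hY0, ← Real.rpow_natCast]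
      norm_num
    have e7 : 8 * Y ^ (3 / 2 : ℝ) < Y ^ (1 / 2 : ℝ) * Y ^ (3 / 2 : ℝ) :=
      mul_lt_mul_of_pos_right hhalf (by positivity)
    linarith
  have hlamle : lam ^ 4 ≤ 1 := by
    rw [← hl4, ← Real.rpow_zero Y]
    exact hmono (by linarith)
  rw [hl4]
  refine ⟨(bad_le hC (by positivity) hlamle).1, ?_⟩
  refine (bad_bound hC h2S hl0 hl1 J hJJ).trans ?_
  have hDpos : 0 < Y ^ del := by positivity
  -- the four terms
  have t1 : 16 * S ^ 2 * (Y ^ del) ^ 3 * lam ^ 8 * Y ^ 4 ≤ Y ^ (4 - eta / 3) := by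
    have e1 : 16 * S ^ 2 * (Y ^ del) ^ 3 * lam ^ 8 * Y ^ 4
        ≤ Y ^ del * (Y ^ (del / 2)) ^ 2 * (Y ^ del) ^ 3 * lam ^ 8 * Y ^ 4 := by
      have : 16 ≤ Y ^ del := by linarith
      gcongr
    refine e1.trans ?_
    rw [hl8, hY4, pw hY0.le, pw hY0.le, ← Real.rpow_add hY0, ← Real.rpow_add hY0, ← Real.rpow_add hY0,
      ← Real.rpow_add hY0]
    apply hmono
    push_cast
    linarith
  have t2 : 16 * S ^ 2 * (Y ^ del) * lam ^ 8 * Y ^ 4 ≤ Y ^ (4 - eta / 3) := by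
    have e1 : 16 * S ^ 2 * (Y ^ del) * lam ^ 8 * Y ^ 4
        ≤ Y ^ del * (Y ^ (del / 2)) ^ 2 * (Y ^ del) * lam ^ 8 * Y ^ 4 := by
      have : 16 ≤ Y ^ del := by linarith
      gcongr
    refine e1.trans ?_
    rw [hl8, hY4, pw hY0.le, ← Real.rpow_add hY0, ← Real.rpow_add hY0, ← Real.rpow_add hY0,
      ← Real.rpow_add hY0]
    apply hmono
    push_cast
    linarith
  have t3 : 32 * S ^ 5 * (Y ^ del) ^ 3 * Y ^ 3 ≤ Y ^ (4 - eta / 3) := by
    have e1 : 32 * S ^ 5 * (Y ^ del) ^ 3 * Y ^ 3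
        ≤ Y ^ del * (Y ^ (del / 2)) ^ 5 * (Y ^ del) ^ 3 * Y ^ 3 := by
      have : 32 ≤ Y ^ del := by linarith
      gcongr
    refine e1.trans ?_
    rw [hY3, pw hY0.le, pw hY0.le, ← Real.rpow_add hY0, ← Real.rpow_add hY0, ← Real.rpow_add hY0]
    apply hmono
    push_cast
    linarith
  have t4 : 4 * (16000 * (Y ^ del) ^ 16) ^ J * S ^ 4 * lam ^ 2 * Y ^ 4 ≤ Y ^ (4 - eta / 3) := by
    have e0 : 16000 * (Y ^ del) ^ 16 ≤ (Y ^ del) ^ 17 := by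
      rw [pow_succ _ 16, mul_comm]
      exact mul_le_mul_of_nonneg_left hD16 (by positivity)
    have e1 : 4 * (16000 * (Y ^ del) ^ 16) ^ J * S ^ 4 * lam ^ 2 * Y ^ 4
        ≤ Y ^ del * ((Y ^ del) ^ 17) ^ J * (Y ^ (del / 2)) ^ 4 * lam ^ 2 * Y ^ 4 := by
      have : 4 ≤ Y ^ del := by linarith
      gcongr
    refine e1.trans ?_
    rw [hl2, hY4, pw hY0.le, pw hY0.le, pw hY0.le, ← Real.rpow_add hY0, ← Real.rpow_add hY0, ← Real.rpow_add hY0,
      ← Real.rpow_add hY0]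
    apply hmono
    push_cast
    have e2 : del * 17 * (J : ℝ) ≤ 34 * (eta / 300) := by
      rw [hdel]
      have : eta ^ 2 / 300 * 17 * (J : ℝ) = 17 * (eta / 300) * ((J : ℝ) * eta) := by ring
      rw [this]
      nlinarith
    linarith
  have hfin : 4 * Y ^ (4 - eta / 3) ≤ Y ^ (4 - eta / 4) := by
    have e1 : Y ^ (4 - eta / 4) = Y ^ (eta / 12) * Y ^ (4 - eta / 3) := by
      rw [← Real.rpow_add hY0]
      congr 1
      ring
    rw [e1]
    have e2 : 4 ≤ Y ^ (eta / 12) := by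
      have : Y ^ del ≤ Y ^ (eta / 12) := hmono (by linarith)
      linarith
    exact mul_le_mul_of_nonneg_right e2 (by positivity)
  linarith

end Pool.Agent.SLB
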