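import Pool.Agent.SLB.Defs

namespace Pool.Agent.SLB

private theorem Desc_s1 {l : ℕ} (hl : l.Prime) {t y3 al u w : ℤ}
    (h : (l : ℤ) ∣ Nm ((l : ℤ) * t) y3 al u w) : (l : ℤ) ∣ al := by
  have hp : Prime (l : ℤ) := Nat.prime_iff_prime_int.mp hl
  have e : al ^ 3 = Nm ((l : ℤ) * t) y3 al u w -
      (l : ℤ) * ((l : ℤ) * t ^ 2 * y3 * u ^ 3 + t * y3 ^ 2 * w ^ 3 - 3 * (t * y3) * al * u * w) := by
    unfold Nm; ring
  have h2 : (l : ℤ) ∣ al ^ 3 := by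
    rw [e]; exact dvd_sub h (dvd_mul_right _ _)
  exact hp.dvd_of_dvd_pow h2

private theorem Desc_s2 {l : ℕ} (hl : l.Prime) {t y3 : ℤ} (ht : ¬ (l : ℤ) ∣ t)
    (h3 : ¬ (l : ℤ) ∣ y3) {a u w : ℤ}
    (h : (l : ℤ) ^ 2 ∣ Nm ((l : ℤ) * t) y3 ((l : ℤ) * a) u w) : (l : ℤ) ∣ w := by
  have hp : Prime (l : ℤ) := Nat.prime_iff_prime_int.mp hl
  obtain ⟨c, hc⟩ := h
  have e : (l : ℤ) * (t * y3 ^ 2 * w ^ 3) = (l : ℤ) * ((l : ℤ) * (c - (l : ℤ) * a ^ 3 -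
      t ^ 2 * y3 * u ^ 3 + 3 * (t * y3) * a * u * w)) := by
    have : Nm ((l : ℤ) * t) y3 ((l : ℤ) * a) u w = (l : ℤ) * (t * y3 ^ 2 * w ^ 3) +
        (l : ℤ) ^ 2 * ((l : ℤ) * a ^ 3 + t ^ 2 * y3 * u ^ 3 - 3 * (t * y3) * a * u * w) := by
      unfold Nm; ring
    rw [hc] at this
    linear_combination -this
  have e2 := mul_left_cancel₀ hp.ne_zero e
  have h2 : (l : ℤ) ∣ t * y3 ^ 2 * w ^ 3 := by rw [e2]; exact dvd_mul_right _ _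
  rcases hp.dvd_or_dvd h2 with h4 | h4
  · rcases hp.dvd_or_dvd h4 with h5 | h5
    · exact absurd h5 ht
    · exact absurd (hp.dvd_of_dvd_pow h5) h3
  · exact hp.dvd_of_dvd_pow h4

private theorem Desc_s3 {l : ℕ} (hl : l.Prime) {t y3 : ℤ} (ht : ¬ (l : ℤ) ∣ t)
    (h3 : ¬ (l : ℤ) ∣ y3) {a u w : ℤ}
    (h : (l : ℤ) ^ 3 ∣ Nm ((l : ℤ) * t) y3 ((l : ℤ) * a) u ((l : ℤ) * w)) : (l : ℤ) ∣ u := by
  have hp : Prime (l : ℤ) := Nat.prime_iff_prime_int.mp hl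
  obtain ⟨c, hc⟩ := h
  have e : (l : ℤ) ^ 2 * (t ^ 2 * y3 * u ^ 3) = (l : ℤ) ^ 2 * ((l : ℤ) * (c - a ^ 3 -
      (l : ℤ) * t * y3 ^ 2 * w ^ 3 + 3 * (t * y3) * a * u * w)) := by
    have : Nm ((l : ℤ) * t) y3 ((l : ℤ) * a) u ((l : ℤ) * w) = (l : ℤ) ^ 2 * (t ^ 2 * y3 * u ^ 3) +
        (l : ℤ) ^ 3 * (a ^ 3 + (l : ℤ) * t * y3 ^ 2 * w ^ 3 - 3 * (t * y3) * a * u * w) := by
      unfold Nm; ring
    rw [hc] at this
    linear_combination -this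
  have e2 := mul_left_cancel₀ (pow_ne_zero 2 hp.ne_zero) e
  have h2 : (l : ℤ) ∣ t ^ 2 * y3 * u ^ 3 := by rw [e2]; exact dvd_mul_right _ _
  rcases hp.dvd_or_dvd h2 with h4 | h4
  · rcases hp.dvd_or_dvd h4 with h5 | h5
    · exact absurd (hp.dvd_of_dvd_pow h5) ht
    · exact absurd h5 h3
  · exact hp.dvd_of_dvd_pow h4

private theorem Desc_zero {l : ℕ} (hl : l.Prime) {u : ℤ} (h : ∀ k : ℕ, (l : ℤ) ^ k ∣ u) : u = 0 := by
  refine Int.eq_zero_of_abs_lt_dvd (h u.natAbs) ?_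
  have h1 : u.natAbs < l ^ u.natAbs := Nat.lt_pow_self hl.one_lt
  have h2 : ((u.natAbs : ℕ) : ℤ) < ((l ^ u.natAbs : ℕ) : ℤ) := by exact_mod_cast h1
  rw [Int.natCast_natAbs] at h2
  push_cast at h2
  exact h2

/-- (1.3) Descent.  `l` prime, `y2 = l t`, `l` divides neither `t` nor `y3`.  If `l^e | N(al,u,w)` then
`l^ceil(e/3) | al`, `l^ceil((e-2)/3) | u`, `l^ceil((e-1)/3) | w`.
PROOF.  Strong induction on `e`, generalizing `al u w`.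
`e = 0`: trivial.  `e >= 1`: `l | N`, and `l` divides all terms except `al^3`, so `l | al`, `al = l a1`.
Then `N / l = l^2 a1^3 + l t^2 y3 u^3 + t y3^2 w^3 - 3 l t y3 a1 u w`.  `e = 1`: done (exponents 1,0,0).
`e >= 2`: `l | N/l`, so `l | t y3^2 w^3`, so `l | w`, `w = l w1`.  Then
`N / l^2 = l a1^3 + t^2 y3 u^3 + l^2 t y3^2 w1^3 - 3 l t y3 a1 u w1`.  `e = 2`: done (exponents 1,0,1).
`e >= 3`: `l | t^2 y3 u^3`, so `u = l u1` and `N(al,u,w) = l^3 N(a1,u1,w1)`; induction hypothesis for `e - 3`,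
and `(e+2)/3 = (e-3+2)/3 + 1` etc. -/
theorem descent {l : ℕ} (hl : l.Prime) {t y3 : ℤ} (ht : ¬ (l : ℤ) ∣ t) (h3 : ¬ (l : ℤ) ∣ y3)
    (e : ℕ) (al u w : ℤ) (h : (l : ℤ) ^ e ∣ Nm ((l : ℤ) * t) y3 al u w) :
    (l : ℤ) ^ ((e + 2) / 3) ∣ al ∧ (l : ℤ) ^ (e / 3) ∣ u ∧ (l : ℤ) ^ ((e + 1) / 3) ∣ w := by
  have hp : Prime (l : ℤ) := Nat.prime_iff_prime_int.mp hl
  induction e using Nat.strong_induction_on generalizing al u w with
  | _ e ih =>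
    rcases e with _ | _ | _ | k
    · simp
    · have h1 := Desc_s1 hl ((dvd_pow_self _ (by omega)).trans h)
      simpa using h1
    · obtain ⟨a, rfl⟩ := Desc_s1 hl ((dvd_pow_self _ (by omega)).trans h)
      have h2 := Desc_s2 hl ht h3 h
      simpa using h2
    · obtain ⟨a, rfl⟩ := Desc_s1 hl ((dvd_pow_self _ (by omega)).trans h)
      obtain ⟨w', rfl⟩ := Desc_s2 hl ht h3 ((pow_dvd_pow _ (by omega)).trans h)
      obtain ⟨u', rfl⟩ := Desc_s3 hl ht h3 ((pow_dvd_pow _ (by omega)).trans h)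
      have e1 : Nm ((l : ℤ) * t) y3 ((l : ℤ) * a) ((l : ℤ) * u') ((l : ℤ) * w') =
          (l : ℤ) ^ 3 * Nm ((l : ℤ) * t) y3 a u' w' := by
        unfold Nm; ring
      have e2 : (l : ℤ) ^ (k + 1 + 1 + 1) = (l : ℤ) ^ 3 * (l : ℤ) ^ k := by ring
      rw [e1, e2] at h
      have h4 := (mul_dvd_mul_iff_left (pow_ne_zero 3 hp.ne_zero)).mp h
      obtain ⟨c1, c2, c3⟩ := ih k (by omega) a u' w' h4
      have f1 : (k + 1 + 1 + 1 + 2) / 3 = (k + 2) / 3 + 1 := by omega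
      have f2 : (k + 1 + 1 + 1) / 3 = k / 3 + 1 := by omega
      have f3 : (k + 1 + 1 + 1 + 1) / 3 = (k + 1) / 3 + 1 := by omega
      rw [f1, f2, f3, pow_succ', pow_succ', pow_succ']
      exact ⟨mul_dvd_mul_left _ c1, mul_dvd_mul_left _ c2, mul_dvd_mul_left _ c3⟩

/-- The norm form is anisotropic.
PROOF.  Let `l` be a prime factor of `y2` (`2 <= y2`), `y2 = l t`; `l` does not divide `t` (squarefree) nor `y3`
(coprime).  If `N = 0` then `l^e | N` for all `e`, so by `descent` all powers of `l` divide `al`, `u`, `w`, which are 0. -/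
theorem Nm_ne_zero {y2 y3 : ℤ} (h : Ari y2 y3) {al u w : ℤ} (h0 : Nm y2 y3 al u w = 0) :
    al = 0 ∧ u = 0 ∧ w = 0 := by
  have hne : y2.natAbs ≠ 1 := by have := h.two2; omega
  obtain ⟨l, hl, hd⟩ := Nat.exists_prime_and_dvd hne
  have hp : Prime (l : ℤ) := Nat.prime_iff_prime_int.mp hl
  have hd2 : (l : ℤ) ∣ y2 := Int.natCast_dvd.mpr hd
  obtain ⟨t, rfl⟩ := hd2
  have ht : ¬ (l : ℤ) ∣ t := by
    rintro ⟨t', rfl⟩
    exact hp.not_isUnit (h.sq2 (l : ℤ) ⟨t', by ring⟩)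
  have h3 : ¬ (l : ℤ) ∣ y3 := by
    intro hd3
    exact hp.not_isUnit (h.cop.isUnit_of_dvd' (dvd_mul_right _ _) hd3)
  have hk : ∀ k : ℕ, (l : ℤ) ^ k ∣ al ∧ (l : ℤ) ^ k ∣ u ∧ (l : ℤ) ^ k ∣ w := by
    intro k
    have := descent hl ht h3 (3 * k) al u w (by rw [h0]; exact dvd_zero _)
    have f1 : (3 * k + 2) / 3 = k := by omega
    have f2 : (3 * k) / 3 = k := by omega
    have f3 : (3 * k + 1) / 3 = k := by omega
    rwa [f1, f2, f3] at this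
  exact ⟨Desc_zero hl fun k => (hk k).1, Desc_zero hl fun k => (hk k).2.1,
    Desc_zero hl fun k => (hk k).2.2⟩

/-- `y2 u^3 + y3 w^3 <> 0` unless `u = w = 0`: `Nm y2 y3 0 u w = y2 y3 (y2 u^3 + y3 w^3)`. -/
theorem two_cubes {y2 y3 : ℤ} (h : Ari y2 y3) {u w : ℤ} (h0 : y2 * u ^ 3 + y3 * w ^ 3 = 0) :
    u = 0 ∧ w = 0 := by
  have h1 : Nm y2 y3 0 u w = 0 := by
    have : Nm y2 y3 0 u w = y2 * y3 * (y2 * u ^ 3 + y3 * w ^ 3) := by unfold Nm; ring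
    rw [this, h0, mul_zero]
  exact (Nm_ne_zero h h1).2

end Pool.Agent.SLB
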