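import Pool.Agent.SLB.Defs

namespace Pool.Agent.SLB

/-- (1.1): `y2 y3 Phi = Nm(p x, u, w) + Dl x^3`  (unfold, `ring`). -/
theorem Phi_Nm {R : Type*} [CommRing R] (y2 y3 p y x u w : R) :
    y2 * y3 * Phi y2 y3 p y x u w = Nm y2 y3 (p * x) u w + Dl y2 y3 p y * x ^ 3 := by
  unfold Phi Nm Dl
  ring

/-- (1.2) first part: `Nm(p x,u,w) = Dl(p,y) Dl(x,z)` for a solution. -/
theorem Nm_sol {R : Type*} [CommRing R] {y2 y3 p y x u w z : R}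
    (h : Phi y2 y3 p y x u w = Dl y2 y3 p y * z) :
    Nm y2 y3 (p * x) u w = Dl y2 y3 p y * Dl y2 y3 x z := by
  have h1 := Phi_Nm y2 y3 p y x u w
  have h2 : Dl y2 y3 x z = y2 * y3 * z - x ^ 3 := rfl
  rw [h2]
  linear_combination (y2 * y3) * h - h1

/-- (1.2) second part, the symmetry (`Phi(p,y;x,u,w) - Dl(p,y) z = Phi(x,z;p,u,w) - Dl(x,z) y`, both sides equal
`y x^3 + z p^3 + y2 u^3 + y3 w^3 - 3 p x u w - y2 y3 y z`). -/
theorem sym_sol {R : Type*} [CommRing R] {y2 y3 p y x u w z : R}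
    (h : Phi y2 y3 p y x u w = Dl y2 y3 p y * z) :
    Phi y2 y3 x z p u w = Dl y2 y3 x z * y := by
  unfold Phi Dl at *
  linear_combination h

/-- expansion of `Phi` on a combination of two vectors (`ring`). -/
theorem Phi_comb {R : Type*} [CommRing R] (y2 y3 p y : R) (v w : Fin 3 → R) (r n : R) :
    Phi y2 y3 p y (r * v 0 + n * w 0) (r * v 1 + n * w 1) (r * v 2 + n * w 2)
      = r ^ 3 * Phi y2 y3 p y (v 0) (v 1) (v 2) + r ^ 2 * n * Pol y2 y3 p y v w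
        + r * n ^ 2 * Pol y2 y3 p y w v + n ^ 3 * Phi y2 y3 p y (w 0) (w 1) (w 2) := by
  unfold Phi Pol
  ring

/-- The Hessian.  PROOF: Let `H` be the symmetric matrix `[[6 y v0, -3 p v2, -3 p v1], [-3 p v2, 6 y2 v1, -3 p v0],
[-3 p v1, -3 p v0, 6 y3 v2]]` and `A` the matrix with rows `v, w, e`.  `A H A^T` has the entries
`(0,0) = 6 Phi(v) = 0`, `(0,1) = (1,0) = 2 Pol v w = 0`, `(1,1) = 2 Pol w v = 0`, so its determinant is 0.  It equals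
`(det3 v w e)^2 det H`, and `det H = 216 Dl v0 v1 v2 - 54 p^2 Phi(v)` (`ring`).  (If `ring` on the product is slow use
`Matrix.det_mul`, `Matrix.det_transpose`, `Matrix.det_fin_three`.) -/
theorem hess {y2 y3 p y : ℤ} {v w : V3} (h0 : Phi y2 y3 p y (v 0) (v 1) (v 2) = 0)
    (h1 : Pol y2 y3 p y v w = 0) (h2 : Pol y2 y3 p y w v = 0) (e : V3) :
    216 * Dl y2 y3 p y * (v 0 * v 1 * v 2) * det3 v w e ^ 2 = 0 := by
  have key : 216 * Dl y2 y3 p y * (v 0 * v 1 * v 2) * det3 v w e ^ 2 =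
      (6 * (2 * Pol y2 y3 p y w v * (6 * (y * v 0 * e 0 ^ 2 + y2 * v 1 * e 1 ^ 2 + y3 * v 2 * e 2 ^ 2)
          - 6 * p * (v 2 * e 0 * e 1 + v 1 * e 0 * e 2 + v 0 * e 1 * e 2))
        - (6 * (y * v 0 * w 0 * e 0 + y2 * v 1 * w 1 * e 1 + y3 * v 2 * w 2 * e 2)
          - 3 * p * (v 2 * (w 0 * e 1 + w 1 * e 0) + v 1 * (w 0 * e 2 + w 2 * e 0)
            + v 0 * (w 1 * e 2 + w 2 * e 1))) ^ 2) + 54 * p ^ 2 * det3 v w e ^ 2)
        * Phi y2 y3 p y (v 0) (v 1) (v 2)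
      + (-4 * Pol y2 y3 p y v w * (6 * (y * v 0 * e 0 ^ 2 + y2 * v 1 * e 1 ^ 2 + y3 * v 2 * e 2 ^ 2)
          - 6 * p * (v 2 * e 0 * e 1 + v 1 * e 0 * e 2 + v 0 * e 1 * e 2))
        + 4 * (2 * Pol y2 y3 p y v e)
          * (6 * (y * v 0 * w 0 * e 0 + y2 * v 1 * w 1 * e 1 + y3 * v 2 * w 2 * e 2)
          - 3 * p * (v 2 * (w 0 * e 1 + w 1 * e 0) + v 1 * (w 0 * e 2 + w 2 * e 0)
            + v 0 * (w 1 * e 2 + w 2 * e 1)))) * Pol y2 y3 p y v w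
      + (-2 * (2 * Pol y2 y3 p y v e) ^ 2) * Pol y2 y3 p y w v := by
    unfold Dl det3 Phi Pol
    ring
  rw [key, h0, h1, h2]
  ring

end Pool.Agent.SLB
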