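import Pool.Agent.SLB.Defs

namespace Pool.Agent.SLB

/-- the three real linear forms, and the factorization `N = s1 * (d1^2 + d1 d2 + d2^2)`.
Here `th^3 = y2^2 y3`, `th2^3 = y2 y3^2`, `th th2 = y2 y3` (positive reals). -/
noncomputable def s1 (p : ℤ) (th th2 : ℝ) (k : Fin 3 → ℝ) : ℝ := p * k 0 + th * k 1 + th2 * k 2
noncomputable def d1 (p : ℤ) (th : ℝ) (k : Fin 3 → ℝ) : ℝ := p * k 0 - th * k 1
noncomputable def d2 (th th2 : ℝ) (k : Fin 3 → ℝ) : ℝ := th * k 1 - th2 * k 2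

/-- real cube roots.
PROOF: `th = (y2^2 y3)^(1/3)`, `th2 = y2 y3 / th`; monotonicity of the cube for the bounds
(`Y^3 <= y2^2 y3 <= (S Y)^3`). -/
theorem exists_th {Y S : ℝ} (hY : 0 < Y) {y2 y3 : ℤ} (h : Adm Y S y2 y3) :
    ∃ th th2 : ℝ, 0 < th ∧ 0 < th2 ∧ th ^ 3 = (y2 : ℝ) ^ 2 * y3 ∧ th2 ^ 3 = (y2 : ℝ) * (y3 : ℝ) ^ 2 ∧
      th * th2 = (y2 : ℝ) * y3 ∧ Y ≤ th ∧ Y ≤ th2 ∧ th ≤ S * Y ∧ th2 ≤ S * Y := by
  have hlo2 := h.lo2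
  have hlo3 := h.lo3
  have hhi2 := h.hi2
  have hhi3 := h.hi3
  have p2 : (0 : ℝ) < (y2 : ℝ) := lt_of_lt_of_le hY hlo2
  have p3 : (0 : ℝ) < (y3 : ℝ) := lt_of_lt_of_le hY hlo3
  have hSY : 0 < S * Y := lt_of_lt_of_le p2 hhi2
  obtain ⟨t, ht⟩ : ∃ t : ℝ, t = ((y2 : ℝ) ^ 2 * y3) ^ ((1 : ℝ) / 3) := ⟨_, rfl⟩
  have hbase : 0 < (y2 : ℝ) ^ 2 * y3 := by positivity
  have htpos : 0 < t := by rw [ht]; exact Real.rpow_pos_of_pos hbase _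
  have ht3 : t ^ 3 = (y2 : ℝ) ^ 2 * y3 := by
    rw [ht, ← Real.rpow_natCast, ← Real.rpow_mul hbase.le]
    norm_num
  have hu3 : ((y2 : ℝ) * y3 / t) ^ 3 = (y2 : ℝ) * (y3 : ℝ) ^ 2 := by
    rw [div_pow, ht3]
    field_simp
  have hupos : 0 < (y2 : ℝ) * y3 / t := by positivity
  refine ⟨t, (y2 : ℝ) * y3 / t, htpos, hupos, ht3, hu3, by field_simp, ?_, ?_, ?_, ?_⟩
  · refine le_of_pow_le_pow_left₀ (n := 3) (by norm_num) htpos.le ?_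
    rw [ht3]
    calc Y ^ 3 = Y ^ 2 * Y := by ring
      _ ≤ (y2 : ℝ) ^ 2 * y3 := by gcongr
  · refine le_of_pow_le_pow_left₀ (n := 3) (by norm_num) hupos.le ?_
    rw [hu3]
    calc Y ^ 3 = Y * Y ^ 2 := by ring
      _ ≤ (y2 : ℝ) * (y3 : ℝ) ^ 2 := by gcongr
  · refine le_of_pow_le_pow_left₀ (n := 3) (by norm_num) hSY.le ?_
    rw [ht3]
    calc (y2 : ℝ) ^ 2 * y3 ≤ (S * Y) ^ 2 * (S * Y) := by gcongr
      _ = (S * Y) ^ 3 := by ring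
  · refine le_of_pow_le_pow_left₀ (n := 3) (by norm_num) hSY.le ?_
    rw [hu3]
    calc (y2 : ℝ) * (y3 : ℝ) ^ 2 ≤ (S * Y) * (S * Y) ^ 2 := by gcongr
      _ = (S * Y) ^ 3 := by ring

/-- PROOF: with `a = p x, b = th u, c = th2 w`: `(a+b+c)(a^2+b^2+c^2-ab-bc-ca) = a^3+b^3+c^3-3abc` and
`d1^2+d1 d2+d2^2 = (a-b)^2+(a-b)(b-c)+(b-c)^2 = a^2+b^2+c^2-ab-bc-ca`. -/
theorem Nm_fac {y2 y3 p : ℤ} {th th2 : ℝ} (h1 : th ^ 3 = (y2 : ℝ) ^ 2 * y3) (h2 : th2 ^ 3 = (y2 : ℝ) * (y3 : ℝ) ^ 2)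
    (h3 : th * th2 = (y2 : ℝ) * y3) (k : Fin 3 → ℝ) :
    s1 p th th2 k * (d1 p th k ^ 2 + d1 p th k * d2 th th2 k + d2 th th2 k ^ 2)
      = Nm (y2 : ℝ) y3 (p * k 0) (k 1) (k 2) := by
  unfold s1 d1 d2 Nm
  linear_combination (k 1) ^ 3 * h1 + (k 2) ^ 3 * h2 - 3 * (p * k 0) * (k 1) * (k 2) * h3

/-- `q = d1^2+d1 d2+d2^2 >= (3/4) d1^2` and `>= (3/4) d2^2`, and `q <= 3 t^2` if `|d1|,|d2| <= t`. -/
theorem q_bounds (x y : ℝ) : 3 / 4 * x ^ 2 ≤ x ^ 2 + x * y + y ^ 2 ∧ 3 / 4 * y ^ 2 ≤ x ^ 2 + x * y + y ^ 2 ∧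
    ∀ t2 : ℝ, x ^ 2 ≤ t2 → y ^ 2 ≤ t2 → x ^ 2 + x * y + y ^ 2 ≤ 3 * t2 := by
  refine ⟨by nlinarith [sq_nonneg (x / 2 + y)], by nlinarith [sq_nonneg (x + y / 2)], ?_⟩
  intro t2 h1 h2
  nlinarith [sq_nonneg (x - y)]

/-- (5.2) determinant of the three forms: `det3 (s1,d1,d2) = 3 p th th2 det3` (expand and `ring`). -/
theorem det_forms (p : ℤ) (th th2 : ℝ) (a b c : Fin 3 → ℝ) :
    det3 ![s1 p th th2 a, d1 p th a, d2 th th2 a] ![s1 p th th2 b, d1 p th b, d2 th th2 b]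
      ![s1 p th th2 c, d1 p th c, d2 th th2 c] = 3 * (p * (th * th2)) * det3 a b c := by
  unfold det3 s1 d1 d2
  simp only [Matrix.cons_val_zero, Matrix.cons_val_one, Matrix.cons_val]
  ring

private theorem prod3 {x y z A B : ℝ} (hA : 0 ≤ A) (hx : |x| ≤ A) (hy : y ^ 2 ≤ B) (hz : z ^ 2 ≤ B) :
    |x * (y * z)| ≤ A * B := by
  rw [abs_mul]
  have h : |y * z| ≤ B := by
    rw [abs_le]
    constructor
    · nlinarith [sq_nonneg (y + z)]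
    · nlinarith [sq_nonneg (y - z)]
  exact mul_le_mul hx h (abs_nonneg _) hA

/-- (5.2) if `|s1| <= A` and `d1^2, d2^2 <= B` on three vectors then `|3 p th th2 det3| <= 6 A B`.
PROOF: `det_forms`, and `det3` of the left side is a sum of 6 products `± s1(.) d1(.) d2(.)`, each of absolute value
`<= A * sqrt B * sqrt B`, or `|d1 d2'| <= (d1^2 + d2'^2)/2 <= B`. -/
theorem det_bound (p : ℤ) (th th2 : ℝ) (A B : ℝ) (hA : 0 ≤ A) (k : Fin 3 → Fin 3 → ℝ)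
    (h1 : ∀ j, |s1 p th th2 (k j)| ≤ A) (h2 : ∀ j, d1 p th (k j) ^ 2 ≤ B) (h3 : ∀ j, d2 th th2 (k j) ^ 2 ≤ B) :
    |3 * (p * (th * th2)) * det3 (k 0) (k 1) (k 2)| ≤ 6 * A * B := by
  rw [← det_forms]
  unfold det3
  simp only [Matrix.cons_val_zero, Matrix.cons_val_one, Matrix.cons_val]
  have e1 := abs_le.mp (prod3 hA (h1 0) (h2 1) (h3 2))
  have e2 := abs_le.mp (prod3 hA (h1 0) (h3 1) (h2 2))
  have e3 := abs_le.mp (prod3 hA (h1 1) (h2 0) (h3 2))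
  have e4 := abs_le.mp (prod3 hA (h1 2) (h2 0) (h3 1))
  have e5 := abs_le.mp (prod3 hA (h1 1) (h3 0) (h2 2))
  have e6 := abs_le.mp (prod3 hA (h1 2) (h3 0) (h2 1))
  rw [abs_le]
  constructor
  · linarith [e1.1, e1.2, e2.1, e2.2, e3.1, e3.2, e4.1, e4.2, e5.1, e5.2, e6.1, e6.2]
  · linarith [e1.1, e1.2, e2.1, e2.2, e3.1, e3.2, e4.1, e4.2, e5.1, e5.2, e6.1, e6.2]

end Pool.Agent.SLB
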