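import Pool.Agent.SLB.Alg
import Pool.Agent.SLB.Desc

namespace Pool.Agent.SLB

/-- A solution with `p, x <> 0` has `Dl(p,y) <> 0`, `Dl(x,z) <> 0`.
PROOF: `Nm_sol` and `Nm_ne_zero` (`p x <> 0`). -/
theorem Dl_ne {y2 y3 p y x u w z : ℤ} (ha : Ari y2 y3) (hp : p ≠ 0) (hx : x ≠ 0)
    (h : Phi y2 y3 p y x u w = Dl y2 y3 p y * z) : Dl y2 y3 p y ≠ 0 ∧ Dl y2 y3 x z ≠ 0 := by
  have h1 := Nm_sol h
  have h2 : Nm y2 y3 (p * x) u w ≠ 0 := by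
    intro h0
    exact mul_ne_zero hp hx (Nm_ne_zero ha h0).1
  rw [h1] at h2
  exact ⟨left_ne_zero_of_mul h2, right_ne_zero_of_mul h2⟩

private theorem Sol_sub (Y S a b : ℝ) (t : (ℤ × ℤ) × (ℤ × ℤ) × (ℤ × ℤ) × (ℤ × ℤ))
    (ht : t ∈ Sol Y S a b) : (t.1, t.2.2.1, t.2.1, t.2.2.2) ∈ Sol Y S b a := by
  obtain ⟨h1, h2, h3, h4, h5, h6⟩ := ht
  refine ⟨h1, h3, h2, ?_, ?_, ?_⟩
  · rw [mul_comm b a]; exact h4
  · rw [mul_comm b a]; exact h5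
  · exact sym_sol h6

/-- SYMMETRY.  PROOF: the involution `(t1,t2,t3,t4) ↦ (t1,t3,t2,t4)` maps `Sol Y S a b` onto `Sol Y S b a` (`sym_sol`,
`mul_comm a b`); `Set.ncard_image_of_injective`. -/
theorem E_symm (Y S a b : ℝ) : E Y S a b = E Y S b a := by
  have hinj : Function.Injective (fun t : (ℤ × ℤ) × (ℤ × ℤ) × (ℤ × ℤ) × (ℤ × ℤ) =>
      (t.1, t.2.2.1, t.2.1, t.2.2.2)) := by
    rintro ⟨t1, t2, t3, t4⟩ ⟨s1, s2, s3, s4⟩ h
    simp only [Prod.mk.injEq] at h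
    obtain ⟨h1, h2, h3, h4⟩ := h
    rw [h1, h2, h3, h4]
  have himg : (fun t : (ℤ × ℤ) × (ℤ × ℤ) × (ℤ × ℤ) × (ℤ × ℤ) =>
      (t.1, t.2.2.1, t.2.1, t.2.2.2)) '' Sol Y S a b = Sol Y S b a := by
    ext t
    constructor
    · rintro ⟨s, hs, rfl⟩
      exact Sol_sub Y S a b s hs
    · intro ht
      exact ⟨(t.1, t.2.2.1, t.2.1, t.2.2.2), Sol_sub Y S b a t ht, rfl⟩
  unfold E
  rw [← himg, Set.ncard_image_of_injective _ hinj]

private theorem abs_bd {n : ℤ} {c B : ℝ} (h : |(n : ℝ)| ≤ c) (hc : c ≤ B) :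
    -⌈B⌉ ≤ n ∧ n ≤ ⌈B⌉ := by
  have h1 := abs_le.1 (h.trans hc)
  have h2 : B ≤ (⌈B⌉ : ℝ) := Int.le_ceil B
  constructor
  · have : (-⌈B⌉ : ℝ) ≤ n := by linarith [h1.1]
    exact_mod_cast this
  · have : (n : ℝ) ≤ (⌈B⌉ : ℝ) := by linarith [h1.2]
    exact_mod_cast this

/-- finiteness of `KS` (coordinates bounded: subset of a product of `Int` intervals; e.g. `Set.Finite.pi` or inject into
`Fin 3 → Finset.Icc`). -/
theorem KS_finite (Y a b : ℝ) (o : Ob) : (KS Y a b o).Finite := by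
  refine (Set.finite_Icc (fun _ : Fin 3 => -⌈max a (a * b / Y)⌉)
    (fun _ : Fin 3 => ⌈max a (a * b / Y)⌉)).subset ?_
  intro k hk
  obtain ⟨-, h0, h1, h2, -⟩ := hk
  have b0 := abs_bd h0 (le_max_left a (a * b / Y))
  have b1 := abs_bd h1 (le_max_right a (a * b / Y))
  have b2 := abs_bd h2 (le_max_right a (a * b / Y))
  constructor
  · intro i
    fin_cases i
    · exact b0.1
    · exact b1.1
    · exact b2.1
  · intro i
    fin_cases i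
    · exact b0.2
    · exact b1.2
    · exact b2.2

/-- finiteness of the set of objects (`0 < Y`). -/
theorem Obj_finite {Y : ℝ} (hY : 0 < Y) (S b : ℝ) : (Obj Y S b).Finite := by
  set B : ℝ := max (S * Y) (max b (b ^ 3 / Y ^ 2)) with hB
  refine (Set.finite_Icc (((-⌈B⌉, -⌈B⌉), (-⌈B⌉, -⌈B⌉)) : Ob)
    (((⌈B⌉, ⌈B⌉), (⌈B⌉, ⌈B⌉)) : Ob)).subset ?_
  intro o ho
  obtain ⟨h1, -, -, h2, h3⟩ := ho
  have e1 : |(o.1.1 : ℝ)| ≤ S * Y := by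
    rw [abs_of_pos (lt_of_lt_of_le hY h1.lo2)]
    exact h1.hi2
  have e2 : |(o.1.2 : ℝ)| ≤ S * Y := by
    rw [abs_of_pos (lt_of_lt_of_le hY h1.lo3)]
    exact h1.hi3
  have b0 := abs_bd e1 (le_max_left (S * Y) (max b (b ^ 3 / Y ^ 2)))
  have b1 := abs_bd e2 (le_max_left (S * Y) (max b (b ^ 3 / Y ^ 2)))
  have b2 := abs_bd h2 ((le_max_left b (b ^ 3 / Y ^ 2)).trans (le_max_right (S * Y) _))
  have b3 := abs_bd h3 ((le_max_right b (b ^ 3 / Y ^ 2)).trans (le_max_right (S * Y) _))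
  exact ⟨⟨⟨b0.1, b1.1⟩, ⟨b2.1, b3.1⟩⟩, ⟨⟨b0.2, b1.2⟩, ⟨b2.2, b3.2⟩⟩⟩

/-- `E` is at most the sum over the objects of the numbers of solutions.
PROOF: the map `t ↦ (o, k)`, `o = (t.1, t.2.1)`, `k = ![t.2.2.1.1, t.2.2.2.1, t.2.2.2.2]` is injective on `Sol`: `z` is determined
since `Dl <> 0` (`Dl_ne`), and the image is in `{(o,k) : o ∈ Obj, k ∈ KS o}`, whose cardinality is the sum
(`Finset.card_sigma` or `Finset.card_biUnion`). -/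
theorem E_le_sum {Y : ℝ} (hY : 0 < Y) (S a b : ℝ) :
    E Y S a b ≤ ∑ o ∈ (Obj_finite hY S b).toFinset, (KS Y a b o).ncard := by
  classical
  let φ : (ℤ × ℤ) × (ℤ × ℤ) × (ℤ × ℤ) × (ℤ × ℤ) → Ob × V3 := fun t =>
    ((t.1, t.2.1), ![t.2.2.1.1, t.2.2.2.1, t.2.2.2.2])
  have hinj : Set.InjOn φ (Sol Y S a b) := by
    rintro ⟨t1, t2, ⟨x, z⟩, ⟨u, w⟩⟩ ht ⟨s1, s2, ⟨x', z'⟩, ⟨u', w'⟩⟩ hs h
    simp only [φ, Prod.mk.injEq] at h
    obtain ⟨⟨h1, h2⟩, h3⟩ := h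
    have k0 : x = x' := by simpa using congrFun h3 0
    have k1 : u = u' := by simpa using congrFun h3 1
    have k2 : w = w' := by simpa using congrFun h3 2
    subst h1 h2 k0 k1 k2
    obtain ⟨a1, a2, a3, -, -, a6⟩ := ht
    obtain ⟨-, -, -, -, -, b6⟩ := hs
    simp only at a1 a2 a3 a6 b6
    have hD := (Dl_ne a1.ari a2.1 a3.1 a6).1
    have : z = z' := mul_left_cancel₀ hD (a6.symm.trans b6)
    rw [this]
  let T : Finset (Ob × V3) := (Obj_finite hY S b).toFinset.biUnion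
    (fun o => (KS_finite Y a b o).toFinset.image (fun k => (o, k)))
  have hsub : φ '' Sol Y S a b ⊆ (T : Set (Ob × V3)) := by
    rintro _ ⟨t, ht, rfl⟩
    obtain ⟨a1, a2, a3, a4, a5, a6⟩ := ht
    have ho : ((t.1, t.2.1) : Ob) ∈ Obj Y S b := ⟨a1, a2⟩
    have hk : (![t.2.2.1.1, t.2.2.2.1, t.2.2.2.2] : V3) ∈ KS Y a b (t.1, t.2.1) := by
      refine ⟨?_, ?_, ?_, ?_, t.2.2.1.2, a3.2.1, a3.2.2.2, ?_⟩
      · simpa using a3.1
      · simpa using a3.2.2.1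
      · simpa using a4
      · simpa using a5
      · unfold PhiO DlO
        simpa using a6
    simp only [T, φ, Finset.coe_biUnion, Set.mem_iUnion, Finset.coe_image, Set.mem_image,
      Finset.mem_coe, Set.Finite.mem_toFinset]
    exact ⟨(t.1, t.2.1), ho, _, hk, rfl⟩
  have h1 : E Y S a b = (φ '' Sol Y S a b).ncard := hinj.ncard_image.symm
  rw [h1]
  refine (Set.ncard_le_ncard hsub T.finite_toSet).trans ?_
  rw [Set.ncard_coe_finset]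
  refine Finset.card_biUnion_le.trans ?_
  apply Finset.sum_le_sum
  intro o _
  rw [Set.ncard_eq_toFinset_card _ (KS_finite Y a b o)]
  exact Finset.card_image_le

/-- `#NDs <= E`.  PROOF: `Sol` is finite (all coordinates bounded); each `o` in `NDs` is the image of an element of `Sol` under
`t ↦ (t.1, t.2.1)`. -/
theorem NDs_le {Y : ℝ} (hY : 0 < Y) (S a b : ℝ) : (NDs Y S a b).ncard ≤ E Y S a b := by
  classical
  have hfin : (Sol Y S a b).Finite := by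
    set B : ℝ := max (max (S * Y) (a * b / Y)) (max (max b (b ^ 3 / Y ^ 2))
      (max a (a ^ 3 / Y ^ 2))) with hB
    refine (Set.finite_Icc (((-⌈B⌉, -⌈B⌉), (-⌈B⌉, -⌈B⌉), (-⌈B⌉, -⌈B⌉), (-⌈B⌉, -⌈B⌉)) :
      (ℤ × ℤ) × (ℤ × ℤ) × (ℤ × ℤ) × (ℤ × ℤ)) ((⌈B⌉, ⌈B⌉), (⌈B⌉, ⌈B⌉), (⌈B⌉, ⌈B⌉),
      (⌈B⌉, ⌈B⌉))).subset ?_
    intro t ht
    obtain ⟨h1, ⟨-, -, h2, h3⟩, ⟨-, -, h4, h5⟩, h6, h7, -⟩ := ht
    have c1 : S * Y ≤ B := (le_max_left _ _).trans (le_max_left _ _)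
    have c2 : a * b / Y ≤ B := (le_max_right _ _).trans (le_max_left _ _)
    have c3 : b ≤ B := (le_max_left _ _).trans ((le_max_left _ _).trans (le_max_right _ _))
    have c4 : b ^ 3 / Y ^ 2 ≤ B :=
      (le_max_right _ _).trans ((le_max_left _ _).trans (le_max_right _ _))
    have c5 : a ≤ B := (le_max_left _ _).trans ((le_max_right _ _).trans (le_max_right _ _))
    have c6 : a ^ 3 / Y ^ 2 ≤ B :=
      (le_max_right _ _).trans ((le_max_right _ _).trans (le_max_right _ _))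
    have e1 : |(t.1.1 : ℝ)| ≤ S * Y := by
      rw [abs_of_pos (lt_of_lt_of_le hY h1.lo2)]
      exact h1.hi2
    have e2 : |(t.1.2 : ℝ)| ≤ S * Y := by
      rw [abs_of_pos (lt_of_lt_of_le hY h1.lo3)]
      exact h1.hi3
    have b0 := abs_bd e1 c1
    have b1 := abs_bd e2 c1
    have b2 := abs_bd h2 c3
    have b3 := abs_bd h3 c4
    have b4 := abs_bd h4 c5
    have b5 := abs_bd h5 c6
    have b6 := abs_bd h6 c2
    have b7 := abs_bd h7 c2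
    exact ⟨⟨⟨b0.1, b1.1⟩, ⟨b2.1, b3.1⟩, ⟨b4.1, b5.1⟩, ⟨b6.1, b7.1⟩⟩,
      ⟨⟨b0.2, b1.2⟩, ⟨b2.2, b3.2⟩, ⟨b4.2, b5.2⟩, ⟨b6.2, b7.2⟩⟩⟩
  have hsub : NDs Y S a b ⊆ (fun t : (ℤ × ℤ) × (ℤ × ℤ) × (ℤ × ℤ) × (ℤ × ℤ) =>
      ((t.1, t.2.1) : Ob)) '' Sol Y S a b := by
    rintro o ⟨⟨h1, h2⟩, k, hk⟩
    obtain ⟨k0, k1, k2, k3, z, z0, z1, z2⟩ := hk
    exact ⟨(o.1, o.2, (k 0, z), (k 1, k 2)), ⟨h1, h2, ⟨k0, z0, k1, z1⟩, k2, k3, z2⟩, rfl⟩
  exact (Set.ncard_le_ncard hsub (hfin.image _)).trans (Set.ncard_image_le hfin)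

end Pool.Agent.SLB
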