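import Pool.Agent.SLB.BodA
import Pool.Agent.SLB.Sol

namespace Pool.Agent.SLB

/-- real vector of an integer vector -/
def rv (k : V3) : Fin 3 → ℝ := fun i => (k i : ℝ)

/-- the cube roots belonging to an object -/
structure Rt (Y S : ℝ) (o : Ob) (th th2 : ℝ) : Prop where
  h0 : 0 < th
  h02 : 0 < th2
  h1 : th ^ 3 = (o.1.1 : ℝ) ^ 2 * o.1.2
  h2 : th2 ^ 3 = (o.1.1 : ℝ) * (o.1.2 : ℝ) ^ 2
  h3 : th * th2 = (o.1.1 : ℝ) * o.1.2
  lo : Y ≤ th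
  lo2 : Y ≤ th2
  hi : th ≤ S * Y
  hi2 : th2 ≤ S * Y

/-- Section 5: data of a point `k` of `KS`.  `R = 2 S^2 a^3 |Dl|`, `s = |s1(k)|`, `j = Int.log 2 s`.
PROOF.  `k ∈ KS`: `Phi = Dl z`, `z <> 0`, `|z| <= a^3/Y^2`.  `Nm_sol`: `N := Nm(p x,u,w) = Dl * Dl(x,z)`, an integer, nonzero
(`Nm_ne_zero`, `p x <> 0`), `|Dl(x,z)| = |P z - x^3| <= S^2 Y^2 a^3/Y^2 + a^3 <= 2 S^2 a^3`.  So `1 <= |N| <= R`.
`s * q = |N|` (`Nm_fac`), `q = d1^2+d1 d2+d2^2 > 0`, `s > 0`, `2^j <= s < 2^(j+1)` (`Int.zpow_log_le_self`, `Int.lt_zpow_succ_log_self`), so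
`q <= R/2^j = 2R/2^(j+1)`, and `d1^2 <= (4/3) q <= 8R/(3 * 2^(j+1))` (`q_bounds`).
Range of `j`: `|p x| <= a b`, `|th u|, |th2 w| <= S Y (a b/Y) = S a b`, so `s <= 3 S a b <= 3 S^3 Y^2 <= 3 Y^5`; `|d1|,|d2| <= 2 S a b`,
`q <= 12 S^2 a^2 b^2 <= 12 Y^10`, `s = |N|/q >= 1/(12 Y^10)`.  So `2^|j| <= 24 Y^10 <= Y^15` (`Y >= 2`), `|j| <= 15 log Y/log 2 <= 22 log Y`. -/
theorem body {Y S D a b : ℝ} (hC : Con Y S D) (ha : 0 < a) (hb : 0 < b) (haY : a ≤ S * Y) (hbY : b ≤ S * Y)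
    {o : Ob} (ho : o ∈ Obj Y S b) {th th2 : ℝ} (hr : Rt Y S o th th2) {k : V3} (hk : k ∈ KS Y a b o) :
    0 < |s1 o.2.1 th th2 (rv k)| ∧
    |s1 o.2.1 th th2 (rv k)| ≤ (2 : ℝ) ^ (Int.log 2 |s1 o.2.1 th th2 (rv k)| + 1) ∧
    d1 o.2.1 th (rv k) ^ 2 ≤ 8 * (2 * S ^ 2 * a ^ 3 * |(DlO o : ℝ)|) /
      (3 * (2 : ℝ) ^ (Int.log 2 |s1 o.2.1 th th2 (rv k)| + 1)) ∧
    d2 th th2 (rv k) ^ 2 ≤ 8 * (2 * S ^ 2 * a ^ 3 * |(DlO o : ℝ)|) /
      (3 * (2 : ℝ) ^ (Int.log 2 |s1 o.2.1 th th2 (rv k)| + 1)) ∧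
    |((Int.log 2 |s1 o.2.1 th th2 (rv k)| : ℤ) : ℝ)| ≤ 22 * Real.log Y := by
  obtain ⟨hY, hS1, hSY, -, -, -⟩ := hC
  obtain ⟨hAdm, hp0, hy0, hpb, hyb⟩ := ho
  obtain ⟨hx0, hxa, hu, hw, z, hz0, hza, hsol⟩ := hk
  have hY0 : 0 < Y := by linarith
  have hS0 : 0 < S := by linarith
  set y2 := o.1.1 with hy2
  set y3 := o.1.2 with hy3
  set p := o.2.1 with hp
  set y := o.2.2 with hy
  have hN := Nm_sol (R := ℤ) (y2 := y2) (y3 := y3) (p := p) (y := y) (x := k 0) (u := k 1) (w := k 2)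
    (z := z) hsol
  have hNne : Nm y2 y3 (p * k 0) (k 1) (k 2) ≠ 0 := by
    intro h0
    have h1 := (Nm_ne_zero hAdm.ari h0).1
    rcases mul_eq_zero.mp h1 with h | h
    · exact hp0 h
    · exact hx0 h
  -- the real value
  set N : ℝ := Nm (y2 : ℝ) y3 (p * (k 0 : ℝ)) (k 1) (k 2) with hNdef
  have hNc : N = ((Nm y2 y3 (p * k 0) (k 1) (k 2) : ℤ) : ℝ) := by
    rw [hNdef]; unfold Nm; push_cast; ring
  have hN1 : 1 ≤ |N| := by
    rw [hNc, ← Int.cast_abs]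
    exact_mod_cast Int.one_le_abs hNne
  have hNR : |N| ≤ 2 * S ^ 2 * a ^ 3 * |(DlO o : ℝ)| := by
    have e1 : N = (DlO o : ℝ) * ((Dl y2 y3 (k 0) z : ℤ) : ℝ) := by
      rw [hNc, hN]; unfold DlO; push_cast; ring
    have e2 : |((Dl y2 y3 (k 0) z : ℤ) : ℝ)| ≤ 2 * S ^ 2 * a ^ 3 := by
      have f1 : ((Dl y2 y3 (k 0) z : ℤ) : ℝ) = (y2 : ℝ) * y3 * z - (k 0 : ℝ) ^ 3 := by
        unfold Dl; push_cast; ring
      rw [f1]
      have f2 : |(y2 : ℝ) * y3 * z| ≤ S ^ 2 * a ^ 3 := by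
        rw [abs_mul, abs_mul]
        have g1 : |(y2 : ℝ)| ≤ S * Y := by
          rw [abs_of_nonneg (by linarith [hAdm.lo2])]; exact hAdm.hi2
        have g2 : |(y3 : ℝ)| ≤ S * Y := by
          rw [abs_of_nonneg (by linarith [hAdm.lo3])]; exact hAdm.hi3
        calc |(y2 : ℝ)| * |(y3 : ℝ)| * |(z : ℝ)| ≤ (S * Y) * (S * Y) * (a ^ 3 / Y ^ 2) := by
              gcongr
          _ = S ^ 2 * a ^ 3 := by field_simp
      have f3 : |(k 0 : ℝ) ^ 3| ≤ a ^ 3 := by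
        rw [abs_pow]; gcongr
      have f4 : a ^ 3 ≤ S ^ 2 * a ^ 3 := by
        have h1S : (1 : ℝ) ≤ S ^ 2 := one_le_pow₀ hS1
        have ha3 : 0 < a ^ 3 := by positivity
        exact le_mul_of_one_le_left ha3.le h1S
      calc |(y2 : ℝ) * y3 * z - (k 0 : ℝ) ^ 3| ≤ |(y2 : ℝ) * y3 * z| + |(k 0 : ℝ) ^ 3| := abs_sub _ _
        _ ≤ 2 * S ^ 2 * a ^ 3 := by linarith
    rw [e1, abs_mul]
    calc |(DlO o : ℝ)| * |((Dl y2 y3 (k 0) z : ℤ) : ℝ)| ≤ |(DlO o : ℝ)| * (2 * S ^ 2 * a ^ 3) := by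
          gcongr
      _ = _ := by ring
  have hfac := Nm_fac (p := p) hr.h1 hr.h2 hr.h3 (rv k)
  set σ := s1 p th th2 (rv k) with hσ
  set δ1 := d1 p th (rv k) with hδ1
  set δ2 := d2 th th2 (rv k) with hδ2
  have hfac' : σ * (δ1 ^ 2 + δ1 * δ2 + δ2 ^ 2) = N := hfac
  obtain ⟨hq1, hq2, hq3⟩ := q_bounds δ1 δ2
  set q := δ1 ^ 2 + δ1 * δ2 + δ2 ^ 2 with hq
  have hq0 : 0 ≤ q := le_trans (by positivity) hq1
  have hsq : |σ| * q = |N| := by rw [← hfac', abs_mul, abs_of_nonneg hq0]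
  have hσ0 : 0 < |σ| := by
    rcases (abs_nonneg σ).lt_or_eq with h | h
    · exact h
    · rw [← h, zero_mul] at hsq; linarith
  have hqpos : 0 < q := by
    rcases hq0.lt_or_eq with h | h
    · exact h
    · rw [← h, mul_zero] at hsq; linarith
  set j := Int.log 2 |σ| with hj
  have hl1 : (2 : ℝ) ^ j ≤ |σ| := by
    have := Int.zpow_log_le_self (b := 2) (r := |σ|) (by norm_num) hσ0
    simpa using this
  have hl2 : |σ| < (2 : ℝ) ^ (j + 1) := by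
    have := Int.lt_zpow_succ_log_self (b := 2) (by norm_num) |σ|
    simpa using this
  have hzp : (2 : ℝ) ^ (j + 1) = 2 * (2 : ℝ) ^ j := by
    rw [zpow_add₀ (by norm_num : (2 : ℝ) ≠ 0), zpow_one]; ring
  have h2j : (0 : ℝ) < (2 : ℝ) ^ j := by positivity
  have hqR : (2 : ℝ) ^ j * q ≤ 2 * S ^ 2 * a ^ 3 * |(DlO o : ℝ)| :=
    le_trans (by rw [← hsq]; gcongr) hNR
  have habS : a * b ≤ S ^ 2 * Y ^ 2 := by
    calc a * b ≤ (S * Y) * (S * Y) := by gcongr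
      _ = _ := by ring
  have hab0 : 0 < a * b := mul_pos ha hb
  have hSY5 : S ^ 3 * Y ^ 2 ≤ Y ^ 5 := by
    calc S ^ 3 * Y ^ 2 ≤ Y ^ 3 * Y ^ 2 := by gcongr
      _ = Y ^ 5 := by ring
  have hSab : S * (a * b) ≤ Y ^ 5 := by
    calc S * (a * b) ≤ S * (S ^ 2 * Y ^ 2) := by gcongr
      _ = S ^ 3 * Y ^ 2 := by ring
      _ ≤ Y ^ 5 := hSY5
  have hab5 : a * b ≤ Y ^ 5 := le_trans (le_mul_of_one_le_left hab0.le hS1) hSab
  have hpx : |(p : ℝ) * (k 0 : ℝ)| ≤ Y ^ 5 := by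
    rw [abs_mul]
    calc |(p : ℝ)| * |(k 0 : ℝ)| ≤ b * a := by gcongr
      _ = a * b := by ring
      _ ≤ Y ^ 5 := hab5
  have hthu : |th * (k 1 : ℝ)| ≤ Y ^ 5 := by
    rw [abs_mul, abs_of_pos hr.h0]
    calc th * |(k 1 : ℝ)| ≤ (S * Y) * (a * b / Y) := by
          have := hr.hi
          gcongr
      _ = S * (a * b) := by field_simp
      _ ≤ Y ^ 5 := hSab
  have hthw : |th2 * (k 2 : ℝ)| ≤ Y ^ 5 := by
    rw [abs_mul, abs_of_pos hr.h02]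
    calc th2 * |(k 2 : ℝ)| ≤ (S * Y) * (a * b / Y) := by
          have := hr.hi2
          gcongr
      _ = S * (a * b) := by field_simp
      _ ≤ Y ^ 5 := hSab
  have hY5 : 0 < Y ^ 5 := by positivity
  have hσle : |σ| ≤ 3 * Y ^ 5 := by
    have e : σ = (p : ℝ) * (k 0 : ℝ) + th * (k 1 : ℝ) + th2 * (k 2 : ℝ) := rfl
    rw [e]
    rw [abs_le] at hpx hthu hthw ⊢
    constructor <;> linarith [hpx.1, hpx.2, hthu.1, hthu.2, hthw.1, hthw.2]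
  have hd1 : δ1 ^ 2 ≤ 4 * Y ^ 10 := by
    have e : δ1 = (p : ℝ) * (k 0 : ℝ) - th * (k 1 : ℝ) := rfl
    have h : |δ1| ≤ 2 * Y ^ 5 := by
      rw [e]
      rw [abs_le] at hpx hthu ⊢
      constructor <;> linarith [hpx.1, hpx.2, hthu.1, hthu.2]
    calc δ1 ^ 2 = |δ1| ^ 2 := (sq_abs _).symm
      _ ≤ (2 * Y ^ 5) ^ 2 := by gcongr
      _ = 4 * Y ^ 10 := by ring
  have hd2 : δ2 ^ 2 ≤ 4 * Y ^ 10 := by
    have e : δ2 = th * (k 1 : ℝ) - th2 * (k 2 : ℝ) := rfl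
    have h : |δ2| ≤ 2 * Y ^ 5 := by
      rw [e]
      rw [abs_le] at hthu hthw ⊢
      constructor <;> linarith [hthw.1, hthw.2, hthu.1, hthu.2]
    calc δ2 ^ 2 = |δ2| ^ 2 := (sq_abs _).symm
      _ ≤ (2 * Y ^ 5) ^ 2 := by gcongr
      _ = 4 * Y ^ 10 := by ring
  have hqle : q ≤ 12 * Y ^ 10 := by
    have := hq3 (4 * Y ^ 10) hd1 hd2
    linarith
  have hLY : 0 < Real.log Y := Real.log_pos (by linarith)
  have hl2' : (15 : ℝ) / 22 ≤ Real.log 2 := by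
    have := Real.log_two_gt_d9
    linarith
  have hl20 : 0 < Real.log 2 := by linarith
  refine ⟨hσ0, hl2.le, ?_, ?_, ?_⟩
  · rw [le_div_iff₀ (by positivity), hzp]
    calc δ1 ^ 2 * (3 * (2 * (2 : ℝ) ^ j)) = 8 * ((2 : ℝ) ^ j * (3 / 4 * δ1 ^ 2)) := by ring
      _ ≤ 8 * ((2 : ℝ) ^ j * q) :=
          mul_le_mul_of_nonneg_left (mul_le_mul_of_nonneg_left hq1 h2j.le) (by norm_num)
      _ ≤ 8 * (2 * S ^ 2 * a ^ 3 * |(DlO o : ℝ)|) := mul_le_mul_of_nonneg_left hqR (by norm_num)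
  · rw [le_div_iff₀ (by positivity), hzp]
    calc δ2 ^ 2 * (3 * (2 * (2 : ℝ) ^ j)) = 8 * ((2 : ℝ) ^ j * (3 / 4 * δ2 ^ 2)) := by ring
      _ ≤ 8 * ((2 : ℝ) ^ j * q) :=
          mul_le_mul_of_nonneg_left (mul_le_mul_of_nonneg_left hq2 h2j.le) (by norm_num)
      _ ≤ 8 * (2 * S ^ 2 * a ^ 3 * |(DlO o : ℝ)|) := mul_le_mul_of_nonneg_left hqR (by norm_num)
  · rw [abs_le]
    constructor
    · -- lower bound
      have h1 : 1 ≤ |σ| * (12 * Y ^ 10) := by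
        calc 1 ≤ |N| := hN1
          _ = |σ| * q := hsq.symm
          _ ≤ |σ| * (12 * Y ^ 10) := by gcongr
      have h2 : 1 ≤ (2 : ℝ) ^ j * Y ^ 15 := by
        have h3 : |σ| * (12 * Y ^ 10) ≤ (2 : ℝ) ^ (j + 1) * (12 * Y ^ 10) := by gcongr
        have h4 : (2 : ℝ) ^ 5 ≤ Y ^ 5 := by gcongr
        have h5 : (24 : ℝ) * Y ^ 10 ≤ Y ^ 15 := by
          calc (24 : ℝ) * Y ^ 10 ≤ (2 : ℝ) ^ 5 * Y ^ 10 := by
                have h10 : 0 < Y ^ 10 := by positivity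
                exact mul_le_mul_of_nonneg_right (by norm_num) h10.le
            _ ≤ Y ^ 5 * Y ^ 10 := by gcongr
            _ = Y ^ 15 := by ring
        calc 1 ≤ (2 : ℝ) ^ (j + 1) * (12 * Y ^ 10) := h1.trans h3
          _ = (2 : ℝ) ^ j * (24 * Y ^ 10) := by rw [hzp]; ring
          _ ≤ (2 : ℝ) ^ j * Y ^ 15 := by gcongr
      have h3 := Real.log_le_log one_pos h2
      rw [Real.log_one, Real.log_mul (by positivity) (by positivity), Real.log_zpow,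
        Real.log_pow] at h3
      push_cast at h3
      have h4 : (-(j : ℝ)) * Real.log 2 ≤ 15 * Real.log Y := by linarith
      by_contra hcon
      rw [not_le] at hcon
      have h5 : 22 * Real.log Y < -(j : ℝ) := by linarith
      have h6 : 22 * Real.log Y * (15 / 22) < (-(j : ℝ)) * Real.log 2 := by
        have h7 : 0 < -(j : ℝ) := by linarith
        calc 22 * Real.log Y * (15 / 22) < (-(j : ℝ)) * (15 / 22) :=
              mul_lt_mul_of_pos_right h5 (by norm_num)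
          _ ≤ (-(j : ℝ)) * Real.log 2 := by gcongr
      linarith
    · have h1 : (2 : ℝ) ^ j ≤ Y ^ 7 := by
        have h4 : (2 : ℝ) ^ 2 ≤ Y ^ 2 := by gcongr
        calc (2 : ℝ) ^ j ≤ |σ| := hl1
          _ ≤ 3 * Y ^ 5 := hσle
          _ ≤ (2 : ℝ) ^ 2 * Y ^ 5 := mul_le_mul_of_nonneg_right (by norm_num) hY5.le
          _ ≤ Y ^ 2 * Y ^ 5 := by gcongr
          _ = Y ^ 7 := by ring
      have h3 := Real.log_le_log h2j h1
      rw [Real.log_zpow, Real.log_pow] at h3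
      push_cast at h3
      by_contra hcon
      rw [not_le] at hcon
      have h6 : 22 * Real.log Y * (15 / 22) < (j : ℝ) * Real.log 2 := by
        have h7 : 0 < (j : ℝ) := by linarith
        calc 22 * Real.log Y * (15 / 22) < (j : ℝ) * (15 / 22) :=
              mul_lt_mul_of_pos_right hcon (by norm_num)
          _ ≤ (j : ℝ) * Real.log 2 := by gcongr
      linarith

end Pool.Agent.SLB
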