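import Pool.Agent.SLB.BodB

namespace Pool.Agent.SLB

/-- (5.1) A short vector of the body has a small `z`.
PROOF.  `q(v) <= 3 t^2 8R/(3 T) = 8 t^2 R/T`, `T = 2^(j+1)` any positive number, `|N(v)| = |s1| q <= 8 t^3 R = 16 S^2 (t a)^3 |Dl|`.
`N(v) = Dl * (P z - x^3)` (`Nm_sol`), `Dl <> 0`, so `|P z - x^3| <= 16 S^2 (t a)^3`, `P |z| <= 16 S^2 (t a)^3 + (t a)^3`, `P >= Y^2`. -/
theorem short {Y S D a : ℝ} (hC : Con Y S D) (ha : 0 < a)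
    {o : Ob} (ho : Adm Y S o.1.1 o.1.2) (hD : DlO o ≠ 0) {th th2 : ℝ} (hr : Rt Y S o th th2) {v : V3} {t T : ℝ}
    (ht : 0 ≤ t) (hT : 0 < T) (h0 : |(v 0 : ℝ)| ≤ t * a) (h1 : |s1 o.2.1 th th2 (rv v)| ≤ t * T)
    (h2 : d1 o.2.1 th (rv v) ^ 2 ≤ t ^ 2 * (8 * (2 * S ^ 2 * a ^ 3 * |(DlO o : ℝ)|) / (3 * T)))
    (h3 : d2 th th2 (rv v) ^ 2 ≤ t ^ 2 * (8 * (2 * S ^ 2 * a ^ 3 * |(DlO o : ℝ)|) / (3 * T)))
    {z : ℤ} (hz : PhiO o v = DlO o * z) : |(z : ℝ)| ≤ 17 * S ^ 2 * (t * a) ^ 3 / Y ^ 2 := by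
  have hY : (0 : ℝ) < Y := by linarith [hC.hY]
  have hS1 := hC.hS1
  set R : ℝ := 2 * S ^ 2 * a ^ 3 * |(DlO o : ℝ)| with hR
  have hR0 : 0 ≤ R := by positivity
  have hq := (q_bounds (d1 o.2.1 th (rv v)) (d2 th th2 (rv v))).2.2 _ h2 h3
  have hq0 : 0 ≤ d1 o.2.1 th (rv v) ^ 2 + d1 o.2.1 th (rv v) * d2 th th2 (rv v) + d2 th th2 (rv v) ^ 2 := by
    nlinarith [sq_nonneg (d1 o.2.1 th (rv v) + d2 th th2 (rv v)), sq_nonneg (d1 o.2.1 th (rv v)),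
      sq_nonneg (d2 th th2 (rv v))]
  have hfac := Nm_fac (p := o.2.1) hr.h1 hr.h2 hr.h3 (rv v)
  have hsol : Nm o.1.1 o.1.2 (o.2.1 * v 0) (v 1) (v 2)
      = Dl o.1.1 o.1.2 o.2.1 o.2.2 * Dl o.1.1 o.1.2 (v 0) z := Nm_sol hz
  have hsolR : Nm (o.1.1 : ℝ) (o.1.2 : ℝ) (o.2.1 * rv v 0) (rv v 1) (rv v 2)
      = (DlO o : ℝ) * ((Dl o.1.1 o.1.2 (v 0) z : ℤ) : ℝ) := by
    have := congrArg (fun n : ℤ => (n : ℝ)) hsol
    rw [Int.cast_mul] at this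
    rw [← show (DlO o : ℝ) = ((Dl o.1.1 o.1.2 o.2.1 o.2.2 : ℤ) : ℝ) from rfl] at this
    rw [← this]
    simp only [Nm, rv]
    push_cast
    ring
  have hDa : 0 < |(DlO o : ℝ)| := abs_pos.mpr (by exact_mod_cast hD)
  -- |N| <= 8 t^3 R
  have hN : |(DlO o : ℝ) * ((Dl o.1.1 o.1.2 (v 0) z : ℤ) : ℝ)| ≤ (16 * S ^ 2 * (t * a) ^ 3) * |(DlO o : ℝ)| := by
    rw [← hsolR, ← hfac, abs_mul, abs_of_nonneg hq0]
    calc |s1 o.2.1 th th2 (rv v)| * (d1 o.2.1 th (rv v) ^ 2 + d1 o.2.1 th (rv v) * d2 th th2 (rv v)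
          + d2 th th2 (rv v) ^ 2)
        ≤ (t * T) * (3 * (t ^ 2 * (8 * R / (3 * T)))) := mul_le_mul h1 hq hq0 (by positivity)
      _ = (16 * S ^ 2 * (t * a) ^ 3) * |(DlO o : ℝ)| := by
          rw [hR]
          field_simp
          ring
  rw [abs_mul, mul_comm] at hN
  have hN2 := le_of_mul_le_mul_right hN hDa
  have hx3 : |(v 0 : ℝ) ^ 3| ≤ (t * a) ^ 3 := by
    rw [abs_pow]
    exact pow_le_pow_left₀ (abs_nonneg _) h0 3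
  have hta : 0 ≤ (t * a) ^ 3 := by positivity
  have hP : Y ^ 2 ≤ (o.1.1 : ℝ) * (o.1.2 : ℝ) := by
    nlinarith [ho.lo2, ho.lo3]
  have hPz : |(o.1.1 : ℝ) * (o.1.2 : ℝ) * (z : ℝ)| ≤ 17 * S ^ 2 * (t * a) ^ 3 := by
    have e : (o.1.1 : ℝ) * (o.1.2 : ℝ) * (z : ℝ) = ((Dl o.1.1 o.1.2 (v 0) z : ℤ) : ℝ) + (v 0 : ℝ) ^ 3 := by
      simp only [Dl]
      push_cast
      ring
    rw [e]
    calc |((Dl o.1.1 o.1.2 (v 0) z : ℤ) : ℝ) + (v 0 : ℝ) ^ 3|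
        ≤ |((Dl o.1.1 o.1.2 (v 0) z : ℤ) : ℝ)| + |(v 0 : ℝ) ^ 3| := abs_add_le _ _
      _ ≤ 16 * S ^ 2 * (t * a) ^ 3 + (t * a) ^ 3 := add_le_add hN2 hx3
      _ ≤ 17 * S ^ 2 * (t * a) ^ 3 := by nlinarith [mul_nonneg hta (by nlinarith : (0:ℝ) ≤ S ^ 2 - 1)]
  rw [abs_mul, abs_of_nonneg (by nlinarith : (0:ℝ) ≤ (o.1.1 : ℝ) * (o.1.2 : ℝ))] at hPz
  rw [le_div_iff₀ (by positivity)]
  calc |(z : ℝ)| * Y ^ 2 ≤ |(z : ℝ)| * ((o.1.1 : ℝ) * (o.1.2 : ℝ)) :=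
        mul_le_mul_of_nonneg_left hP (abs_nonneg _)
    _ = (o.1.1 : ℝ) * (o.1.2 : ℝ) * |(z : ℝ)| := by ring
    _ ≤ _ := hPz

/-- sizes: `1 <= |Dl| <= Y^10` for an object with a solution, so `d(Dl) <= D`; and `d(2z) <= D` for `0 < |z| <= a^3/Y^2`.
PROOF.  `|Dl| <= P|y| + |p|^3 <= S^2Y^2 b^3/Y^2 + b^3 <= 2 S^2 b^3 <= 2 S^5 Y^3 <= 2 Y^8`.  `|2z| <= 2 S^3 Y <= 2 Y^4`. -/
theorem sizes {Y S D a b : ℝ} (hC : Con Y S D) (ha : 0 < a) (hb : 0 < b) (haY : a ≤ S * Y) (hbY : b ≤ S * Y) :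
    (∀ o ∈ Obj Y S b, DlO o ≠ 0 → (dN (DlO o) : ℝ) ≤ D) ∧
    (∀ z : ℤ, z ≠ 0 → |(z : ℝ)| ≤ a ^ 3 / Y ^ 2 → (dN (2 * z) : ℝ) ≤ D) := by
  have hY2 := hC.hY
  have hY : (0 : ℝ) < Y := by linarith
  have hY1 : (1 : ℝ) ≤ Y := by linarith
  have hS1 := hC.hS1
  have hS0 : (0 : ℝ) ≤ S := by linarith
  have hSY := hC.hSY
  constructor
  · intro o ho hD
    obtain ⟨hA, hp, hy, hpb, hyb⟩ := ho
    have hb3 : 0 ≤ b ^ 3 := by positivity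
    have hP2 : (o.1.1 : ℝ) * (o.1.2 : ℝ) ≤ S ^ 2 * Y ^ 2 := by
      have h1 : (o.1.1 : ℝ) * (o.1.2 : ℝ) ≤ (S * Y) * (S * Y) :=
        mul_le_mul hA.hi2 hA.hi3 (by linarith [hA.lo3]) (by positivity)
      calc _ ≤ (S * Y) * (S * Y) := h1
        _ = _ := by ring
    have hP0 : (0 : ℝ) ≤ (o.1.1 : ℝ) * (o.1.2 : ℝ) :=
      mul_nonneg (by linarith [hA.lo2]) (by linarith [hA.lo3])
    have e : (DlO o : ℝ) = (o.1.1 : ℝ) * (o.1.2 : ℝ) * (o.2.2 : ℝ) - (o.2.1 : ℝ) ^ 3 := by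
      simp only [DlO, Dl]
      push_cast
      ring
    have hbd : |(DlO o : ℝ)| ≤ 2 * Y ^ 8 := by
      rw [e]
      calc |(o.1.1 : ℝ) * (o.1.2 : ℝ) * (o.2.2 : ℝ) - (o.2.1 : ℝ) ^ 3|
          ≤ |(o.1.1 : ℝ) * (o.1.2 : ℝ) * (o.2.2 : ℝ)| + |(o.2.1 : ℝ) ^ 3| := abs_sub _ _
        _ ≤ S ^ 2 * Y ^ 2 * (b ^ 3 / Y ^ 2) + b ^ 3 := by
            refine add_le_add ?_ ?_
            · rw [abs_mul, abs_of_nonneg hP0]
              exact mul_le_mul hP2 hyb (abs_nonneg _) (by positivity)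
            · rw [abs_pow]
              exact pow_le_pow_left₀ (abs_nonneg _) hpb 3
        _ = (S ^ 2 + 1) * b ^ 3 := by field_simp
        _ ≤ (2 * S ^ 2) * (S * Y) ^ 3 := by
            refine mul_le_mul (by nlinarith) (pow_le_pow_left₀ hb.le hbY 3) hb3 (by positivity)
        _ = 2 * (S ^ 5 * Y ^ 3) := by ring
        _ ≤ 2 * (Y ^ 5 * Y ^ 3) := by
            have := pow_le_pow_left₀ hS0 hSY 5
            have h3 : 0 ≤ Y ^ 3 := by positivity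
            nlinarith [mul_le_mul_of_nonneg_right this h3]
        _ = 2 * Y ^ 8 := by ring
    have hle : (((DlO o).natAbs : ℕ) : ℝ) ≤ Y ^ 40 := by
      have h1 : (((DlO o).natAbs : ℕ) : ℝ) = |(DlO o : ℝ)| := by
        rw [Nat.cast_natAbs, Int.cast_abs]
      rw [h1]
      calc |(DlO o : ℝ)| ≤ 2 * Y ^ 8 := hbd
        _ ≤ Y * Y ^ 8 := mul_le_mul_of_nonneg_right hY2 (by positivity)
        _ = Y ^ 9 := by ring
        _ ≤ Y ^ 40 := pow_le_pow_right₀ hY1 (by norm_num)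
    exact hC.hdiv _ (Int.natAbs_pos.mpr hD) hle
  · intro z hz hzb
    have ha3 : 0 ≤ a ^ 3 := by positivity
    have h2z : ((2 * z).natAbs : ℝ) = 2 * |(z : ℝ)| := by
      rw [Nat.cast_natAbs, Int.cast_abs]
      push_cast
      rw [abs_mul]
      norm_num
    have hle : (((2 * z).natAbs : ℕ) : ℝ) ≤ Y ^ 40 := by
      rw [h2z]
      calc 2 * |(z : ℝ)| ≤ 2 * (a ^ 3 / Y ^ 2) := by linarith
        _ ≤ 2 * ((S * Y) ^ 3 / Y ^ 2) := by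
            have := pow_le_pow_left₀ ha.le haY 3
            gcongr
        _ = 2 * (S ^ 3 * Y) := by field_simp
        _ ≤ 2 * (Y ^ 3 * Y) := by
            have := pow_le_pow_left₀ hS0 hSY 3
            nlinarith [mul_le_mul_of_nonneg_right this hY.le]
        _ = 2 * Y ^ 4 := by ring
        _ ≤ Y * Y ^ 4 := mul_le_mul_of_nonneg_right hY2 (by positivity)
        _ = Y ^ 5 := by ring
        _ ≤ Y ^ 40 := pow_le_pow_right₀ hY1 (by norm_num)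
    exact hC.hdiv _ (Int.natAbs_pos.mpr (mul_ne_zero two_ne_zero hz)) hle

end Pool.Agent.SLB
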