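import Pool.Agent.SLB.UnrB

namespace Pool.Agent.SLB

private theorem norm_int_ext (l : ℕ) [Fact l.Prime] (n : ℤ) :
    ‖((n : ℤ) : PadicAlgCl l)‖ = ‖((n : ℤ) : ℚ_[l])‖ := by
  rw [← map_intCast (algebraMap ℚ_[l] (PadicAlgCl l)) n]
  exact PadicAlgCl.norm_extends l (n : ℚ_[l])

/-- Unramified primes: `l` does not divide `y2 y3`.
PROOF.  Apply `unrB` with `K = PadicAlgCl l` (Mathlib/NumberTheory/Padics/Complex.lean; needs `Fact l.Prime`).
`hu`: `PadicAlgCl.isNonarchimedean`.  For integers: `((n : ℤ) : PadicAlgCl l)` is the image of `(n : ℚ_[l])`,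
`PadicAlgCl.norm_extends`, and `padicNormE.norm_int_le_pow_iff_dvd` (norm `<= l^(-m)` iff `l^m | n`), and
`Padic.norm_eq_zpow_neg_valuation` or `padicNormE.eq_padicNorm` with `padicNorm.eq_zpow_of_nonzero` for `hexact`.
`K` is algebraically closed of characteristic 0: `th` with `th^3 = y2^2 y3` (`IsAlgClosed.exists_pow_nat_eq`), `th <> 0`
since `y2, y3 <> 0`, `th2 = y2 y3 / th` (`th2^3 = y2^3 y3^3 / (y2^2 y3) = y2 y3^2`), and a root `om` of `X^2 + X + 1`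
(`IsAlgClosed.exists_root`, or a cube root of unity different from 1). -/
theorem unr {l : ℕ} (hl : l.Prime) {y2 y3 p y : ℤ} (h2 : y2 ≠ 0) (h3 : y3 ≠ 0)
    (hP : ¬ (l : ℤ) ∣ y2 * y3) {e : ℕ} (hd : (l : ℤ) ^ e ∣ Dl y2 y3 p y) :
    LocCov l e y2 y3 p y := by
  have : Fact l.Prime := ⟨hl⟩
  have hy2 : ((y2 : ℤ) : PadicAlgCl l) ≠ 0 := by exact_mod_cast h2
  have hy3 : ((y3 : ℤ) : PadicAlgCl l) ≠ 0 := by exact_mod_cast h3
  obtain ⟨th, hth⟩ := IsAlgClosed.exists_pow_nat_eq ((y2 : PadicAlgCl l) ^ 2 * (y3 : PadicAlgCl l))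
    (show 0 < 3 by norm_num)
  have hth0 : th ≠ 0 := by
    intro h0
    rw [h0] at hth
    have : ((y2 : PadicAlgCl l) ^ 2 * (y3 : PadicAlgCl l)) = 0 := by rw [← hth]; ring
    rcases mul_eq_zero.1 this with h | h
    · exact hy2 (pow_eq_zero_iff (by norm_num) |>.1 h)
    · exact hy3 h
  obtain ⟨s, hs⟩ := IsAlgClosed.exists_pow_nat_eq (-3 : PadicAlgCl l) (show 0 < 2 by norm_num)
  have h20 : (2 : PadicAlgCl l) ≠ 0 := by norm_num
  have h4 : ((s - 1) / 2) ^ 2 + ((s - 1) / 2) + 1 = (0 : PadicAlgCl l) := by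
    field_simp
    linear_combination hs
  have h3' : th * ((y2 : PadicAlgCl l) * (y3 : PadicAlgCl l) / th) = (y2 : PadicAlgCl l) * y3 := by
    field_simp
  have h2' : ((y2 : PadicAlgCl l) * (y3 : PadicAlgCl l) / th) ^ 3
      = (y2 : PadicAlgCl l) * (y3 : PadicAlgCl l) ^ 2 := by
    rw [div_pow, hth]
    field_simp
  refine unrB (K := PadicAlgCl l) ?_ hl ?_ ?_ hth h2' h3' h4 hP hd
  · intro a b
    exact PadicAlgCl.isNonarchimedean l a b
  · intro n m
    rw [norm_int_ext]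
    have := Padic.norm_int_le_pow_iff_dvd (p := l) n m
    rw [zpow_neg, zpow_natCast] at this
    rw [this]
  · intro n hn
    have hn' : ((n : ℤ) : ℚ_[l]) ≠ 0 := by exact_mod_cast hn
    have hle : ‖((n : ℤ) : ℚ_[l])‖ ≤ 1 := Padic.norm_int_le_one n
    have hv := Padic.norm_eq_zpow_neg_valuation hn'
    have hl1 : (1 : ℝ) < l := by exact_mod_cast hl.one_lt
    have hv0 : 0 ≤ ((n : ℤ) : ℚ_[l]).valuation := by
      by_contra hneg
      push Not at hneg
      rw [hv] at hle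
      have : (1 : ℝ) < (l : ℝ) ^ (-((n : ℤ) : ℚ_[l]).valuation) :=
        one_lt_zpow₀ hl1 (by omega)
      linarith
    obtain ⟨m, hm⟩ := Int.eq_ofNat_of_zero_le hv0
    refine ⟨m, ?_⟩
    rw [norm_int_ext, hv, hm, zpow_neg]
    simp

end Pool.Agent.SLB
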