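import Pool.Agent.SLB.RamB
import Pool.Agent.SLB.Unr

namespace Pool.Agent.SLB

/-- From local families to a global one.  PROOF by induction on the finite set `T` of primes (`Finset.induction_on`):
claim for every finset `T` of primes and exponents `e : Nat → Nat`, with `LocCov l (e l) ..` for `l` in `T`, there is a family
`F` with `F.card <= prod_{l in T} (4 e_l + 1)^3`, and (a),(b),(c) for the modulus `prod_{l in T} l^(e l)`.
`T` empty: `F = {⊤}`.  Step: `F' = {M ⊓ M' : M in F, M' in F_l}` (`Finset.image₂` / image of the product), the moduli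
`l^(e l)` and `prod_{T}` are coprime, so `IsCoprime.mul_dvd`. -/
theorem glob (T : Finset ℕ) (hT : ∀ l ∈ T, l.Prime) (e : ℕ → ℕ) {y2 y3 p y : ℤ}
    (h : ∀ l ∈ T, LocCov l (e l) y2 y3 p y) :
    ∃ F : Finset (AddSubgroup V3), F.card ≤ ∏ l ∈ T, (4 * e l + 1) ^ 3 ∧
    (∀ k : V3, (∏ l ∈ T, (l : ℤ) ^ (e l)) ∣ Phi y2 y3 p y (k 0) (k 1) (k 2) → ∃ M ∈ F, k ∈ M) ∧
    (∀ M ∈ F, ∀ k ∈ M, (∏ l ∈ T, (l : ℤ) ^ (e l)) ∣ Phi y2 y3 p y (k 0) (k 1) (k 2)) ∧
    (∀ M ∈ F, ∀ a ∈ M, ∀ b ∈ M, ∀ c ∈ M, (∏ l ∈ T, (l : ℤ) ^ (e l)) ∣ 9 * p * det3 a b c) := by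
  classical
  induction T using Finset.induction_on with
  | empty =>
    refine ⟨{⊤}, by simp, ?_, ?_, ?_⟩
    · intro k _
      exact ⟨⊤, by simp, by simp⟩
    · intro M _ k _
      simp
    · intro M _ a _ b _ c _
      simp
  | insert l T hl ih =>
    obtain ⟨F, hF, hFa, hFb, hFc⟩ := ih (fun l' hl' => hT l' (Finset.mem_insert_of_mem hl'))
      (fun l' hl' => h l' (Finset.mem_insert_of_mem hl'))
    obtain ⟨F', hF', hFa', hFb', hFc'⟩ := h l (Finset.mem_insert_self _ _)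
    have hcop : IsCoprime ((l : ℤ) ^ (e l)) (∏ l' ∈ T, (l' : ℤ) ^ (e l')) := by
      refine IsCoprime.prod_right fun l' hl' => IsCoprime.pow ?_
      rw [Nat.isCoprime_iff_coprime]
      refine (Nat.coprime_primes (hT l (Finset.mem_insert_self _ _))
        (hT l' (Finset.mem_insert_of_mem hl'))).mpr ?_
      rintro rfl
      exact hl hl'
    refine ⟨(F' ×ˢ F).image (fun P => P.1 ⊓ P.2), ?_, ?_, ?_, ?_⟩
    · rw [Finset.prod_insert hl]
      refine Finset.card_image_le.trans ?_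
      rw [Finset.card_product]
      exact Nat.mul_le_mul hF' hF
    · intro k hk
      rw [Finset.prod_insert hl] at hk
      obtain ⟨M', hM', hkM'⟩ := hFa' k (dvd_of_mul_right_dvd hk)
      obtain ⟨M, hM, hkM⟩ := hFa k (dvd_of_mul_left_dvd hk)
      exact ⟨M' ⊓ M, Finset.mem_image.mpr ⟨(M', M), Finset.mem_product.mpr ⟨hM', hM⟩, rfl⟩,
        ⟨hkM', hkM⟩⟩
    · intro M hM k hk
      obtain ⟨⟨M1, M2⟩, hM12, rfl⟩ := Finset.mem_image.mp hM
      obtain ⟨hM1, hM2⟩ := Finset.mem_product.mp hM12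
      rw [Finset.prod_insert hl]
      exact hcop.mul_dvd (hFb' M1 hM1 k hk.1) (hFb M2 hM2 k hk.2)
    · intro M hM a ha b hb c hc
      obtain ⟨⟨M1, M2⟩, hM12, rfl⟩ := Finset.mem_image.mp hM
      obtain ⟨hM1, hM2⟩ := Finset.mem_product.mp hM12
      rw [Finset.prod_insert hl]
      exact hcop.mul_dvd (hFc' M1 hM1 a ha.1 b hb.1 c hc.1) (hFc M2 hM2 a ha.2 b hb.2 c hc.2)

private theorem Cov_num (e : ℕ) (he : 1 ≤ e) : (4 * e + 1) ^ 3 ≤ (e + 1) ^ 7 := by
  rcases Nat.lt_or_ge e 2 with h | h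
  · have : e = 1 := by omega
    subst this
    norm_num
  · have h1 : 4 * e + 1 ≤ (e + 1) ^ 2 := by nlinarith
    calc (4 * e + 1) ^ 3 ≤ ((e + 1) ^ 2) ^ 3 := Nat.pow_le_pow_left h1 3
      _ = (e + 1) ^ 6 := by rw [← pow_mul]
      _ ≤ (e + 1) ^ 7 := Nat.pow_le_pow_right (by omega) (by omega)

/-- COVERING LEMMA.
PROOF.  `T` = prime factors of `n = |Dl|`, `e l = n.factorization l >= 1`; `Dl = ± prod l^(e l)`
(`Nat.factorization_prod_pow_eq_self`).  Local families: `ram` (if `l | y2 y3`; `l^(e+1)` does not divide `Dl`) or `unr`.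
Cardinality: `(4e+1)^3 <= (e+1)^7` for `e >= 1` (`e = 1`: 125 <= 128; in general `4e+1 <= (e+1)^(7/3)`; for a natural number
`e >= 2`: `(4e+1)^3 <= (e+1)^6 * (e+1)`, since `4e+1 <= 3(e+1)^... ` : e.g. `e = 2`: 729 <= 2187; for `e >= 2`,
`4e+1 <= (e+1)^2`, so `(4e+1)^3 <= (e+1)^6`), and `prod (e l + 1) = number of divisors` (`Nat.card_divisors`). -/
theorem cover {y2 y3 p y : ℤ} (ha : Ari y2 y3) (hD : Dl y2 y3 p y ≠ 0) :
    ∃ F : Finset (AddSubgroup V3), F.card ≤ dN (Dl y2 y3 p y) ^ 7 ∧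
    (∀ k : V3, Dl y2 y3 p y ∣ Phi y2 y3 p y (k 0) (k 1) (k 2) → ∃ M ∈ F, k ∈ M) ∧
    (∀ M ∈ F, ∀ k ∈ M, Dl y2 y3 p y ∣ Phi y2 y3 p y (k 0) (k 1) (k 2)) ∧
    (∀ M ∈ F, ∀ a ∈ M, ∀ b ∈ M, ∀ c ∈ M, Dl y2 y3 p y ∣ 9 * p * det3 a b c) := by
  classical
  set n : ℕ := (Dl y2 y3 p y).natAbs with hn
  have hn0 : n ≠ 0 := Int.natAbs_ne_zero.mpr hD
  have hy2 : y2 ≠ 0 := by have := ha.two2; omega
  have hy3 : y3 ≠ 0 := by have := ha.two3; omega
  have hprod : (∏ l ∈ n.primeFactors, (l : ℤ) ^ (n.factorization l)) = (n : ℤ) := by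
    have h1 := Nat.prod_factorization_pow_eq_self hn0
    rw [Finsupp.prod, Nat.support_factorization] at h1
    exact_mod_cast h1
  have hdv : ∀ x : ℤ, (∏ l ∈ n.primeFactors, (l : ℤ) ^ (n.factorization l)) ∣ x ↔
      Dl y2 y3 p y ∣ x := by
    intro x
    rw [hprod, hn, Int.natAbs_dvd]
  have hloc : ∀ l ∈ n.primeFactors, LocCov l (n.factorization l) y2 y3 p y := by
    intro l hl
    have hlp : l.Prime := Nat.prime_of_mem_primeFactors hl
    have hln : l ∣ n := Nat.dvd_of_mem_primeFactors hl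
    have he1 : 1 ≤ n.factorization l := (hlp.dvd_iff_one_le_factorization hn0).mp hln
    have hd : (l : ℤ) ^ (n.factorization l) ∣ Dl y2 y3 p y := by
      have h1 : l ^ (n.factorization l) ∣ n := Nat.ordProj_dvd n l
      rw [← Int.natAbs_dvd_natAbs, Int.natAbs_pow, Int.natAbs_natCast]
      exact h1
    have hd' : ¬ (l : ℤ) ^ (n.factorization l + 1) ∣ Dl y2 y3 p y := by
      rw [← Int.natAbs_dvd_natAbs, Int.natAbs_pow, Int.natAbs_natCast]
      exact Nat.pow_succ_factorization_not_dvd hn0 hlp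
    by_cases hy : (l : ℤ) ∣ y2 * y3
    · exact ram hlp ha hy he1 hd hd'
    · exact unr hlp hy2 hy3 hy hd
  obtain ⟨F, hF, hFa, hFb, hFc⟩ := glob n.primeFactors
    (fun l hl => Nat.prime_of_mem_primeFactors hl) (fun l => n.factorization l) hloc
  refine ⟨F, ?_, ?_, ?_, ?_⟩
  · refine hF.trans ?_
    unfold dN
    rw [← hn, Nat.card_divisors hn0, ← Finset.prod_pow]
    refine Finset.prod_le_prod' fun l hl => ?_
    have hlp : l.Prime := Nat.prime_of_mem_primeFactors hl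
    exact Cov_num _ ((hlp.dvd_iff_one_le_factorization hn0).mp (Nat.dvd_of_mem_primeFactors hl))
  · intro k hk
    exact hFa k ((hdv _).mpr hk)
  · intro M hM k hk
    exact (hdv _).mp (hFb M hM k hk)
  · intro M hM a ha' b hb c hc
    exact (hdv _).mp (hFc M hM a ha' b hb c hc)

end Pool.Agent.SLB
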