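import Mathlib

/-!
# SLB: definitions for SECTION BAD of the lower bound of the (Z/3)^2 moment (MP_0f260b_nt, SML)

Paper proof: /team-store/notes_MP_0f260b_nt_SML_B.md (helper85).
-/

namespace Pool.Agent.SLB

/-- integer points -/
abbrev V3 := Fin 3 → ℤ

/-- an object: `((y2, y3), (p, y))` -/
abbrev Ob := (ℤ × ℤ) × (ℤ × ℤ)

/-- `Phi = y x^3 + y2 u^3 + y3 w^3 - 3 p x u w` (over any commutative ring) -/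
def Phi {R : Type*} [CommRing R] (y2 y3 p y x u w : R) : R :=
  y * x ^ 3 + y2 * u ^ 3 + y3 * w ^ 3 - 3 * p * x * u * w

/-- `N(al, u, w) = al^3 + y2^2 y3 u^3 + y2 y3^2 w^3 - 3 y2 y3 al u w` -/
def Nm {R : Type*} [CommRing R] (y2 y3 al u w : R) : R :=
  al ^ 3 + y2 ^ 2 * y3 * u ^ 3 + y2 * y3 ^ 2 * w ^ 3 - 3 * (y2 * y3) * al * u * w

/-- `Dl = y2 y3 y - p^3` -/
def Dl {R : Type*} [CommRing R] (y2 y3 p y : R) : R := y2 * y3 * y - p ^ 3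

/-- the 3 x 3 determinant of three vectors -/
def det3 {R : Type*} [CommRing R] (a b c : Fin 3 → R) : R :=
  a 0 * (b 1 * c 2 - b 2 * c 1) - a 1 * (b 0 * c 2 - b 2 * c 0) + a 2 * (b 0 * c 1 - b 1 * c 0)

/-- number of (positive) divisors of an integer -/
def dN (n : ℤ) : ℕ := n.natAbs.divisors.card

/-- arithmetic conditions on the pair `(y2, y3)` -/
structure Ari (y2 y3 : ℤ) : Prop where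
  two2 : 2 ≤ y2
  two3 : 2 ≤ y3
  sq2 : Squarefree y2
  sq3 : Squarefree y3
  cop : IsCoprime y2 y3

/-- admissible pairs -/
structure Adm (Y S : ℝ) (y2 y3 : ℤ) : Prop where
  ari : Ari y2 y3
  lo2 : Y ≤ (y2 : ℝ)
  lo3 : Y ≤ (y3 : ℝ)
  hi2 : (y2 : ℝ) ≤ S * Y
  hi3 : (y3 : ℝ) ≤ S * Y

/-- the box of size `b`: `(p, y)` with `p, y <> 0`, `|p| <= b`, `|y| <= b^3 / Y^2` -/
def Bx (Y b : ℝ) (q : ℤ × ℤ) : Prop :=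
  q.1 ≠ 0 ∧ q.2 ≠ 0 ∧ |(q.1 : ℝ)| ≤ b ∧ |(q.2 : ℝ)| ≤ b ^ 3 / Y ^ 2

/-- objects of size `b` -/
def Obj (Y S b : ℝ) : Set Ob := {o | Adm Y S o.1.1 o.1.2 ∧ Bx Y b o.2}

/-- solutions `((y2,y3),(p,y),(x,z),(u,w))` of `Phi(p,y;x,u,w) = Dl(p,y) z`, `(p,y)` of size `b`, `(x,z)` of size `a` -/
def Sol (Y S a b : ℝ) : Set ((ℤ × ℤ) × (ℤ × ℤ) × (ℤ × ℤ) × (ℤ × ℤ)) :=
  {t | Adm Y S t.1.1 t.1.2 ∧ Bx Y b t.2.1 ∧ Bx Y a t.2.2.1 ∧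
    |(t.2.2.2.1 : ℝ)| ≤ a * b / Y ∧ |(t.2.2.2.2 : ℝ)| ≤ a * b / Y ∧
    Phi t.1.1 t.1.2 t.2.1.1 t.2.1.2 t.2.2.1.1 t.2.2.2.1 t.2.2.2.2
      = Dl t.1.1 t.1.2 t.2.1.1 t.2.1.2 * t.2.2.1.2}

/-- the number of solutions -/
noncomputable def E (Y S a b : ℝ) : ℕ := (Sol Y S a b).ncard

/-- `Phi` of an object at an integer vector -/
def PhiO (o : Ob) (k : V3) : ℤ := Phi o.1.1 o.1.2 o.2.1 o.2.2 (k 0) (k 1) (k 2)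

/-- `Dl` of an object -/
def DlO (o : Ob) : ℤ := Dl o.1.1 o.1.2 o.2.1 o.2.2

/-- the solutions `k = (x,u,w)` belonging to the object `o` (sizes `a` and `b`) -/
def KS (Y a b : ℝ) (o : Ob) : Set V3 :=
  {k | k 0 ≠ 0 ∧ |(k 0 : ℝ)| ≤ a ∧ |(k 1 : ℝ)| ≤ a * b / Y ∧ |(k 2 : ℝ)| ≤ a * b / Y ∧
    ∃ z : ℤ, z ≠ 0 ∧ |(z : ℝ)| ≤ a ^ 3 / Y ^ 2 ∧ PhiO o k = DlO o * z}

/-- the constants: `D` bounds the divisor function up to `Y^40`, `S`, and `100 (1 + log Y)` -/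
structure Con (Y S D : ℝ) : Prop where
  hY : 2 ≤ Y
  hS1 : 1 ≤ S
  hSY : S ≤ Y
  hSD : S ≤ D
  hlog : 100 * (1 + Real.log Y) ≤ D
  hdiv : ∀ n : ℕ, 1 ≤ n → (n : ℝ) ≤ Y ^ 40 → (n.divisors.card : ℝ) ≤ D

/-- local covering of the zeros of `Phi` modulo `l^e` by subgroups -/
def LocCov (l e : ℕ) (y2 y3 p y : ℤ) : Prop :=
  ∃ F : Finset (AddSubgroup V3), F.card ≤ (4 * e + 1) ^ 3 ∧
    (∀ k : V3, (l : ℤ) ^ e ∣ Phi y2 y3 p y (k 0) (k 1) (k 2) → ∃ M ∈ F, k ∈ M) ∧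
    (∀ M ∈ F, ∀ k ∈ M, (l : ℤ) ^ e ∣ Phi y2 y3 p y (k 0) (k 1) (k 2)) ∧
    (∀ M ∈ F, ∀ a ∈ M, ∀ b ∈ M, ∀ c ∈ M, (l : ℤ) ^ e ∣ 9 * p * det3 a b c)

/-- derivative of `Phi` at `v` in the direction `w` -/
def Pol {R : Type*} [CommRing R] (y2 y3 p y : R) (v w : Fin 3 → R) : R :=
  3 * (y * v 0 ^ 2 * w 0 + y2 * v 1 ^ 2 * w 1 + y3 * v 2 ^ 2 * w 2)
    - 3 * p * (w 0 * v 1 * v 2 + v 0 * w 1 * v 2 + v 0 * v 1 * w 2)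

/-- objects with a vector `(0,u,w)` (type P) -/
def VPs (Y S b U : ℝ) : Set Ob :=
  {o | o ∈ Obj Y S b ∧ ∃ u w : ℤ, ¬ (u = 0 ∧ w = 0) ∧ |(u : ℝ)| ≤ U ∧ |(w : ℝ)| ≤ U ∧
    DlO o ∣ o.1.1 * u ^ 3 + o.1.2 * w ^ 3}

/-- objects with a zero `k` of `Phi` (type Z) -/
def VZs (Y S b X0 U0 : ℝ) : Set Ob :=
  {o | o ∈ Obj Y S b ∧ ∃ k : V3, k 0 ≠ 0 ∧ k 1 ≠ 0 ∧ k 2 ≠ 0 ∧ |(k 0 : ℝ)| ≤ X0 ∧ |(k 1 : ℝ)| ≤ U0 ∧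
    |(k 2 : ℝ)| ≤ U0 ∧ PhiO o k = 0}

/-- objects with a nondegenerate vector (type N) -/
def NDs (Y S a b : ℝ) : Set Ob := {o | o ∈ Obj Y S b ∧ (KS Y a b o).Nonempty}

/-- the weight of an object in the NS case -/
noncomputable def gw (o : Ob) : ℝ :=
  (Int.gcd o.1.1 o.2.1 * Int.gcd o.1.2 o.2.1 * Int.gcd o.2.2 o.2.1 : ℕ) / |(o.2.1 : ℝ)|

/-- the property PL of an object with the count `n` -/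
def PLp (Y S D a b : ℝ) (o : Ob) (n : ℕ) : Prop :=
  ∀ m : ℕ, 1 ≤ m → m ^ 2 < n → ∃ v : V3, v ≠ 0 ∧ |(v 0 : ℝ)| ≤ 4 / m * a ∧
    |(v 1 : ℝ)| ≤ 4 / m * (a * b / Y) ∧ |(v 2 : ℝ)| ≤ 4 / m * (a * b / Y) ∧
    ∃ z : ℤ, PhiO o v = DlO o * z ∧ |(z : ℝ)| ≤ 17 * S ^ 2 * (4 / m * a) ^ 3 / Y ^ 2 ∧
      (z = 0 → v 0 ≠ 0 → v 1 ≠ 0 → v 2 ≠ 0 → (n : ℝ) ≤ 8 * D * (a ^ 3 / Y ^ 2))

end Pool.Agent.SLB
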