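import Pool.Agent.SLB.Defs

namespace Pool.Agent.SLB

/-- Cramer's identity for four vectors of a 3-dimensional space (coordinates; expand and `ring`, for each `i`
by `fin_cases i`). -/
theorem cramer4 {R : Type*} [CommRing R] (a b c d : Fin 3 → R) (i : Fin 3) :
    det3 a b c * d i = det3 d b c * a i + det3 a d c * b i + det3 a b d * c i := by
  unfold det3
  fin_cases i
  · show _ * d 0 = _ * a 0 + _ * b 0 + _ * c 0
    ring
  · show _ * d 1 = _ * a 1 + _ * b 1 + _ * c 1
    ring
  · show _ * d 2 = _ * a 2 + _ * b 2 + _ * c 2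
    ring

/-- `det3` is the Mathlib determinant (`Matrix.det_fin_three`). -/
theorem det3_eq {R : Type*} [CommRing R] (a b c : Fin 3 → R) :
    det3 a b c = Matrix.det (Matrix.of ![a, b, c]) := by
  rw [Matrix.det_fin_three]
  unfold det3
  simp only [Matrix.of_apply, Matrix.cons_val_zero, Matrix.cons_val_one, Matrix.cons_val]
  ring

/-- if `a, b` are integer vectors with `det3 a b e = 0` for the three unit vectors `e`, and `a <> 0`, then `b` is a
rational multiple of `a`: there is a coordinate `i` with `a i <> 0`, and `a i * b j = b i * a j` for all `j`.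
PROOF: the three determinants are (up to sign) the 2x2 minors `a j b k - a k b j`. -/
theorem parallel {a b : V3} (ha : a ≠ 0)
    (h : ∀ i : Fin 3, det3 a b (Pi.single i 1) = 0) :
    ∃ i : Fin 3, a i ≠ 0 ∧ ∀ j : Fin 3, a i * b j = b i * a j := by
  have h0 := h 0
  have h1 := h 1
  have h2 := h 2
  simp [det3] at h0 h1 h2
  have hmin : ∀ i j : Fin 3, a i * b j = b i * a j := by
    intro i j
    fin_cases i <;> fin_cases j <;> simp <;> linarith
  obtain ⟨i, hi⟩ : ∃ i, a i ≠ 0 := by
    by_contra hcon
    push Not at hcon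
    exact ha (funext hcon)
  exact ⟨i, hi, hmin i⟩

/-- linear algebra of `det3` in each argument, integers (all by unfolding and `ring`). -/
theorem det3_lin {R : Type*} [CommRing R] (a a' b c : Fin 3 → R) (s t : R) :
    det3 (fun i => s * a i + t * a' i) b c = s * det3 a b c + t * det3 a' b c ∧
    det3 b (fun i => s * a i + t * a' i) c = s * det3 b a c + t * det3 b a' c ∧
    det3 b c (fun i => s * a i + t * a' i) = s * det3 b c a + t * det3 b c a' ∧
    det3 a b c = - det3 b a c ∧ det3 a b c = - det3 a c b ∧ det3 a a b = 0 ∧ det3 a b b = 0 ∧ det3 a b a = 0 := by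
  unfold det3
  refine ⟨?_, ?_, ?_, ?_, ?_, ?_, ?_, ?_⟩ <;> ring

end Pool.Agent.SLB
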