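import Pool.Agent.SLB.Defs

namespace Pool.Agent.SLB

private theorem zer_dvd {y a x w : ℤ} (ha : Squarefree a) (hx : x ≠ 0)
    (h : y * x ^ 3 + a * w ^ 3 = 0) : a ∣ y := by
  have hg : 0 < Int.gcd x w := Int.gcd_pos_of_ne_zero_left _ hx
  obtain ⟨x1, w1, hc, e1, e2⟩ := Int.exists_gcd_one hg
  have hg0 : ((Int.gcd x w : ℕ) : ℤ) ≠ 0 := by exact_mod_cast hg.ne'
  generalize ((Int.gcd x w : ℕ) : ℤ) = g at e1 e2 hg0
  subst e1 e2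
  have h1 : g ^ 3 * (y * x1 ^ 3 + a * w1 ^ 3) = 0 := by
    calc g ^ 3 * (y * x1 ^ 3 + a * w1 ^ 3) = y * (x1 * g) ^ 3 + a * (w1 * g) ^ 3 := by ring
      _ = 0 := h
  have h2 : y * x1 ^ 3 + a * w1 ^ 3 = 0 := by
    rcases mul_eq_zero.mp h1 with h3 | h3
    · exact absurd h3 (pow_ne_zero 3 hg0)
    · exact h3
  have hcop : IsCoprime x1 w1 := Int.isCoprime_iff_gcd_eq_one.mpr hc
  have hd : x1 ^ 3 ∣ a * w1 ^ 3 := ⟨-y, by linarith⟩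
  have hd2 : x1 ^ 3 ∣ a := (hcop.pow (m := 3) (n := 3)).dvd_of_dvd_mul_right hd
  have hu : IsUnit x1 := ha x1 (dvd_trans ⟨x1, by ring⟩ hd2)
  rcases Int.isUnit_iff.mp hu with h3 | h3
  · subst h3
    exact ⟨-w1 ^ 3, by linarith⟩
  · subst h3
    exact ⟨w1 ^ 3, by linarith⟩

private theorem zer_no {Y : ℝ} {y a b : ℤ} (ha2 : 2 ≤ a) (hY : Y ≤ (a : ℝ)) (hy : y ≠ 0)
    (hh : |(y : ℝ)| < Y ∨ IsCoprime y b) (hab : a ∣ b) (had : a ∣ y) : False := by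
  rcases hh with h | h
  · have h1 : a ≤ |y| := Int.le_of_dvd (abs_pos.mpr hy) ((dvd_abs a y).mpr had)
    have h2 : (a : ℝ) ≤ |(y : ℝ)| := by exact_mod_cast h1
    linarith
  · have h1 : IsUnit a := h.isUnit_of_dvd' had hab
    rcases Int.isUnit_iff.mp h1 with h3 | h3 <;> omega

/-- (8.3) A zero of `Phi` with `x <> 0` has `u, w <> 0` when `|y| < Y` or `y` is coprime to `y2 y3`.
PROOF.  Suppose `u = 0`: `y x^3 + y3 w^3 = 0`.  `w <> 0` (else `y x^3 = 0`).  Divide by `g = gcd(x,w)`: `x = g x1, w = g w1`,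
`y x1^3 = - y3 w1^3`, `x1, w1` coprime, so `x1^3 | y3`, `y3` squarefree, so `x1 = ± 1` and `y = ∓ y3 w1^3`.  Then
`y3 | y`, so `|y| >= y3 >= Y`; and if `y` is coprime to `y2 y3` then `y3 | 1`, contradiction to `2 <= y3`.
`w = 0`: the same with `y2`. -/
theorem zero_type {Y S : ℝ} {o : Ob} (ha : Adm Y S o.1.1 o.1.2) (hy : o.2.2 ≠ 0)
    (hh : |(o.2.2 : ℝ)| < Y ∨ IsCoprime o.2.2 (o.1.1 * o.1.2)) {k : V3} (hk : k 0 ≠ 0) (h0 : PhiO o k = 0) :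
    k 1 ≠ 0 ∧ k 2 ≠ 0 := by
  have h0' : Phi o.1.1 o.1.2 o.2.1 o.2.2 (k 0) (k 1) (k 2) = 0 := h0
  unfold Phi at h0'
  constructor
  · intro h1
    rw [h1] at h0'
    have h2 : o.2.2 * (k 0) ^ 3 + o.1.2 * (k 2) ^ 3 = 0 := by linarith
    exact zer_no ha.ari.two3 ha.lo3 hy hh (dvd_mul_left _ _) (zer_dvd ha.ari.sq3 hk h2)
  · intro h1
    rw [h1] at h0'
    have h2 : o.2.2 * (k 0) ^ 3 + o.1.1 * (k 1) ^ 3 = 0 := by linarith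
    exact zer_no ha.ari.two2 ha.lo2 hy hh (dvd_mul_right _ _) (zer_dvd ha.ari.sq2 hk h2)

end Pool.Agent.SLB
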