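import Pool.Agent.SLB.Stp
import Pool.Agent.SLB.Zer

namespace Pool.Agent.SLB

/-- the bad vertices `v = ((y2,y3),(p,y1))` -/
def Bad (Y S kap : ℝ) : Set Ob :=
  {o | Adm Y S o.1.1 o.1.2 ∧ o.2.1 ≠ 0 ∧ o.2.2 ≠ 0 ∧ |(o.2.1 : ℝ)| ≤ S * Y ∧ |(o.2.2 : ℝ)| ≤ S * Y ∧
    IsCoprime o.2.2 (o.1.1 * o.1.2) ∧ Y ^ 3 / S ≤ |(DlO o : ℝ)| ∧
    ∃ k : V3, k ≠ 0 ∧ (∀ i : Fin 3, |(k i : ℝ)| ≤ kap * Y) ∧ DlO o ∣ PhiO o k}

/-- Section 11: the three types of bad vertices.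
PROOF.  `Bad ⊆ Obj Y S (S Y)` (`|y| <= S Y <= (S Y)^3/Y^2`).  `Phi(k) = Dl z`.  `k0 = 0`: `Phi = y2 k1^3 + y3 k2^3`, `(k1,k2) <> 0`:
`VPs`, `U = kap Y`.  `k0 <> 0`, `z = 0`: `zero_type` (coprime): `VZs`, `X0 = U0 = kap Y`.  `k0 <> 0`, `z <> 0`:
`|Phi| <= 6 S Y (kap Y)^3` (four terms: `S Y + S Y + S Y + 3 S Y`), `|Dl| >= Y^3/S`, so `|z| <= 6 S^2 kap^3 Y <= (2 S kap Y)^3/Y^2 = 8 S^3 kap^3 Y`;
`|k0| <= kap Y <= 2 S kap Y`; `|k1|,|k2| <= kap Y <= (2 S kap Y)(S Y)/Y`: `o ∈ NDs Y S (2 S kap Y) (S Y)`; `NDs_le`, `E_symm`. -/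
theorem bad_le {Y S D kap : ℝ} (hC : Con Y S D) (hk : 0 < kap) (hk1 : kap ≤ 1) :
    (Bad Y S kap).Finite ∧ ((Bad Y S kap).ncard : ℝ) ≤ ((VPs Y S (S * Y) (kap * Y)).ncard : ℝ)
      + ((VZs Y S (S * Y) (kap * Y) (kap * Y)).ncard : ℝ) + (E Y S (S * Y) (2 * S * kap * Y) : ℝ) := by
  have hY : (2 : ℝ) ≤ Y := hC.hY
  have hY0 : (0 : ℝ) < Y := by linarith
  have hS1 : (1 : ℝ) ≤ S := hC.hS1
  have hS0 : (0 : ℝ) < S := by linarith
  have hKY : 0 < kap * Y := mul_pos hk hY0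
  have hObj : Bad Y S kap ⊆ Obj Y S (S * Y) := by
    rintro o ⟨hA, hp, hy, hp1, hy1, -⟩
    refine ⟨hA, hp, hy, hp1, le_trans hy1 ?_⟩
    rw [le_div_iff₀ (by positivity)]
    have : S * Y * Y ^ 2 = S * Y ^ 3 := by ring
    have h2 : (S * Y) ^ 3 = S ^ 2 * (S * Y ^ 3) := by ring
    rw [this, h2]
    have h3 : (1 : ℝ) ≤ S ^ 2 := one_le_pow₀ hS1
    exact le_mul_of_one_le_left (by positivity) h3
  have hVP : VPs Y S (S * Y) (kap * Y) ⊆ Obj Y S (S * Y) := fun o ho => ho.1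
  have hVZ : VZs Y S (S * Y) (kap * Y) (kap * Y) ⊆ Obj Y S (S * Y) := fun o ho => ho.1
  have hND : NDs Y S (2 * S * kap * Y) (S * Y) ⊆ Obj Y S (S * Y) := fun o ho => ho.1
  have hF := Obj_finite hY0 S (S * Y)
  have hsub : Bad Y S kap ⊆ (VPs Y S (S * Y) (kap * Y) ∪ VZs Y S (S * Y) (kap * Y) (kap * Y)) ∪
      NDs Y S (2 * S * kap * Y) (S * Y) := by
    intro o ho
    have hoO := hObj ho
    obtain ⟨hA, hp, hy, hp1, hy1, hco, hDl, k, hk0, hkb, hdvd⟩ := ho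
    by_cases h0 : k 0 = 0
    · refine Or.inl (Or.inl ⟨hoO, k 1, k 2, ?_, hkb 1, hkb 2, ?_⟩)
      · rintro ⟨h1, h2⟩
        apply hk0
        funext i
        fin_cases i
        · exact h0
        · exact h1
        · exact h2
      · have : PhiO o k = o.1.1 * (k 1) ^ 3 + o.1.2 * (k 2) ^ 3 := by
          unfold PhiO Phi
          rw [h0]
          ring
        rw [← this]
        exact hdvd
    · obtain ⟨z, hz⟩ := hdvd
      by_cases hz0 : z = 0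
      · rw [hz0, mul_zero] at hz
        obtain ⟨h1, h2⟩ := zero_type hA hy (Or.inr hco) h0 hz
        exact Or.inl (Or.inr ⟨hoO, k, h0, h1, h2, hkb 0, hkb 1, hkb 2, hz⟩)
      · refine Or.inr ⟨hoO, k, h0, ?_, ?_, ?_, z, hz0, ?_, hz⟩
        · refine le_trans (hkb 0) ?_
          nlinarith [mul_le_mul_of_nonneg_right hS1 hKY.le]
        · refine le_trans (hkb 1) ?_
          rw [le_div_iff₀ hY0]
          have h3 : (1 : ℝ) ≤ S ^ 2 := one_le_pow₀ hS1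
          have h4 : (2 * S * kap * Y) * (S * Y) = 2 * S ^ 2 * (kap * Y * Y) := by ring
          rw [h4]
          exact le_mul_of_one_le_left (by positivity) (by linarith)
        · refine le_trans (hkb 2) ?_
          rw [le_div_iff₀ hY0]
          have h3 : (1 : ℝ) ≤ S ^ 2 := one_le_pow₀ hS1
          have h4 : (2 * S * kap * Y) * (S * Y) = 2 * S ^ 2 * (kap * Y * Y) := by ring
          rw [h4]
          exact le_mul_of_one_le_left (by positivity) (by linarith)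
        · have hzr : (PhiO o k : ℝ) = (DlO o : ℝ) * (z : ℝ) := by exact_mod_cast hz
          have hPe : (PhiO o k : ℝ) = (o.2.2 : ℝ) * (k 0 : ℝ) ^ 3 + (o.1.1 : ℝ) * (k 1 : ℝ) ^ 3
              + (o.1.2 : ℝ) * (k 2 : ℝ) ^ 3 - 3 * (o.2.1 : ℝ) * (k 0 : ℝ) * (k 1 : ℝ) * (k 2 : ℝ) := by
            unfold PhiO Phi
            push_cast
            ring
          have h11 : |(o.1.1 : ℝ)| ≤ S * Y := by
            rw [abs_of_nonneg (le_trans hY0.le hA.lo2)]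
            exact hA.hi2
          have h12 : |(o.1.2 : ℝ)| ≤ S * Y := by
            rw [abs_of_nonneg (le_trans hY0.le hA.lo3)]
            exact hA.hi3
          have hT : ∀ c x y w : ℝ, |c| ≤ S * Y → |x| ≤ kap * Y → |y| ≤ kap * Y → |w| ≤ kap * Y →
              |c * x * y * w| ≤ S * Y * (kap * Y) * (kap * Y) * (kap * Y) := by
            intro c x y w hc hx hy' hw
            rw [abs_mul, abs_mul, abs_mul]
            gcongr
          have e1 := hT _ _ _ _ hy1 (hkb 0) (hkb 0) (hkb 0)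
          have e2 := hT _ _ _ _ h11 (hkb 1) (hkb 1) (hkb 1)
          have e3 := hT _ _ _ _ h12 (hkb 2) (hkb 2) (hkb 2)
          have e4 := hT _ _ _ _ hp1 (hkb 0) (hkb 1) (hkb 2)
          have hPb : |(PhiO o k : ℝ)| ≤ 6 * (S * Y * (kap * Y) * (kap * Y) * (kap * Y)) := by
            rw [hPe]
            rw [abs_le] at e1 e2 e3 e4 ⊢
            constructor
            · nlinarith [e1.1, e2.1, e3.1, e4.2]
            · nlinarith [e1.2, e2.2, e3.2, e4.1]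
          rw [hzr, abs_mul] at hPb
          have hq : Y ^ 3 / S * |(z : ℝ)| ≤ 6 * (S * Y * (kap * Y) * (kap * Y) * (kap * Y)) :=
            le_trans (mul_le_mul_of_nonneg_right hDl (abs_nonneg _)) hPb
          have hz6 : |(z : ℝ)| ≤ 6 * S ^ 2 * kap ^ 3 * Y := by
            have h5 : Y ^ 3 / S * (6 * S ^ 2 * kap ^ 3 * Y) = 6 * (S * Y * (kap * Y) * (kap * Y) * (kap * Y)) := by
              field_simp
            rw [← h5] at hq
            exact le_of_mul_le_mul_left hq (by positivity)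
          refine le_trans hz6 ?_
          have h6 : (2 * S * kap * Y) ^ 3 / Y ^ 2 = 8 * S * (S ^ 2 * kap ^ 3 * Y) := by
            field_simp
            ring
          rw [h6]
          have h7 : 6 * S ^ 2 * kap ^ 3 * Y = 6 * (S ^ 2 * kap ^ 3 * Y) := by ring
          rw [h7]
          exact mul_le_mul_of_nonneg_right (by linarith) (by positivity)
  refine ⟨hF.subset hObj, ?_⟩
  have hfin : ((VPs Y S (S * Y) (kap * Y) ∪ VZs Y S (S * Y) (kap * Y) (kap * Y)) ∪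
      NDs Y S (2 * S * kap * Y) (S * Y)).Finite :=
    (((hF.subset hVP).union (hF.subset hVZ)).union (hF.subset hND))
  have h1 := Set.ncard_le_ncard hsub hfin
  have h2 := Set.ncard_union_le (VPs Y S (S * Y) (kap * Y) ∪ VZs Y S (S * Y) (kap * Y) (kap * Y))
    (NDs Y S (2 * S * kap * Y) (S * Y))
  have h3 := Set.ncard_union_le (VPs Y S (S * Y) (kap * Y)) (VZs Y S (S * Y) (kap * Y) (kap * Y))
  have h4 := NDs_le hY0 S (2 * S * kap * Y) (S * Y)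
  rw [E_symm] at h4
  have h5 : (Bad Y S kap).ncard ≤ (VPs Y S (S * Y) (kap * Y)).ncard +
      (VZs Y S (S * Y) (kap * Y) (kap * Y)).ncard + E Y S (S * Y) (2 * S * kap * Y) := by omega
  exact_mod_cast h5

/-- Section 11 with the explicit bounds, `kap = lam^4`.
PROOF.  `VP_bound` (`b = S Y`, `2 b < Y^2`), `VZ_bound`, `induct` with `a = S Y`, `b = 2 S kap Y` (`2 S lam^4 Y <= lam^2 S Y`):
`(16000 D^16)^J/lam^6 * (S Y)^2 (2 S lam^4 Y)^2 = 4 (16000 D^16)^J S^4 lam^2 Y^4`. -/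
theorem bad_bound {Y S D lam : ℝ} (hC : Con Y S D) (hS : 2 * S < Y) (hl : 0 < lam) (hl1 : 1152 * D ^ 2 * lam ^ 2 ≤ 1)
    (J : ℕ) (hJ : (2 * S * lam ^ 4 * Y) ^ 3 * lam ^ (6 * J) < Y ^ 2) :
    ((Bad Y S (lam ^ 4)).ncard : ℝ) ≤ 16 * S ^ 2 * D ^ 3 * lam ^ 8 * Y ^ 4 + 16 * S ^ 2 * D * lam ^ 8 * Y ^ 4
      + 32 * S ^ 5 * D ^ 3 * Y ^ 3 + 4 * (16000 * D ^ 16) ^ J * S ^ 4 * lam ^ 2 * Y ^ 4 := by
  have hY : (2 : ℝ) ≤ Y := hC.hY
  have hY0 : (0 : ℝ) < Y := by linarith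
  have hS1 : (1 : ℝ) ≤ S := hC.hS1
  have hS0 : (0 : ℝ) < S := by linarith
  have hD1 : (1 : ℝ) ≤ D := le_trans hS1 hC.hSD
  have hD2 : (1 : ℝ) ≤ D ^ 2 := one_le_pow₀ hD1
  have hl2 : 2 * lam ^ 2 ≤ 1 := by
    have : (0 : ℝ) ≤ lam ^ 2 := by positivity
    nlinarith
  have hl4 : lam ^ 4 ≤ 1 := by
    have h0 : (0 : ℝ) ≤ lam ^ 2 := by positivity
    have h1 : lam ^ 2 ≤ 1 := by linarith
    have h2 : lam ^ 4 = lam ^ 2 * lam ^ 2 := by ring
    rw [h2]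
    nlinarith
  have hk : 0 < lam ^ 4 := by positivity
  obtain ⟨-, hb⟩ := bad_le hC hk hl4
  have hY10 : Y ≤ Y ^ 10 := le_self_pow₀ (by linarith) (by norm_num)
  have hU : lam ^ 4 * Y ≤ Y ^ 10 := le_trans (mul_le_of_le_one_left hY0.le hl4) hY10
  have hvp := VP_bound (b := S * Y) (U := lam ^ 4 * Y) hC (mul_pos hS0 hY0) (by nlinarith) (by positivity) hU
  have hvz := VZ_bound (b := S * Y) (X0 := lam ^ 4 * Y) (U0 := lam ^ 4 * Y) hC (mul_pos hS0 hY0)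
    (mul_le_mul_of_nonneg_right (le_trans hl4 hS1) hY0.le) (by positivity) hU
  have hba : 2 * S * lam ^ 4 * Y ≤ lam ^ 2 * (S * Y) := by
    have h1 : 2 * S * lam ^ 4 * Y = (2 * lam ^ 2) * (lam ^ 2 * (S * Y)) := by ring
    rw [h1]
    exact mul_le_of_le_one_left (by positivity) hl2
  have hin := induct hC hl hl1 J (S * Y) (2 * S * lam ^ 4 * Y) (mul_pos hS0 hY0) (by positivity) hba le_rfl hJ
  have e1 : 16 * S ^ 2 * D ^ 3 * Y ^ 2 * (lam ^ 4 * Y) ^ 2 = 16 * S ^ 2 * D ^ 3 * lam ^ 8 * Y ^ 4 := by ring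
  have e2 : 16 * S ^ 2 * D * Y ^ 2 * (lam ^ 4 * Y) ^ 2 + 32 * S ^ 2 * D ^ 3 * (S * Y) ^ 3
      = 16 * S ^ 2 * D * lam ^ 8 * Y ^ 4 + 32 * S ^ 5 * D ^ 3 * Y ^ 3 := by ring
  have e3 : (16000 * D ^ 16) ^ J / lam ^ 6 * ((S * Y) ^ 2 * (2 * S * lam ^ 4 * Y) ^ 2)
      = 4 * (16000 * D ^ 16) ^ J * S ^ 4 * lam ^ 2 * Y ^ 4 := by
    have hl0 : lam ≠ 0 := hl.ne'
    field_simp
    ring
  rw [e1] at hvp
  rw [e2] at hvz
  rw [e3] at hin
  linarith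

end Pool.Agent.SLB
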