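import Pool.Agent.SLB.Defs

namespace Pool.Agent.SLB

/-- `sum_{n <= N} gcd(n, q) <= N d(q)`.
PROOF: `gcd(n,q) <= sum over the divisors g of q with g | n of g`; exchange; the number of `n` in `[1,N]` divisible by `g` is
`N/g` (natural division), times `g` is `<= N`. -/
theorem gcd_sum (N q : ℕ) (hq : 1 ≤ q) : ∑ n ∈ Finset.Icc 1 N, Nat.gcd n q ≤ N * q.divisors.card := by
  have h1 : ∀ n ∈ Finset.Icc 1 N, Nat.gcd n q ≤ ∑ g ∈ q.divisors, if g ∣ n then g else 0 := by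
    intro n _
    have hmem : Nat.gcd n q ∈ q.divisors :=
      Nat.mem_divisors.mpr ⟨Nat.gcd_dvd_right n q, by omega⟩
    calc Nat.gcd n q = if Nat.gcd n q ∣ n then Nat.gcd n q else 0 := by
          rw [if_pos (Nat.gcd_dvd_left n q)]
      _ ≤ ∑ g ∈ q.divisors, if g ∣ n then g else 0 :=
          Finset.single_le_sum (f := fun g => if g ∣ n then g else 0) (fun _ _ => Nat.zero_le _) hmem
  calc ∑ n ∈ Finset.Icc 1 N, Nat.gcd n q
      ≤ ∑ n ∈ Finset.Icc 1 N, ∑ g ∈ q.divisors, (if g ∣ n then g else 0) := Finset.sum_le_sum h1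
    _ = ∑ g ∈ q.divisors, ∑ n ∈ Finset.Icc 1 N, (if g ∣ n then g else 0) := Finset.sum_comm
    _ ≤ ∑ g ∈ q.divisors, N := by
        refine Finset.sum_le_sum fun g _ => ?_
        rw [← Finset.sum_filter, Finset.sum_const, smul_eq_mul]
        have h2 : (Finset.Icc 1 N).filter (g ∣ ·) = (Finset.Ioc 0 N).filter (g ∣ ·) := by
          ext n
          simp only [Finset.mem_filter, Finset.mem_Icc, Finset.mem_Ioc]
          constructor
          · rintro ⟨⟨a, b⟩, c⟩; exact ⟨⟨by omega, b⟩, c⟩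
          · rintro ⟨⟨a, b⟩, c⟩; exact ⟨⟨by omega, b⟩, c⟩
        rw [h2, Nat.Ioc_filter_dvd_card_eq_div]
        exact Nat.div_mul_le_self N g
    _ = N * q.divisors.card := by rw [Finset.sum_const, smul_eq_mul, mul_comm]

private theorem gcd_fib {X : ℝ} (hX : 0 ≤ X) (T : Finset ℤ) (hT : ∀ n ∈ T, 0 < n ∧ (n : ℝ) ≤ X) (q : ℤ)
    (hq : q ≠ 0) : ((∑ n ∈ T, Int.gcd n q : ℕ) : ℝ) ≤ X * dN q := by
  have h1 : ∑ n ∈ T, Int.gcd n q ≤ ∑ n ∈ Finset.Icc 1 ⌊X⌋₊, Nat.gcd n q.natAbs := by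
    have e : ∑ n ∈ T, Int.gcd n q = ∑ m ∈ T.image Int.natAbs, Nat.gcd m q.natAbs := by
      rw [Finset.sum_image]
      · rfl
      · intro a ha b hb hab
        have ha' := (hT a ha).1
        have hb' := (hT b hb).1
        have hab' : a.natAbs = b.natAbs := hab
        omega
    rw [e]
    refine Finset.sum_le_sum_of_subset fun m hm => ?_
    obtain ⟨n, hn, rfl⟩ := Finset.mem_image.mp hm
    have h2 := hT n hn
    rw [Finset.mem_Icc]
    refine ⟨by omega, Nat.le_floor ?_⟩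
    have h3 : ((n.natAbs : ℕ) : ℝ) = (n : ℝ) := by
      rw [Nat.cast_natAbs, abs_of_pos h2.1]
    rw [h3]; exact h2.2
  have h4 := gcd_sum ⌊X⌋₊ q.natAbs (by omega)
  have h5 : ((∑ n ∈ T, Int.gcd n q : ℕ) : ℝ) ≤ ((⌊X⌋₊ * q.natAbs.divisors.card : ℕ) : ℝ) := by
    exact_mod_cast h1.trans h4
  refine h5.trans ?_
  push_cast
  unfold dN
  exact mul_le_mul_of_nonneg_right (Nat.floor_le hX) (Nat.cast_nonneg _)

/-- the same over nonzero integers `|n| <= X` (a finite set `T` of nonzero integers with `|n| <= X`):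
`sum gcd(n,q) <= 2 X d(q)`.  PROOF: at most two `n` (`n`, `-n`) for each `|n|`, `N = ⌊X⌋₊`. -/
theorem gcd_sum_int {X : ℝ} (hX : 0 ≤ X) (T : Finset ℤ) (hT : ∀ n ∈ T, n ≠ 0 ∧ |(n : ℝ)| ≤ X) (q : ℤ)
    (hq : q ≠ 0) : ((∑ n ∈ T, Int.gcd n q : ℕ) : ℝ) ≤ 2 * X * dN q := by
  have h1 := gcd_fib hX (T.filter (0 < ·)) (fun n hn => by
    rw [Finset.mem_filter] at hn
    exact ⟨hn.2, (le_abs_self _).trans (hT n hn.1).2⟩) q hq
  have h2 := gcd_fib hX ((T.filter (¬ 0 < ·)).image (-·)) (fun n hn => by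
    obtain ⟨m, hm, rfl⟩ := Finset.mem_image.mp hn
    rw [Finset.mem_filter] at hm
    have h3 := hT m hm.1
    refine ⟨by have := hm.2; have := h3.1; omega, ?_⟩
    push_cast
    exact (neg_le_abs _).trans h3.2) q hq
  rw [Finset.sum_image (fun a _ b _ h => neg_injective h)] at h2
  have h3 : ∑ n ∈ T, Int.gcd n q = ∑ n ∈ T.filter (0 < ·), Int.gcd n q +
      ∑ n ∈ T.filter (¬ 0 < ·), Int.gcd (-n) q := by
    rw [← Finset.sum_filter_add_sum_filter_not T (0 < ·)]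
    congr 1
    refine Finset.sum_congr rfl fun n _ => ?_
    simp [Int.gcd]
  rw [h3, Nat.cast_add]
  linarith

/-- the same over positive integers `n <= X`: `sum gcd(n,q) <= X d(q)`. -/
theorem gcd_sum_pos {X : ℝ} (hX : 0 ≤ X) (T : Finset ℤ) (hT : ∀ n ∈ T, 0 < n ∧ (n : ℝ) ≤ X) (q : ℤ)
    (hq : q ≠ 0) : ((∑ n ∈ T, Int.gcd n q : ℕ) : ℝ) ≤ X * dN q := gcd_fib hX T hT q hq

private theorem inv_fib {X : ℝ} (hX : 1 ≤ X) (T : Finset ℤ) (hT : ∀ n ∈ T, 0 < n ∧ (n : ℝ) ≤ X) :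
    ∑ n ∈ T, 1 / |(n : ℝ)| ≤ 1 + Real.log X := by
  have h1 : ∑ n ∈ T, 1 / |(n : ℝ)| ≤ ∑ m ∈ Finset.Icc 1 ⌊X⌋₊, (1 : ℝ) / m := by
    have e : ∑ n ∈ T, 1 / |(n : ℝ)| = ∑ m ∈ T.image Int.natAbs, (1 : ℝ) / m := by
      rw [Finset.sum_image]
      · refine Finset.sum_congr rfl fun n _ => ?_
        rw [Nat.cast_natAbs, Int.cast_abs]
      · intro a ha b hb hab
        have ha' := (hT a ha).1
        have hb' := (hT b hb).1
        have hab' : a.natAbs = b.natAbs := hab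
        omega
    rw [e]
    refine Finset.sum_le_sum_of_subset_of_nonneg (fun m hm => ?_) fun _ _ _ => by positivity
    obtain ⟨n, hn, rfl⟩ := Finset.mem_image.mp hm
    have h2 := hT n hn
    rw [Finset.mem_Icc]
    refine ⟨by omega, Nat.le_floor ?_⟩
    have h3 : ((n.natAbs : ℕ) : ℝ) = (n : ℝ) := by
      rw [Nat.cast_natAbs, abs_of_pos h2.1]
    rw [h3]; exact h2.2
  refine h1.trans ?_
  have h2 := harmonic_floor_le_one_add_log X hX
  have h3 : ∑ m ∈ Finset.Icc 1 ⌊X⌋₊, (1 : ℝ) / m = (harmonic ⌊X⌋₊ : ℝ) := by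
    rw [harmonic_eq_sum_Icc]
    push_cast
    refine Finset.sum_congr rfl fun m _ => ?_
    rw [one_div]
  rw [h3]; exact h2

/-- `sum_{p in T} 1/|p| <= 2 (1 + log X)` for a finite set of nonzero integers with `|p| <= X`, `X >= 1` -/
theorem inv_sum {X : ℝ} (hX : 1 ≤ X) (T : Finset ℤ) (hT : ∀ n ∈ T, n ≠ 0 ∧ |(n : ℝ)| ≤ X) :
    ∑ n ∈ T, 1 / |(n : ℝ)| ≤ 2 * (1 + Real.log X) := by
  have h1 := inv_fib hX (T.filter (0 < ·)) (fun n hn => by
    rw [Finset.mem_filter] at hn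
    exact ⟨hn.2, (le_abs_self _).trans (hT n hn.1).2⟩)
  have h2 := inv_fib hX ((T.filter (¬ 0 < ·)).image (-·)) (fun n hn => by
    obtain ⟨m, hm, rfl⟩ := Finset.mem_image.mp hn
    rw [Finset.mem_filter] at hm
    have h3 := hT m hm.1
    refine ⟨by have := hm.2; have := h3.1; omega, ?_⟩
    push_cast
    exact (neg_le_abs _).trans h3.2)
  rw [Finset.sum_image (fun a _ b _ h => neg_injective h)] at h2
  have h3 : ∑ n ∈ T, 1 / |(n : ℝ)| = ∑ n ∈ T.filter (0 < ·), 1 / |(n : ℝ)| +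
      ∑ n ∈ T.filter (¬ 0 < ·), 1 / |((-n : ℤ) : ℝ)| := by
    rw [← Finset.sum_filter_add_sum_filter_not T (0 < ·)]
    congr 1
    refine Finset.sum_congr rfl fun n _ => ?_
    push_cast
    rw [abs_neg]
  rw [h3]
  linarith

end Pool.Agent.SLB
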