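import Pool.Agent.SLB.NsI

namespace Pool.Agent.SLB

private def nsRel (v1 v2 v3 : V3) (q q' : V3) : Prop :=
  ∃ r s t : ℤ, q - q' = r • v1 + s • v2 + t • v3

private def nsSetoid (v1 v2 v3 : V3) : Setoid V3 where
  r := nsRel v1 v2 v3
  iseqv := by
    refine ⟨fun q => ⟨0, 0, 0, by simp⟩, ?_, ?_⟩
    · rintro q q' ⟨r, s, t, h⟩
      refine ⟨-r, -s, -t, ?_⟩
      have : q' - q = -(q - q') := by abel
      rw [this, h]
      simp only [neg_smul]
      abel
    · rintro a b c ⟨r, s, t, h⟩ ⟨r', s', t', h'⟩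
      refine ⟨r + r', s + s', t + t', ?_⟩
      have : a - c = (a - b) + (b - c) := by abel
      rw [this, h, h']
      simp only [add_smul]
      abel

private lemma ns_three (a : ℝ) : (Finset.Icc ⌈-1 - a⌉ ⌊1 - a⌋).card ≤ 3 := by
  rw [Int.card_Icc]
  have h1 : ((⌊1 - a⌋ : ℤ) : ℝ) ≤ 1 - a := Int.floor_le _
  have h2 : -1 - a ≤ ((⌈-1 - a⌉ : ℤ) : ℝ) := Int.le_ceil _
  have h3 : ((⌊1 - a⌋ : ℤ) : ℝ) - ((⌈-1 - a⌉ : ℤ) : ℝ) ≤ 2 := by linarith
  have h4 : ⌊1 - a⌋ - ⌈-1 - a⌉ ≤ 2 := by exact_mod_cast h3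
  omega

private lemma ns_mem (x x0 r D : ℤ) (hD : D ≠ 0) (hx : |x| ≤ |D|) (h : x = x0 + r * D) :
    r ∈ Finset.Icc ⌈-1 - (x0 : ℝ) / D⌉ ⌊1 - (x0 : ℝ) / D⌋ := by
  have hDr : (D : ℝ) ≠ 0 := by exact_mod_cast hD
  have h1 : (x : ℝ) / D = (x0 : ℝ) / D + r := by
    rw [h]
    push_cast
    field_simp
  have h2 : |(x : ℝ) / D| ≤ 1 := by
    rw [abs_div, div_le_one (abs_pos.2 hDr)]
    exact_mod_cast hx
  have h3 := abs_le.1 h2
  rw [Finset.mem_Icc]
  constructor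
  · apply Int.ceil_le.2
    linarith [h3.1]
  · apply Int.le_floor.2
    linarith [h3.2]

/-- (3.1) The count of points of a lattice in a symmetric body, three independent points.
PROOF.  Choose `v1,v2,v3` in `Q` with `|det3|` maximal (`Finset.exists_max_image` on `Q ×ˢ Q ×ˢ Q`), `D0 = |det3 v1 v2 v3| > 0`.
By `cramer4` (cast to ℝ or ℚ) every `q` in `Q` is `t1 v1 + t2 v2 + t3 v3` with `t1 = det3 q v2 v3 / det3 v1 v2 v3` etc.,
`|t_i| <= 1`.  Define an equivalence relation on `Q`: difference in `Zv1+Zv2+Zv3`; choose a maximal subset `T` of pairwise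
incongruent points (or representatives), so `#T * m0 <= D0 <= R` (`index_bound`).  Each class has at most 27 points: for
`q, q'` in one class the coordinates differ by integers, so for a fixed representative `q0` the map
`q ↦ (t1(q) - t1(q0), t2(q)-t2(q0), t3(q)-t3(q0))` is an injection to integer triples, and the real numbers `t1(q)` of the class
lie in `t1(q0) + Z` and in `[-1,1]`: at most 3 values (an interval of length 2 contains at most 3 integers).
So `#Q <= 27 #T <= 27 R / m0`. -/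
theorem ns (M : AddSubgroup V3) (m0 : ℕ) (hm : 0 < m0)
    (hdet : ∀ a ∈ M, ∀ b ∈ M, ∀ c ∈ M, (m0 : ℤ) ∣ det3 a b c)
    (Q : Finset V3) (hQ : ∀ q ∈ Q, q ∈ M) (R : ℝ)
    (hR : ∀ a ∈ Q, ∀ b ∈ Q, ∀ c ∈ Q, |((det3 a b c : ℤ) : ℝ)| ≤ R)
    (hne : ∃ a ∈ Q, ∃ b ∈ Q, ∃ c ∈ Q, det3 a b c ≠ 0) :
    (Q.card : ℝ) ≤ 27 * R / m0 := by
  classical
  obtain ⟨a, ha, b, hb, c, hc, habc⟩ := hne
  obtain ⟨v, hv, hmax⟩ := Finset.exists_max_image (Q ×ˢ Q ×ˢ Q)
    (fun p => |det3 p.1 p.2.1 p.2.2|) ⟨(a, b, c), by simp [ha, hb, hc]⟩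
  obtain ⟨v1, v2, v3⟩ := v
  simp only [Finset.mem_product] at hv
  obtain ⟨h1, h2, h3⟩ := hv
  have hmax' : ∀ x ∈ Q, ∀ y ∈ Q, ∀ z ∈ Q, |det3 x y z| ≤ |det3 v1 v2 v3| := fun x hx y hy z hz =>
    hmax (x, y, z) (by simp [hx, hy, hz])
  set D := det3 v1 v2 v3 with hD
  have hD0 : D ≠ 0 := by
    intro h
    have := hmax' a ha b hb c hc
    rw [h, abs_zero] at this
    exact habc (abs_eq_zero.1 (le_antisymm this (abs_nonneg _)))
  let st := nsSetoid v1 v2 v3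
  let f : V3 → Quotient st := fun q => Quotient.mk st q
  have hf : ∀ q q', f q = f q' → ∃ r s t : ℤ, q - q' = r • v1 + s • v2 + t • v3 := fun q q' h =>
    Quotient.exact (s := st) h
  have hf' : ∀ q q', (∃ r s t : ℤ, q - q' = r • v1 + s • v2 + t • v3) → f q = f q' := fun q q' h =>
    Quotient.sound (s := st) h
  -- every class has at most 27 points
  have hclass : ∀ c ∈ Q.image f, (Q.filter (fun x => f x = c)).card ≤ 27 := by
    intro c hc
    obtain ⟨q0, hq0, rfl⟩ := Finset.mem_image.1 hc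
    set I1 := Finset.Icc ⌈-1 - ((det3 q0 v2 v3 : ℤ) : ℝ) / D⌉ ⌊1 - ((det3 q0 v2 v3 : ℤ) : ℝ) / D⌋
    set I2 := Finset.Icc ⌈-1 - ((det3 v1 q0 v3 : ℤ) : ℝ) / D⌉ ⌊1 - ((det3 v1 q0 v3 : ℤ) : ℝ) / D⌋
    set I3 := Finset.Icc ⌈-1 - ((det3 v1 v2 q0 : ℤ) : ℝ) / D⌉ ⌊1 - ((det3 v1 v2 q0 : ℤ) : ℝ) / D⌋
    have hsub : Q.filter (fun x => f x = f q0) ⊆
        (I1 ×ˢ I2 ×ˢ I3).image (fun p : ℤ × ℤ × ℤ => q0 + (p.1 • v1 + p.2.1 • v2 + p.2.2 • v3)) := by
      intro q hq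
      obtain ⟨hqQ, hqf⟩ := Finset.mem_filter.1 hq
      obtain ⟨r, s, t, hrst⟩ := hf _ _ hqf
      have hqi : ∀ i, q i = q0 i + r * v1 i + s * v2 i + t * v3 i := by
        intro i
        have := congrFun hrst i
        simp only [Pi.sub_apply, Pi.add_apply, Pi.smul_apply, smul_eq_mul] at this
        linarith
      have e1 : det3 q v2 v3 = det3 q0 v2 v3 + r * D := by
        rw [hD]; simp only [det3, hqi]; ring
      have e2 : det3 v1 q v3 = det3 v1 q0 v3 + s * D := by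
        rw [hD]; simp only [det3, hqi]; ring
      have e3 : det3 v1 v2 q = det3 v1 v2 q0 + t * D := by
        rw [hD]; simp only [det3, hqi]; ring
      refine Finset.mem_image.2 ⟨(r, s, t), ?_, ?_⟩
      · simp only [Finset.mem_product]
        exact ⟨ns_mem _ _ _ _ hD0 (hmax' q hqQ v2 h2 v3 h3) e1,
          ns_mem _ _ _ _ hD0 (hmax' v1 h1 q hqQ v3 h3) e2,
          ns_mem _ _ _ _ hD0 (hmax' v1 h1 v2 h2 q hqQ) e3⟩
      · simp only
        rw [← hrst]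
        abel
    calc (Q.filter (fun x => f x = f q0)).card ≤ ((I1 ×ˢ I2 ×ˢ I3).image
          (fun p : ℤ × ℤ × ℤ => q0 + (p.1 • v1 + p.2.1 • v2 + p.2.2 • v3))).card :=
          Finset.card_le_card hsub
      _ ≤ (I1 ×ˢ I2 ×ˢ I3).card := Finset.card_image_le
      _ = I1.card * (I2.card * I3.card) := by rw [Finset.card_product, Finset.card_product]
      _ ≤ 3 * (3 * 3) := by
          gcongr
          · exact ns_three _
          · exact ns_three _
          · exact ns_three _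
      _ = 27 := by norm_num
  have hcard : Q.card ≤ 27 * (Q.image f).card := Finset.card_le_mul_card_image Q 27 hclass
  -- representatives
  have hrep : ∀ c ∈ Q.image f, ∃ q ∈ Q, f q = c := fun c hc => by
    obtain ⟨q, hq, h⟩ := Finset.mem_image.1 hc
    exact ⟨q, hq, h⟩
  choose! g hgQ hgf using hrep
  set T := (Q.image f).image g with hT
  have hTcard : T.card = (Q.image f).card := by
    apply Finset.card_image_of_injOn
    intro c hc c' hc' h
    rw [← hgf c hc, ← hgf c' hc', h]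
  have hTM : ∀ q ∈ T, q ∈ M := by
    intro q hq
    obtain ⟨c, hc, rfl⟩ := Finset.mem_image.1 hq
    exact hQ _ (hgQ c hc)
  have hinc : ∀ q ∈ T, ∀ q' ∈ T, q ≠ q' → ¬ ∃ r s t : ℤ, q - q' = r • v1 + s • v2 + t • v3 := by
    intro q hq q' hq' hne hrel
    obtain ⟨c, hc, rfl⟩ := Finset.mem_image.1 hq
    obtain ⟨c', hc', rfl⟩ := Finset.mem_image.1 hq'
    have := hf' _ _ hrel
    rw [hgf c hc, hgf c' hc'] at this
    exact hne (by rw [this])
  have hidx := index_bound M m0 hm hdet v1 v2 v3 (hQ _ h1) (hQ _ h2) (hQ _ h3) hD0 T hTM hinc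
  have hRD : |((D : ℤ) : ℝ)| ≤ R := hR v1 h1 v2 h2 v3 h3
  have hidx' : (T.card : ℝ) * m0 ≤ |((D : ℤ) : ℝ)| := by
    have : (((T.card * m0 : ℕ) : ℤ) : ℝ) ≤ ((|D| : ℤ) : ℝ) := by exact_mod_cast hidx
    push_cast at this
    exact this
  have hm' : (0 : ℝ) < m0 := by exact_mod_cast hm
  rw [le_div_iff₀ hm']
  have h27 : (Q.card : ℝ) ≤ 27 * T.card := by
    rw [hTcard]
    exact_mod_cast hcard
  calc (Q.card : ℝ) * m0 ≤ 27 * T.card * m0 := by gcongr
    _ = 27 * (T.card * m0) := by ring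
    _ ≤ 27 * R := by linarith

end Pool.Agent.SLB
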