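import Pool.Agent.SLB.Det

namespace Pool.Agent.SLB

private theorem det3_mat (a b c : V3) :
    det3 a b c = Matrix.det (Matrix.of ![a, b, c]) := by
  rw [Matrix.det_fin_three]
  simp only [det3, Matrix.of_apply, Matrix.cons_val_zero, Matrix.cons_val_one, Matrix.cons_val]
  ring

private theorem index_of_basis (N : Submodule ℤ V3) (b : Module.Basis (Fin 3) ℤ N) :
    N.toAddSubgroup.index = (det3 (b 0 : V3) (b 1 : V3) (b 2 : V3)).natAbs := by
  have h := Submodule.natAbs_det_basis_change (Pi.basisFun ℤ (Fin 3)) N b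
  have h2 : N.toAddSubgroup.index = Nat.card (V3 ⧸ N) := rfl
  rw [h2, ← h, det3_mat, Pi.basisFun_det]
  congr 1

private theorem card_le_rel (N M : AddSubgroup V3) (hfin : N.index ≠ 0)
    (T : Finset V3) (hT : ∀ q ∈ T, q ∈ M)
    (hinc : ∀ q ∈ T, ∀ q' ∈ T, q ≠ q' → q - q' ∉ N) : T.card ≤ N.relIndex M := by
  classical
  have hne : N.relIndex M ≠ 0 := by
    have := AddSubgroup.relIndex_ne_zero_trans (H := N) (K := ⊤) (L := M)
    intro h0
    apply hfin
    have h1 : N.relIndex M ∣ N.index := AddSubgroup.relIndex_dvd_index_of_normal N M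
    rw [h0] at h1
    exact Nat.eq_zero_of_zero_dvd h1
  let Q := M ⧸ (N.addSubgroupOf M)
  have hcard : Nat.card Q = N.relIndex M := rfl
  have hfinQ : Finite Q := Nat.finite_of_card_ne_zero (by rw [hcard]; exact hne)
  let f : T → Q := fun q => QuotientAddGroup.mk ⟨q.1, hT q.1 q.2⟩
  have hf : Function.Injective f := by
    intro q q' h
    by_contra hne'
    have h1 := QuotientAddGroup.eq.1 h
    rw [AddSubgroup.mem_addSubgroupOf] at h1
    have h2 : q'.1 - q.1 ∈ N := by
      have : q'.1 - q.1 = ((-(⟨q.1, hT q.1 q.2⟩ : M) + ⟨q'.1, hT q'.1 q'.2⟩ : M) : V3) := by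
        simp [sub_eq_neg_add]
      rw [this]
      exact h1
    exact hinc q'.1 q'.2 q.1 q.2 (fun h3 => hne' (Subtype.ext h3.symm)) h2
  have := Nat.card_le_card_of_injective f hf
  rw [hcard] at this
  simpa using this

/-- The index of the lattice spanned by three independent vectors of `M`.
`M` a subgroup of `Z^3` all of whose 3x3 determinants are divisible by `m0 >= 1`; `v1,v2,v3` in `M` with nonzero
determinant; `T` a finite subset of `M`, pairwise incongruent modulo `Zv1+Zv2+Zv3`.  Then `#T * m0 <= |det3 v1 v2 v3|`.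
PROOF.  `M` (as a `Submodule ℤ (Fin 3 → ℤ)`) is free of finite rank `r <= 3` (`Submodule.basisOfPid` or
`Submodule.smithNormalForm`, `Module.Free`), and `r = 3` because it contains three independent vectors.  Let `w1,w2,w3` be a
`ℤ`-basis, `v_j = sum_i c_ji w_i` with an integer matrix `c`; `det3 v1 v2 v3 = det c * det3 w1 w2 w3`
(`Matrix.det_mul`, `det3_eq`), so `det3 w <> 0`, `m0 | det3 w`, `|det3 w| >= m0`.  The quotient of `M = Z^3` (coordinates in the basis
`w`) by the row lattice of `c` has `|det c|` elements (`Submodule`/`AddSubgroup` index = |det|; for instance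
`Int.natAbs_det_...`/`Submodule.natAbs_det_equiv`/`Submodule.natAbs_det_basis_change` in Mathlib, or Smith normal form), so
`#T <= |det c| = |det3 v| / |det3 w| <= |det3 v| / m0`.
ALTERNATIVE without index theory: choose the basis `w` and use that `Z^3 / c Z^3` has at most `|det c|` elements: by
Smith normal form. -/
theorem index_bound (M : AddSubgroup V3) (m0 : ℕ) (hm : 0 < m0)
    (hdet : ∀ a ∈ M, ∀ b ∈ M, ∀ c ∈ M, (m0 : ℤ) ∣ det3 a b c)
    (v1 v2 v3 : V3) (h1 : v1 ∈ M) (h2 : v2 ∈ M) (h3 : v3 ∈ M) (hne : det3 v1 v2 v3 ≠ 0)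
    (T : Finset V3) (hT : ∀ q ∈ T, q ∈ M)
    (hinc : ∀ q ∈ T, ∀ q' ∈ T, q ≠ q' → ¬ ∃ r s t : ℤ, q - q' = r • v1 + s • v2 + t • v3) :
    ((T.card * m0 : ℕ) : ℤ) ≤ |det3 v1 v2 v3| := by
  classical
  have hdet0 : (Matrix.of ![v1, v2, v3]).det ≠ 0 := by
    rw [← det3_mat]; exact hne
  have hli : LinearIndependent ℤ (fun i : Fin 3 => (Matrix.of ![v1, v2, v3]) i) :=
    Matrix.linearIndependent_rows_of_det_ne_zero hdet0
  set v : Fin 3 → V3 := fun i => (Matrix.of ![v1, v2, v3]) i with hv
  have hv0 : v 0 = v1 := rfl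
  have hv1 : v 1 = v2 := rfl
  have hv2 : v 2 = v3 := rfl
  set N : Submodule ℤ V3 := Submodule.span ℤ (Set.range v) with hN
  let bN : Module.Basis (Fin 3) ℤ N := Module.Basis.span hli
  have hbN : ∀ i, (bN i : V3) = v i := fun i =>
    congrArg Subtype.val (Module.Basis.span_apply hli i)
  have hNidx : N.toAddSubgroup.index = (det3 v1 v2 v3).natAbs := by
    rw [index_of_basis N bN, hbN, hbN, hbN, hv0, hv1, hv2]
  have hNne : N.toAddSubgroup.index ≠ 0 := by
    rw [hNidx]; exact Int.natAbs_ne_zero.2 hne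
  let Ms : Submodule ℤ V3 := AddSubgroup.toIntSubmodule M
  have hMs : Ms.toAddSubgroup = M := rfl
  have hmem : ∀ x : V3, x ∈ Ms ↔ x ∈ M := fun x => Iff.rfl
  have hNM : N ≤ Ms := by
    rw [hN, Submodule.span_le]
    rintro _ ⟨i, rfl⟩
    show v i ∈ M
    fin_cases i
    · exact h1
    · exact h2
    · exact h3
  have hrank : Module.finrank ℤ Ms = 3 := by
    apply le_antisymm
    · have := Submodule.finrank_le Ms
      simpa using this
    · have h := Submodule.finrank_mono hNM
      rw [hN, finrank_span_eq_card hli] at h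
      simpa using h
  let bM0 := Submodule.basisOfPid (Pi.basisFun ℤ (Fin 3)) Ms
  have hn : bM0.1 = 3 := by
    have := Module.finrank_eq_card_basis bM0.2
    rw [hrank] at this
    simpa using this.symm
  let bM : Module.Basis (Fin 3) ℤ Ms := bM0.2.reindex (finCongr hn)
  have hMidx : M.index = (det3 (bM 0 : V3) (bM 1 : V3) (bM 2 : V3)).natAbs := by
    rw [← hMs]; exact index_of_basis Ms bM
  have hdiv : M.index ∣ N.toAddSubgroup.index := AddSubgroup.index_dvd_of_le hNM
  have hMne : M.index ≠ 0 := by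
    intro h0
    rw [h0] at hdiv
    exact hNne (Nat.eq_zero_of_zero_dvd hdiv)
  have hm0 : m0 ≤ M.index := by
    have hd := hdet _ (bM 0).2 _ (bM 1).2 _ (bM 2).2
    rw [hMidx] at hMne ⊢
    apply Nat.le_of_dvd (Nat.pos_of_ne_zero hMne)
    exact Int.natCast_dvd.1 hd
  have hrel : T.card ≤ N.toAddSubgroup.relIndex M := by
    apply card_le_rel _ _ hNne T hT
    intro q hq q' hq' hqq hmemN
    apply hinc q hq q' hq' hqq
    have hmemN' : q - q' ∈ N := hmemN
    rw [hN, Submodule.mem_span_range_iff_exists_fun] at hmemN'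
    obtain ⟨c, hc⟩ := hmemN'
    refine ⟨c 0, c 1, c 2, ?_⟩
    rw [← hc, Fin.sum_univ_three, hv0, hv1, hv2]
  have hmul : N.toAddSubgroup.relIndex M * M.index = N.toAddSubgroup.index :=
    AddSubgroup.relIndex_mul_index hNM
  have hfinal : T.card * m0 ≤ (det3 v1 v2 v3).natAbs := by
    rw [← hNidx, ← hmul]
    exact Nat.mul_le_mul hrel hm0
  rw [Int.abs_eq_natAbs]
  exact_mod_cast hfinal

end Pool.Agent.SLB
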