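import Pool.Agent.SLB.GcdS
import Pool.Agent.SLB.Sol

namespace Pool.Agent.SLB

/-- positive integers up to `X` -/
private noncomputable def PP (X : ℝ) : Finset ℤ := Finset.Icc 1 ⌊X⌋

/-- nonzero integers up to `X` in absolute value -/
private noncomputable def NN (X : ℝ) : Finset ℤ := (Finset.Icc (-⌊X⌋) ⌊X⌋).erase 0

private theorem mem_PP {X : ℝ} {n : ℤ} : n ∈ PP X ↔ 0 < n ∧ (n : ℝ) ≤ X := by
  unfold PP
  rw [Finset.mem_Icc, Int.le_floor]
  constructor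
  · rintro ⟨h1, h2⟩; exact ⟨by omega, h2⟩
  · rintro ⟨h1, h2⟩; exact ⟨by omega, h2⟩

private theorem mem_NN {X : ℝ} {n : ℤ} : n ∈ NN X ↔ n ≠ 0 ∧ |(n : ℝ)| ≤ X := by
  unfold NN
  rw [Finset.mem_erase, Finset.mem_Icc, abs_le]
  constructor
  · rintro ⟨h1, h2, h3⟩
    refine ⟨h1, ?_, Int.le_floor.1 h3⟩
    have h4 : -n ≤ ⌊X⌋ := by omega
    have h5 := Int.le_floor.1 h4
    push_cast at h5
    linarith
  · rintro ⟨h1, h2, h3⟩
    refine ⟨h1, ?_, Int.le_floor.2 h3⟩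
    have h4 : -n ≤ ⌊X⌋ := by
      rw [Int.le_floor]; push_cast; linarith
    omega

private theorem card_PP {X : ℝ} (hX : 0 ≤ X) : ((PP X).card : ℝ) ≤ X := by
  unfold PP
  rw [Int.card_Icc]
  have h0 : (0 : ℤ) ≤ ⌊X⌋ := Int.floor_nonneg.2 hX
  have h1 : (((⌊X⌋ + 1 - 1).toNat : ℕ) : ℤ) = ⌊X⌋ := by
    rw [Int.toNat_of_nonneg (by omega)]; omega
  have h2 : (((⌊X⌋ + 1 - 1).toNat : ℕ) : ℝ) = ((⌊X⌋ : ℤ) : ℝ) := by
    exact_mod_cast congrArg (fun z : ℤ => (z : ℝ)) h1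
  rw [h2]
  exact Int.floor_le X

private theorem card_NN {X : ℝ} (hX : 0 ≤ X) : ((NN X).card : ℝ) ≤ 2 * X := by
  unfold NN
  have h0 : (0 : ℤ) ≤ ⌊X⌋ := Int.floor_nonneg.2 hX
  rw [Finset.card_erase_of_mem (by rw [Finset.mem_Icc]; omega), Int.card_Icc]
  have h1 : ((((⌊X⌋ + 1 - -⌊X⌋).toNat - 1 : ℕ)) : ℤ) = 2 * ⌊X⌋ := by
    omega
  have h2 : ((((⌊X⌋ + 1 - -⌊X⌋).toNat - 1 : ℕ)) : ℝ) = 2 * ((⌊X⌋ : ℤ) : ℝ) := by
    have := congrArg (fun z : ℤ => (z : ℝ)) h1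
    simpa using this
  rw [h2]
  have := Int.floor_le X
  linarith

private noncomputable def Big (Y S b : ℝ) : Finset Ob :=
  (PP (S * Y) ×ˢ PP (S * Y)) ×ˢ (NN b ×ˢ NN (b ^ 3 / Y ^ 2))

private theorem Obj_sub {Y S b : ℝ} {o : Ob} (h : o ∈ Obj Y S b) : o ∈ Big Y S b := by
  obtain ⟨⟨ha, l2, l3, h2, h3⟩, hb⟩ := h
  obtain ⟨q1, q2, q3, q4⟩ := hb
  have t2 := ha.two2
  have t3 := ha.two3
  unfold Big
  simp only [Finset.mem_product, mem_PP, mem_NN]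
  exact ⟨⟨⟨by omega, h2⟩, ⟨by omega, h3⟩⟩, ⟨q1, q3⟩, ⟨q2, q4⟩⟩

/-- number of objects.  PROOF: the object is `((y2,y3),(p,y))`: `y2, y3` in `[Y, S Y]`: at most `S Y - Y + 1 <= S Y` values each
(`Y >= 1`); `p`: nonzero, `|p| <= b`: at most `2b`; `y`: at most `2 b^3/Y^2`. -/
theorem Obj_card {Y S D b : ℝ} (hC : Con Y S D) (hb : 0 < b) : ((Obj Y S b).ncard : ℝ) ≤ 4 * S ^ 2 * b ^ 4 := by
  have hY := hC.hY
  have hS := hC.hS1
  have hY0 : 0 < Y := by linarith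
  have hS0 : 0 < S := by linarith
  have h1 : (Obj Y S b).ncard ≤ (Big Y S b).card := by
    rw [← Set.ncard_coe_finset]
    exact Set.ncard_le_ncard (fun o ho => Obj_sub ho) (Finset.finite_toSet _)
  have h2 : ((Big Y S b).card : ℝ) ≤ ((S * Y) * (S * Y)) * ((2 * b) * (2 * (b ^ 3 / Y ^ 2))) := by
    unfold Big
    rw [Finset.card_product, Finset.card_product, Finset.card_product]
    push_cast
    have a1 := card_PP (X := S * Y) (by positivity)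
    have a2 := card_NN (X := b) hb.le
    have a3 := card_NN (X := b ^ 3 / Y ^ 2) (by positivity)
    gcongr
  calc ((Obj Y S b).ncard : ℝ) ≤ ((Big Y S b).card : ℝ) := by exact_mod_cast h1
    _ ≤ _ := h2
    _ = 4 * S ^ 2 * b ^ 4 := by field_simp; ring

private theorem gw_nonneg (o : Ob) : 0 ≤ gw o := by
  unfold gw; positivity

/-- Section 9, (NS): `sum_{o in Obj} gw(o) <= 4 S^2 D^4 b^3`.
PROOF.  If `b < 1` there are no objects (`|p| <= b`, `p <> 0`).  Let `b >= 1`.  Enlarge the set of objects to the product of the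
ranges `0 < y2, y3 <= S Y`, `p <> 0, |p| <= b`, `y <> 0, |y| <= b^3/Y^2`.  For fixed `p`:
`(sum_{y2} gcd(y2,p)) (sum_{y3} gcd(y3,p)) (sum_y gcd(y,p)) <= (S Y D)^2 (2 (b^3/Y^2) D)` (`gcd_sum_pos`, `gcd_sum_int`, and
`dN p <= D` since `|p| <= b <= S Y <= Y^2`), and `sum_p 1/|p| <= 2(1 + log b) <= 2D`.  Total `<= 4 S^2 D^4 b^3`. -/
theorem gw_sum {Y S D b : ℝ} (hC : Con Y S D) (hb : 0 < b) (hbY : b ≤ S * Y) :
    ∑ o ∈ (Obj_finite (lt_of_lt_of_le two_pos hC.hY) S b).toFinset, gw o ≤ 4 * S ^ 2 * D ^ 4 * b ^ 3 := by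
  have hY := hC.hY
  have hS := hC.hS1
  have hY0 : 0 < Y := by linarith
  have hS0 : 0 < S := by linarith
  have hD0 : 0 < D := lt_of_lt_of_le hS0 hC.hSD
  have hlogY : 0 ≤ Real.log Y := Real.log_nonneg (by linarith)
  have h1 : ∑ o ∈ (Obj_finite (lt_of_lt_of_le two_pos hC.hY) S b).toFinset, gw o ≤ ∑ o ∈ Big Y S b, gw o := by
    apply Finset.sum_le_sum_of_subset_of_nonneg
    · intro o ho
      rw [Set.Finite.mem_toFinset] at ho
      exact Obj_sub ho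
    · intro o _ _
      exact gw_nonneg o
  -- the sum over the box
  have h2 : ∑ o ∈ Big Y S b, gw o = ∑ p ∈ NN b,
      (((∑ n ∈ PP (S * Y), Int.gcd n p : ℕ) : ℝ) * ((∑ n ∈ PP (S * Y), Int.gcd n p : ℕ) : ℝ)
        * ((∑ n ∈ NN (b ^ 3 / Y ^ 2), Int.gcd n p : ℕ) : ℝ)) * (1 / |(p : ℝ)|) := by
    unfold Big
    rw [Finset.sum_product, Finset.sum_product]
    have e1 : ∀ y2 ∈ PP (S * Y), ∑ y3 ∈ PP (S * Y), ∑ q ∈ NN b ×ˢ NN (b ^ 3 / Y ^ 2), gw ((y2, y3), q)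
        = ∑ p ∈ NN b, ∑ y3 ∈ PP (S * Y), ∑ y ∈ NN (b ^ 3 / Y ^ 2), gw ((y2, y3), (p, y)) := by
      intro y2 _
      rw [Finset.sum_comm]
      rw [Finset.sum_product]
      refine Finset.sum_congr rfl ?_
      intro p _
      rw [Finset.sum_comm]
    rw [Finset.sum_congr rfl e1, Finset.sum_comm]
    refine Finset.sum_congr rfl ?_
    intro p _
    push_cast
    rw [Finset.sum_mul_sum, Finset.sum_mul, Finset.sum_mul]
    refine Finset.sum_congr rfl ?_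
    intro y2 _
    rw [Finset.sum_mul, Finset.sum_mul]
    refine Finset.sum_congr rfl ?_
    intro y3 _
    rw [Finset.mul_sum, Finset.sum_mul]
    refine Finset.sum_congr rfl ?_
    intro y _
    unfold gw
    push_cast
    ring
  have h3 : ∀ p ∈ NN b,
      (((∑ n ∈ PP (S * Y), Int.gcd n p : ℕ) : ℝ) * ((∑ n ∈ PP (S * Y), Int.gcd n p : ℕ) : ℝ)
        * ((∑ n ∈ NN (b ^ 3 / Y ^ 2), Int.gcd n p : ℕ) : ℝ)) * (1 / |(p : ℝ)|)
      ≤ ((S * Y * D) * (S * Y * D) * (2 * (b ^ 3 / Y ^ 2) * D)) * (1 / |(p : ℝ)|) := by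
    intro p hp
    rw [mem_NN] at hp
    obtain ⟨hp0, hpb⟩ := hp
    have hd : (dN p : ℝ) ≤ D := by
      unfold dN
      apply hC.hdiv
      · have := Int.natAbs_pos.2 hp0
        omega
      · have e1 : ((p.natAbs : ℕ) : ℝ) = |(p : ℝ)| := by
          rw [Nat.cast_natAbs]; push_cast; rfl
        rw [e1]
        calc |(p : ℝ)| ≤ b := hpb
          _ ≤ S * Y := hbY
          _ ≤ Y * Y := by
              have := hC.hSY
              gcongr
          _ = Y ^ 2 := by ring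
          _ ≤ Y ^ 40 := pow_le_pow_right₀ (by linarith) (by norm_num)
    have g1 := gcd_sum_pos (X := S * Y) (by positivity) (PP (S * Y)) (fun n hn => mem_PP.1 hn) p hp0
    have g2 := gcd_sum_int (X := b ^ 3 / Y ^ 2) (by positivity) (NN (b ^ 3 / Y ^ 2)) (fun n hn => mem_NN.1 hn) p hp0
    have g3 : ((∑ n ∈ PP (S * Y), Int.gcd n p : ℕ) : ℝ) ≤ S * Y * D :=
      g1.trans (by gcongr)
    have g4 : ((∑ n ∈ NN (b ^ 3 / Y ^ 2), Int.gcd n p : ℕ) : ℝ) ≤ 2 * (b ^ 3 / Y ^ 2) * D :=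
      g2.trans (by gcongr)
    gcongr
  by_cases hb1 : 1 ≤ b
  · have h4 : ∑ p ∈ NN b, 1 / |(p : ℝ)| ≤ 2 * (1 + Real.log b) :=
      inv_sum hb1 (NN b) (fun n hn => mem_NN.1 hn)
    have h5 : Real.log b ≤ 2 * Real.log Y := by
      have h6 : b ≤ Y ^ 2 := by
        calc b ≤ S * Y := hbY
          _ ≤ Y * Y := by
              have := hC.hSY
              gcongr
          _ = Y ^ 2 := by ring
      calc Real.log b ≤ Real.log (Y ^ 2) := Real.log_le_log (by linarith) h6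
        _ = 2 * Real.log Y := by rw [Real.log_pow]; push_cast; ring
    have h6 : 1 + Real.log b ≤ D := by
      have := hC.hlog
      linarith
    calc ∑ o ∈ (Obj_finite (lt_of_lt_of_le two_pos hC.hY) S b).toFinset, gw o
        ≤ ∑ o ∈ Big Y S b, gw o := h1
      _ = _ := h2
      _ ≤ ∑ p ∈ NN b, ((S * Y * D) * (S * Y * D) * (2 * (b ^ 3 / Y ^ 2) * D)) * (1 / |(p : ℝ)|) :=
          Finset.sum_le_sum h3
      _ = ((S * Y * D) * (S * Y * D) * (2 * (b ^ 3 / Y ^ 2) * D)) * ∑ p ∈ NN b, 1 / |(p : ℝ)| := by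
          rw [Finset.mul_sum]
      _ ≤ ((S * Y * D) * (S * Y * D) * (2 * (b ^ 3 / Y ^ 2) * D)) * (2 * D) := by
          gcongr
          linarith
      _ = 4 * S ^ 2 * D ^ 4 * b ^ 3 := by field_simp; ring
  · have hB : NN b = ∅ := by
      apply Finset.eq_empty_of_forall_notMem
      intro n hn
      rw [mem_NN] at hn
      obtain ⟨hn0, hn1⟩ := hn
      have : (1 : ℝ) ≤ |(n : ℝ)| := by
        have := Int.one_le_abs hn0
        exact_mod_cast this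
      linarith
    rw [hB, Finset.sum_empty] at h2
    calc ∑ o ∈ (Obj_finite (lt_of_lt_of_le two_pos hC.hY) S b).toFinset, gw o
        ≤ ∑ o ∈ Big Y S b, gw o := h1
      _ = 0 := h2
      _ ≤ _ := by positivity

end Pool.Agent.SLB
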