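import Pool.Agent.SLB.BodB
import Pool.Agent.SLB.NsC

namespace Pool.Agent.SLB

/-- gcd estimate: `gcd(Dl, 9 p) <= 9 gcd(y2,p) gcd(y3,p) gcd(y,p)`.
PROOF: `gcd(Dl, 9p) | 9 gcd(Dl, p)`, `gcd(Dl,p) = gcd(y2 y3 y, p)` divides `gcd(y2,p) gcd(y3,p) gcd(y,p)`. -/
theorem gcd_est (o : Ob) (hp : o.2.1 ≠ 0) : Int.gcd (DlO o) (9 * o.2.1) ≤
    9 * (Int.gcd o.1.1 o.2.1 * Int.gcd o.1.2 o.2.1 * Int.gcd o.2.2 o.2.1) := by
  obtain ⟨⟨y2, y3⟩, p, y⟩ := o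
  simp only at hp ⊢
  have hpos : 0 < 9 * (Int.gcd y2 p * Int.gcd y3 p * Int.gcd y p) := by
    have h1 : 0 < Int.gcd y2 p := Int.gcd_pos_of_ne_zero_right _ hp
    have h2 : 0 < Int.gcd y3 p := Int.gcd_pos_of_ne_zero_right _ hp
    have h3 : 0 < Int.gcd y p := Int.gcd_pos_of_ne_zero_right _ hp
    positivity
  apply Nat.le_of_dvd hpos
  have e1 : Int.gcd (DlO ((y2, y3), p, y)) (9 * p) ∣
      Nat.gcd (DlO ((y2, y3), p, y)).natAbs 9 * Nat.gcd (DlO ((y2, y3), p, y)).natAbs p.natAbs := by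
    have h := Nat.gcd_mul_right_dvd_mul_gcd (DlO ((y2, y3), p, y)).natAbs 9 p.natAbs
    have h9 : (9 * p).natAbs = 9 * p.natAbs := by rw [Int.natAbs_mul]; rfl
    show Nat.gcd _ (9 * p).natAbs ∣ _
    rw [h9]
    exact h
  refine e1.trans (mul_dvd_mul (Nat.gcd_dvd_right _ _) ?_)
  have e2 : Nat.gcd (DlO ((y2, y3), p, y)).natAbs p.natAbs ∣ Nat.gcd p.natAbs (y2 * y3 * y).natAbs := by
    apply Nat.dvd_gcd (Nat.gcd_dvd_right _ _)
    have h1 : ((Nat.gcd (DlO ((y2, y3), p, y)).natAbs p.natAbs : ℕ) : ℤ) ∣ DlO ((y2, y3), p, y) :=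
      Int.natCast_dvd.mpr (Nat.gcd_dvd_left _ _)
    have h2 : ((Nat.gcd (DlO ((y2, y3), p, y)).natAbs p.natAbs : ℕ) : ℤ) ∣ p :=
      Int.natCast_dvd.mpr (Nat.gcd_dvd_right _ _)
    have h3 : y2 * y3 * y = DlO ((y2, y3), p, y) + p * p ^ 2 := by
      unfold DlO Dl
      ring
    rw [← Int.natCast_dvd, h3]
    exact dvd_add h1 (h2.mul_right _)
  refine e2.trans ?_
  rw [Int.natAbs_mul, Int.natAbs_mul]
  refine (Nat.gcd_mul_right_dvd_mul_gcd _ _ _).trans ?_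
  have e3 : Nat.gcd p.natAbs (y2.natAbs * y3.natAbs) ∣ Int.gcd y2 p * Int.gcd y3 p := by
    refine (Nat.gcd_mul_right_dvd_mul_gcd _ _ _).trans ?_
    rw [Nat.gcd_comm p.natAbs y2.natAbs, Nat.gcd_comm p.natAbs y3.natAbs]
    exact dvd_rfl
  refine mul_dvd_mul e3 ?_
  rw [Nat.gcd_comm p.natAbs y.natAbs]
  exact dvd_rfl

/-- Section 6, case NS: three independent points in the class.
PROOF.  `ns` with `m0 = |Dl| / gcd(Dl, 9p)` (a positive natural number dividing all determinants: `Dl | 9p det` gives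
`Dl/g | (9p/g) det`, coprime, so `Dl/g | det`), `R' = 16 R/(3 |p| P)`, `R = 2 S^2 a^3 |Dl|`: by `body` and `det_bound`
(`A = 2^(j+1)`, `B = 8R/(3*2^(j+1))`): `3 |p| P |det3| <= 6 A B = 16 R`.  So
`#Q <= 27 * 16 R/(3 |p| P) / m0 = 288 S^2 a^3 gcd(Dl,9p)/(|p| P) <= 2592 S^2 a^3 gw(o)/P` (`gcd_est`; `27*32/3 = 288`), `P >= Y^2`. -/
theorem oneB {Y S D a b : ℝ} (hC : Con Y S D) (ha : 0 < a) (hb : 0 < b) (haY : a ≤ S * Y) (hbY : b ≤ S * Y)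
    {o : Ob} (ho : o ∈ Obj Y S b) {th th2 : ℝ} (hr : Rt Y S o th th2) (hD : DlO o ≠ 0)
    (M : AddSubgroup V3) (hM : ∀ x ∈ M, ∀ y ∈ M, ∀ z ∈ M, DlO o ∣ 9 * o.2.1 * det3 x y z) (j : ℤ) (Q : Finset V3)
    (hQ : ∀ k ∈ Q, k ∈ M ∧ k ∈ KS Y a b o ∧ Int.log 2 |s1 o.2.1 th th2 (rv k)| = j)
    (hne : ∃ x ∈ Q, ∃ y ∈ Q, ∃ z ∈ Q, det3 x y z ≠ 0) :
    (Q.card : ℝ) ≤ 2592 * S ^ 2 * a ^ 3 / Y ^ 2 * gw o := by
  have hp : o.2.1 ≠ 0 := ho.2.1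
  have hpR : (0 : ℝ) < |(o.2.1 : ℝ)| := abs_pos.mpr (by exact_mod_cast hp)
  have hY : 0 < Y := lt_of_lt_of_le two_pos hC.hY
  have h9p : (9 : ℤ) * o.2.1 ≠ 0 := mul_ne_zero (by norm_num) hp
  set g := Int.gcd (DlO o) (9 * o.2.1) with hg
  have hg0 : 0 < g := Int.gcd_pos_of_ne_zero_left _ hD
  obtain ⟨d, hd⟩ : (g : ℤ) ∣ DlO o := Int.gcd_dvd_left ..
  obtain ⟨c, hc⟩ : (g : ℤ) ∣ 9 * o.2.1 := Int.gcd_dvd_right ..
  have hgz : (g : ℤ) ≠ 0 := by exact_mod_cast hg0.ne'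
  have hcop : IsCoprime d c := by
    rw [Int.isCoprime_iff_gcd_eq_one]
    have h1 : Int.gcd (g * d) (g * c) = g * Int.gcd d c := by
      rw [Int.gcd_mul_left, Int.natAbs_natCast]
    rw [← hd, ← hc, ← hg] at h1
    exact Nat.eq_of_mul_eq_mul_left hg0 (by rw [mul_one]; exact h1.symm)
  have hd0 : d ≠ 0 := by
    rintro rfl
    exact hD (by rw [hd, mul_zero])
  have hm0 : 0 < d.natAbs := Int.natAbs_pos.mpr hd0
  have hdet : ∀ x ∈ M, ∀ y ∈ M, ∀ z ∈ M, ((d.natAbs : ℕ) : ℤ) ∣ det3 x y z := by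
    intro x hx y hy z hz
    have h1 := hM x hx y hy z hz
    rw [hc, hd, mul_assoc] at h1
    have h2 : d ∣ c * det3 x y z := Int.dvd_of_mul_dvd_mul_left hgz h1
    rw [Int.natAbs_dvd]
    exact hcop.dvd_of_dvd_mul_left h2
  set P : ℝ := th * th2 with hP
  have hP0 : 0 < P := mul_pos hr.h0 hr.h02
  have hPY : Y ^ 2 ≤ P := by
    rw [sq]
    exact mul_le_mul hr.lo hr.lo2 hY.le hr.h0.le
  set R : ℝ := 2 * S ^ 2 * a ^ 3 * |(DlO o : ℝ)| with hR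
  have hR0 : 0 ≤ R := by rw [hR]; positivity
  have hz2 : (0 : ℝ) < (2 : ℝ) ^ (j + 1) := zpow_pos two_pos _
  have hbound : ∀ x ∈ Q, ∀ y ∈ Q, ∀ z ∈ Q, |((det3 x y z : ℤ) : ℝ)| ≤ 16 * R / (3 * |(o.2.1 : ℝ)| * P) := by
    intro x hx y hy z hz
    have key : ∀ k ∈ Q, |s1 o.2.1 th th2 (rv k)| ≤ (2 : ℝ) ^ (j + 1) ∧
        d1 o.2.1 th (rv k) ^ 2 ≤ 8 * R / (3 * (2 : ℝ) ^ (j + 1)) ∧
        d2 th th2 (rv k) ^ 2 ≤ 8 * R / (3 * (2 : ℝ) ^ (j + 1)) := by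
      intro k hk
      obtain ⟨_, hkS, hkj⟩ := hQ k hk
      obtain ⟨_, b2, b3, b4, _⟩ := body hC ha hb haY hbY ho hr hkS
      rw [hkj] at b2 b3 b4
      exact ⟨b2, b3, b4⟩
    have hb1 := det_bound o.2.1 th th2 ((2 : ℝ) ^ (j + 1)) (8 * R / (3 * (2 : ℝ) ^ (j + 1))) hz2.le
      ![rv x, rv y, rv z]
      (by intro i; fin_cases i
          · exact (key x hx).1
          · exact (key y hy).1
          · exact (key z hz).1)
      (by intro i; fin_cases i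
          · exact (key x hx).2.1
          · exact (key y hy).2.1
          · exact (key z hz).2.1)
      (by intro i; fin_cases i
          · exact (key x hx).2.2
          · exact (key y hy).2.2
          · exact (key z hz).2.2)
    have e1 : det3 ((![rv x, rv y, rv z] : Fin 3 → Fin 3 → ℝ) 0) ((![rv x, rv y, rv z] : Fin 3 → Fin 3 → ℝ) 1)
        ((![rv x, rv y, rv z] : Fin 3 → Fin 3 → ℝ) 2) = ((det3 x y z : ℤ) : ℝ) := by
      simp only [Matrix.cons_val_zero, Matrix.cons_val_one, Matrix.cons_val]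
      unfold det3 rv
      push_cast
      ring
    have e2 : 6 * (2 : ℝ) ^ (j + 1) * (8 * R / (3 * (2 : ℝ) ^ (j + 1))) = 16 * R := by
      field_simp
      ring
    rw [e1, e2, abs_mul, abs_mul, abs_mul, abs_of_pos (by norm_num : (0 : ℝ) < 3),
      abs_of_pos hP0] at hb1
    rw [le_div_iff₀ (by positivity)]
    calc |((det3 x y z : ℤ) : ℝ)| * (3 * |(o.2.1 : ℝ)| * P)
        = 3 * (|(o.2.1 : ℝ)| * P) * |((det3 x y z : ℤ) : ℝ)| := by ring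
      _ ≤ 16 * R := hb1
  have hns := ns M d.natAbs hm0 hdet Q (fun q hq => (hQ q hq).1) _ hbound hne
  refine hns.trans ?_
  have hDl : |(DlO o : ℝ)| = (g : ℝ) * (d.natAbs : ℝ) := by
    rw [hd]
    push_cast
    rw [abs_mul, Nat.abs_cast, Nat.cast_natAbs, Int.cast_abs]
  have hmR : (0 : ℝ) < (d.natAbs : ℝ) := by exact_mod_cast hm0
  have e3 : 27 * (16 * R / (3 * |(o.2.1 : ℝ)| * P)) / (d.natAbs : ℝ) =
      288 * S ^ 2 * a ^ 3 * ((g : ℝ) / |(o.2.1 : ℝ)|) / P := by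
    rw [hR, hDl]
    field_simp
    ring
  rw [e3]
  have hgest : (g : ℝ) ≤
      9 * ((Int.gcd o.1.1 o.2.1 * Int.gcd o.1.2 o.2.1 * Int.gcd o.2.2 o.2.1 : ℕ) : ℝ) := by
    have h := gcd_est o hp
    rw [← hg] at h
    exact_mod_cast h
  have hgw : (g : ℝ) / |(o.2.1 : ℝ)| ≤ 9 * gw o := by
    unfold gw
    rw [← mul_div_assoc]
    exact div_le_div_of_nonneg_right hgest hpR.le
  have hgw0 : 0 ≤ gw o := by
    unfold gw
    positivity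
  calc 288 * S ^ 2 * a ^ 3 * ((g : ℝ) / |(o.2.1 : ℝ)|) / P
      ≤ 288 * S ^ 2 * a ^ 3 * (9 * gw o) / P := by
        apply div_le_div_of_nonneg_right _ hP0.le
        exact mul_le_mul_of_nonneg_left hgw (by positivity)
    _ ≤ 288 * S ^ 2 * a ^ 3 * (9 * gw o) / Y ^ 2 := by
        apply div_le_div_of_nonneg_left (by positivity) (by positivity) hPY
    _ = 2592 * S ^ 2 * a ^ 3 / Y ^ 2 * gw o := by ring

end Pool.Agent.SLB
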