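import Pool.Agent.SLB.Det

namespace Pool.Agent.SLB

/-- the cell of a number of `[-1,1]` -/
private noncomputable def Pl.cell (m : ℕ) (x : ℝ) : ℕ := min (m - 1) ⌊(x + 1) * m / 2⌋₊

private theorem Pl.cell_lt {m : ℕ} (hm : 1 ≤ m) (x : ℝ) : Pl.cell m x < m := by
  unfold Pl.cell
  omega

private theorem Pl.cell_le {m : ℕ} {x : ℝ} (hx : |x| ≤ 1) :
    (Pl.cell m x : ℝ) ≤ (x + 1) * m / 2 := by
  have h0 : 0 ≤ (x + 1) * m / 2 := by
    have h1 : 0 ≤ x + 1 := by linarith [(abs_le.mp hx).1]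
    positivity
  have h2 : (Pl.cell m x : ℝ) ≤ (⌊(x + 1) * m / 2⌋₊ : ℝ) := by
    exact_mod_cast min_le_right _ _
  exact h2.trans (Nat.floor_le h0)

private theorem Pl.le_cell {m : ℕ} (hm : 1 ≤ m) {x : ℝ} (hx : |x| ≤ 1) :
    (x + 1) * m / 2 ≤ (Pl.cell m x : ℝ) + 1 := by
  unfold Pl.cell
  rcases le_total (m - 1) ⌊(x + 1) * m / 2⌋₊ with h | h
  · rw [min_eq_left h]
    have h1 : x ≤ 1 := (abs_le.mp hx).2
    have h2 : ((m - 1 : ℕ) : ℝ) + 1 = m := by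
      have : m - 1 + 1 = m := by omega
      exact_mod_cast this
    rw [h2]
    have h3 : (0 : ℝ) ≤ m := by positivity
    nlinarith
  · rw [min_eq_right h]
    exact (Nat.lt_floor_add_one _).le

private theorem Pl.close {m : ℕ} (hm : 1 ≤ m) {x y : ℝ} (hx : |x| ≤ 1) (hy : |y| ≤ 1)
    (h : Pl.cell m x = Pl.cell m y) : |x - y| ≤ 2 / m := by
  have hm0 : (0 : ℝ) < m := by exact_mod_cast hm
  have a1 := Pl.cell_le (m := m) hx
  have a2 := Pl.le_cell hm hx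
  have b1 := Pl.cell_le (m := m) hy
  have b2 := Pl.le_cell hm hy
  rw [h] at a1 a2
  rw [le_div_iff₀ hm0, ← abs_of_pos hm0, ← abs_mul, abs_le]
  constructor <;> nlinarith

/-- pigeonhole in a square.  `f, g : Q → [-1,1]` real functions on a finite set with more than `m^2` elements: two
different elements with `|f q - f q'| <= 2/m` and `|g q - g q'| <= 2/m`.
PROOF: cells `(⌊(f+1) m/2⌋, ⌊(g+1) m/2⌋)` clipped to `{0,..,m-1}` (`min (m-1)`), `Finset.exists_ne_map_eq_of_card_lt_of_maps_to`. -/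
theorem pigeon {α : Type*} (Q : Finset α) (f g : α → ℝ) (hf : ∀ q ∈ Q, |f q| ≤ 1) (hg : ∀ q ∈ Q, |g q| ≤ 1)
    (m : ℕ) (hm : 1 ≤ m) (hc : m ^ 2 < Q.card) :
    ∃ q ∈ Q, ∃ q' ∈ Q, q ≠ q' ∧ |f q - f q'| ≤ 2 / m ∧ |g q - g q'| ≤ 2 / m := by
  have hcard : (Finset.range m ×ˢ Finset.range m).card < Q.card := by
    rw [Finset.card_product, Finset.card_range, ← sq]
    exact hc
  have hmaps : Set.MapsTo (fun q => (Pl.cell m (f q), Pl.cell m (g q))) (Q : Set α)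
      ((Finset.range m ×ˢ Finset.range m : Finset (ℕ × ℕ)) : Set (ℕ × ℕ)) := by
    intro q _
    simp only [Finset.coe_product, Finset.coe_range, Set.mem_prod, Set.mem_Iio]
    exact ⟨Pl.cell_lt hm _, Pl.cell_lt hm _⟩
  obtain ⟨q, hq, q', hq', hne, he⟩ := Finset.exists_ne_map_eq_of_card_lt_of_maps_to hcard hmaps
  have he1 : Pl.cell m (f q) = Pl.cell m (f q') := congrArg Prod.fst he
  have he2 : Pl.cell m (g q) = Pl.cell m (g q') := congrArg Prod.snd he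
  exact ⟨q, hq, q', hq', hne, Pl.close hm (hf q hq) (hf q' hq') he1,
    Pl.close hm (hg q hq) (hg q' hq') he2⟩

private theorem Pl.minor {a b : V3} (h : ∀ i : Fin 3, det3 a b (Pi.single i 1) = 0) (i j : Fin 3) :
    a i * b j = b i * a j := by
  have h0 := h 0
  have h1 := h 1
  have h2 := h 2
  simp [det3] at h0 h1 h2
  fin_cases i <;> fin_cases j <;> simp <;> linarith

/-- (3.2) Many points in a plane give a short difference.
PROOF.  Case 1: `det3 a b e = 0` for all `a, b` in `Q` and all unit vectors `e = Pi.single i 1`: all points of `Q` are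
parallel.  If all `q = 0` then `#Q <= 1 <= m^2`, contradiction; take a coordinate `i` and `v1` in `Q` with `|v1 i|` maximal over all
`i` and all `q` in `Q` (nonzero); then `q j * v1 i = v1 j * q i` (2x2 minors vanish), `q = s(q) v1` with `s(q) = q i / v1 i`, `|s| <= 1`;
`pigeon` with `f = s`, `g = 0`; `v2 = v1`, `t = 0`.
Case 2: there are `i` and a pair in `Q` with `det3 a b e_i <> 0`; fix `i`, choose `v1, v2` in `Q` with `|det3 v1 v2 e_i|` maximal.
`cramer4` with `(v1, v2, e_i; q)`: `det3 v1 v2 e q = det3 q v2 e v1 + det3 v1 q e v2 + det3 v1 v2 q e` and the last term vanishes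
(`hpl`).  So `q = s(q) v1 + t(q) v2` with `|s|, |t| <= 1`; `pigeon`. -/
theorem pl (Q : Finset V3) (hpl : ∀ a ∈ Q, ∀ b ∈ Q, ∀ c ∈ Q, det3 a b c = 0)
    (m : ℕ) (hm : 1 ≤ m) (hc : m ^ 2 < Q.card) :
    ∃ q ∈ Q, ∃ q' ∈ Q, q ≠ q' ∧ ∃ v1 ∈ Q, ∃ v2 ∈ Q, ∃ s t : ℝ, |s| ≤ 2 / m ∧ |t| ≤ 2 / m ∧
      ∀ i : Fin 3, ((q i : ℝ) - (q' i : ℝ)) = s * (v1 i : ℝ) + t * (v2 i : ℝ) := by
  have hm0 : (0 : ℝ) < m := by exact_mod_cast hm
  have hm1 : 1 ≤ m ^ 2 := Nat.one_le_pow _ _ hm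
  by_cases hpar : ∀ a ∈ Q, ∀ b ∈ Q, ∀ i : Fin 3, det3 a b (Pi.single i 1) = 0
  · have hne : (Q ×ˢ (Finset.univ : Finset (Fin 3))).Nonempty := by
      have : Q.Nonempty := Finset.card_pos.mp (by omega)
      exact this.product Finset.univ_nonempty
    obtain ⟨⟨v, i⟩, hv, hmax⟩ := Finset.exists_max_image (Q ×ˢ (Finset.univ : Finset (Fin 3)))
      (fun p => |p.1 p.2|) hne
    have hvQ : v ∈ Q := (Finset.mem_product.mp hv).1
    have hmax' : ∀ q ∈ Q, ∀ j : Fin 3, |q j| ≤ |v i| := fun q hq j =>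
      hmax (q, j) (Finset.mem_product.mpr ⟨hq, Finset.mem_univ _⟩)
    have hvi : v i ≠ 0 := by
      intro h0
      have hz : ∀ q ∈ Q, q = 0 := by
        intro q hq
        funext j
        have := hmax' q hq j
        rw [h0, abs_zero] at this
        exact abs_nonpos_iff.mp this
      have hsub : Q ⊆ {0} := fun q hq => Finset.mem_singleton.mpr (hz q hq)
      have := Finset.card_le_card hsub
      rw [Finset.card_singleton] at this
      omega
    have hvi' : (v i : ℝ) ≠ 0 := by exact_mod_cast hvi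
    have hb : ∀ q ∈ Q, |(q i : ℝ) / (v i : ℝ)| ≤ 1 := by
      intro q hq
      rw [abs_div, div_le_one (abs_pos.mpr hvi')]
      exact_mod_cast hmax' q hq i
    obtain ⟨q, hq, q', hq', hne', h1, -⟩ := pigeon Q (fun q => (q i : ℝ) / (v i : ℝ)) (fun _ => 0) hb
      (fun _ _ => by simp) m hm hc
    refine ⟨q, hq, q', hq', hne', v, hvQ, v, hvQ, (q i : ℝ) / (v i : ℝ) - (q' i : ℝ) / (v i : ℝ), 0,
      h1, by rw [abs_zero]; positivity, fun j => ?_⟩
    have e1 : (v i : ℝ) * (q j : ℝ) = (q i : ℝ) * (v j : ℝ) := by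
      exact_mod_cast Pl.minor (hpar v hvQ q hq) i j
    have e2 : (v i : ℝ) * (q' j : ℝ) = (q' i : ℝ) * (v j : ℝ) := by
      exact_mod_cast Pl.minor (hpar v hvQ q' hq') i j
    have f1 : (q j : ℝ) = (q i : ℝ) / (v i : ℝ) * (v j : ℝ) := by
      field_simp
      linarith
    have f2 : (q' j : ℝ) = (q' i : ℝ) / (v i : ℝ) * (v j : ℝ) := by
      field_simp
      linarith
    rw [f1, f2]
    ring
  · push Not at hpar
    obtain ⟨a0, ha0, b0, hb0, i, hab⟩ := hpar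
    obtain ⟨⟨v1, v2⟩, hv, hmax⟩ := Finset.exists_max_image (Q ×ˢ Q)
      (fun p => |det3 p.1 p.2 (Pi.single i 1)|) ⟨(a0, b0), Finset.mem_product.mpr ⟨ha0, hb0⟩⟩
    obtain ⟨hv1, hv2⟩ := Finset.mem_product.mp hv
    have hmax' : ∀ a ∈ Q, ∀ b ∈ Q, |det3 a b (Pi.single i 1)| ≤ |det3 v1 v2 (Pi.single i 1)| :=
      fun a ha b hb => hmax (a, b) (Finset.mem_product.mpr ⟨ha, hb⟩)
    set e : V3 := Pi.single i 1 with he
    have hd : det3 v1 v2 e ≠ 0 := by
      intro h0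
      have := hmax' a0 ha0 b0 hb0
      rw [h0, abs_zero] at this
      exact hab (abs_nonpos_iff.mp this)
    have hd' : ((det3 v1 v2 e : ℤ) : ℝ) ≠ 0 := by exact_mod_cast hd
    have hbs : ∀ q ∈ Q, |((det3 q v2 e : ℤ) : ℝ) / ((det3 v1 v2 e : ℤ) : ℝ)| ≤ 1 := by
      intro q hq
      rw [abs_div, div_le_one (abs_pos.mpr hd')]
      exact_mod_cast hmax' q hq v2 hv2
    have hbt : ∀ q ∈ Q, |((det3 v1 q e : ℤ) : ℝ) / ((det3 v1 v2 e : ℤ) : ℝ)| ≤ 1 := by
      intro q hq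
      rw [abs_div, div_le_one (abs_pos.mpr hd')]
      exact_mod_cast hmax' v1 hv1 q hq
    obtain ⟨q, hq, q', hq', hne', h1, h2⟩ := pigeon Q
      (fun q => ((det3 q v2 e : ℤ) : ℝ) / ((det3 v1 v2 e : ℤ) : ℝ))
      (fun q => ((det3 v1 q e : ℤ) : ℝ) / ((det3 v1 v2 e : ℤ) : ℝ)) hbs hbt m hm hc
    have key : ∀ r ∈ Q, ∀ j : Fin 3, (r j : ℝ) =
        ((det3 r v2 e : ℤ) : ℝ) / ((det3 v1 v2 e : ℤ) : ℝ) * (v1 j : ℝ) +
        ((det3 v1 r e : ℤ) : ℝ) / ((det3 v1 v2 e : ℤ) : ℝ) * (v2 j : ℝ) := by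
      intro r hr j
      have hc := cramer4 v1 v2 e r j
      rw [hpl v1 hv1 v2 hv2 r hr, zero_mul, add_zero] at hc
      have hc' : ((det3 v1 v2 e : ℤ) : ℝ) * (r j : ℝ) =
          ((det3 r v2 e : ℤ) : ℝ) * (v1 j : ℝ) + ((det3 v1 r e : ℤ) : ℝ) * (v2 j : ℝ) := by
        exact_mod_cast hc
      field_simp
      linarith
    refine ⟨q, hq, q', hq', hne', v1, hv1, v2, hv2, _, _, h1, h2, fun j => ?_⟩
    have k1 := key q hq j
    have k2 := key q' hq' j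
    linear_combination k1 - k2

end Pool.Agent.SLB
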