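import Pool.Agent.SLB.PlaB

namespace Pool.Agent.SLB

private theorem PlaC_castPhi (y2 y3 p y x u w : ℤ) :
    ((Phi y2 y3 p y x u w : ℤ) : ℚ) = Phi (y2 : ℚ) y3 p y x u w := by
  simp only [Phi]
  push_cast
  ring

private theorem PlaC_quad {A B C r1 r2 r3 : ℚ} (h1 : A * r1 ^ 2 + B * r1 + C = 0)
    (h2 : A * r2 ^ 2 + B * r2 + C = 0) (h3 : A * r3 ^ 2 + B * r3 + C = 0)
    (h12 : r1 ≠ r2) (h13 : r1 ≠ r3) (h23 : r2 ≠ r3) : A = 0 ∧ B = 0 := by
  have e1 : A * (r1 + r2) + B = 0 := by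
    have : (r1 - r2) * (A * (r1 + r2) + B) = 0 := by linear_combination h1 - h2
    rcases mul_eq_zero.mp this with h | h
    · exact absurd (sub_eq_zero.mp h) h12
    · exact h
  have e2 : A * (r1 + r3) + B = 0 := by
    have : (r1 - r3) * (A * (r1 + r3) + B) = 0 := by linear_combination h1 - h3
    rcases mul_eq_zero.mp this with h | h
    · exact absurd (sub_eq_zero.mp h) h13
    · exact h
  have e3 : A = 0 := by
    have : (r2 - r3) * A = 0 := by linear_combination e1 - e2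
    rcases mul_eq_zero.mp this with h | h
    · exact absurd (sub_eq_zero.mp h) h23
    · exact h
  refine ⟨e3, ?_⟩
  rw [e3] at e1
  linarith

/-- the divisors of `m` with sign -/
private def PlaC_N (m : ℤ) : Finset ℤ :=
  m.natAbs.divisors.image (fun d : ℕ => (d : ℤ)) ∪ m.natAbs.divisors.image (fun d : ℕ => -(d : ℤ))

private theorem PlaC_N_card (m : ℤ) : (PlaC_N m).card ≤ 2 * dN m := by
  unfold PlaC_N dN
  refine (Finset.card_union_le _ _).trans ?_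
  have h1 := Finset.card_image_le (s := m.natAbs.divisors) (f := fun d : ℕ => (d : ℤ))
  have h2 := Finset.card_image_le (s := m.natAbs.divisors) (f := fun d : ℕ => -(d : ℤ))
  omega

private theorem PlaC_N_mem {n m : ℤ} (hm : m ≠ 0) (h : n ∣ m) : n ∈ PlaC_N m := by
  unfold PlaC_N
  have hd : n.natAbs ∈ m.natAbs.divisors := by
    rw [Nat.mem_divisors]
    exact ⟨Int.natAbs_dvd_natAbs.mpr h, Int.natAbs_ne_zero.mpr hm⟩
  rw [Finset.mem_union, Finset.mem_image, Finset.mem_image]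
  rcases Int.natAbs_eq n with h1 | h1
  · exact Or.inl ⟨n.natAbs, hd, h1.symm⟩
  · exact Or.inr ⟨n.natAbs, hd, h1.symm⟩

/-- Section 7: the number of nondegenerate points in a plane containing a zero `v` of `Phi`.
PROOF.  `Q` empty: trivial.  Let `k1 ∈ Q`; `Phi(k1) = Dl z1 <> 0`.  All `k ∈ Q` satisfy `det3 v k1 k = 0`
(`v = q - q'`, linearity, `hpl`).  `plane_struct` gives `w` and for each `k ∈ Q` an integer `n(k)` and a rational `rho(k)` with
`k = n w + rho v`, and `n Dl | 2 Phi(k) = 2 Dl z(k)`, so `n | 2 z` and `n <> 0`.  The map `k ↦ (z(k), n(k), rho(k))` is injective.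
`z` takes at most `2 Z0` values (nonzero integers with `|z| <= Z0`), for each `z` at most `2 d(2z) <= 2 D` values `n`
(divisors with sign), and for given `(z,n)` at most 2 values of `rho`: by `Phi_comb` over ℚ and `Phi(v) = 0`
`n (Pol v w rho^2 + Pol w v n rho + Phi(w) n^2) = Dl z`, a quadratic equation for `rho` whose coefficients `n Pol v w`,
`n^2 Pol w v` are not both 0 (a nonzero polynomial of degree <= 2 has at most 2 roots: `Polynomial.card_roots'`, or by hand: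
three different roots are impossible).  Total `<= 2 Z0 * 2 D * 2`. -/
theorem plane_count {o : Ob} (hD : DlO o ≠ 0) (M : AddSubgroup V3) (hM : ∀ k ∈ M, DlO o ∣ PhiO o k)
    (Q : Finset V3) (hQ : ∀ q ∈ Q, q ∈ M) (hpl : ∀ a ∈ Q, ∀ b ∈ Q, ∀ c ∈ Q, det3 a b c = 0)
    {q q' : V3} (hq : q ∈ Q) (hq' : q' ∈ Q) (hv0 : PhiO o (q - q') = 0)
    (h0 : (q - q') 0 ≠ 0) (h1 : (q - q') 1 ≠ 0) (h2 : (q - q') 2 ≠ 0) (Z0 D : ℝ)
    (hz : ∀ k ∈ Q, ∃ z : ℤ, z ≠ 0 ∧ |(z : ℝ)| ≤ Z0 ∧ PhiO o k = DlO o * z)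
    (hdiv : ∀ z : ℤ, z ≠ 0 → |(z : ℝ)| ≤ Z0 → (dN (2 * z) : ℝ) ≤ D) :
    (Q.card : ℝ) ≤ 8 * D * Z0 := by
  classical
  set v : V3 := q - q' with hvdef
  have hv : v ∈ M := M.sub_mem (hQ q hq) (hQ q' hq')
  obtain ⟨z1, hz1, hz1b, hz1e⟩ := hz q hq
  have hk : PhiO o q ≠ 0 := by
    rw [hz1e]
    exact mul_ne_zero hD hz1
  have hdet : ∀ k ∈ Q, det3 v q k = 0 := by
    intro k hkQ
    have e1 := hpl q hq q hq k hkQ
    have e2 := hpl q' hq' q hq k hkQ
    have e3 : det3 v q k = det3 q q k - det3 q' q k := by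
      simp only [det3, hvdef, Pi.sub_apply]
      ring
    rw [e3, e1, e2, sub_zero]
  obtain ⟨w, hw, hnd, hst⟩ := plane_struct hD M hM hv (hQ q hq) hv0 h0 h1 h2 hk
  have hch : ∀ k : V3, ∃ n : ℤ, ∃ rho : ℚ, ∃ z : ℤ, k ∈ Q → (∀ i : Fin 3, (k i : ℚ) = n * (w i : ℚ) + rho * (v i : ℚ)) ∧
      n ∣ 2 * z ∧ z ≠ 0 ∧ |(z : ℝ)| ≤ Z0 ∧ PhiO o k = DlO o * z := by
    intro k
    by_cases hkQ : k ∈ Q
    · obtain ⟨n, rho, h3, h4⟩ := hst k (hQ k hkQ) (hdet k hkQ)
      obtain ⟨z, hz1, hz2, hz3⟩ := hz k hkQ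
      refine ⟨n, rho, z, fun _ => ⟨h3, ?_, hz1, hz2, hz3⟩⟩
      rw [hz3] at h4
      have h5 : DlO o * n ∣ DlO o * (2 * z) := by
        have e1 : DlO o * n = n * DlO o := by ring
        have e2 : DlO o * (2 * z) = 2 * (DlO o * z) := by ring
        rw [e1, e2]
        exact h4
      exact (mul_dvd_mul_iff_left hD).mp h5
    · exact ⟨0, 0, 0, fun h => absurd h hkQ⟩
  choose n rho z hc using hch
  -- the image
  let T : Finset (Σ _ : ℤ, ℤ) := ((Finset.Icc (-⌊Z0⌋) ⌊Z0⌋).erase 0).sigma (fun z => PlaC_N (2 * z))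
  let f : V3 → (Σ _ : ℤ, ℤ) := fun k => ⟨z k, n k⟩
  have hmem : ∀ k ∈ Q, z k ∈ (Finset.Icc (-⌊Z0⌋) ⌊Z0⌋).erase 0 := by
    intro k hkQ
    obtain ⟨_, _, hz1, hz2, _⟩ := hc k hkQ
    rw [Finset.mem_erase, Finset.mem_Icc]
    have h3 := abs_le.mp hz2
    refine ⟨hz1, ?_, ?_⟩
    · have : -(z k) ≤ ⌊Z0⌋ := by
        rw [Int.le_floor]
        push_cast
        linarith [h3.1]
      linarith
    · rw [Int.le_floor]
      exact h3.2
  have hTs : Q.image f ⊆ T := by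
    intro t ht
    obtain ⟨k, hkQ, rfl⟩ := Finset.mem_image.mp ht
    rw [Finset.mem_sigma]
    refine ⟨hmem k hkQ, ?_⟩
    obtain ⟨_, hn, hz1, hz2, _⟩ := hc k hkQ
    exact PlaC_N_mem (mul_ne_zero two_ne_zero hz1) hn
  have hfib : ∀ t ∈ Q.image f, (Q.filter (fun k => f k = t)).card ≤ 2 := by
    intro t _
    by_contra hcon
    push Not at hcon
    obtain ⟨a, ha, b, hb, c, hcc, hab, hac, hbc⟩ := Finset.two_lt_card.mp hcon
    rw [Finset.mem_filter] at ha hb hcc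
    have eab : z a = z b ∧ n a = n b := by
      have := ha.2.trans hb.2.symm
      simp only [f, Sigma.mk.injEq, heq_eq_eq] at this
      exact this
    have eac : z a = z c ∧ n a = n c := by
      have := ha.2.trans hcc.2.symm
      simp only [f, Sigma.mk.injEq, heq_eq_eq] at this
      exact this
    -- different points have different rho
    have hrho : ∀ k ∈ Q, ∀ k' ∈ Q, n k = n k' → k ≠ k' → rho k ≠ rho k' := by
      intro k hk1 k' hk2 hn hne hr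
      apply hne
      funext i
      have e1 := (hc k hk1).1 i
      have e2 := (hc k' hk2).1 i
      rw [hn, hr, ← e2] at e1
      exact_mod_cast e1
    -- the quadratic equation
    have hquad : ∀ k ∈ Q, ((n k : ℚ) * (Pol (o.1.1 : ℚ) o.1.2 o.2.1 o.2.2 (fun i => (v i : ℚ)) (fun i => (w i : ℚ)))) * rho k ^ 2
        + ((n k : ℚ) ^ 2 * (Pol (o.1.1 : ℚ) o.1.2 o.2.1 o.2.2 (fun i => (w i : ℚ)) (fun i => (v i : ℚ)))) * rho k
        + ((n k : ℚ) ^ 3 * Phi (o.1.1 : ℚ) o.1.2 o.2.1 o.2.2 (w 0) (w 1) (w 2) - (DlO o : ℚ) * (z k : ℚ)) = 0 := by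
      intro k hkQ
      obtain ⟨hk1, _, _, _, hk5⟩ := hc k hkQ
      have e1 := Phi_comb (o.1.1 : ℚ) (o.1.2 : ℚ) (o.2.1 : ℚ) (o.2.2 : ℚ) (fun i => (v i : ℚ)) (fun i => (w i : ℚ))
        (rho k) (n k : ℚ)
      have e2 : Phi (o.1.1 : ℚ) (o.1.2 : ℚ) (o.2.1 : ℚ) (o.2.2 : ℚ) (k 0) (k 1) (k 2) = (DlO o : ℚ) * (z k : ℚ) := by
        rw [← PlaC_castPhi]
        have := congrArg (fun m : ℤ => (m : ℚ)) hk5
        rw [Int.cast_mul] at this
        exact this
      have e3 : Phi (o.1.1 : ℚ) (o.1.2 : ℚ) (o.2.1 : ℚ) (o.2.2 : ℚ) (v 0) (v 1) (v 2) = 0 := by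
        rw [← PlaC_castPhi]
        exact_mod_cast hv0
      have c0 : rho k * (v 0 : ℚ) + n k * (w 0 : ℚ) = (k 0 : ℚ) := by rw [hk1 0]; ring
      have c1 : rho k * (v 1 : ℚ) + n k * (w 1 : ℚ) = (k 1 : ℚ) := by rw [hk1 1]; ring
      have c2 : rho k * (v 2 : ℚ) + n k * (w 2 : ℚ) = (k 2 : ℚ) := by rw [hk1 2]; ring
      rw [c0, c1, c2, e2, e3] at e1
      linear_combination -e1
    have q1 := hquad a ha.1
    have q2 := hquad b hb.1
    have q3 := hquad c hcc.1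
    rw [← eab.1, ← eab.2] at q2
    rw [← eac.1, ← eac.2] at q3
    obtain ⟨hA, hB⟩ := PlaC_quad q1 q2 q3 (hrho a ha.1 b hb.1 eab.2 hab) (hrho a ha.1 c hcc.1 eac.2 hac)
      (hrho b hb.1 c hcc.1 (eab.2.symm.trans eac.2) hbc)
    have hn0 : (n a : ℚ) ≠ 0 := by
      obtain ⟨_, hn, hz1, _, _⟩ := hc a ha.1
      intro h
      have h' : n a = 0 := by exact_mod_cast h
      rw [h', zero_dvd_iff] at hn
      exact hz1 (by omega)
    have hA' := (mul_eq_zero.mp hA).resolve_left hn0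
    have hB' := (mul_eq_zero.mp hB).resolve_left (pow_ne_zero 2 hn0)
    rcases hnd with h | h
    · apply h
      have : ((Pol o.1.1 o.1.2 o.2.1 o.2.2 v w : ℤ) : ℚ) = 0 := by
        rw [← hA']
        simp only [Pol]
        push_cast
        ring
      exact_mod_cast this
    · apply h
      have : ((Pol o.1.1 o.1.2 o.2.1 o.2.2 w v : ℤ) : ℚ) = 0 := by
        rw [← hB']
        simp only [Pol]
        push_cast
        ring
      exact_mod_cast this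
  have hcard1 : Q.card ≤ 2 * (Q.image f).card := Finset.card_le_mul_card_image Q 2 hfib
  have hcard2 : (Q.image f).card ≤ T.card := Finset.card_le_card hTs
  have hZ0 : 1 ≤ Z0 := by
    have h3 : (1 : ℝ) ≤ |(z1 : ℝ)| := by
      rw [← Int.cast_abs]
      exact_mod_cast Int.one_le_abs hz1
    linarith
  have hfl : (1 : ℤ) ≤ ⌊Z0⌋ := by
    rw [Int.le_floor]
    exact_mod_cast hZ0
  have hD0 : 0 ≤ D := le_trans (Nat.cast_nonneg _) (hdiv z1 hz1 hz1b)
  have hcard3 : (T.card : ℝ) ≤ 4 * D * Z0 := by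
    have e1 : T.card = ∑ y ∈ (Finset.Icc (-⌊Z0⌋) ⌊Z0⌋).erase 0, (PlaC_N (2 * y)).card :=
      Finset.card_sigma _ _
    rw [e1]
    push_cast
    have e2 : ∀ y ∈ (Finset.Icc (-⌊Z0⌋) ⌊Z0⌋).erase 0, ((PlaC_N (2 * y)).card : ℝ) ≤ 2 * D := by
      intro y hy
      rw [Finset.mem_erase, Finset.mem_Icc] at hy
      have h3 : |(y : ℝ)| ≤ Z0 := by
        rw [abs_le]
        have h4 : ((⌊Z0⌋ : ℤ) : ℝ) ≤ Z0 := Int.floor_le Z0
        have h5 : (-(⌊Z0⌋ : ℤ) : ℝ) ≤ (y : ℝ) := by exact_mod_cast hy.2.1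
        have h6 : (y : ℝ) ≤ ((⌊Z0⌋ : ℤ) : ℝ) := by exact_mod_cast hy.2.2
        constructor <;> linarith
      have h4 := hdiv y hy.1 h3
      have h5 : ((PlaC_N (2 * y)).card : ℝ) ≤ 2 * (dN (2 * y) : ℝ) := by exact_mod_cast PlaC_N_card (2 * y)
      linarith
    calc ∑ y ∈ (Finset.Icc (-⌊Z0⌋) ⌊Z0⌋).erase 0, ((PlaC_N (2 * y)).card : ℝ)
        ≤ ((Finset.Icc (-⌊Z0⌋) ⌊Z0⌋).erase 0).card • (2 * D) := Finset.sum_le_card_nsmul _ _ _ e2
      _ = (2 * (⌊Z0⌋ : ℝ)) * (2 * D) := by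
          rw [nsmul_eq_mul, Finset.card_erase_of_mem (by rw [Finset.mem_Icc]; omega), Int.card_Icc]
          congr 1
          have : (⌊Z0⌋ + 1 - -⌊Z0⌋).toNat - 1 = (2 * ⌊Z0⌋).toNat := by omega
          rw [this]
          have h7 : (((2 * ⌊Z0⌋).toNat : ℕ) : ℤ) = 2 * ⌊Z0⌋ := Int.toNat_of_nonneg (by omega)
          have h8 : (((2 * ⌊Z0⌋).toNat : ℕ) : ℝ) = (((2 * ⌊Z0⌋ : ℤ)) : ℝ) := by
            rw [← h7]
            push_cast
            rfl
          rw [h8]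
          push_cast
          ring
      _ ≤ (2 * Z0) * (2 * D) := by
          have := Int.floor_le Z0
          gcongr
      _ = 4 * D * Z0 := by ring
  calc (Q.card : ℝ) ≤ ((2 * (Q.image f).card : ℕ) : ℝ) := by exact_mod_cast hcard1
    _ ≤ 2 * (T.card : ℝ) := by
        push_cast
        have : ((Q.image f).card : ℝ) ≤ (T.card : ℝ) := by exact_mod_cast hcard2
        linarith
    _ ≤ 8 * D * Z0 := by linarith

end Pool.Agent.SLB
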