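import Pool.Agent.SLB.BodC
import Pool.Agent.SLB.Pl
import Pool.Agent.SLB.PlaC

namespace Pool.Agent.SLB

private theorem comb_abs {s t x y c m : ℝ} (hs : |s| ≤ 2 / m) (ht : |t| ≤ 2 / m) (hm : 0 < m) (hx : |x| ≤ c) (hy : |y| ≤ c) :
    |s * x + t * y| ≤ 4 / m * c := by
  have hc : 0 ≤ c := (abs_nonneg x).trans hx
  have h2 : 0 ≤ 2 / m := by positivity
  calc |s * x + t * y| ≤ |s * x| + |t * y| := abs_add_le _ _
    _ = |s| * |x| + |t| * |y| := by rw [abs_mul, abs_mul]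
    _ ≤ 2 / m * c + 2 / m * c :=
        add_le_add (mul_le_mul hs hx (abs_nonneg _) h2) (mul_le_mul ht hy (abs_nonneg _) h2)
    _ = 4 / m * c := by ring

private theorem comb_sq {s t x y B m : ℝ} (hs : |s| ≤ 2 / m) (ht : |t| ≤ 2 / m) (hm : 0 < m) (hx : x ^ 2 ≤ B) (hy : y ^ 2 ≤ B) :
    (s * x + t * y) ^ 2 ≤ (4 / m) ^ 2 * B := by
  have hB : 0 ≤ B := (sq_nonneg x).trans hx
  have h := comb_abs (c := Real.sqrt B) hs ht hm (Real.abs_le_sqrt hx) (Real.abs_le_sqrt hy)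
  have h4 : 0 ≤ 4 / m * Real.sqrt B := by positivity
  calc (s * x + t * y) ^ 2 = |s * x + t * y| ^ 2 := (sq_abs _).symm
    _ ≤ (4 / m * Real.sqrt B) ^ 2 := pow_le_pow_left₀ (abs_nonneg _) h 2
    _ = (4 / m) ^ 2 * B := by rw [mul_pow, Real.sq_sqrt hB]


/-- Section 6, case PL: all points of the class in a plane.
PROOF.  Let `m >= 1`, `m^2 < #Q`.  `pl`: `q <> q'` in `Q`, `v1, v2 ∈ Q`, `s, t`, `|s|,|t| <= 2/m`, `v := q - q' = s v1 + t v2`; `v <> 0`.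
`|v 0| <= (2/m)(a + a)`, the same for the other coordinates; by linearity `|s1 v| <= (4/m) 2^(j+1)`;
`|d1 v| <= (4/m) sqrt B`, so `d1(v)^2 <= (4/m)^2 B` (`(s x + t y)^2 <= (|s|+|t|)^2 max(x^2,y^2)`), `B` as in `body`; the same for `d2`.
`v ∈ M`, so `Phi v = Dl z`; `short` with `t = 4/m`, `T = 2^(j+1)`.  If `z = 0` and `v0, v1, v2 <> 0`: `plane_count` with
`Z0 = a^3/Y^2`, `hdiv` from `sizes`. -/
theorem oneC {Y S D a b : ℝ} (hC : Con Y S D) (ha : 0 < a) (hb : 0 < b) (haY : a ≤ S * Y) (hbY : b ≤ S * Y)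
    {o : Ob} (ho : o ∈ Obj Y S b) {th th2 : ℝ} (hr : Rt Y S o th th2) (hD : DlO o ≠ 0)
    (M : AddSubgroup V3) (hM : ∀ k ∈ M, DlO o ∣ PhiO o k) (j : ℤ) (Q : Finset V3)
    (hQ : ∀ k ∈ Q, k ∈ M ∧ k ∈ KS Y a b o ∧ Int.log 2 |s1 o.2.1 th th2 (rv k)| = j)
    (hpl : ∀ x ∈ Q, ∀ y ∈ Q, ∀ z ∈ Q, det3 x y z = 0) :
    PLp Y S D a b o Q.card := by
  intro m hm hmQ
  obtain ⟨q, hq, q', hq', hne, v1, hv1, v2, hv2, s, t, hs, ht, hv⟩ := pl Q hpl m hm hmQ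
  have hm0 : (0 : ℝ) < m := by exact_mod_cast hm
  have hc : ∀ i : Fin 3, (((q - q') i : ℤ) : ℝ) = s * (v1 i : ℝ) + t * (v2 i : ℝ) := by
    intro i
    rw [← hv i]
    simp
  have hvne : q - q' ≠ 0 := sub_ne_zero.mpr hne
  have hvM : q - q' ∈ M := M.sub_mem (hQ q hq).1 (hQ q' hq').1
  obtain ⟨z, hz⟩ := hM _ hvM
  obtain ⟨-, hk1, hj1⟩ := hQ v1 hv1
  obtain ⟨-, hk2, hj2⟩ := hQ v2 hv2
  have b1 := body hC ha hb haY hbY ho hr hk1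
  have b2 := body hC ha hb haY hbY ho hr hk2
  rw [hj1] at b1
  rw [hj2] at b2
  obtain ⟨-, b11, b12, b13, -⟩ := b1
  obtain ⟨-, b21, b22, b23, -⟩ := b2
  obtain ⟨-, k10, k11, k12, -⟩ := hk1
  obtain ⟨-, k20, k21, k22, -⟩ := hk2
  have e0 : |(((q - q') 0 : ℤ) : ℝ)| ≤ 4 / m * a := by
    rw [hc 0]
    exact comb_abs hs ht hm0 k10 k20
  have e1 : |(((q - q') 1 : ℤ) : ℝ)| ≤ 4 / m * (a * b / Y) := by
    rw [hc 1]
    exact comb_abs hs ht hm0 k11 k21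
  have e2 : |(((q - q') 2 : ℤ) : ℝ)| ≤ 4 / m * (a * b / Y) := by
    rw [hc 2]
    exact comb_abs hs ht hm0 k12 k22
  have hs1 : s1 o.2.1 th th2 (rv (q - q')) = s * s1 o.2.1 th th2 (rv v1) + t * s1 o.2.1 th th2 (rv v2) := by
    unfold s1 rv
    rw [hc 0, hc 1, hc 2]
    ring
  have hd1 : d1 o.2.1 th (rv (q - q')) = s * d1 o.2.1 th (rv v1) + t * d1 o.2.1 th (rv v2) := by
    unfold d1 rv
    rw [hc 0, hc 1]
    ring
  have hd2 : d2 th th2 (rv (q - q')) = s * d2 th th2 (rv v1) + t * d2 th th2 (rv v2) := by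
    unfold d2 rv
    rw [hc 1, hc 2]
    ring
  have hT : (0 : ℝ) < (2 : ℝ) ^ (j + 1) := by positivity
  refine ⟨q - q', hvne, e0, e1, e2, z, hz, ?_, ?_⟩
  · have hadm : Adm Y S o.1.1 o.1.2 := ho.1
    refine short hC ha hadm hD hr (v := q - q') (t := 4 / m) (T := (2 : ℝ) ^ (j + 1)) (by positivity) hT e0 ?_ ?_ ?_ hz
    · rw [hs1]
      exact comb_abs hs ht hm0 b11 b21
    · rw [hd1]
      exact comb_sq hs ht hm0 b12 b22
    · rw [hd2]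
      exact comb_sq hs ht hm0 b13 b23
  · intro hz0 h0 h1 h2
    have hv0 : PhiO o (q - q') = 0 := by rw [hz, hz0, mul_zero]
    refine plane_count hD M hM Q (fun k hk => (hQ k hk).1) hpl hq hq' hv0 h0 h1 h2 (a ^ 3 / Y ^ 2) D ?_ ?_
    · intro k hk
      obtain ⟨-, -, -, -, z', hz'0, hz'1, hz'2⟩ := (hQ k hk).2.1
      exact ⟨z', hz'0, hz'1, hz'2⟩
    · exact (sizes hC ha hb haY hbY).2

end Pool.Agent.SLB
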