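import Pool.Agent.SLB.OneA
import Pool.Agent.SLB.OneB
import Pool.Agent.SLB.OneC

namespace Pool.Agent.SLB

/-- Section 6: one object.
PROOF.  `KS` empty: `n = 0` (`PLp` is vacuous: no `m` with `m^2 < 0`).  Otherwise `exists_th` gives the roots (`Rt`),
`pick` gives `M, j, Q`; `n = #Q`; if all `det3` on `Q` vanish `oneC`, else `oneB`. -/
theorem one {Y S D a b : ℝ} (hC : Con Y S D) (ha : 0 < a) (hb : 0 < b) (haY : a ≤ S * Y) (hbY : b ≤ S * Y)
    {o : Ob} (ho : o ∈ Obj Y S b) :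
    ∃ n : ℕ, n ≤ (KS Y a b o).ncard ∧ ((KS Y a b o).ncard : ℝ) ≤ D ^ 8 * n ∧
      ((n : ℝ) ≤ 2592 * S ^ 2 * a ^ 3 / Y ^ 2 * gw o ∨ PLp Y S D a b o n) := by
  by_cases hne : (KS Y a b o).Nonempty
  · have hY : 0 < Y := by
      have := hC.hY
      linarith
    obtain ⟨th, th2, e1, e2, e3, e4, e5, e6, e7, e8, e9⟩ := exists_th hY ho.1
    have hr : Rt Y S o th th2 := ⟨e1, e2, e3, e4, e5, e6, e7, e8, e9⟩
    obtain ⟨hD, M, hM1, hM2, j, Q, hQ, hle, hge⟩ := pick hC ha hb haY hbY ho hr hne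
    refine ⟨Q.card, hle, hge, ?_⟩
    by_cases hpl : ∀ x ∈ Q, ∀ y ∈ Q, ∀ z ∈ Q, det3 x y z = 0
    · exact Or.inr (oneC hC ha hb haY hbY ho hr hD M hM1 j Q hQ hpl)
    · left
      push Not at hpl
      exact oneB hC ha hb haY hbY ho hr hD M hM2 j Q hQ hpl
  · rw [Set.not_nonempty_iff_eq_empty] at hne
    refine ⟨0, Nat.zero_le _, ?_, Or.inr ?_⟩
    · rw [hne]
      simp
    · intro m hm hm2
      exact absurd hm2 (Nat.not_lt_zero _)

end Pool.Agent.SLB
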