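import Pool.Agent.SLB.BodC
import Pool.Agent.SLB.Cov

namespace Pool.Agent.SLB

/-- Section 6, choice of the best class `(M, j)`.
PROOF.  `Dl <> 0` by `Dl_ne` (an element `k` of `KS`, which is nonempty).  `F` from `cover`, `#F <= d(Dl)^7 <= D^7` (`sizes`).
Each `k ∈ KS` lies in some `M ∈ F` (`Dl | Phi(k)`) and has `j = Int.log 2 |s1 k|` in `[-L, L]`, `L = ⌊22 log Y⌋`
(`body`), `2L+1 <= 44 log Y + 1 <= D`.  So `KS` is covered by at most `D^7 * D` sets `{k ∈ KS : k ∈ M, j(k) = j}`; the largest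
has `#KS <= D^8 #Q` elements.  `#Q <= #KS` (`KS_finite`). -/
theorem pick {Y S D a b : ℝ} (hC : Con Y S D) (ha : 0 < a) (hb : 0 < b) (haY : a ≤ S * Y) (hbY : b ≤ S * Y)
    {o : Ob} (ho : o ∈ Obj Y S b) {th th2 : ℝ} (hr : Rt Y S o th th2) (hne : (KS Y a b o).Nonempty) :
    DlO o ≠ 0 ∧ ∃ M : AddSubgroup V3, (∀ k ∈ M, DlO o ∣ PhiO o k) ∧
      (∀ x ∈ M, ∀ y ∈ M, ∀ z ∈ M, DlO o ∣ 9 * o.2.1 * det3 x y z) ∧
      ∃ j : ℤ, ∃ Q : Finset V3, (∀ k ∈ Q, k ∈ M ∧ k ∈ KS Y a b o ∧ Int.log 2 |s1 o.2.1 th th2 (rv k)| = j) ∧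
        Q.card ≤ (KS Y a b o).ncard ∧ ((KS Y a b o).ncard : ℝ) ≤ D ^ 8 * Q.card := by
  classical
  have hD1 : 1 ≤ D := le_trans hC.hS1 hC.hSD
  obtain ⟨k0, hk0⟩ := hne
  have hDl : DlO o ≠ 0 := by
    obtain ⟨h1, _, _, _, z, hz, _, hP⟩ := hk0
    exact (Dl_ne ho.1.ari ho.2.1 h1 hP).1
  refine ⟨hDl, ?_⟩
  obtain ⟨F, hFc, hF1, hF2, hF3⟩ := cover ho.1.ari (p := o.2.1) (y := o.2.2) hDl
  set jj : V3 → ℤ := fun k => Int.log 2 |s1 o.2.1 th th2 (rv k)| with hjj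
  have hlog : 0 ≤ Real.log Y := Real.log_nonneg (by linarith [hC.hY])
  set L : ℤ := ⌊22 * Real.log Y⌋ with hL
  have hL0 : 0 ≤ L := Int.floor_nonneg.2 (by positivity)
  have hcov : ∀ k ∈ KS Y a b o, ∃ M ∈ F, k ∈ M := by
    intro k hk
    obtain ⟨_, _, _, _, z, _, _, hP⟩ := hk
    exact hF1 k ⟨z, hP⟩
  choose! f hfF hfk using hcov
  have hjr : ∀ k ∈ KS Y a b o, jj k ∈ Finset.Icc (-L) L := by
    intro k hk
    have h := (body hC ha hb haY hbY ho hr hk).2.2.2.2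
    rw [Finset.mem_Icc]
    have h1 := abs_le.1 h
    constructor
    · have : ((-(jj k) : ℤ) : ℝ) ≤ 22 * Real.log Y := by push_cast; simp only [hjj]; linarith [h1.1]
      have h2 := Int.le_floor.2 this
      linarith
    · exact Int.le_floor.2 (by simp only [hjj]; exact h1.2)
  set K : Finset V3 := (KS_finite Y a b o).toFinset with hK
  have hKm : ∀ k, k ∈ K ↔ k ∈ KS Y a b o := fun k => by rw [hK]; simp
  have hKc : (KS Y a b o).ncard = K.card := by
    rw [hK]; exact Set.ncard_eq_toFinset_card _ _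
  set TT : Finset (AddSubgroup V3 × ℤ) := F ×ˢ Finset.Icc (-L) L with hTT
  have hmap : ∀ k ∈ K, (f k, jj k) ∈ TT := by
    intro k hk
    have hk' := (hKm k).1 hk
    rw [hTT, Finset.mem_product]
    exact ⟨hfF k hk', hjr k hk'⟩
  have hTne : TT.Nonempty := ⟨_, hmap k0 ((hKm k0).2 hk0)⟩
  obtain ⟨⟨M, j⟩, hMj, hmax⟩ := Finset.exists_max_image TT
    (fun t => (K.filter (fun k => (f k, jj k) = t)).card) hTne
  have hsum : K.card ≤ TT.card * (K.filter (fun k => (f k, jj k) = (M, j))).card := by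
    calc K.card = ∑ t ∈ TT, (K.filter (fun k => (f k, jj k) = t)).card :=
          Finset.card_eq_sum_card_fiberwise hmap
      _ ≤ ∑ _t ∈ TT, (K.filter (fun k => (f k, jj k) = (M, j))).card := Finset.sum_le_sum hmax
      _ = _ := by rw [Finset.sum_const, smul_eq_mul]
  have hMF : M ∈ F := (Finset.mem_product.1 hMj).1
  refine ⟨M, fun k hk => hF2 M hMF k hk, fun x hx y hy z hz => hF3 M hMF x hx y hy z hz, j,
    K.filter (fun k => (f k, jj k) = (M, j)), ?_, ?_, ?_⟩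
  · intro k hk
    rw [Finset.mem_filter, Prod.mk.injEq] at hk
    obtain ⟨hk1, hk2, hk3⟩ := hk
    have hk' := (hKm k).1 hk1
    refine ⟨?_, hk', hk3⟩
    rw [← hk2]; exact hfk k hk'
  · rw [hKc]; exact Finset.card_le_card (Finset.filter_subset _ _)
  · have hT : (TT.card : ℝ) ≤ D ^ 8 := by
      rw [hTT, Finset.card_product]
      push_cast
      have h1 : (F.card : ℝ) ≤ D ^ 7 := by
        calc (F.card : ℝ) ≤ ((dN (DlO o) ^ 7 : ℕ) : ℝ) := by exact_mod_cast hFc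
          _ = (dN (DlO o) : ℝ) ^ 7 := by push_cast; rfl
          _ ≤ D ^ 7 := by
              have := (sizes hC ha hb haY hbY).1 o ho hDl
              gcongr
      have h2 : ((Finset.Icc (-L) L).card : ℝ) ≤ D := by
        rw [Int.card_Icc]
        have h3 : (((L + 1 - -L).toNat : ℕ) : ℤ) = 2 * L + 1 := by
          rw [Int.toNat_of_nonneg (by linarith)]; ring
        have h4 : (((L + 1 - -L).toNat : ℕ) : ℝ) = 2 * (L : ℝ) + 1 := by exact_mod_cast h3
        rw [h4]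
        have h5 : (L : ℝ) ≤ 22 * Real.log Y := Int.floor_le _
        linarith [hC.hlog]
      calc (F.card : ℝ) * ((Finset.Icc (-L) L).card : ℝ) ≤ D ^ 7 * D := by gcongr
        _ = D ^ 8 := by ring
    rw [hKc]
    calc (K.card : ℝ) ≤ ((TT.card * (K.filter (fun k => (f k, jj k) = (M, j))).card : ℕ) : ℝ) := by
          exact_mod_cast hsum
      _ = (TT.card : ℝ) * ((K.filter (fun k => (f k, jj k) = (M, j))).card : ℝ) := by push_cast; rfl
      _ ≤ D ^ 8 * ((K.filter (fun k => (f k, jj k) = (M, j))).card : ℝ) := by gcongr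

end Pool.Agent.SLB
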