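import Pool.Agent.SLB.Alg
import Pool.Agent.SLB.Det

namespace Pool.Agent.SLB

private lemma PlaB_hom {R : Type*} [CommRing R] (y2 y3 p y t x u w : R) :
    Phi y2 y3 p y (t * x) (t * u) (t * w) = t ^ 3 * Phi y2 y3 p y x u w := by
  unfold Phi
  ring

/-- `k ↦ det3 v k e` -/
private def PlaB_h (v e : V3) : V3 →+ ℤ where
  toFun k := det3 v k e
  map_zero' := by simp [det3]
  map_add' a b := by
    simp only [det3, Pi.add_apply]
    ring

/-- `k ↦ det3 v k1 k` -/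
private def PlaB_f (v k1 : V3) : V3 →+ ℤ where
  toFun k := det3 v k1 k
  map_zero' := by simp [det3]
  map_add' a b := by
    simp only [det3, Pi.add_apply]
    ring

private lemma PlaB_zero {o : Ob} {c d : ℤ} (hd : d ≠ 0) {v k : V3} (hv : PhiO o v = 0)
    (h : ∀ i : Fin 3, d * k i = c * v i) : PhiO o k = 0 := by
  unfold PhiO at hv ⊢
  have h1 : d ^ 3 * Phi o.1.1 o.1.2 o.2.1 o.2.2 (k 0) (k 1) (k 2) = 0 := by
    rw [← PlaB_hom, h 0, h 1, h 2, PlaB_hom, hv, mul_zero]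
  rcases mul_eq_zero.1 h1 with h2 | h2
  · exact absurd h2 (pow_ne_zero 3 hd)
  · exact h2

/-- Section 7, the structure of the lattice points in a plane containing a zero `v` of `Phi`.
PROOF.  `k1` is not a multiple of `v`: otherwise (`parallel` applied to `v, k1`) `v_i k1 = k1_i v` for a coordinate with
`v_i <> 0`, so `v_i^3 Phi(k1) = k1_i^3 Phi(v) = 0`.  So there is a unit vector `e = Pi.single i 1` with
`h(k1) <> 0`, `h(k) := det3 v k e` (additive in `k`).  `La = {k ∈ M : det3 v k1 k = 0}` is a subgroup containing `v`, `k1`; its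
image under `h` is a nonzero subgroup `g Z` of `Z` (`Int.subgroup_cyclic` / `AddSubgroup.zmultiples`), `h(w) = g <> 0`, `w ∈ La`.
For `k ∈ La` let `h(k) = n g`; `k' = k - n w ∈ La` has `h(k') = 0`.  `cramer4` for `(v, k1, e; k')`:
`det3 v k1 e k' = det3 k' k1 e v + det3 v k' e k1 + det3 v k1 k' e` = `det3 k' k1 e v`, so `k' = rho v`, `rho` rational.
DIVISIBILITY: `rho v = k' ∈ M`; so `w + k', w - k', w ∈ M`, and with `be = Pol v w`, `ga = Pol w v`, `de = Phi w` (`Phi_comb` over ℚ)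
`Phi(w + k') = be rho^2 + ga rho + de`, `Phi(w - k') = be rho^2 - ga rho + de`: so `Dl | de`, `Dl | 2 be rho^2`, `Dl | 2 ga rho`
(these rational numbers are integers), and `2 Phi(k) = 2 Phi(n w + k') = n (2 be rho^2 + 2 ga rho n + 2 de n^2)` is
divisible by `n Dl`.
NONDEGENERACY: `Pol v w = 0 = Pol w v` would give by `hess` (with `e`): `216 Dl v0 v1 v2 h(w)^2 = 0`, contradiction. -/
theorem plane_struct {o : Ob} (hD : DlO o ≠ 0) (M : AddSubgroup V3) (hM : ∀ k ∈ M, DlO o ∣ PhiO o k)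
    {v k1 : V3} (hv : v ∈ M) (hk1 : k1 ∈ M) (hv0 : PhiO o v = 0) (h0 : v 0 ≠ 0) (h1 : v 1 ≠ 0) (h2 : v 2 ≠ 0)
    (hk : PhiO o k1 ≠ 0) :
    ∃ w : V3, w ∈ M ∧ (Pol o.1.1 o.1.2 o.2.1 o.2.2 v w ≠ 0 ∨ Pol o.1.1 o.1.2 o.2.1 o.2.2 w v ≠ 0) ∧
      ∀ k ∈ M, det3 v k1 k = 0 → ∃ n : ℤ, ∃ rho : ℚ, (∀ i : Fin 3, (k i : ℚ) = n * (w i : ℚ) + rho * (v i : ℚ)) ∧
        n * DlO o ∣ 2 * PhiO o k := by
  have hvne : v ≠ 0 := fun h => h0 (by rw [h]; rfl)
  -- a coordinate vector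
  obtain ⟨i0, hi0⟩ : ∃ i : Fin 3, det3 v k1 (Pi.single i 1) ≠ 0 := by
    by_contra hcon
    push Not at hcon
    obtain ⟨i, hi, hij⟩ := parallel hvne hcon
    exact hk (PlaB_zero hi hv0 hij)
  obtain ⟨e, he⟩ : ∃ e : V3, e = Pi.single i0 1 := ⟨_, rfl⟩
  rw [← he] at hi0
  obtain ⟨g, hg⟩ := Int.subgroup_cyclic ((M ⊓ (PlaB_f v k1).ker).map (PlaB_h v e))
  have hk1La : k1 ∈ M ⊓ (PlaB_f v k1).ker := by
    refine AddSubgroup.mem_inf.2 ⟨hk1, AddMonoidHom.mem_ker.2 ?_⟩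
    exact (det3_lin v v k1 k1 0 0).2.2.2.2.2.2.1
  have hg0 : g ≠ 0 := by
    intro hg0
    have h3 : PlaB_h v e k1 ∈ (M ⊓ (PlaB_f v k1).ker).map (PlaB_h v e) :=
      AddSubgroup.mem_map_of_mem _ hk1La
    rw [hg, AddSubgroup.mem_closure_singleton] at h3
    obtain ⟨n, hn⟩ := h3
    rw [hg0, smul_zero] at hn
    exact hi0 hn.symm
  have hgmem : g ∈ (M ⊓ (PlaB_f v k1).ker).map (PlaB_h v e) := by
    rw [hg]
    exact AddSubgroup.mem_closure_singleton_self g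
  obtain ⟨w, hwLa, hwg⟩ := AddSubgroup.mem_map.1 hgmem
  have hwM : w ∈ M := hwLa.1
  have hwf : det3 v k1 w = 0 := (AddMonoidHom.mem_ker).1 hwLa.2
  have hwh : det3 v w e = g := hwg
  refine ⟨w, hwM, ?_, ?_⟩
  · by_contra hcon
    push Not at hcon
    have h3 := hess (e := e) hv0 hcon.1 hcon.2
    rw [hwh] at h3
    have h4 : (216 : ℤ) * Dl o.1.1 o.1.2 o.2.1 o.2.2 * (v 0 * v 1 * v 2) * g ^ 2 ≠ 0 :=
      mul_ne_zero (mul_ne_zero (mul_ne_zero (by norm_num) hD) (mul_ne_zero (mul_ne_zero h0 h1) h2))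
        (pow_ne_zero 2 hg0)
    exact h4 h3
  · intro k hkM hkf
    have hkLa : k ∈ M ⊓ (PlaB_f v k1).ker := ⟨hkM, AddMonoidHom.mem_ker.2 hkf⟩
    have h3 : PlaB_h v e k ∈ (M ⊓ (PlaB_f v k1).ker).map (PlaB_h v e) :=
      AddSubgroup.mem_map_of_mem _ hkLa
    rw [hg, AddSubgroup.mem_closure_singleton] at h3
    obtain ⟨n, hn⟩ := h3
    -- the vector k' = k - n w
    obtain ⟨k', hk'⟩ : ∃ k' : V3, k' = k - n • w := ⟨_, rfl⟩
    have hk'M : k' ∈ M := by
      rw [hk']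
      exact M.sub_mem hkM (M.zsmul_mem hwM n)
    have hk'f : det3 v k1 k' = 0 := by
      have h4 : PlaB_f v k1 k' = 0 := by
        rw [hk', map_sub, map_zsmul]
        have h5 : PlaB_f v k1 k = 0 := hkf
        have h6 : PlaB_f v k1 w = 0 := hwf
        rw [h5, h6, smul_zero, sub_zero]
      exact h4
    have hk'h : det3 v k' e = 0 := by
      have h4 : PlaB_h v e k' = 0 := by
        rw [hk', map_sub, map_zsmul, ← hn, hwg, sub_self]
      exact h4
    have hcr : ∀ i : Fin 3, det3 v k1 e * k' i = det3 k' k1 e * v i := by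
      intro i
      have h4 := cramer4 v k1 e k' i
      rw [hk'h, hk'f, zero_mul, zero_mul, add_zero, add_zero] at h4
      exact h4
    have hk'0 : PhiO o k' = 0 := PlaB_zero hi0 hv0 hcr
    have hki : ∀ i : Fin 3, k i = n * w i + k' i := by
      intro i
      rw [hk']
      simp only [Pi.sub_apply, Pi.smul_apply, smul_eq_mul]
      ring
    refine ⟨n, ((det3 k' k1 e : ℤ) : ℚ) / ((det3 v k1 e : ℤ) : ℚ), ?_, ?_⟩
    · intro i
      have h4 : ((det3 v k1 e : ℤ) : ℚ) ≠ 0 := by exact_mod_cast hi0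
      have h5 : ((det3 v k1 e : ℤ) : ℚ) * (k' i : ℚ) = ((det3 k' k1 e : ℤ) : ℚ) * (v i : ℚ) := by
        exact_mod_cast hcr i
      rw [hki i]
      push_cast
      congr 1
      rw [div_mul_eq_mul_div, eq_div_iff h4, ← h5, mul_comm]
    · -- divisibility
      have hC : DlO o ∣ PhiO o w := hM w hwM
      have hA : DlO o ∣ PhiO o (w + k') := hM _ (M.add_mem hwM hk'M)
      have hB : DlO o ∣ PhiO o (w - k') := hM _ (M.sub_mem hwM hk'M)
      have c1 := Phi_comb o.1.1 o.1.2 o.2.1 o.2.2 k' w 1 1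
      have c2 := Phi_comb o.1.1 o.1.2 o.2.1 o.2.2 k' w (-1) 1
      have c3 := Phi_comb o.1.1 o.1.2 o.2.1 o.2.2 k' w 1 n
      have hk'0' : Phi o.1.1 o.1.2 o.2.1 o.2.2 (k' 0) (k' 1) (k' 2) = 0 := hk'0
      rw [hk'0'] at c1 c2 c3
      have eA : PhiO o (w + k') = Phi o.1.1 o.1.2 o.2.1 o.2.2 (1 * k' 0 + 1 * w 0)
          (1 * k' 1 + 1 * w 1) (1 * k' 2 + 1 * w 2) := by
        unfold PhiO
        simp only [Pi.add_apply]
        congr 1 <;> ring
      have eB : PhiO o (w - k') = Phi o.1.1 o.1.2 o.2.1 o.2.2 (-1 * k' 0 + 1 * w 0)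
          (-1 * k' 1 + 1 * w 1) (-1 * k' 2 + 1 * w 2) := by
        unfold PhiO
        simp only [Pi.sub_apply]
        congr 1 <;> ring
      have eK : PhiO o k = Phi o.1.1 o.1.2 o.2.1 o.2.2 (1 * k' 0 + n * w 0)
          (1 * k' 1 + n * w 1) (1 * k' 2 + n * w 2) := by
        unfold PhiO
        rw [hki 0, hki 1, hki 2]
        congr 1 <;> ring
      rw [c1] at eA
      rw [c2] at eB
      rw [c3] at eK
      have eC : PhiO o w = Phi o.1.1 o.1.2 o.2.1 o.2.2 (w 0) (w 1) (w 2) := rfl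
      rw [← eC] at eA eB eK
      obtain ⟨a', ha'⟩ := hA
      obtain ⟨b', hb'⟩ := hB
      obtain ⟨c', hc'⟩ := hC
      refine ⟨(a' + b' - 2 * c') + n * (a' - b') + 2 * n ^ 2 * c', ?_⟩
      have q1 : 2 * Pol o.1.1 o.1.2 o.2.1 o.2.2 k' w = DlO o * (a' + b' - 2 * c') := by
        have : 2 * Pol o.1.1 o.1.2 o.2.1 o.2.2 k' w =
            PhiO o (w + k') + PhiO o (w - k') - 2 * PhiO o w := by
          rw [eA, eB]
          ring
        rw [this, ha', hb', hc']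
        ring
      have q2 : 2 * Pol o.1.1 o.1.2 o.2.1 o.2.2 w k' = DlO o * (a' - b') := by
        have : 2 * Pol o.1.1 o.1.2 o.2.1 o.2.2 w k' = PhiO o (w + k') - PhiO o (w - k') := by
          rw [eA, eB]
          ring
        rw [this, ha', hb']
        ring
      calc 2 * PhiO o k = n * (2 * Pol o.1.1 o.1.2 o.2.1 o.2.2 k' w) +
            n ^ 2 * (2 * Pol o.1.1 o.1.2 o.2.1 o.2.2 w k') + 2 * n ^ 3 * PhiO o w := by
            rw [eK]
            ring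
        _ = n * DlO o * ((a' + b' - 2 * c') + n * (a' - b') + 2 * n ^ 2 * c') := by
            rw [q1, q2, hc']
            ring

end Pool.Agent.SLB
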