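import Pool.Agent.SLB.Desc

namespace Pool.Agent.SLB

private def RamA_M (l A B C q : ℕ) (p ρ : ℤ) (lin : V3 →+ ℤ) : AddSubgroup V3 where
  carrier := {k | (l : ℤ) ^ A ∣ p * k 0 ∧ (l : ℤ) ^ B ∣ k 1 ∧ (l : ℤ) ^ C ∣ k 2 ∧
    (l : ℤ) ^ (q + 1) ∣ lin k - ρ * (l : ℤ) ^ q * k 0}
  add_mem' := by
    rintro a b ⟨h1, h2, h3, h4⟩ ⟨g1, g2, g3, g4⟩
    refine ⟨?_, dvd_add h2 g2, dvd_add h3 g3, ?_⟩
    · have := dvd_add h1 g1
      rw [← mul_add] at this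
      exact this
    · have := dvd_add h4 g4
      have e : lin (a + b) - ρ * (l : ℤ) ^ q * (a + b) 0 =
          lin a - ρ * (l : ℤ) ^ q * a 0 + (lin b - ρ * (l : ℤ) ^ q * b 0) := by
        rw [map_add, Pi.add_apply]
        ring
      rw [e]
      exact this
  zero_mem' := by
    refine ⟨?_, ?_, ?_, ?_⟩ <;> simp
  neg_mem' := by
    rintro a ⟨h1, h2, h3, h4⟩
    refine ⟨?_, ?_, ?_, ?_⟩
    · rw [Pi.neg_apply, mul_neg]
      exact (dvd_neg).mpr h1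
    · exact (dvd_neg).mpr h2
    · exact (dvd_neg).mpr h3
    · have e : lin (-a) - ρ * (l : ℤ) ^ q * (-a) 0 = -(lin a - ρ * (l : ℤ) ^ q * a 0) := by
        rw [map_neg, Pi.neg_apply]
        ring
      rw [e]
      exact (dvd_neg).mpr h4

private def RamA_Z (l A B C q : ℕ) (p : ℤ) (lin : V3 →+ ℤ) : AddSubgroup V3 where
  carrier := {k | (l : ℤ) ^ A ∣ p * k 0 ∧ (l : ℤ) ^ B ∣ k 1 ∧ (l : ℤ) ^ C ∣ k 2 ∧
    (l : ℤ) ∣ k 0 ∧ (l : ℤ) ^ (q + 1) ∣ lin k}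
  add_mem' := by
    rintro a b ⟨h1, h2, h3, h4, h5⟩ ⟨g1, g2, g3, g4, g5⟩
    refine ⟨?_, dvd_add h2 g2, dvd_add h3 g3, dvd_add h4 g4, ?_⟩
    · have := dvd_add h1 g1
      rw [← mul_add] at this
      exact this
    · rw [map_add]
      exact dvd_add h5 g5
  zero_mem' := by
    refine ⟨?_, ?_, ?_, ?_, ?_⟩ <;> simp
  neg_mem' := by
    rintro a ⟨h1, h2, h3, h4, h5⟩
    refine ⟨?_, ?_, ?_, ?_, ?_⟩
    · rw [Pi.neg_apply, mul_neg]
      exact (dvd_neg).mpr h1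
    · exact (dvd_neg).mpr h2
    · exact (dvd_neg).mpr h3
    · exact (dvd_neg).mpr h4
    · rw [map_neg]
      exact (dvd_neg).mpr h5

private lemma RamA_roots {l : ℕ} (hl : l.Prime) {c D' : ℤ} (hc : ¬ (l : ℤ) ∣ c) :
    ((Finset.range l).filter (fun ρ : ℕ => (l : ℤ) ∣ c * (ρ : ℤ) ^ 3 + D')).card ≤ 3 := by
  classical
  haveI : Fact l.Prime := ⟨hl⟩
  have hc' : (c : ZMod l) ≠ 0 := by
    intro h
    exact hc ((ZMod.intCast_zmod_eq_zero_iff_dvd c l).mp h)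
  have h1 : ((Finset.range l).filter (fun ρ : ℕ => (l : ℤ) ∣ c * (ρ : ℤ) ^ 3 + D')).card ≤
      (Polynomial.nthRoots 3 (-(D' : ZMod l) / (c : ZMod l))).toFinset.card := by
    refine Finset.card_le_card_of_injOn (fun ρ : ℕ => (ρ : ZMod l)) ?_ ?_
    · intro ρ hρ
      rw [Finset.coe_filter] at hρ
      have h2 := hρ.2
      rw [Finset.mem_coe, Multiset.mem_toFinset, Polynomial.mem_nthRoots (by norm_num),
        eq_div_iff hc']
      have h3 := (ZMod.intCast_zmod_eq_zero_iff_dvd (c * (ρ : ℤ) ^ 3 + D') l).mpr h2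
      push_cast at h3
      linear_combination h3
    · intro a ha b hb hab
      rw [Finset.coe_filter] at ha hb
      have ha1 := Finset.mem_range.mp ha.1
      have hb1 := Finset.mem_range.mp hb.1
      have h4 := (ZMod.natCast_eq_natCast_iff' a b l).mp hab
      rwa [Nat.mod_eq_of_lt ha1, Nat.mod_eq_of_lt hb1] at h4
  exact h1.trans ((Multiset.toFinset_card_le _).trans (Polynomial.card_nthRoots _ _))

private lemma RamA_core {l : ℕ} (hl : l.Prime) {t y3 p y D' c : ℤ} (ht : ¬ (l : ℤ) ∣ t)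
    (h3 : ¬ (l : ℤ) ∣ y3) {e A B C q : ℕ} (he : 1 ≤ e) (hA : A = (e + 2) / 3) (hB : B = e / 3)
    (hC : C = (e + 1) / 3) (hsum : A + B + C = e)
    (hD : Dl ((l : ℤ) * t) y3 p y = (l : ℤ) ^ e * D') (hD' : ¬ (l : ℤ) ∣ D')
    (hc : ¬ (l : ℤ) ∣ c) (lin : V3 →+ ℤ)
    (hN : ∀ k : V3, (l : ℤ) ^ A ∣ p * k 0 → (l : ℤ) ^ B ∣ k 1 → (l : ℤ) ^ C ∣ k 2 →
      ∃ lam : ℤ, lin k = (l : ℤ) ^ q * lam ∧
        (l : ℤ) ^ (e + 1) ∣ Nm ((l : ℤ) * t) y3 (p * k 0) (k 1) (k 2) -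
          (l : ℤ) ^ e * c * lam ^ 3) :
    LocCov l e ((l : ℤ) * t) y3 p y := by
  classical
  have hlp : Prime (l : ℤ) := Nat.prime_iff_prime_int.mp hl
  have hl0 : (l : ℤ) ≠ 0 := hlp.ne_zero
  have hle : (l : ℤ) ^ e ≠ 0 := pow_ne_zero _ hl0
  have hlq : (l : ℤ) ^ q ≠ 0 := pow_ne_zero _ hl0
  have hcop : IsCoprime ((l : ℤ) ^ e) (t * y3) := by
    apply IsCoprime.pow_left
    rw [Prime.coprime_iff_not_dvd hlp]
    intro h
    rcases hlp.dvd_or_dvd h with h | h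
    · exact ht h
    · exact h3 h
  have hid : ∀ k : V3, (l : ℤ) * (t * y3 * Phi ((l : ℤ) * t) y3 p y (k 0) (k 1) (k 2)) =
      Nm ((l : ℤ) * t) y3 (p * k 0) (k 1) (k 2) + (l : ℤ) ^ e * D' * k 0 ^ 3 := by
    intro k
    rw [← hD]
    unfold Phi Nm Dl
    ring
  have key : ∀ k : V3, ∀ lam : ℤ, (l : ℤ) ^ A ∣ p * k 0 → (l : ℤ) ^ B ∣ k 1 →
      (l : ℤ) ^ C ∣ k 2 → lin k = (l : ℤ) ^ q * lam →
      ((l : ℤ) ^ e ∣ Phi ((l : ℤ) * t) y3 p y (k 0) (k 1) (k 2) ↔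
        (l : ℤ) ∣ c * lam ^ 3 + D' * k 0 ^ 3) := by
    intro k lam g1 g2 g3 g4
    obtain ⟨lam', g5, m, g6⟩ := hN k g1 g2 g3
    have g7 : lam' = lam := by
      apply mul_left_cancel₀ hlq
      rw [← g5, g4]
    subst g7
    have g8 := hid k
    have g9 : Nm ((l : ℤ) * t) y3 (p * k 0) (k 1) (k 2) =
        (l : ℤ) ^ e * c * lam' ^ 3 + (l : ℤ) ^ (e + 1) * m := by
      linear_combination g6
    rw [g9] at g8
    constructor
    · rintro ⟨f, hf⟩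
      rw [hf] at g8
      refine ⟨t * y3 * f - m, ?_⟩
      apply mul_left_cancel₀ hle
      rw [pow_succ] at g8
      linear_combination -g8
    · rintro ⟨g, hg⟩
      apply hcop.dvd_of_dvd_mul_left
      refine ⟨g + m, ?_⟩
      apply mul_left_cancel₀ hl0
      rw [pow_succ] at g8
      linear_combination g8 + (l : ℤ) ^ e * hg
  let F : Finset (AddSubgroup V3) := insert (RamA_Z l A B C q p lin)
    (((Finset.range l).filter (fun ρ : ℕ => (l : ℤ) ∣ c * (ρ : ℤ) ^ 3 + D')).image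
      (fun ρ : ℕ => RamA_M l A B C q p (ρ : ℤ) lin))
  have hstar : ∀ M ∈ F, ∀ k ∈ M, (l : ℤ) ^ A ∣ p * k 0 ∧ (l : ℤ) ^ B ∣ k 1 ∧
      (l : ℤ) ^ C ∣ k 2 := by
    intro M hM k hk
    rcases Finset.mem_insert.mp hM with rfl | hM
    · exact ⟨hk.1, hk.2.1, hk.2.2.1⟩
    · obtain ⟨ρ, _, rfl⟩ := Finset.mem_image.mp hM
      exact ⟨hk.1, hk.2.1, hk.2.2.1⟩
  refine ⟨F, ?_, ?_, ?_, ?_⟩
  · calc F.card ≤ (((Finset.range l).filter
          (fun ρ : ℕ => (l : ℤ) ∣ c * (ρ : ℤ) ^ 3 + D')).image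
          (fun ρ : ℕ => RamA_M l A B C q p (ρ : ℤ) lin)).card + 1 := Finset.card_insert_le _ _
      _ ≤ 3 + 1 := Nat.succ_le_succ (Finset.card_image_le.trans (RamA_roots hl hc))
      _ ≤ 5 ^ 3 := by norm_num
      _ ≤ (4 * e + 1) ^ 3 := Nat.pow_le_pow_left (by omega) 3
  · intro k hk
    have g1 : (l : ℤ) ^ e ∣ Nm ((l : ℤ) * t) y3 (p * k 0) (k 1) (k 2) := by
      have h4 := hid k
      have h5 : Nm ((l : ℤ) * t) y3 (p * k 0) (k 1) (k 2) =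
          (l : ℤ) * (t * y3 * Phi ((l : ℤ) * t) y3 p y (k 0) (k 1) (k 2)) -
            (l : ℤ) ^ e * (D' * k 0 ^ 3) := by
        linear_combination -h4
      rw [h5]
      exact dvd_sub (Dvd.dvd.mul_left (Dvd.dvd.mul_left hk _) _) (Dvd.intro _ rfl)
    obtain ⟨s1, s2, s3⟩ := descent hl ht h3 e _ _ _ g1
    rw [← hA] at s1
    rw [← hB] at s2
    rw [← hC] at s3
    obtain ⟨lam, g5, _⟩ := hN k s1 s2 s3
    have g6 := (key k lam s1 s2 s3 g5).mp hk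
    by_cases hx : (l : ℤ) ∣ k 0
    · refine ⟨RamA_Z l A B C q p lin, Finset.mem_insert_self _ _, s1, s2, s3, hx, ?_⟩
      have g7 : (l : ℤ) ∣ c * lam ^ 3 := by
        have h6 : (l : ℤ) ∣ D' * k 0 ^ 3 := Dvd.dvd.mul_left (dvd_pow hx (by norm_num)) _
        exact (dvd_add_left h6).mp g6
      have g8 : (l : ℤ) ∣ lam := by
        rcases hlp.dvd_or_dvd g7 with h | h
        · exact absurd h hc
        · exact hlp.dvd_of_dvd_pow h
      rw [g5, pow_succ]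
      exact mul_dvd_mul_left _ g8
    · have hcx : IsCoprime (l : ℤ) (k 0) := (Prime.coprime_iff_not_dvd hlp).mpr hx
      obtain ⟨u, v, huv⟩ := hcx
      have hl0' : (0 : ℤ) < l := by exact_mod_cast hl.pos
      obtain ⟨ρ, hρl, hρ⟩ : ∃ ρ : ℕ, ρ < l ∧ (l : ℤ) ∣ (ρ : ℤ) - v * lam := by
        refine ⟨((v * lam) % (l : ℤ)).toNat, ?_, ?_⟩
        · have h7 := Int.emod_lt_of_pos (v * lam) hl0'
          have h8 := Int.emod_nonneg (v * lam) hl0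
          omega
        · rw [Int.toNat_of_nonneg (Int.emod_nonneg _ hl0)]
          refine ⟨-((v * lam) / (l : ℤ)), ?_⟩
          have h9 := Int.mul_ediv_add_emod (v * lam) (l : ℤ)
          linear_combination h9
      have hρx : (l : ℤ) ∣ lam - (ρ : ℤ) * k 0 := by
        obtain ⟨m, hm⟩ := hρ
        refine ⟨u * lam - m * k 0, ?_⟩
        linear_combination -(k 0) * hm - lam * huv
      have hroot : (l : ℤ) ∣ c * (ρ : ℤ) ^ 3 + D' := by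
        obtain ⟨m, hm⟩ := hρx
        have h10 : (l : ℤ) ∣ (c * (ρ : ℤ) ^ 3 + D') * k 0 ^ 3 := by
          have h11 : (c * (ρ : ℤ) ^ 3 + D') * k 0 ^ 3 = (c * lam ^ 3 + D' * k 0 ^ 3) -
              (l : ℤ) * (c * m * (lam ^ 2 + lam * ((ρ : ℤ) * k 0) + ((ρ : ℤ) * k 0) ^ 2)) := by
            linear_combination -c * (lam ^ 2 + lam * ((ρ : ℤ) * k 0) + ((ρ : ℤ) * k 0) ^ 2) * hm
          rw [h11]
          exact dvd_sub g6 (Dvd.intro _ rfl)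
        rcases hlp.dvd_or_dvd h10 with h | h
        · exact h
        · exact absurd (hlp.dvd_of_dvd_pow h) hx
      refine ⟨RamA_M l A B C q p (ρ : ℤ) lin, ?_, s1, s2, s3, ?_⟩
      · apply Finset.mem_insert_of_mem
        apply Finset.mem_image_of_mem
        rw [Finset.mem_filter, Finset.mem_range]
        exact ⟨hρl, hroot⟩
      · rw [g5]
        obtain ⟨m, hm⟩ := hρx
        refine ⟨m, ?_⟩
        rw [pow_succ]
        linear_combination (l : ℤ) ^ q * hm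
  · intro M hM k hk
    obtain ⟨s1, s2, s3⟩ := hstar M hM k hk
    obtain ⟨lam, g5, _⟩ := hN k s1 s2 s3
    rw [key k lam s1 s2 s3 g5]
    rcases Finset.mem_insert.mp hM with rfl | hM
    · obtain ⟨_, _, _, hx, hlk⟩ := hk
      rw [g5, pow_succ] at hlk
      have h12 : (l : ℤ) ∣ lam := (mul_dvd_mul_iff_left hlq).mp hlk
      exact dvd_add (Dvd.dvd.mul_left (dvd_pow h12 (by norm_num)) _)
        (Dvd.dvd.mul_left (dvd_pow hx (by norm_num)) _)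
    · obtain ⟨ρ, hρ, rfl⟩ := Finset.mem_image.mp hM
      obtain ⟨_, _, _, hlk⟩ := hk
      rw [Finset.mem_filter] at hρ
      have h13 : lin k - (ρ : ℤ) * (l : ℤ) ^ q * k 0 = (l : ℤ) ^ q * (lam - (ρ : ℤ) * k 0) := by
        rw [g5]
        ring
      rw [h13, pow_succ] at hlk
      obtain ⟨m, hm⟩ := (mul_dvd_mul_iff_left hlq).mp hlk
      obtain ⟨m', hm'⟩ := hρ.2
      refine ⟨c * m * (lam ^ 2 + lam * ((ρ : ℤ) * k 0) + ((ρ : ℤ) * k 0) ^ 2) +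
        m' * k 0 ^ 3, ?_⟩
      linear_combination c * (lam ^ 2 + lam * ((ρ : ℤ) * k 0) + ((ρ : ℤ) * k 0) ^ 2) * hm +
        k 0 ^ 3 * hm'
  · intro M hM a haM b hbM d hdM
    obtain ⟨⟨a0, ha0⟩, ⟨a1, ha1⟩, ⟨a2, ha2⟩⟩ := hstar M hM a haM
    obtain ⟨⟨b0, hb0⟩, ⟨b1, hb1⟩, ⟨b2, hb2⟩⟩ := hstar M hM b hbM
    obtain ⟨⟨d0, hd0⟩, ⟨d1, hd1⟩, ⟨d2, hd2⟩⟩ := hstar M hM d hdM
    have hs : (l : ℤ) ^ e = (l : ℤ) ^ A * (l : ℤ) ^ B * (l : ℤ) ^ C := by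
      rw [← hsum, pow_add, pow_add]
    have h14 : 9 * p * det3 a b d = 9 * ((p * a 0) * (b 1 * d 2 - b 2 * d 1) -
        a 1 * ((p * b 0) * d 2 - b 2 * (p * d 0)) + a 2 * ((p * b 0) * d 1 - b 1 * (p * d 0))) := by
      unfold det3
      ring
    rw [h14, hs, ha0, hb0, hd0, ha1, hb1, hd1, ha2, hb2, hd2]
    refine ⟨9 * (a0 * (b1 * d2 - b2 * d1) - a1 * (b0 * d2 - b2 * d0) +
      a2 * (b0 * d1 - b1 * d0)), ?_⟩
    ring

/-- Ramified primes, `l | y2` (section 2.2 of the notes).  `y2 = l t`.  Here `l | Dl` (as `e >= 1`), so `l | p^3`, `l | p`.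
PROOF.  Write `Dl = l^e D'`, `l` not dividing `D'`; `e = 3q + r`, `r` in {0,1,2}.  Identity (ring):
`y2 y3 Phi(p,y;x,u,w) = Nm(px,u,w) + Dl x^3`.
(i) If `l^e | Phi` then `l^(e+1) | y2 y3 Phi`, so `l^e | Nm(px,u,w)`, so by `descent` (*):
`l^((e+2)/3) | p x`, `l^(e/3) | u`, `l^((e+1)/3) | w`.
(ii) Under (*), `Nm(px,u,w) == l^e c lam^3 mod l^(e+1)` where
 `r = 0`: `lam = p x / l^q`, `c = 1`  (with `px = l^q A, u = l^q U, w = l^q W`: `Nm = l^(3q) Nm(A,U,W)`, `Nm(A,U,W) == A^3 mod l`);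
 `r = 1`: `lam = w / l^q`, `c = t y3^2`  (`px = l^(q+1) A, u = l^q U, w = l^q W`: the other terms are divisible by `l^(3q+2)`);
 `r = 2`: `lam = u / l^q`, `c = t^2 y3`  (`px = l^(q+1) A, u = l^q U, w = l^(q+1) W`: other terms divisible by `l^(3q+3)`).
So under (*): `l^e | Phi` iff `l^(e+1) | y2 y3 Phi` (as `l` exactly divides `y2 y3`) iff `l | c lam^3 + D' x^3`, `c, D'` units mod `l`.
(iii) The family: for each residue `rho` mod `l` with `c rho^3 + D' == 0 mod l` (at most 3 in the field `ZMod l`) the subgroup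
`M_rho = {k : (*) and lam == rho x mod l}`, and `M_0 = {k : (*) and l | x and l | lam}`.  (`lam` is additive in `k` on (*).)
At most 4 <= (4e+1)^3 subgroups.  Covering: if `l` does not divide `x` take `rho = lam / x` in `ZMod l`; if `l | x` then
`l | c lam^3`, so `l | lam`.  On each subgroup `l^e | Phi` by (ii).
(iv) determinant: by (*) every term of `p det3 a b c` = det3 of the vectors `(p x, u, w)` is divisible by
`l^((e+2)/3 + e/3 + (e+1)/3) = l^e`.  (Note `(e+2)/3 + e/3 + (e+1)/3 = e`.)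
Suggestion: define the subgroup as `{k | l^A | p k0 and l^B | k1 and l^C | k2 and l^(F+1) | g k}` where the last condition
says `l^(q+1) | lin k - rho l^q x` with `lin k = p k0`, `k2` or `k1`. -/
theorem ramA {l : ℕ} (hl : l.Prime) {y2 y3 p y : ℤ} (ha : Ari y2 y3) (h2 : (l : ℤ) ∣ y2)
    {e : ℕ} (he : 1 ≤ e) (hd : (l : ℤ) ^ e ∣ Dl y2 y3 p y) (hd' : ¬ (l : ℤ) ^ (e + 1) ∣ Dl y2 y3 p y) :
    LocCov l e y2 y3 p y := by
  obtain ⟨t, rfl⟩ := h2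
  have hlp : Prime (l : ℤ) := Nat.prime_iff_prime_int.mp hl
  have ht : ¬ (l : ℤ) ∣ t := by
    rintro ⟨s, rfl⟩
    exact hlp.not_unit (ha.sq2 (l : ℤ) ⟨s, by ring⟩)
  have h3 : ¬ (l : ℤ) ∣ y3 := by
    intro h
    exact hlp.not_unit (ha.cop.isUnit_of_dvd' (Dvd.intro _ rfl) h)
  obtain ⟨D', hD⟩ := hd
  have hD' : ¬ (l : ℤ) ∣ D' := by
    rintro ⟨s, rfl⟩
    exact hd' ⟨s, by rw [hD]; ring⟩
  obtain ⟨q, r, hr, rfl⟩ : ∃ q r : ℕ, r < 3 ∧ e = 3 * q + r :=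
    ⟨e / 3, e % 3, Nat.mod_lt _ (by norm_num), (Nat.div_add_mod e 3).symm⟩
  have hc1 : ¬ (l : ℤ) ∣ t * y3 ^ 2 := by
    intro h
    rcases hlp.dvd_or_dvd h with h | h
    · exact ht h
    · exact h3 (hlp.dvd_of_dvd_pow h)
  have hc2 : ¬ (l : ℤ) ∣ t ^ 2 * y3 := by
    intro h
    rcases hlp.dvd_or_dvd h with h | h
    · exact ht (hlp.dvd_of_dvd_pow h)
    · exact h3 h
  interval_cases r
  · refine RamA_core hl ht h3 (A := q) (B := q) (C := q) (q := q) (c := 1) he (by omega)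
      (by omega) (by omega) (by omega) hD hD' (fun h => hlp.not_unit (isUnit_of_dvd_one h))
      (AddMonoidHom.mk' (fun k : V3 => p * k 0) (fun a b => by simp [mul_add])) ?_
    rintro k ⟨a, ha'⟩ ⟨b, hb⟩ ⟨c, hc⟩
    refine ⟨a, ha', (l : ℤ) * t ^ 2 * y3 * b ^ 3 + t * y3 ^ 2 * c ^ 3 - 3 * t * y3 * a * b * c, ?_⟩
    rw [ha', hb, hc]
    unfold Nm
    ring
  · refine RamA_core hl ht h3 (A := q + 1) (B := q) (C := q) (q := q) (c := t * y3 ^ 2) he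
      (by omega) (by omega) (by omega) (by omega) hD hD' hc1
      (AddMonoidHom.mk' (fun k : V3 => k 2) (fun a b => by simp)) ?_
    rintro k ⟨a, ha'⟩ ⟨b, hb⟩ ⟨c, hc⟩
    refine ⟨c, hc, (l : ℤ) * a ^ 3 + t ^ 2 * y3 * b ^ 3 - 3 * t * y3 * a * b * c, ?_⟩
    rw [ha', hb, hc]
    unfold Nm
    ring
  · refine RamA_core hl ht h3 (A := q + 1) (B := q) (C := q + 1) (q := q) (c := t ^ 2 * y3) he
      (by omega) (by omega) (by omega) (by omega) hD hD' hc2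
      (AddMonoidHom.mk' (fun k : V3 => k 1) (fun a b => by simp)) ?_
    rintro k ⟨a, ha'⟩ ⟨b, hb⟩ ⟨c, hc⟩
    refine ⟨b, hb, a ^ 3 + (l : ℤ) * t * y3 ^ 2 * c ^ 3 - 3 * t * y3 * a * b * c, ?_⟩
    rw [ha', hb, hc]
    unfold Nm
    ring

end Pool.Agent.SLB
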