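import Pool.Agent.SLB.RamA

namespace Pool.Agent.SLB

/-- the exchange of the coordinates 1 and 2 -/
private def swf (v : V3) : V3 := ![v 0, v 2, v 1]

private lemma swf0 (v : V3) : swf v 0 = v 0 := rfl
private lemma swf1 (v : V3) : swf v 1 = v 2 := rfl
private lemma swf2 (v : V3) : swf v 2 = v 1 := rfl

private def swh : V3 →+ V3 where
  toFun := swf
  map_zero' := by
    funext i
    fin_cases i <;> rfl
  map_add' := by
    intro a b
    funext i
    fin_cases i <;> rfl

private lemma swh_apply (v : V3) : swh v = swf v := rfl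

private lemma phi_sw (y2 y3 p y x u w : ℤ) : Phi y3 y2 p y x w u = Phi y2 y3 p y x u w := by
  unfold Phi
  ring

private lemma det_sw (a b c : V3) : det3 (swf a) (swf b) (swf c) = - det3 a b c := by
  unfold det3
  simp only [swf0, swf1, swf2]
  ring

/-- Exchange of the two variables.
PROOF.  Let `sw : V3 ≃+ V3` exchange the coordinates 1 and 2.  `Phi y2 y3 p y x u w = Phi y3 y2 p y x w u` (ring),
`det3 (sw a) (sw b) (sw c) = - det3 a b c` (ring).  Image of the family under `AddSubgroup.comap sw` (or `map`). -/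
theorem LocCov.swap {l e : ℕ} {y2 y3 p y : ℤ} (h : LocCov l e y3 y2 p y) : LocCov l e y2 y3 p y := by
  classical
  obtain ⟨F, hc, h1, h2, h3⟩ := h
  refine ⟨F.image (fun M => AddSubgroup.comap swh M), le_trans Finset.card_image_le hc, ?_, ?_, ?_⟩
  · intro k hk
    obtain ⟨M, hM, hkM⟩ := h1 (swf k) (by
      rw [swf0, swf1, swf2, phi_sw]
      exact hk)
    exact ⟨AddSubgroup.comap swh M, Finset.mem_image_of_mem _ hM, by
      rw [AddSubgroup.mem_comap]
      exact hkM⟩
  · intro M hM k hk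
    obtain ⟨M', hM', rfl⟩ := Finset.mem_image.1 hM
    rw [AddSubgroup.mem_comap, swh_apply] at hk
    have := h2 M' hM' _ hk
    rw [swf0, swf1, swf2, phi_sw] at this
    exact this
  · intro M hM a ha b hb c hc'
    obtain ⟨M', hM', rfl⟩ := Finset.mem_image.1 hM
    rw [AddSubgroup.mem_comap, swh_apply] at ha hb hc'
    have := h3 M' hM' _ ha _ hb _ hc'
    rw [det_sw, mul_neg, dvd_neg] at this
    exact this

/-- Ramified primes: `l | y2 y3`.
PROOF.  `l | y2`: `ramA`.  `l | y3`: `ramA` for the pair `(y3, y2)` (also `Ari`; `Dl` is symmetric) and `LocCov.swap`. -/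
theorem ram {l : ℕ} (hl : l.Prime) {y2 y3 p y : ℤ} (ha : Ari y2 y3) (h2 : (l : ℤ) ∣ y2 * y3)
    {e : ℕ} (he : 1 ≤ e) (hd : (l : ℤ) ^ e ∣ Dl y2 y3 p y) (hd' : ¬ (l : ℤ) ^ (e + 1) ∣ Dl y2 y3 p y) :
    LocCov l e y2 y3 p y := by
  have hp : Prime (l : ℤ) := Nat.prime_iff_prime_int.1 hl
  rcases hp.dvd_or_dvd h2 with h | h
  · exact ramA hl ha h he hd hd'
  · have ha' : Ari y3 y2 := ⟨ha.two3, ha.two2, ha.sq3, ha.sq2, ha.cop.symm⟩
    have hD : Dl y3 y2 p y = Dl y2 y3 p y := by
      unfold Dl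
      ring
    rw [← hD] at hd hd'
    exact LocCov.swap (ramA hl ha' h he hd hd')

end Pool.Agent.SLB
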