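import Pool.Agent.SLB.StpB
import Pool.Agent.SLB.NsS
import Pool.Agent.SLB.One

namespace Pool.Agent.SLB

/-- Section 9, THE STEP.
PROOF.  `E <= sum_o #KS(o) <= D^8 sum_o n(o)` (`E_le_sum`, `one` for each object, `b <= lam^2 a <= S Y`).  Split the objects:
(1) `n(o) <= c* = a^2/(lam^6 b^2)`: sum `<= c* #Obj <= 4 S^2 b^4 c* = 4 S^2 a^2 b^2/lam^6` (`Obj_card`).
(2) `n(o) <= 2592 S^2 a^3/Y^2 gw(o)`: sum `<= 2592 S^2 a^3/Y^2 * 4 S^2 D^4 b^3 = 10368 S^4 D^4 a^3b^3/Y^2 <= 10368 S^4 D^4 a^2 b^2`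
(`gw_sum`; `gw >= 0`; `a b <= lam^2 S^2 Y^2 <= Y^2`).
(3) the others: `big_sum` (`n <= #KS <= Y^20`, `KS_card`).
Total with `S <= D`, `1 <= D`, `1 <= G`, `lam <= 1`: `D^8 * (4 D^2 + 10368 D^8 + D (2048 D^5 + 2048 D^3 + 256 D^6 + 1152 D^2)) <= 15876 D^16`,
times `G/lam^6`. -/
theorem step {Y S D lam a b G : ℝ} (hC : Con Y S D) (hl : 0 < lam) (hl1 : 1152 * D ^ 2 * lam ^ 2 ≤ 1)
    (ha : 0 < a) (hb : 0 < b) (hba : b ≤ lam ^ 2 * a) (haY : a ≤ S * Y) (hG : 1 ≤ G)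
    (ih : ∀ a' : ℝ, 0 < a' → a' ≤ lam ^ 2 * b → (E Y S b a' : ℝ) ≤ G / lam ^ 6 * (a' ^ 2 * b ^ 2)) :
    (E Y S a b : ℝ) ≤ 16000 * D ^ 16 * G / lam ^ 6 * (a ^ 2 * b ^ 2) := by
  classical
  have hY0 : 0 < Y := lt_of_lt_of_le two_pos hC.hY
  have hS1 := hC.hS1
  have hSD := hC.hSD
  have hD1 : 1 ≤ D := hS1.trans hSD
  have hS0 : 0 < S := by linarith
  have hD0 : 0 < D := by linarith
  have hl20 : 0 < lam ^ 2 := by positivity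
  have hDl : D ^ 2 * lam ^ 2 ≤ 1 := by nlinarith [mul_pos (pow_pos hD0 2) hl20]
  have hD2 : 1 ≤ D ^ 2 := one_le_pow₀ hD1
  have hl2 : lam ^ 2 ≤ 1 := by nlinarith
  have hlam1 : lam ≤ 1 := by
    by_contra hcon
    push Not at hcon
    nlinarith
  have hbaY : b ≤ a := by nlinarith
  have hbY : b ≤ S * Y := hbaY.trans haY
  have hab : a * b ≤ Y ^ 2 := by
    have e1 : a * b ≤ lam ^ 2 * a ^ 2 := by nlinarith
    have e2 : a ^ 2 ≤ (S * Y) ^ 2 := pow_le_pow_left₀ ha.le haY 2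
    have e3 : (S * Y) ^ 2 ≤ D ^ 2 * Y ^ 2 := by
      rw [mul_pow]
      exact mul_le_mul_of_nonneg_right (pow_le_pow_left₀ hS0.le hSD 2) (by positivity)
    have e4 : lam ^ 2 * a ^ 2 ≤ lam ^ 2 * (D ^ 2 * Y ^ 2) :=
      mul_le_mul_of_nonneg_left (e2.trans e3) hl20.le
    have e5 : lam ^ 2 * (D ^ 2 * Y ^ 2) = (D ^ 2 * lam ^ 2) * Y ^ 2 := by ring
    have e6 : (D ^ 2 * lam ^ 2) * Y ^ 2 ≤ 1 * Y ^ 2 :=
      mul_le_mul_of_nonneg_right hDl (by positivity)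
    linarith
  have hl6 : 0 < lam ^ 6 := by positivity
  have hl61 : lam ^ 6 ≤ 1 := pow_le_one₀ hl.le hlam1
  have hone : ∀ o : Ob, ∃ n : ℕ, o ∈ Obj Y S b → (n ≤ (KS Y a b o).ncard ∧ ((KS Y a b o).ncard : ℝ) ≤ D ^ 8 * n ∧
      ((n : ℝ) ≤ 2592 * S ^ 2 * a ^ 3 / Y ^ 2 * gw o ∨ PLp Y S D a b o n)) := by
    intro o
    by_cases ho : o ∈ Obj Y S b
    · obtain ⟨n, hn⟩ := one hC ha hb haY hbY ho
      exact ⟨n, fun _ => hn⟩
    · exact ⟨0, fun h => absurd h ho⟩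
  choose n hn using hone
  obtain ⟨O, hO⟩ : ∃ O : Finset Ob, O = (Obj_finite hY0 S b).toFinset := ⟨_, rfl⟩
  have hOm : ∀ o ∈ O, o ∈ Obj Y S b := by
    intro o ho
    rw [hO, Set.Finite.mem_toFinset] at ho
    exact ho
  have h1 : (E Y S a b : ℝ) ≤ D ^ 8 * ((∑ o ∈ O, n o : ℕ) : ℝ) := by
    have e1 : ((E Y S a b : ℕ) : ℝ) ≤ ((∑ o ∈ O, (KS Y a b o).ncard : ℕ) : ℝ) := by
      rw [hO]
      exact_mod_cast E_le_sum hY0 S a b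
    refine e1.trans ?_
    push_cast
    rw [Finset.mul_sum]
    exact Finset.sum_le_sum fun o ho => (hn o (hOm o ho)).2.1
  obtain ⟨c, hc⟩ : ∃ c : ℝ, c = a ^ 2 / (lam ^ 6 * b ^ 2) := ⟨_, rfl⟩
  have hc0 : 0 < c := by rw [hc]; positivity
  -- the splitting
  obtain ⟨P1, hP1⟩ : ∃ P1 : Finset Ob, P1 = O.filter (fun o => (n o : ℝ) ≤ c) := ⟨_, rfl⟩
  obtain ⟨P2, hP2⟩ : ∃ P2 : Finset Ob, P2 = (O.filter (fun o => ¬ (n o : ℝ) ≤ c)).filter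
    (fun o => PLp Y S D a b o (n o)) := ⟨_, rfl⟩
  obtain ⟨P3, hP3⟩ : ∃ P3 : Finset Ob, P3 = (O.filter (fun o => ¬ (n o : ℝ) ≤ c)).filter
    (fun o => ¬ PLp Y S D a b o (n o)) := ⟨_, rfl⟩
  have hsplit : (∑ o ∈ O, n o : ℕ) = (∑ o ∈ P1, n o) + ((∑ o ∈ P2, n o) + (∑ o ∈ P3, n o)) := by
    rw [hP1, hP2, hP3, Finset.sum_filter_add_sum_filter_not, Finset.sum_filter_add_sum_filter_not]
  -- part 1
  have hp1 : ((∑ o ∈ P1, n o : ℕ) : ℝ) ≤ 4 * S ^ 2 / lam ^ 6 * (a ^ 2 * b ^ 2) := by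
    have e1 : ((∑ o ∈ P1, n o : ℕ) : ℝ) ≤ ∑ o ∈ P1, c := by
      push_cast
      refine Finset.sum_le_sum fun o ho => ?_
      rw [hP1, Finset.mem_filter] at ho
      exact ho.2
    rw [Finset.sum_const, nsmul_eq_mul] at e1
    have e2 : ((P1.card : ℕ) : ℝ) ≤ 4 * S ^ 2 * b ^ 4 := by
      refine le_trans ?_ (Obj_card hC hb)
      have e3 : P1.card ≤ O.card := by
        rw [hP1]
        exact Finset.card_filter_le _ _
      have e4 : O.card = (Obj Y S b).ncard := by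
        rw [hO]
        exact (Set.ncard_eq_toFinset_card _ _).symm
      rw [← e4]
      exact_mod_cast e3
    have e5 : ((P1.card : ℕ) : ℝ) * c ≤ 4 * S ^ 2 * b ^ 4 * c := mul_le_mul_of_nonneg_right e2 hc0.le
    have e6 : 4 * S ^ 2 * b ^ 4 * c = 4 * S ^ 2 / lam ^ 6 * (a ^ 2 * b ^ 2) := by
      rw [hc]
      field_simp
    linarith
  -- part 3
  have hgw : ∀ o : Ob, 0 ≤ gw o := by
    intro o
    unfold gw
    positivity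
  have hp3 : ((∑ o ∈ P3, n o : ℕ) : ℝ) ≤ 10368 * S ^ 4 * D ^ 4 * (a ^ 2 * b ^ 2) := by
    have e1 : ((∑ o ∈ P3, n o : ℕ) : ℝ) ≤ ∑ o ∈ P3, 2592 * S ^ 2 * a ^ 3 / Y ^ 2 * gw o := by
      push_cast
      refine Finset.sum_le_sum fun o ho => ?_
      rw [hP3, Finset.mem_filter, Finset.mem_filter] at ho
      rcases (hn o (hOm o ho.1.1)).2.2 with h | h
      · exact h
      · exact absurd h ho.2
    have e2 : ∑ o ∈ P3, 2592 * S ^ 2 * a ^ 3 / Y ^ 2 * gw o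
        ≤ ∑ o ∈ O, 2592 * S ^ 2 * a ^ 3 / Y ^ 2 * gw o := by
      refine Finset.sum_le_sum_of_subset_of_nonneg ?_ ?_
      · intro o ho
        rw [hP3, Finset.mem_filter, Finset.mem_filter] at ho
        exact ho.1.1
      · intro o _ _
        exact mul_nonneg (by positivity) (hgw o)
    rw [← Finset.mul_sum, ← Finset.mul_sum] at e2
    rw [← Finset.mul_sum] at e1
    have e3 : ∑ o ∈ O, gw o ≤ 4 * S ^ 2 * D ^ 4 * b ^ 3 := by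
      rw [hO]
      exact gw_sum hC hb hbY
    have e4 : 2592 * S ^ 2 * a ^ 3 / Y ^ 2 * ∑ o ∈ O, gw o
        ≤ 2592 * S ^ 2 * a ^ 3 / Y ^ 2 * (4 * S ^ 2 * D ^ 4 * b ^ 3) :=
      mul_le_mul_of_nonneg_left e3 (by positivity)
    have e5 : 2592 * S ^ 2 * a ^ 3 / Y ^ 2 * (4 * S ^ 2 * D ^ 4 * b ^ 3)
        = 10368 * S ^ 4 * D ^ 4 * (a ^ 2 * b ^ 2) * (a * b / Y ^ 2) := by
      field_simp
      ring
    have e6 : a * b / Y ^ 2 ≤ 1 := by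
      rw [div_le_one (by positivity)]
      exact hab
    have e7 : 10368 * S ^ 4 * D ^ 4 * (a ^ 2 * b ^ 2) * (a * b / Y ^ 2)
        ≤ 10368 * S ^ 4 * D ^ 4 * (a ^ 2 * b ^ 2) * 1 :=
      mul_le_mul_of_nonneg_left e6 (by positivity)
    linarith
  -- part 2
  have hp2 : ((∑ o ∈ P2, n o : ℕ) : ℝ) ≤
      D * ((2048 * S ^ 2 * D ^ 3 + 2048 * S ^ 2 * D + 256 * S ^ 2 * D ^ 4) + 1152 * S ^ 2 * G / lam ^ 6) * (a ^ 2 * b ^ 2) := by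
    refine big_sum hC hl hl1 ha hb hba haY hG ih P2 n ?_
    intro o ho
    rw [hP2, Finset.mem_filter, Finset.mem_filter] at ho
    have hoO := hOm o ho.1.1
    refine ⟨hoO, ?_, ?_, ho.2⟩
    · rw [← hc]
      exact not_le.1 ho.1.2
    · refine le_trans ?_ (KS_card hC ha hb haY hbY o)
      exact_mod_cast (hn o hoO).1
  -- total
  have hab2 : 0 < a ^ 2 * b ^ 2 := by positivity
  have htot : ((∑ o ∈ O, n o : ℕ) : ℝ) ≤ (4 * S ^ 2 / lam ^ 6 + (D * ((2048 * S ^ 2 * D ^ 3 + 2048 * S ^ 2 * D + 256 * S ^ 2 * D ^ 4) + 1152 * S ^ 2 * G / lam ^ 6) + 10368 * S ^ 4 * D ^ 4)) * (a ^ 2 * b ^ 2) := by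
    rw [hsplit]
    push_cast
    push_cast at hp1 hp2 hp3
    linarith
  have hcoef : D ^ 8 * (4 * S ^ 2 / lam ^ 6 + (D * ((2048 * S ^ 2 * D ^ 3 + 2048 * S ^ 2 * D + 256 * S ^ 2 * D ^ 4) + 1152 * S ^ 2 * G / lam ^ 6) + 10368 * S ^ 4 * D ^ 4)) ≤ 16000 * D ^ 16 * G / lam ^ 6 := by
    rw [le_div_iff₀ hl6]
    have hS2 : S ^ 2 ≤ D ^ 2 := pow_le_pow_left₀ hS0.le hSD 2
    have hS4 : S ^ 4 ≤ D ^ 4 := pow_le_pow_left₀ hS0.le hSD 4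
    have e0 : D ^ 8 * (4 * S ^ 2 / lam ^ 6 + (D * ((2048 * S ^ 2 * D ^ 3 + 2048 * S ^ 2 * D + 256 * S ^ 2 * D ^ 4) + 1152 * S ^ 2 * G / lam ^ 6) + 10368 * S ^ 4 * D ^ 4)) * lam ^ 6
      = D ^ 8 * (4 * S ^ 2) + D ^ 8 * (D * (2048 * S ^ 2 * D ^ 3 + 2048 * S ^ 2 * D + 256 * S ^ 2 * D ^ 4) + 10368 * S ^ 4 * D ^ 4) * lam ^ 6
        + D ^ 9 * (1152 * S ^ 2) * G := by
      field_simp
      ring
    rw [e0]
    have e1 : D ^ 8 * (D * (2048 * S ^ 2 * D ^ 3 + 2048 * S ^ 2 * D + 256 * S ^ 2 * D ^ 4) + 10368 * S ^ 4 * D ^ 4) * lam ^ 6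
      ≤ D ^ 8 * (D * (2048 * S ^ 2 * D ^ 3 + 2048 * S ^ 2 * D + 256 * S ^ 2 * D ^ 4) + 10368 * S ^ 4 * D ^ 4) * 1 :=
      mul_le_mul_of_nonneg_left hl61 (by positivity)
    have e2 : D ^ 8 * (D * (2048 * S ^ 2 * D ^ 3 + 2048 * S ^ 2 * D + 256 * S ^ 2 * D ^ 4) + 10368 * S ^ 4 * D ^ 4)
      ≤ D ^ 8 * (D * (2048 * D ^ 2 * D ^ 3 + 2048 * D ^ 2 * D + 256 * D ^ 2 * D ^ 4) + 10368 * D ^ 4 * D ^ 4) := by
      gcongr
    have e3 : D ^ 8 * (4 * S ^ 2) ≤ D ^ 8 * (4 * D ^ 2) := by gcongr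
    have e4 : D ^ 9 * (1152 * S ^ 2) * G ≤ D ^ 9 * (1152 * D ^ 2) * G := by gcongr
    have f10 : D ^ 10 ≤ D ^ 16 := pow_le_pow_right₀ hD1 (by norm_num)
    have f11 : D ^ 11 ≤ D ^ 16 := pow_le_pow_right₀ hD1 (by norm_num)
    have f12 : D ^ 12 ≤ D ^ 16 := pow_le_pow_right₀ hD1 (by norm_num)
    have f14 : D ^ 14 ≤ D ^ 16 := pow_le_pow_right₀ hD1 (by norm_num)
    have f15 : D ^ 15 ≤ D ^ 16 := pow_le_pow_right₀ hD1 (by norm_num)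
    have e5 : D ^ 8 * (D * (2048 * D ^ 2 * D ^ 3 + 2048 * D ^ 2 * D + 256 * D ^ 2 * D ^ 4) + 10368 * D ^ 4 * D ^ 4)
      = 2048 * D ^ 14 + 2048 * D ^ 12 + 256 * D ^ 15 + 10368 * D ^ 16 := by ring
    have e6 : D ^ 8 * (4 * D ^ 2) = 4 * D ^ 10 := by ring
    have e7 : D ^ 9 * (1152 * D ^ 2) * G = 1152 * D ^ 11 * G := by ring
    have hD16 : 0 < D ^ 16 := by positivity
    have e8 : D ^ 16 ≤ D ^ 16 * G := by nlinarith
    have e9 : D ^ 11 * G ≤ D ^ 16 * G := by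
      exact mul_le_mul_of_nonneg_right f11 (by linarith)
    nlinarith
  calc (E Y S a b : ℝ) ≤ D ^ 8 * ((∑ o ∈ O, n o : ℕ) : ℝ) := h1
    _ ≤ D ^ 8 * ((4 * S ^ 2 / lam ^ 6 + (D * ((2048 * S ^ 2 * D ^ 3 + 2048 * S ^ 2 * D + 256 * S ^ 2 * D ^ 4) + 1152 * S ^ 2 * G / lam ^ 6) + 10368 * S ^ 4 * D ^ 4)) * (a ^ 2 * b ^ 2)) :=
        mul_le_mul_of_nonneg_left htot (by positivity)
    _ = (D ^ 8 * (4 * S ^ 2 / lam ^ 6 + (D * ((2048 * S ^ 2 * D ^ 3 + 2048 * S ^ 2 * D + 256 * S ^ 2 * D ^ 4) + 1152 * S ^ 2 * G / lam ^ 6) + 10368 * S ^ 4 * D ^ 4))) * (a ^ 2 * b ^ 2) := by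
        ring
    _ ≤ 16000 * D ^ 16 * G / lam ^ 6 * (a ^ 2 * b ^ 2) := mul_le_mul_of_nonneg_right hcoef hab2.le

/-- Section 10.
PROOF.  Induction on `j`, generalizing `a b`.  `j = 0`: `b^3 < Y^2`, so there is no `y <> 0` with `|y| <= b^3/Y^2 < 1`, `Sol` is empty.
`j+1`: `step` with `G = (16000 D^16)^j`; `ih` for the pair `(b, a')`, `a' <= lam^2 b`, `b <= lam^2 a <= a <= S Y`,
`a'^3 lam^(6j) <= lam^6 b^3 lam^(6j) = b^3 lam^(6(j+1)) < Y^2`. -/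
theorem induct {Y S D lam : ℝ} (hC : Con Y S D) (hl : 0 < lam) (hl1 : 1152 * D ^ 2 * lam ^ 2 ≤ 1) (j : ℕ) (a b : ℝ)
    (ha : 0 < a) (hb : 0 < b) (hba : b ≤ lam ^ 2 * a) (haY : a ≤ S * Y) (hj : b ^ 3 * lam ^ (6 * j) < Y ^ 2) :
    (E Y S a b : ℝ) ≤ (16000 * D ^ 16) ^ j / lam ^ 6 * (a ^ 2 * b ^ 2) := by
  have hY0 : 0 < Y := lt_of_lt_of_le two_pos hC.hY
  have hD1 : 1 ≤ D := hC.hS1.trans hC.hSD
  have hD0 : 0 < D := by linarith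
  have hl20 : 0 < lam ^ 2 := by positivity
  have hDl : D ^ 2 * lam ^ 2 ≤ 1 := by nlinarith [mul_pos (pow_pos hD0 2) hl20]
  have hD2 : 1 ≤ D ^ 2 := one_le_pow₀ hD1
  have hl2 : lam ^ 2 ≤ 1 := by nlinarith
  induction j generalizing a b with
  | zero =>
    rw [Nat.mul_zero, pow_zero, mul_one] at hj
    have hE : E Y S a b = 0 := by
      unfold E
      have : Sol Y S a b = ∅ := by
        rw [Set.eq_empty_iff_forall_notMem]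
        intro t ht
        obtain ⟨-, hbx, -⟩ := ht
        obtain ⟨-, hy, -, hy2⟩ := hbx
        have h1 : b ^ 3 / Y ^ 2 < 1 := by
          rw [div_lt_one (by positivity)]
          exact hj
        have h2 : |(t.2.1.2 : ℝ)| < 1 := lt_of_le_of_lt hy2 h1
        have h3 : |t.2.1.2| < 1 := by exact_mod_cast h2
        exact hy (Int.abs_lt_one_iff.1 h3)
      rw [this, Set.ncard_empty]
    rw [hE]
    simp only [Nat.cast_zero]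
    positivity
  | succ j ihj =>
    have hba' : b ≤ a := by nlinarith
    have hG : 1 ≤ (16000 * D ^ 16) ^ j := by
      refine one_le_pow₀ ?_
      have : 1 ≤ D ^ 16 := one_le_pow₀ hD1
      linarith
    have hst := step hC hl hl1 ha hb hba haY hG (fun a' ha' hab' => by
      have h1 : a' ^ 3 ≤ (lam ^ 2 * b) ^ 3 := pow_le_pow_left₀ ha'.le hab' 3
      have h2 : a' ^ 3 * lam ^ (6 * j) < Y ^ 2 := by
        have e1 : a' ^ 3 * lam ^ (6 * j) ≤ (lam ^ 2 * b) ^ 3 * lam ^ (6 * j) :=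
          mul_le_mul_of_nonneg_right h1 (by positivity)
        have e2 : (lam ^ 2 * b) ^ 3 * lam ^ (6 * j) = b ^ 3 * lam ^ (6 * (j + 1)) := by
          rw [mul_add, pow_add, mul_pow]
          ring
        linarith
      have h3 := ihj b a' hb ha' hab' (hba'.trans haY) h2
      calc (E Y S b a' : ℝ) ≤ _ := h3
        _ = _ := by ring)
    calc (E Y S a b : ℝ) ≤ _ := hst
      _ = _ := by rw [pow_succ]; ring

end Pool.Agent.SLB
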