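import Pool.Agent.SLB.VpA
import Pool.Agent.SLB.Sol

namespace Pool.Agent.SLB

/-- (8.1) The number of objects of type P.
PROOF.  If `U < 1` then `u = w = 0`, the set is empty.  Let `U >= 1`.  The object `o = ((y2,y3),(p,y))` is determined by
`(y2,y3,u,w,m,p)`, `m = Dl` (`y = (m+p^3)/(y2 y3)`).  `(y2,y3)`: at most `(S Y)^2` (number of integers in `[Y, S Y]` is at most
`S Y - Y + 1 <= S Y`); `(u,w)`: at most `(2U+1)^2 - 1 <= 8U^2`; `E0 = y2 u^3 + y3 w^3 <> 0` (`two_cubes`), `|E0| <= 2 S Y U^3 <= Y^33`, and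
`m | E0`: at most `2 d(E0) <= 2D` values; `p`: `P = y2 y3 | p^3 + m` and `|p| <= b`, `2b < Y^2 <= P`, `P` squarefree (coprime
squarefree factors): `cube_roots`: at most `d(P)^2 <= D^2` (`P <= S^2Y^2 <= Y^4`).  Total `S^2Y^2 * 8U^2 * 2D * D^2`. -/
theorem VP_bound {Y S D b U : ℝ} (hC : Con Y S D) (hb : 0 < b) (hb2 : 2 * b < Y ^ 2) (hU : 0 ≤ U)
    (hU2 : U ≤ Y ^ 10) : ((VPs Y S b U).ncard : ℝ) ≤ 16 * S ^ 2 * D ^ 3 * Y ^ 2 * U ^ 2 := by
  classical
  have hY := hC.hY
  have hS1 := hC.hS1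
  have hSY := hC.hSY
  have hY0 : (0 : ℝ) < Y := by linarith
  have hS0 : (0 : ℝ) < S := by linarith
  have hD1 : (1 : ℝ) ≤ D := le_trans hS1 hC.hSD
  have hD0 : (0 : ℝ) < D := by linarith
  rcases lt_or_ge U 1 with hU1 | hU1
  · have hemp : VPs Y S b U = ∅ := by
      rw [Set.eq_empty_iff_forall_notMem]
      rintro o ⟨_, u, w, hne, hu, hw, _⟩
      have h0 : ∀ t : ℤ, |(t : ℝ)| ≤ U → t = 0 := by
        intro t ht
        have h1 : |(t : ℝ)| < 1 := lt_of_le_of_lt ht hU1
        rw [← Int.cast_abs] at h1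
        have h2 : |t| < 1 := by exact_mod_cast h1
        exact Int.abs_lt_one_iff.1 h2
      exact hne ⟨h0 u hu, h0 w hw⟩
    rw [hemp, Set.ncard_empty, Nat.cast_zero]
    positivity
  · set ND : ℕ := ⌊D⌋₊ with hND
    have hNDr : (ND : ℝ) ≤ D := Nat.floor_le hD0.le
    have hdivN : ∀ n : ℤ, n ≠ 0 → |(n : ℝ)| ≤ Y ^ 40 → dN n ≤ ND := by
      intro n hn h
      apply Nat.le_floor
      apply hC.hdiv
      · exact Nat.one_le_iff_ne_zero.2 (Int.natAbs_ne_zero.2 hn)
      · rw [Nat.cast_natAbs, Int.cast_abs]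
        exact h
    have hfin := Obj_finite hY0 S b
    set I : Finset ℤ := Finset.Icc ⌈Y⌉ ⌊S * Y⌋ with hI
    set V : Finset ℤ := Finset.Icc (-⌊U⌋) ⌊U⌋ with hV
    set W : Finset (ℤ × ℤ) := (V ×ˢ V).erase (0, 0) with hW
    set Dv : (ℤ × ℤ) → (ℤ × ℤ) → Finset ℤ := fun y q =>
      ((y.1 * q.1 ^ 3 + y.2 * q.2 ^ 3).natAbs.divisors.image (fun d : ℕ => (d : ℤ))) ∪
      ((y.1 * q.1 ^ 3 + y.2 * q.2 ^ 3).natAbs.divisors.image (fun d : ℕ => -(d : ℤ))) with hDv
    set Os : (ℤ × ℤ) → ℤ → Finset Ob := fun y m =>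
      hfin.toFinset.filter (fun o => o.1 = y ∧ DlO o = m) with hOs
    -- the index set of admissible pairs
    set J : Finset (ℤ × ℤ) := (I ×ˢ I).filter (fun y => Adm Y S y.1 y.2) with hJ
    have hsub : VPs Y S b U ⊆ ((J.biUnion fun y => W.biUnion fun q => (Dv y q).biUnion fun m => Os y m :
        Finset Ob) : Set Ob) := by
      rintro o ⟨ho, u, w, hne, hu, hw, hdvd⟩
      rw [Finset.mem_coe, Finset.mem_biUnion]
      have hadm : Adm Y S o.1.1 o.1.2 := ho.1
      refine ⟨o.1, ?_, ?_⟩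
      · rw [hJ, Finset.mem_filter, Finset.mem_product]
        refine ⟨⟨?_, ?_⟩, hadm⟩
        · rw [hI, Finset.mem_Icc]
          exact ⟨Int.ceil_le.2 hadm.lo2, Int.le_floor.2 hadm.hi2⟩
        · rw [hI, Finset.mem_Icc]
          exact ⟨Int.ceil_le.2 hadm.lo3, Int.le_floor.2 hadm.hi3⟩
      · rw [Finset.mem_biUnion]
        refine ⟨(u, w), ?_, ?_⟩
        · rw [hW, Finset.mem_erase, Finset.mem_product]
          refine ⟨?_, ?_, ?_⟩
          · intro h
            exact hne ⟨congrArg Prod.fst h, congrArg Prod.snd h⟩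
          · rw [hV, Finset.mem_Icc]
            have h1 := abs_le.1 hu
            refine ⟨?_, Int.le_floor.2 h1.2⟩
            have h2 : ((-u : ℤ) : ℝ) ≤ U := by push_cast; linarith
            have h3 := Int.le_floor.2 h2
            linarith
          · rw [hV, Finset.mem_Icc]
            have h1 := abs_le.1 hw
            refine ⟨?_, Int.le_floor.2 h1.2⟩
            have h2 : ((-w : ℤ) : ℝ) ≤ U := by push_cast; linarith
            have h3 := Int.le_floor.2 h2
            linarith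
        · rw [Finset.mem_biUnion]
          refine ⟨DlO o, ?_, ?_⟩
          · have hE : o.1.1 * u ^ 3 + o.1.2 * w ^ 3 ≠ 0 := fun h => hne (two_cubes hadm.ari h)
            have h1 : (DlO o).natAbs ∈ (o.1.1 * u ^ 3 + o.1.2 * w ^ 3).natAbs.divisors := by
              rw [Nat.mem_divisors]
              exact ⟨Int.natAbs_dvd_natAbs.2 hdvd, Int.natAbs_ne_zero.2 hE⟩
            rw [hDv, Finset.mem_union, Finset.mem_image, Finset.mem_image]
            rcases Int.natAbs_eq (DlO o) with h2 | h2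
            · exact Or.inl ⟨_, h1, h2.symm⟩
            · exact Or.inr ⟨_, h1, h2.symm⟩
          · rw [hOs, Finset.mem_filter, Set.Finite.mem_toFinset]
            exact ⟨ho, rfl, rfl⟩
    have hOcard : ∀ y ∈ J, ∀ m, (Os y m).card ≤ ND ^ 2 := by
      intro y hy m
      rw [hJ, Finset.mem_filter] at hy
      have hadm : Adm Y S y.1 y.2 := hy.2
      have h2 := hadm.ari.two2
      have h3 := hadm.ari.two3
      have hP2 : (2 : ℤ) ≤ y.1 * y.2 := by nlinarith
      have hsq : Squarefree (y.1 * y.2) := by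
        rw [squarefree_mul_iff]
        exact ⟨hadm.ari.cop.isRelPrime, hadm.ari.sq2, hadm.ari.sq3⟩
      have hPlo : Y ^ 2 ≤ ((y.1 * y.2 : ℤ) : ℝ) := by
        push_cast
        have := hadm.lo2
        have := hadm.lo3
        nlinarith
      have hPhi : ((y.1 * y.2 : ℤ) : ℝ) ≤ (S * Y) ^ 2 := by
        push_cast
        have a1 := hadm.hi2
        have a2 := hadm.hi3
        have a3 := hadm.lo2
        have a4 := hadm.lo3
        have a5 : (0 : ℝ) ≤ (y.1 : ℝ) := by linarith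
        have a6 : (0 : ℝ) ≤ (y.2 : ℝ) := by linarith
        have a7 : (0 : ℝ) ≤ S * Y := by positivity
        calc (y.1 : ℝ) * (y.2 : ℝ) ≤ (S * Y) * (S * Y) := mul_le_mul a1 a2 a6 a7
          _ = (S * Y) ^ 2 := by ring
      have hb2' : 2 * b < ((y.1 * y.2 : ℤ) : ℝ) := lt_of_lt_of_le hb2 hPlo
      have hcr := cube_roots hP2 hsq m hb2'
      have hdP : dN (y.1 * y.2) ≤ ND := by
        refine hdivN _ (by linarith) ?_
        have hpos : (0 : ℝ) ≤ ((y.1 * y.2 : ℤ) : ℝ) := by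
          have : (0 : ℝ) ≤ Y ^ 2 := by positivity
          linarith
        rw [abs_of_nonneg hpos]
        refine hPhi.trans ?_
        have h5 : S * Y ≤ Y ^ 2 := by nlinarith
        have h6 : (S * Y) ^ 2 ≤ (Y ^ 2) ^ 2 := pow_le_pow_left₀ (by positivity) h5 2
        have h7 : (Y ^ 2) ^ 2 = Y ^ 4 := by ring
        rw [h7] at h6
        exact h6.trans (pow_le_pow_right₀ (by linarith) (by norm_num))
      have hpfin : {p : ℤ | |(p : ℝ)| ≤ b ∧ (y.1 * y.2) ∣ p ^ 3 + m}.Finite := by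
        refine (Set.finite_Icc (-⌊b⌋) ⌊b⌋).subset ?_
        rintro p ⟨hp, _⟩
        have h1 := abs_le.1 hp
        refine ⟨?_, Int.le_floor.2 h1.2⟩
        have h2 : ((-p : ℤ) : ℝ) ≤ b := by push_cast; linarith
        have h3 := Int.le_floor.2 h2
        linarith
      have h8 : (Os y m).card ≤ {p : ℤ | |(p : ℝ)| ≤ b ∧ (y.1 * y.2) ∣ p ^ 3 + m}.ncard := by
        rw [Set.ncard_eq_toFinset_card _ hpfin]
        refine Finset.card_le_card_of_injOn (fun o => o.2.1) ?_ ?_
        · intro o ho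
          have ho' := Finset.mem_coe.1 ho
          rw [hOs, Finset.mem_filter, Set.Finite.mem_toFinset] at ho'
          rw [Finset.mem_coe, Set.Finite.mem_toFinset]
          refine ⟨ho'.1.2.2.2.1, ?_⟩
          have h9 : DlO o = m := ho'.2.2
          have h10 : o.1.1 * o.1.2 * o.2.2 - o.2.1 ^ 3 = m := h9
          refine ⟨o.2.2, ?_⟩
          rw [← ho'.2.1]
          linarith
        · intro o ho o' ho' h
          have ho1 := Finset.mem_coe.1 ho
          have ho2 := Finset.mem_coe.1 ho'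
          rw [hOs, Finset.mem_filter] at ho1 ho2
          have e1 : o.1.1 * o.1.2 * o.2.2 - o.2.1 ^ 3 = m := ho1.2.2
          have e2 : o'.1.1 * o'.1.2 * o'.2.2 - o'.2.1 ^ 3 = m := ho2.2.2
          have e3 : o.2.1 = o'.2.1 := h
          have e4 : o.1 = o'.1 := ho1.2.1.trans ho2.2.1.symm
          rw [e4, e3] at e1
          have e5 : o'.1.1 * o'.1.2 * o.2.2 = o'.1.1 * o'.1.2 * o'.2.2 := by linarith
          have e6 : o'.1.1 * o'.1.2 ≠ 0 := by
            rw [ho2.2.1]
            linarith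
          have e7 := mul_left_cancel₀ e6 e5
          exact Prod.ext e4 (Prod.ext e3 e7)
      exact h8.trans (hcr.trans (Nat.pow_le_pow_left hdP 2))
    have hVabs : ∀ t ∈ V, |(t : ℝ)| ≤ U := by
      intro t ht
      rw [hV, Finset.mem_Icc] at ht
      rw [abs_le]
      have h1 : ((⌊U⌋ : ℤ) : ℝ) ≤ U := Int.floor_le U
      have h2 : (t : ℝ) ≤ ((⌊U⌋ : ℤ) : ℝ) := by exact_mod_cast ht.2
      have h3 : ((-⌊U⌋ : ℤ) : ℝ) ≤ (t : ℝ) := by exact_mod_cast ht.1
      push_cast at h3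
      constructor <;> linarith
    have hDvcard : ∀ y ∈ J, ∀ q ∈ W, (Dv y q).card ≤ 2 * ND := by
      intro y hy q hq
      rw [hJ, Finset.mem_filter] at hy
      have hadm : Adm Y S y.1 y.2 := hy.2
      rw [hW, Finset.mem_erase, Finset.mem_product] at hq
      have hE : y.1 * q.1 ^ 3 + y.2 * q.2 ^ 3 ≠ 0 := by
        intro h
        have h1 := two_cubes hadm.ari h
        exact hq.1 (Prod.ext h1.1 h1.2)
      have hu := hVabs _ hq.2.1
      have hw := hVabs _ hq.2.2
      have hEb : |((y.1 * q.1 ^ 3 + y.2 * q.2 ^ 3 : ℤ) : ℝ)| ≤ Y ^ 40 := by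
        push_cast
        have a1 := hadm.hi2
        have a2 := hadm.hi3
        have a3 : (0 : ℝ) ≤ (y.1 : ℝ) := by linarith [hadm.lo2]
        have a4 : (0 : ℝ) ≤ (y.2 : ℝ) := by linarith [hadm.lo3]
        have b1 : |(q.1 : ℝ)| ^ 3 ≤ (Y ^ 10) ^ 3 :=
          pow_le_pow_left₀ (abs_nonneg _) (hu.trans hU2) 3
        have b2 : |(q.2 : ℝ)| ^ 3 ≤ (Y ^ 10) ^ 3 :=
          pow_le_pow_left₀ (abs_nonneg _) (hw.trans hU2) 3
        have c1 : |(y.1 : ℝ) * (q.1 : ℝ) ^ 3| ≤ (S * Y) * (Y ^ 10) ^ 3 := by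
          rw [abs_mul, abs_pow, abs_of_nonneg a3]
          exact mul_le_mul a1 b1 (by positivity) (by positivity)
        have c2 : |(y.2 : ℝ) * (q.2 : ℝ) ^ 3| ≤ (S * Y) * (Y ^ 10) ^ 3 := by
          rw [abs_mul, abs_pow, abs_of_nonneg a4]
          exact mul_le_mul a2 b2 (by positivity) (by positivity)
        have c3 : S * Y ≤ Y ^ 2 := by nlinarith
        have c4 : (S * Y) * (Y ^ 10) ^ 3 ≤ Y ^ 2 * (Y ^ 10) ^ 3 :=
          mul_le_mul_of_nonneg_right c3 (by positivity)
        have c5 : Y ^ 2 * (Y ^ 10) ^ 3 = Y ^ 32 := by ring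
        have c6 : 2 * Y ^ 32 ≤ Y ^ 33 := by
          have : Y ^ 33 = Y * Y ^ 32 := by ring
          rw [this]
          exact mul_le_mul_of_nonneg_right hY (by positivity)
        have c7 : Y ^ 33 ≤ Y ^ 40 := pow_le_pow_right₀ (by linarith) (by norm_num)
        refine (abs_add_le _ _).trans ?_
        linarith
      have hd := hdivN _ hE hEb
      rw [hDv]
      refine (Finset.card_union_le _ _).trans ?_
      have e1 : ((y.1 * q.1 ^ 3 + y.2 * q.2 ^ 3).natAbs.divisors.image (fun d : ℕ => (d : ℤ))).card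
          ≤ ND := Finset.card_image_le.trans hd
      have e2 : ((y.1 * q.1 ^ 3 + y.2 * q.2 ^ 3).natAbs.divisors.image (fun d : ℕ => -(d : ℤ))).card
          ≤ ND := Finset.card_image_le.trans hd
      omega
    have hbig : (VPs Y S b U).ncard ≤ J.card * (W.card * ((2 * ND) * ND ^ 2)) := by
      refine (Set.ncard_le_ncard hsub (Finset.finite_toSet _)).trans ?_
      rw [Set.ncard_coe_finset]
      refine Finset.card_biUnion_le_card_mul _ _ _ fun y hy => ?_
      refine Finset.card_biUnion_le_card_mul _ _ _ fun q hq => ?_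
      refine (Finset.card_biUnion_le_card_mul _ _ (ND ^ 2) fun m _ => hOcard y hy m).trans ?_
      exact Nat.mul_le_mul_right _ (hDvcard y hy q hq)
    have hIcard : (I.card : ℝ) ≤ S * Y := by
      have hSYY : Y ≤ S * Y := by nlinarith
      have h1 : ((⌊S * Y⌋ + 1 - ⌈Y⌉ : ℤ) : ℝ) ≤ S * Y := by
        push_cast
        have := Int.floor_le (S * Y)
        have := Int.le_ceil Y
        linarith
      have h2 : (0 : ℤ) ≤ ⌊S * Y⌋ + 1 - ⌈Y⌉ := by
        have h3 : ⌈Y⌉ ≤ ⌊S * Y⌋ + 1 := by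
          rw [Int.ceil_le]
          push_cast
          have := Int.lt_floor_add_one (S * Y)
          linarith
        linarith
      rw [hI, Int.card_Icc]
      have h4 : (((⌊S * Y⌋ + 1 - ⌈Y⌉).toNat : ℕ) : ℝ) = ((⌊S * Y⌋ + 1 - ⌈Y⌉ : ℤ) : ℝ) := by
        have := Int.toNat_of_nonneg h2
        exact_mod_cast this
      rw [h4]
      exact h1
    have hJcard : (J.card : ℝ) ≤ (S * Y) ^ 2 := by
      have h1 : J.card ≤ I.card * I.card := by
        refine (Finset.card_filter_le _ _).trans ?_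
        rw [Finset.card_product]
      have h2 : (J.card : ℝ) ≤ (I.card : ℝ) * (I.card : ℝ) := by exact_mod_cast h1
      refine h2.trans ?_
      rw [sq]
      exact mul_le_mul hIcard hIcard (Nat.cast_nonneg _) (by positivity)
    have hWcard : (W.card : ℝ) ≤ 8 * U ^ 2 := by
      have hfl : (0 : ℤ) ≤ ⌊U⌋ := Int.floor_nonneg.2 hU
      have h1 : V.card = (2 * ⌊U⌋ + 1).toNat := by
        rw [hV, Int.card_Icc]
        congr 1
        ring
      have h2 : (V.card : ℝ) = 2 * (⌊U⌋ : ℝ) + 1 := by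
        rw [h1]
        have : (((2 * ⌊U⌋ + 1).toNat : ℕ) : ℤ) = 2 * ⌊U⌋ + 1 := Int.toNat_of_nonneg (by linarith)
        exact_mod_cast this
      have h3 : (0, 0) ∈ V ×ˢ V := by
        rw [Finset.mem_product, hV, Finset.mem_Icc]
        simp [hfl]
      have h4 : (W.card : ℝ) = (V.card : ℝ) * (V.card : ℝ) - 1 := by
        rw [hW, Finset.card_erase_of_mem h3, Finset.card_product]
        have h5 : 1 ≤ V.card * V.card := by
          have : 0 < V.card := by
            have h6 : (0 : ℝ) < (V.card : ℝ) := by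
              rw [h2]
              have : (0 : ℝ) ≤ (⌊U⌋ : ℝ) := by exact_mod_cast hfl
              linarith
            exact_mod_cast h6
          exact Nat.mul_pos this this
        rw [Nat.cast_sub h5]
        push_cast
        ring
      rw [h4, h2]
      have h6 : (⌊U⌋ : ℝ) ≤ U := Int.floor_le U
      have h7 : (0 : ℝ) ≤ (⌊U⌋ : ℝ) := by exact_mod_cast hfl
      nlinarith
    have hfinal : ((VPs Y S b U).ncard : ℝ) ≤
        (J.card : ℝ) * ((W.card : ℝ) * ((2 * (ND : ℝ)) * (ND : ℝ) ^ 2)) := by exact_mod_cast hbig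
    have hN3 : (2 * (ND : ℝ)) * (ND : ℝ) ^ 2 ≤ (2 * D) * D ^ 2 := by
      have h1 : (ND : ℝ) ^ 2 ≤ D ^ 2 := pow_le_pow_left₀ (Nat.cast_nonneg _) hNDr 2
      exact mul_le_mul (by linarith) h1 (by positivity) (by positivity)
    refine hfinal.trans ?_
    calc (J.card : ℝ) * ((W.card : ℝ) * ((2 * (ND : ℝ)) * (ND : ℝ) ^ 2))
        ≤ (S * Y) ^ 2 * ((8 * U ^ 2) * ((2 * D) * D ^ 2)) := by
          refine mul_le_mul hJcard ?_ (by positivity) (by positivity)
          exact mul_le_mul hWcard hN3 (by positivity) (by positivity)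
      _ = 16 * S ^ 2 * D ^ 3 * Y ^ 2 * U ^ 2 := by ring

end Pool.Agent.SLB
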