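import Pool.Agent.SLB.VzA

namespace Pool.Agent.SLB

private theorem harm_nat (N : ℕ) :
    ∑ n ∈ (Finset.Icc (-(N : ℤ)) N).filter (· ≠ 0), 1 / |((n : ℤ) : ℝ)|
      = 2 * ((harmonic N : ℚ) : ℝ) ∧
    ((Finset.Icc (-(N : ℤ)) N).filter (· ≠ 0)).card = 2 * N := by
  induction N with
  | zero =>
    have h : (Finset.Icc (-((0 : ℕ) : ℤ)) ((0 : ℕ) : ℤ)).filter (· ≠ 0) = ∅ := by
      ext n
      simp only [Finset.mem_filter, Finset.mem_Icc, Finset.notMem_empty, iff_false]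
      omega
    rw [h]
    simp
  | succ N ih =>
    have hs : (Finset.Icc (-((N + 1 : ℕ) : ℤ)) ((N + 1 : ℕ) : ℤ)).filter (· ≠ 0)
        = insert ((N : ℤ) + 1) (insert (-((N : ℤ) + 1))
            ((Finset.Icc (-(N : ℤ)) N).filter (· ≠ 0))) := by
      ext n
      simp only [Finset.mem_filter, Finset.mem_Icc, Finset.mem_insert]
      push_cast
      omega
    have h1 : (-((N : ℤ) + 1)) ∉ (Finset.Icc (-(N : ℤ)) N).filter (· ≠ 0) := by
      simp only [Finset.mem_filter, Finset.mem_Icc]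
      omega
    have h2 : ((N : ℤ) + 1) ∉ insert (-((N : ℤ) + 1))
            ((Finset.Icc (-(N : ℤ)) N).filter (· ≠ 0)) := by
      simp only [Finset.mem_insert, Finset.mem_filter, Finset.mem_Icc]
      omega
    constructor
    · rw [hs, Finset.sum_insert h2, Finset.sum_insert h1, ih.1, harmonic_succ]
      push_cast
      have hp : (0 : ℝ) < (N : ℝ) + 1 := by positivity
      rw [abs_of_pos hp, abs_neg, abs_of_pos hp]
      ring
    · rw [hs, Finset.card_insert_of_notMem h2, Finset.card_insert_of_notMem h1, ih.2]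
      ring

/-- harmonic sums over nonzero integers: `sum_{0 < |n| <= X} 1/|n| <= 2 (1 + log X)` for `X >= 1`, and the number of
nonzero integers with `|n| <= X` is at most `2X` (`X >= 0`). -/
theorem harm {X : ℝ} (hX : 1 ≤ X) :
    ∑ n ∈ (Finset.Icc (-⌊X⌋) ⌊X⌋).filter (· ≠ 0), 1 / |((n : ℤ) : ℝ)| ≤ 2 * (1 + Real.log X) ∧
    (((Finset.Icc (-⌊X⌋) ⌊X⌋).filter (· ≠ 0)).card : ℝ) ≤ 2 * X := by
  have h0 : 0 ≤ X := by linarith
  have hf : ⌊X⌋ = ((⌊X⌋₊ : ℕ) : ℤ) := (Int.natCast_floor_eq_floor h0).symm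
  rw [hf]
  obtain ⟨h1, h2⟩ := harm_nat ⌊X⌋₊
  constructor
  · rw [h1]
    have := harmonic_floor_le_one_add_log X hX
    linarith
  · rw [h2]
    push_cast
    have := Nat.floor_le h0
    linarith

private theorem vzB_finA (Y S : ℝ) (x u w : ℤ) :
    {q : ℤ × ℤ | Y ≤ (q.1 : ℝ) ∧ (q.1 : ℝ) ≤ S * Y ∧ Y ≤ (q.2 : ℝ) ∧ (q.2 : ℝ) ≤ S * Y ∧
      x ∣ q.1 * u ^ 3 + q.2 * w ^ 3}.Finite := by
  refine Set.Finite.subset ((Set.finite_Icc ⌈Y⌉ ⌊S * Y⌋).prod (Set.finite_Icc ⌈Y⌉ ⌊S * Y⌋)) ?_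
  rintro ⟨q1, q2⟩ ⟨h1, h2, h3, h4, _⟩
  exact ⟨⟨Int.ceil_le.mpr h1, Int.le_floor.mpr h2⟩, ⟨Int.ceil_le.mpr h3, Int.le_floor.mpr h4⟩⟩

private theorem vzB_finB (B : ℝ) (y2 y3 x u w : ℤ) (hx : x ≠ 0) (hu : u ≠ 0) (hw : w ≠ 0) :
    {q : ℤ × ℤ | |(q.2 : ℝ)| ≤ B ∧ Phi y2 y3 q.1 q.2 x u w = 0}.Finite := by
  refine Set.Finite.subset ((Set.finite_Icc (-⌊B⌋) ⌊B⌋).image
    (fun y : ℤ => ((y * x ^ 3 + y2 * u ^ 3 + y3 * w ^ 3) / (3 * x * u * w), y))) ?_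
  rintro ⟨p, y⟩ ⟨h1, h2⟩
  refine ⟨y, ?_, ?_⟩
  · rw [abs_le] at h1
    constructor
    · have : -(y : ℝ) ≤ B := by linarith [h1.1]
      have h3 : ((-y : ℤ) : ℝ) ≤ B := by push_cast; exact this
      have h4 := Int.le_floor.mpr h3
      linarith
    · exact Int.le_floor.mpr h1.2
  · have h3 : y * x ^ 3 + y2 * u ^ 3 + y3 * w ^ 3 = p * (3 * x * u * w) := by
      unfold Phi at h2
      linear_combination h2
    have h4 : (3 * x * u * w) ≠ 0 := by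
      simp [hx, hu, hw]
    simp only
    rw [h3, Int.mul_ediv_cancel _ h4]

open Classical in
private theorem vzB_one {Y S b : ℝ} (hY : 1 ≤ Y) (hS : 1 ≤ S) (hb : 0 < b) (O : Finset Ob)
    (hO : ∀ o ∈ O, o ∈ Obj Y S b) (x u w : ℤ) (hx : x ≠ 0) (hu : u ≠ 0) (hw : w ≠ 0)
    (hx2 : |(x : ℝ)| ≤ S * Y) (c1 : IsCoprime x u) (c2 : IsCoprime x w) :
    ((O.filter (fun o => Phi o.1.1 o.1.2 o.2.1 o.2.2 x u w = 0)).card : ℝ)
      ≤ 2 * S ^ 2 * Y ^ 2 / |(x : ℝ)| * (1 + 2 * (b ^ 3 / Y ^ 2) / (|(u : ℝ)| * |(w : ℝ)|)) := by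
  have hY0 : 0 < Y := by linarith
  have hx0 : 0 < |(x : ℝ)| := abs_pos.mpr (by exact_mod_cast hx)
  have hu0 : 0 < |(u : ℝ)| := abs_pos.mpr (by exact_mod_cast hu)
  have hw0 : 0 < |(w : ℝ)| := abs_pos.mpr (by exact_mod_cast hw)
  set F := O.filter (fun o => Phi o.1.1 o.1.2 o.2.1 o.2.2 x u w = 0) with hF
  set C : ℝ := 1 + 2 * (b ^ 3 / Y ^ 2) / (|(u : ℝ)| * |(w : ℝ)|) with hC
  have hC0 : 0 ≤ C := by positivity
  have hn : ∀ a ∈ F.image Prod.fst, (F.filter fun o => o.1 = a).card ≤ ⌊C⌋₊ := by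
    intro a _
    apply Nat.le_floor
    have h1 := count_py hY0 hb a.1 a.2 x u w hx hu hw c1 c2
    refine le_trans ?_ h1
    have h2 : ((F.filter fun o => o.1 = a).image Prod.snd).card
        = (F.filter fun o => o.1 = a).card := by
      apply Finset.card_image_of_injOn
      intro o ho o' ho' h
      simp only [Finset.coe_filter, Set.mem_ofPred_eq] at ho ho'
      exact Prod.ext (ho.2.trans ho'.2.symm) h
    rw [← h2, ← Set.ncard_coe_finset]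
    have h3 := Set.ncard_le_ncard (s := (((F.filter fun o => o.1 = a).image Prod.snd : Finset (ℤ × ℤ)) : Set (ℤ × ℤ)))
      (t := {q : ℤ × ℤ | |(q.2 : ℝ)| ≤ b ^ 3 / Y ^ 2 ∧ Phi a.1 a.2 q.1 q.2 x u w = 0}) ?_
      (vzB_finB _ a.1 a.2 x u w hx hu hw)
    · exact_mod_cast h3
    · intro q hq
      simp only [Finset.coe_image, Finset.coe_filter, Set.mem_image, Set.mem_ofPred_eq] at hq
      obtain ⟨o, ⟨ho, hoa⟩, rfl⟩ := hq
      rw [hF, Finset.mem_filter] at ho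
      obtain ⟨ho1, ho2⟩ := ho
      refine ⟨(hO o ho1).2.2.2.2, ?_⟩
      rw [← hoa]
      exact ho2
  have h4 := Finset.card_le_mul_card_image F _ hn
  have h5 : ((F.image Prod.fst).card : ℝ) ≤ 2 * S ^ 2 * Y ^ 2 / |(x : ℝ)| := by
    refine le_trans ?_ (count_yy hY hS x u w hx hx2 c2)
    rw [← Set.ncard_coe_finset]
    have h3 := Set.ncard_le_ncard (s := ((F.image Prod.fst : Finset (ℤ × ℤ)) : Set (ℤ × ℤ)))
      (t := {q : ℤ × ℤ | Y ≤ (q.1 : ℝ) ∧ (q.1 : ℝ) ≤ S * Y ∧ Y ≤ (q.2 : ℝ) ∧ (q.2 : ℝ) ≤ S * Y ∧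
      x ∣ q.1 * u ^ 3 + q.2 * w ^ 3}) ?_ (vzB_finA Y S x u w)
    · exact_mod_cast h3
    · intro q hq
      simp only [Finset.coe_image, Set.mem_image] at hq
      obtain ⟨o, ho, rfl⟩ := hq
      rw [Finset.mem_coe, hF, Finset.mem_filter] at ho
      obtain ⟨ho1, ho2⟩ := ho
      have hA := (hO o ho1).1
      refine ⟨hA.lo2, hA.hi2, hA.lo3, hA.hi3, ?_⟩
      unfold Phi at ho2
      refine ⟨3 * o.2.1 * u * w - o.2.2 * x ^ 2, ?_⟩
      linear_combination ho2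
  calc (F.card : ℝ) ≤ ((⌊C⌋₊ * (F.image Prod.fst).card : ℕ) : ℝ) := by exact_mod_cast h4
    _ = (⌊C⌋₊ : ℝ) * ((F.image Prod.fst).card : ℝ) := by push_cast; ring
    _ ≤ C * (2 * S ^ 2 * Y ^ 2 / |(x : ℝ)|) :=
        mul_le_mul (Nat.floor_le hC0) h5 (Nat.cast_nonneg _) hC0
    _ = 2 * S ^ 2 * Y ^ 2 / |(x : ℝ)| * C := by ring

/-- (8.2) The number of objects of type Z.
PROOF.  If `X0 < 1` or `U0 < 1` the set is empty.  By `primitive` each object of `VZs` has a triple `(x,u,w)` (nonzero,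
`|x| <= X0`, `|u|,|w| <= U0`, `x` coprime to `u` and `w`) with `Phi = 0`, so `x | y2 u^3 + y3 w^3`.  For given `(x,u,w)` the number of
objects is at most `(number of (y2,y3)) * (number of (p,y)) <= 2 S^2 Y^2/|x| * (1 + 2 B/(|u||w|))`, `B = b^3/Y^2` (`count_yy`,
`count_py`).  Sum over `x,u,w` with `H = 1 + log` (`harm`; `1 + log X0 <= D`, `1 + log U0 <= D` by `X0 <= S Y <= Y^2`, `U0 <= Y^10`):
`2 S^2Y^2 * 2D * (4 U0^2 + 2B (2D)^2) = 16 S^2 D Y^2 U0^2 + 32 S^2 D^3 b^3`. -/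
theorem VZ_bound {Y S D b X0 U0 : ℝ} (hC : Con Y S D) (hb : 0 < b) (hX : X0 ≤ S * Y) (hU : 0 ≤ U0)
    (hU2 : U0 ≤ Y ^ 10) :
    ((VZs Y S b X0 U0).ncard : ℝ) ≤ 16 * S ^ 2 * D * Y ^ 2 * U0 ^ 2 + 32 * S ^ 2 * D ^ 3 * b ^ 3 := by
  classical
  have hY2 := hC.hY
  have hY : 0 < Y := by linarith
  have hY1 : 1 ≤ Y := by linarith
  have hlY : 0 ≤ Real.log Y := Real.log_nonneg hY1
  have hD1 : 100 * (1 + Real.log Y) ≤ D := hC.hlog
  have hD : 0 < D := by linarith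
  have hS : 1 ≤ S := hC.hS1
  have hRHS : 0 ≤ 16 * S ^ 2 * D * Y ^ 2 * U0 ^ 2 + 32 * S ^ 2 * D ^ 3 * b ^ 3 := by positivity
  by_cases hXU : 1 ≤ X0 ∧ 1 ≤ U0
  · obtain ⟨hX1, hU1⟩ := hXU
    set O := (Obj_finite hY S b).toFinset with hOdef
    have hO : ∀ o ∈ O, o ∈ Obj Y S b := fun o ho => (Set.Finite.mem_toFinset _).mp ho
    set IX := (Finset.Icc (-⌊X0⌋) ⌊X0⌋).filter (· ≠ 0) with hIX
    set IU := (Finset.Icc (-⌊U0⌋) ⌊U0⌋).filter (· ≠ 0) with hIU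
    have hmem : ∀ (Z : ℝ) (n : ℤ), n ≠ 0 → |(n : ℝ)| ≤ Z →
        n ∈ (Finset.Icc (-⌊Z⌋) ⌊Z⌋).filter (· ≠ 0) := by
      intro Z n hn hZ
      rw [Finset.mem_filter, Finset.mem_Icc]
      rw [abs_le] at hZ
      refine ⟨⟨?_, Int.le_floor.mpr hZ.2⟩, hn⟩
      have h3 : ((-n : ℤ) : ℝ) ≤ Z := by push_cast; linarith [hZ.1]
      have h4 := Int.le_floor.mpr h3
      linarith
    have hmem' : ∀ (Z : ℝ) (n : ℤ), n ∈ (Finset.Icc (-⌊Z⌋) ⌊Z⌋).filter (· ≠ 0) →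
        n ≠ 0 ∧ |(n : ℝ)| ≤ Z := by
      intro Z n hn
      rw [Finset.mem_filter, Finset.mem_Icc] at hn
      refine ⟨hn.2, ?_⟩
      rw [abs_le]
      have h3 : (n : ℝ) ≤ Z := Int.le_floor.mp hn.1.2
      have h4 : ((-n : ℤ) : ℝ) ≤ Z := Int.le_floor.mp (by linarith [hn.1.1])
      push_cast at h4
      exact ⟨by linarith, h3⟩
    set T := (IX ×ˢ (IU ×ˢ IU)).filter (fun t => IsCoprime t.1 t.2.1 ∧ IsCoprime t.1 t.2.2) with hT
    set Fm : ℤ × ℤ × ℤ → Finset Ob := fun t =>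
      O.filter (fun o => Phi o.1.1 o.1.2 o.2.1 o.2.2 t.1 t.2.1 t.2.2 = 0) with hFm
    have hsub : VZs Y S b X0 U0 ⊆ ((T.biUnion Fm : Finset Ob) : Set Ob) := by
      rintro o ⟨ho, k, h0, h1, h2, h3, h4, h5, h6⟩
      obtain ⟨k', g0, g1, g2, g3, g4, g5, g6⟩ := primitive ho.1.ari h0 h1 h2 h6
      have hle : ∀ i, |((k' i : ℤ) : ℝ)| ≤ |((k i : ℤ) : ℝ)| := by
        intro i
        have := g3 i
        rw [← Int.cast_abs, ← Int.cast_abs]
        exact_mod_cast this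
      rw [Finset.mem_coe, Finset.mem_biUnion]
      refine ⟨(k' 0, k' 1, k' 2), ?_, ?_⟩
      · rw [hT, Finset.mem_filter]
        refine ⟨?_, g5, g6⟩
        rw [Finset.mem_product, Finset.mem_product]
        exact ⟨hmem X0 _ g0 ((hle 0).trans h3), hmem U0 _ g1 ((hle 1).trans h4),
          hmem U0 _ g2 ((hle 2).trans h5)⟩
      · rw [hFm]
        simp only
        rw [Finset.mem_filter]
        exact ⟨(Set.Finite.mem_toFinset _).mpr ho, g4⟩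
    have hcard : ((VZs Y S b X0 U0).ncard : ℝ) ≤ ∑ t ∈ T, ((Fm t).card : ℝ) := by
      have h1 := Set.ncard_le_ncard hsub (Finset.finite_toSet _)
      rw [Set.ncard_coe_finset] at h1
      have h2 := h1.trans Finset.card_biUnion_le
      exact_mod_cast h2
    have hB0 : 0 ≤ b ^ 3 / Y ^ 2 := by positivity
    have hterm : ∀ t ∈ T, ((Fm t).card : ℝ) ≤ 2 * S ^ 2 * Y ^ 2 * ((1 / |(t.1 : ℝ)|) *
        (1 + 2 * (b ^ 3 / Y ^ 2) * ((1 / |(t.2.1 : ℝ)|) * (1 / |(t.2.2 : ℝ)|)))) := by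
      intro t ht
      rw [hT, Finset.mem_filter, Finset.mem_product, Finset.mem_product] at ht
      obtain ⟨⟨m1, m2, m3⟩, c1, c2⟩ := ht
      obtain ⟨n1, l1⟩ := hmem' X0 _ m1
      obtain ⟨n2, _⟩ := hmem' U0 _ m2
      obtain ⟨n3, _⟩ := hmem' U0 _ m3
      have := vzB_one hY1 hS hb O hO t.1 t.2.1 t.2.2 n1 n2 n3 (l1.trans hX) c1 c2
      refine this.trans (le_of_eq ?_)
      rw [one_div_mul_one_div]
      ring
    have hsumT : ∑ t ∈ T, ((Fm t).card : ℝ) ≤ ∑ t ∈ IX ×ˢ (IU ×ˢ IU),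
        2 * S ^ 2 * Y ^ 2 * ((1 / |(t.1 : ℝ)|) *
        (1 + 2 * (b ^ 3 / Y ^ 2) * ((1 / |(t.2.1 : ℝ)|) * (1 / |(t.2.2 : ℝ)|)))) := by
      refine (Finset.sum_le_sum hterm).trans ?_
      apply Finset.sum_le_sum_of_subset_of_nonneg (Finset.filter_subset _ _)
      intro t _ _
      positivity
    obtain ⟨hx1, hx2⟩ := harm hX1
    obtain ⟨hu1, hu2⟩ := harm hU1
    rw [← hIX] at hx1 hx2
    rw [← hIU] at hu1 hu2
    have hlX : Real.log X0 ≤ 2 * Real.log Y := by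
      have h1 : X0 ≤ Y ^ 2 := by
        have h2 : S * Y ≤ Y * Y := mul_le_mul_of_nonneg_right hC.hSY hY.le
        nlinarith
      have h3 := Real.log_le_log (by linarith) h1
      rw [Real.log_pow] at h3
      push_cast at h3
      exact h3
    have hlU : Real.log U0 ≤ 10 * Real.log Y := by
      have h3 := Real.log_le_log (by linarith) hU2
      rw [Real.log_pow] at h3
      push_cast at h3
      exact h3
    set a := ∑ n ∈ IX, 1 / |((n : ℤ) : ℝ)| with ha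
    set c := ∑ n ∈ IU, 1 / |((n : ℤ) : ℝ)| with hc
    have ha0 : 0 ≤ a := Finset.sum_nonneg fun n _ => by positivity
    have hc0 : 0 ≤ c := Finset.sum_nonneg fun n _ => by positivity
    have ha2 : a ≤ 2 * D := by linarith
    have hc2 : c ≤ 2 * D := by linarith
    have hprod : ∑ t ∈ IX ×ˢ (IU ×ˢ IU), 2 * S ^ 2 * Y ^ 2 * ((1 / |(t.1 : ℝ)|) *
        (1 + 2 * (b ^ 3 / Y ^ 2) * ((1 / |(t.2.1 : ℝ)|) * (1 / |(t.2.2 : ℝ)|))))
        = 2 * S ^ 2 * Y ^ 2 * (a * ((IU.card : ℝ) ^ 2 + 2 * (b ^ 3 / Y ^ 2) * (c * c))) := by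
      rw [← Finset.mul_sum]
      congr 1
      rw [Finset.sum_product]
      simp only
      have h1 : ∀ x ∈ IX, ∑ y ∈ IU ×ˢ IU, 1 / |((x : ℤ) : ℝ)| *
          (1 + 2 * (b ^ 3 / Y ^ 2) * ((1 / |(y.1 : ℝ)|) * (1 / |(y.2 : ℝ)|)))
          = 1 / |((x : ℤ) : ℝ)| * ((IU.card : ℝ) ^ 2 + 2 * (b ^ 3 / Y ^ 2) * (c * c)) := by
        intro x _
        rw [← Finset.mul_sum]
        congr 1
        rw [Finset.sum_add_distrib, Finset.sum_const, Finset.card_product, ← Finset.mul_sum,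
          Finset.sum_product]
        simp only
        rw [hc, Finset.sum_mul_sum]
        simp only [nsmul_eq_mul, mul_one]
        push_cast
        ring
      rw [Finset.sum_congr rfl h1, ← Finset.sum_mul]
    rw [hprod] at hsumT
    have hfin := hcard.trans hsumT
    refine hfin.trans ?_
    have hU0c : (IU.card : ℝ) ^ 2 ≤ (2 * U0) ^ 2 :=
      pow_le_pow_left₀ (Nat.cast_nonneg _) hu2 2
    have hcc : c * c ≤ (2 * D) * (2 * D) := mul_le_mul hc2 hc2 hc0 (by linarith)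
    have h7 : (IU.card : ℝ) ^ 2 + 2 * (b ^ 3 / Y ^ 2) * (c * c)
        ≤ (2 * U0) ^ 2 + 2 * (b ^ 3 / Y ^ 2) * ((2 * D) * (2 * D)) := by
      have := mul_le_mul_of_nonneg_left hcc (show 0 ≤ 2 * (b ^ 3 / Y ^ 2) by positivity)
      linarith
    have h8 : a * ((IU.card : ℝ) ^ 2 + 2 * (b ^ 3 / Y ^ 2) * (c * c))
        ≤ (2 * D) * ((2 * U0) ^ 2 + 2 * (b ^ 3 / Y ^ 2) * ((2 * D) * (2 * D))) :=
      mul_le_mul ha2 h7 (by positivity) (by linarith)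
    have h9 := mul_le_mul_of_nonneg_left h8 (show 0 ≤ 2 * S ^ 2 * Y ^ 2 by positivity)
    refine h9.trans (le_of_eq ?_)
    field_simp
    ring
  · have hempty : VZs Y S b X0 U0 = ∅ := by
      rw [Set.eq_empty_iff_forall_notMem]
      rintro o ⟨_, k, h0, h1, _, h3, h4, _, _⟩
      apply hXU
      have hone : ∀ n : ℤ, n ≠ 0 → (1 : ℝ) ≤ |(n : ℝ)| := by
        intro n hn
        rw [← Int.cast_abs]
        exact_mod_cast Int.one_le_abs hn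
      exact ⟨(hone _ h0).trans h3, (hone _ h1).trans h4⟩
    rw [hempty]
    simpa using hRHS

end Pool.Agent.SLB
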