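import Pool.Agent.SLB.Typ
import Pool.Agent.SLB.VpB
import Pool.Agent.SLB.VzB

namespace Pool.Agent.SLB

/-- Section 9, one dyadic class.  `T` a finite set of objects, `n : Ob → ℕ` with `2^i < n(o) <= 2^(i+1)` and `PLp` for `o ∈ T`.
Hypothesis `hX`: the sizes `8 * 2^(-i/2) a <= S Y`.  Then the sum of `n` over `T` is bounded.
PROOF.  `s = 8 / sqrt(2^i)`, `s^2 n >= 64`, `s^2 2^(i+1) = 128`.  `2 <= n` since `n > 2^i >= 1`.  By `types` each `o ∈ T` is in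
`VPs` (`U = s ab/Y`), or in `VZs` with `n <= 8 D a^3/Y^2`, or in `NDs (3 S s a)`.  So
`sum_{T} n <= 2^(i+1) #VPs + min(2^(i+1), 8 D a^3/Y^2) #VZs + 2^(i+1) #NDs`.
`2^(i+1) #VPs <= 2^(i+1) 16 S^2 D^3 Y^2 s^2 a^2b^2/Y^2 = 2048 S^2 D^3 a^2 b^2` (`VP_bound`; `U <= S Y * b/Y <= Y^10`).
`#VZs <= 16 S^2 D Y^2 U0^2 + 32 S^2 D^3 b^3` (`VZ_bound`); first term times `2^(i+1)`: `2048 S^2 D a^2b^2`; second term times
`8 D a^3/Y^2`: `256 S^2 D^4 a^3b^3/Y^2 <= 256 S^2 D^4 a^2 b^2` (`a b <= Y^2`).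
`#NDs <= E Y S (3 S s a) b` (`NDs_le`). The sets `VPs`, `VZs`, `NDs` are finite (subsets of `Obj`). -/
theorem class_bound {Y S D a b : ℝ} (hC : Con Y S D) (ha : 0 < a) (hb : 0 < b) (hbY : b < Y) (hb2 : 2 * b < Y ^ 2)
    (haY : a ≤ S * Y) (hab : a * b ≤ Y ^ 2) (i : ℕ) (hX : 8 / Real.sqrt (2 ^ i) * a ≤ S * Y)
    (T : Finset Ob) (n : Ob → ℕ) (hT : ∀ o ∈ T, o ∈ Obj Y S b ∧ 2 ^ i < n o ∧ n o ≤ 2 ^ (i + 1) ∧ PLp Y S D a b o (n o)) :
    ((∑ o ∈ T, n o : ℕ) : ℝ) ≤ (2048 * S ^ 2 * D ^ 3 + 2048 * S ^ 2 * D + 256 * S ^ 2 * D ^ 4) * (a ^ 2 * b ^ 2)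
      + 2 ^ (i + 1) * (E Y S (3 * S * (8 / Real.sqrt (2 ^ i)) * a) b : ℝ) := by
  classical
  have hY0 : (0 : ℝ) < Y := lt_of_lt_of_le two_pos hC.hY
  have hY1 : (1 : ℝ) ≤ Y := le_trans one_le_two hC.hY
  have hS0 : (0 : ℝ) < S := lt_of_lt_of_le one_pos hC.hS1
  have hD0 : (0 : ℝ) < D := lt_of_lt_of_le hS0 hC.hSD
  have h2i : (0 : ℝ) < 2 ^ i := by positivity
  have hsq : (0 : ℝ) < Real.sqrt (2 ^ i) := Real.sqrt_pos.2 h2i
  obtain ⟨s, hsdef⟩ : ∃ s : ℝ, s = 8 / Real.sqrt (2 ^ i) := ⟨_, rfl⟩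
  rw [← hsdef] at hX ⊢
  have hs : 0 < s := by rw [hsdef]; positivity
  have hs2 : s ^ 2 * 2 ^ i = 64 := by
    rw [hsdef, div_pow, Real.sq_sqrt h2i.le]
    field_simp
    norm_num
  have hs3 : s ^ 2 * 2 ^ (i + 1) = 128 := by
    calc s ^ 2 * 2 ^ (i + 1) = (s ^ 2 * 2 ^ i) * 2 := by ring
      _ = 128 := by rw [hs2]; norm_num
  obtain ⟨U, hU⟩ : ∃ U : ℝ, U = s * (a * b / Y) := ⟨_, rfl⟩
  have hU0 : 0 ≤ U := by rw [hU]; positivity
  have hUY : U * Y = s * (a * b) := by rw [hU]; field_simp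
  have hUle : U ≤ Y ^ 10 := by
    have h1 : U * Y ≤ (S * Y) * Y := by
      rw [hUY]
      calc s * (a * b) = (s * a) * b := by ring
        _ ≤ (S * Y) * Y := mul_le_mul hX hbY.le hb.le (by positivity)
    have h2 : U ≤ S * Y := le_of_mul_le_mul_right h1 hY0
    have h3 : S * Y ≤ Y ^ 2 := by
      rw [sq]
      exact mul_le_mul_of_nonneg_right hC.hSY hY0.le
    exact h2.trans (h3.trans (pow_le_pow_right₀ hY1 (by norm_num)))
  -- finiteness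
  have fP : (VPs Y S b U).Finite := (Obj_finite hY0 S b).subset (fun o h => h.1)
  have fZ : (VZs Y S b (s * a) U).Finite := (Obj_finite hY0 S b).subset (fun o h => h.1)
  have fN : (NDs Y S (3 * S * s * a) b).Finite := (Obj_finite hY0 S b).subset (fun o h => h.1)
  have cP := VP_bound hC hb hb2 hU0 hUle
  have cZ := VZ_bound (X0 := s * a) hC hb hX hU0 hUle
  have cN : ((NDs Y S (3 * S * s * a) b).ncard : ℝ) ≤ (E Y S (3 * S * s * a) b : ℝ) := by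
    exact_mod_cast NDs_le hY0 S (3 * S * s * a) b
  have hty : ∀ o ∈ T, o ∈ VPs Y S b U ∨
      (o ∈ VZs Y S b (s * a) U ∧ (n o : ℝ) ≤ 8 * D * (a ^ 3 / Y ^ 2)) ∨
      o ∈ NDs Y S (3 * S * s * a) b := by
    intro o ho
    obtain ⟨h1, h2, h3, h4⟩ := hT o ho
    rw [hU]
    refine types hC ha hb hbY hs h1 ?_ ?_ h4
    · have : 1 ≤ 2 ^ i := Nat.one_le_two_pow
      omega
    · have h5 : (2 : ℝ) ^ i ≤ (n o : ℝ) := by exact_mod_cast h2.le
      rw [← hs2]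
      exact mul_le_mul_of_nonneg_left h5 (by positivity)
  have hnn : ∀ o ∈ T, (n o : ℝ) ≤ 2 ^ (i + 1) := by
    intro o ho
    exact_mod_cast (hT o ho).2.2.1
  have cardle : ∀ (A : Set Ob) (hA : A.Finite) (R : Finset Ob), (∀ o ∈ R, o ∈ A) →
      (R.card : ℝ) ≤ (A.ncard : ℝ) := by
    intro A hA R hR
    rw [Set.ncard_eq_toFinset_card A hA]
    exact_mod_cast Finset.card_le_card (fun o ho => (Set.Finite.mem_toFinset hA).2 (hR o ho))
  -- splitting of the sum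
  have hsplit : ((∑ o ∈ T, n o : ℕ) : ℝ)
      ≤ ∑ o ∈ T.filter (fun o => o ∈ VPs Y S b U), (n o : ℝ)
        + ∑ o ∈ T.filter (fun o => o ∈ VZs Y S b (s * a) U ∧
            (n o : ℝ) ≤ 8 * D * (a ^ 3 / Y ^ 2)), (n o : ℝ)
        + ∑ o ∈ T.filter (fun o => o ∈ NDs Y S (3 * S * s * a) b), (n o : ℝ) := by
    rw [Finset.sum_filter, Finset.sum_filter, Finset.sum_filter, ← Finset.sum_add_distrib,
      ← Finset.sum_add_distrib]
    push_cast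
    apply Finset.sum_le_sum
    intro o ho
    have h0 : (0 : ℝ) ≤ (n o : ℝ) := Nat.cast_nonneg _
    rcases hty o ho with h | h | h
    · rw [if_pos h]
      have e1 : (0 : ℝ) ≤ (if o ∈ VZs Y S b (s * a) U ∧
            (n o : ℝ) ≤ 8 * D * (a ^ 3 / Y ^ 2) then (n o : ℝ) else 0) := by
        split_ifs
        · exact h0
        · exact le_rfl
      have e2 : (0 : ℝ) ≤ (if o ∈ NDs Y S (3 * S * s * a) b then (n o : ℝ) else 0) := by
        split_ifs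
        · exact h0
        · exact le_rfl
      linarith
    · rw [if_pos h]
      have e1 : (0 : ℝ) ≤ (if o ∈ VPs Y S b U then (n o : ℝ) else 0) := by
        split_ifs
        · exact h0
        · exact le_rfl
      have e2 : (0 : ℝ) ≤ (if o ∈ NDs Y S (3 * S * s * a) b then (n o : ℝ) else 0) := by
        split_ifs
        · exact h0
        · exact le_rfl
      linarith
    · rw [if_pos h]
      have e1 : (0 : ℝ) ≤ (if o ∈ VPs Y S b U then (n o : ℝ) else 0) := by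
        split_ifs
        · exact h0
        · exact le_rfl
      have e2 : (0 : ℝ) ≤ (if o ∈ VZs Y S b (s * a) U ∧
            (n o : ℝ) ≤ 8 * D * (a ^ 3 / Y ^ 2) then (n o : ℝ) else 0) := by
        split_ifs
        · exact h0
        · exact le_rfl
      linarith
  -- type P
  have bP : ∑ o ∈ T.filter (fun o => o ∈ VPs Y S b U), (n o : ℝ)
      ≤ 2048 * S ^ 2 * D ^ 3 * (a ^ 2 * b ^ 2) := by
    have h1 : ∑ o ∈ T.filter (fun o => o ∈ VPs Y S b U), (n o : ℝ)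
        ≤ ((T.filter (fun o => o ∈ VPs Y S b U)).card : ℝ) * 2 ^ (i + 1) := by
      rw [← nsmul_eq_mul]
      apply Finset.sum_le_card_nsmul
      intro o ho
      exact hnn o (Finset.mem_filter.1 ho).1
    have h2 := cardle _ fP (T.filter (fun o => o ∈ VPs Y S b U))
      (fun o ho => (Finset.mem_filter.1 ho).2)
    have h3 : (0 : ℝ) ≤ 2 ^ (i + 1) := by positivity
    calc ∑ o ∈ T.filter (fun o => o ∈ VPs Y S b U), (n o : ℝ)
        ≤ ((T.filter (fun o => o ∈ VPs Y S b U)).card : ℝ) * 2 ^ (i + 1) := h1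
      _ ≤ (16 * S ^ 2 * D ^ 3 * Y ^ 2 * U ^ 2) * 2 ^ (i + 1) :=
          mul_le_mul_of_nonneg_right (h2.trans cP) h3
      _ = 16 * S ^ 2 * D ^ 3 * (U * Y) ^ 2 * 2 ^ (i + 1) := by ring
      _ = 16 * S ^ 2 * D ^ 3 * (a ^ 2 * b ^ 2) * (s ^ 2 * 2 ^ (i + 1)) := by rw [hUY]; ring
      _ = 2048 * S ^ 2 * D ^ 3 * (a ^ 2 * b ^ 2) := by rw [hs3]; ring
  -- type N
  have bN : ∑ o ∈ T.filter (fun o => o ∈ NDs Y S (3 * S * s * a) b), (n o : ℝ)
      ≤ 2 ^ (i + 1) * (E Y S (3 * S * s * a) b : ℝ) := by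
    have h1 : ∑ o ∈ T.filter (fun o => o ∈ NDs Y S (3 * S * s * a) b), (n o : ℝ)
        ≤ ((T.filter (fun o => o ∈ NDs Y S (3 * S * s * a) b)).card : ℝ) * 2 ^ (i + 1) := by
      rw [← nsmul_eq_mul]
      apply Finset.sum_le_card_nsmul
      intro o ho
      exact hnn o (Finset.mem_filter.1 ho).1
    have h2 := cardle _ fN (T.filter (fun o => o ∈ NDs Y S (3 * S * s * a) b))
      (fun o ho => (Finset.mem_filter.1 ho).2)
    have h3 : (0 : ℝ) ≤ 2 ^ (i + 1) := by positivity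
    have h4 := h1.trans (mul_le_mul_of_nonneg_right (h2.trans cN) h3)
    linarith
  -- type Z
  have bZ : ∑ o ∈ T.filter (fun o => o ∈ VZs Y S b (s * a) U ∧
            (n o : ℝ) ≤ 8 * D * (a ^ 3 / Y ^ 2)), (n o : ℝ)
      ≤ 2048 * S ^ 2 * D * (a ^ 2 * b ^ 2) + 256 * S ^ 2 * D ^ 4 * (a ^ 2 * b ^ 2) := by
    obtain ⟨R, hR⟩ : ∃ R : Finset Ob, R = T.filter (fun o => o ∈ VZs Y S b (s * a) U ∧
            (n o : ℝ) ≤ 8 * D * (a ^ 3 / Y ^ 2)) := ⟨_, rfl⟩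
    rw [← hR]
    obtain ⟨m, hm⟩ : ∃ m : ℝ, m = min (2 ^ (i + 1)) (8 * D * (a ^ 3 / Y ^ 2)) := ⟨_, rfl⟩
    have hm0 : 0 ≤ m := by
      rw [hm]
      exact le_min (by positivity) (by positivity)
    have hm1 : m ≤ 2 ^ (i + 1) := by rw [hm]; exact min_le_left _ _
    have hm2 : m ≤ 8 * D * (a ^ 3 / Y ^ 2) := by rw [hm]; exact min_le_right _ _
    have h1 : ∑ o ∈ R, (n o : ℝ) ≤ (R.card : ℝ) * m := by
      rw [← nsmul_eq_mul]
      apply Finset.sum_le_card_nsmul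
      intro o ho
      rw [hR] at ho
      have h5 := Finset.mem_filter.1 ho
      rw [hm]
      exact le_min (hnn o h5.1) h5.2.2
    have h2 := cardle _ fZ R (fun o ho => by
      rw [hR] at ho
      exact (Finset.mem_filter.1 ho).2.1)
    have h3 : (R.card : ℝ) * m ≤ (16 * S ^ 2 * D * Y ^ 2 * U ^ 2 + 32 * S ^ 2 * D ^ 3 * b ^ 3) * m :=
      mul_le_mul_of_nonneg_right (h2.trans cZ) hm0
    have h4 : (16 * S ^ 2 * D * Y ^ 2 * U ^ 2) * m ≤ 2048 * S ^ 2 * D * (a ^ 2 * b ^ 2) := by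
      calc (16 * S ^ 2 * D * Y ^ 2 * U ^ 2) * m
          ≤ (16 * S ^ 2 * D * Y ^ 2 * U ^ 2) * 2 ^ (i + 1) :=
            mul_le_mul_of_nonneg_left hm1 (by positivity)
        _ = 16 * S ^ 2 * D * (U * Y) ^ 2 * 2 ^ (i + 1) := by ring
        _ = 16 * S ^ 2 * D * (a ^ 2 * b ^ 2) * (s ^ 2 * 2 ^ (i + 1)) := by rw [hUY]; ring
        _ = 2048 * S ^ 2 * D * (a ^ 2 * b ^ 2) := by rw [hs3]; ring
    have h5 : (32 * S ^ 2 * D ^ 3 * b ^ 3) * m ≤ 256 * S ^ 2 * D ^ 4 * (a ^ 2 * b ^ 2) := by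
      have h6 : a * b / Y ^ 2 ≤ 1 := by
        rw [div_le_one (by positivity)]
        exact hab
      calc (32 * S ^ 2 * D ^ 3 * b ^ 3) * m
          ≤ (32 * S ^ 2 * D ^ 3 * b ^ 3) * (8 * D * (a ^ 3 / Y ^ 2)) :=
            mul_le_mul_of_nonneg_left hm2 (by positivity)
        _ = 256 * S ^ 2 * D ^ 4 * (a ^ 2 * b ^ 2) * (a * b / Y ^ 2) := by ring
        _ ≤ 256 * S ^ 2 * D ^ 4 * (a ^ 2 * b ^ 2) * 1 :=
            mul_le_mul_of_nonneg_left h6 (by positivity)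
        _ = _ := by ring
    calc ∑ o ∈ R, (n o : ℝ) ≤ (R.card : ℝ) * m := h1
      _ ≤ (16 * S ^ 2 * D * Y ^ 2 * U ^ 2 + 32 * S ^ 2 * D ^ 3 * b ^ 3) * m := h3
      _ = (16 * S ^ 2 * D * Y ^ 2 * U ^ 2) * m + (32 * S ^ 2 * D ^ 3 * b ^ 3) * m := by ring
      _ ≤ _ := add_le_add h4 h5
  linarith

end Pool.Agent.SLB
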