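import Pool.Agent.SLB.StpA

namespace Pool.Agent.SLB

/-- `#KS <= Y^20`.  PROOF: three integer coordinates with `|k0| <= a`, `|k1|,|k2| <= a b/Y`: at most `(2a+1)(2ab/Y+1)^2` points,
`a, b <= S Y <= Y^2`, `ab/Y <= S^2 Y <= Y^3`, `Y >= 2`. -/
theorem KS_card {Y S D a b : ℝ} (hC : Con Y S D) (ha : 0 < a) (hb : 0 < b) (haY : a ≤ S * Y) (hbY : b ≤ S * Y) (o : Ob) :
    ((KS Y a b o).ncard : ℝ) ≤ Y ^ 20 := by
  have hY := hC.hY
  have hS1 := hC.hS1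
  have hSY := hC.hSY
  have hY0 : 0 < Y := by linarith
  let c : Fin 3 → ℝ := ![a, a * b / Y, a * b / Y]
  have hc0 : ∀ i, 0 ≤ c i := by
    intro i
    fin_cases i
    · exact ha.le
    · exact (by positivity : 0 ≤ a * b / Y)
    · exact (by positivity : 0 ≤ a * b / Y)
  have hsub : KS Y a b o ⊆
      (↑(Fintype.piFinset (fun i => Finset.Icc (-⌊c i⌋) ⌊c i⌋)) : Set V3) := by
    rintro k ⟨-, h0, h1, h2, -⟩
    rw [Finset.mem_coe, Fintype.mem_piFinset]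
    have key : ∀ (z : ℤ) (x : ℝ), |(z : ℝ)| ≤ x → z ∈ Finset.Icc (-⌊x⌋) ⌊x⌋ := by
      intro z x hz
      rw [Finset.mem_Icc]
      obtain ⟨h3, h4⟩ := abs_le.mp hz
      constructor
      · have : -z ≤ ⌊x⌋ := Int.le_floor.mpr (by push_cast; linarith)
        linarith
      · exact Int.le_floor.mpr h4
    intro i
    fin_cases i
    · exact key _ _ h0
    · exact key _ _ h1
    · exact key _ _ h2
  have h1 : (KS Y a b o).ncard ≤ ∏ i, (Finset.Icc (-⌊c i⌋) ⌊c i⌋).card := by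
    have h2 := Set.ncard_le_ncard hsub (Finset.finite_toSet _)
    rwa [Set.ncard_coe_finset, Fintype.card_piFinset] at h2
  have hcard : ∀ i, ((Finset.Icc (-⌊c i⌋) ⌊c i⌋).card : ℝ) ≤ 2 * c i + 1 := by
    intro i
    have h3 : 0 ≤ ⌊c i⌋ := Int.floor_nonneg.mpr (hc0 i)
    rw [Int.card_Icc]
    have h4 : (((⌊c i⌋ + 1 - -⌊c i⌋).toNat : ℤ) : ℝ) = 2 * (⌊c i⌋ : ℝ) + 1 := by
      rw [Int.toNat_of_nonneg (by omega)]
      push_cast
      ring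
    have h5 : (((⌊c i⌋ + 1 - -⌊c i⌋).toNat : ℕ) : ℝ) = 2 * (⌊c i⌋ : ℝ) + 1 := by
      rw [← h4]
      norm_cast
    rw [h5]
    have h6 := Int.floor_le (c i)
    linarith
  have hb3 : a * b / Y ≤ Y ^ 3 := by
    rw [div_le_iff₀ hY0]
    have h3 : a * b ≤ (S * Y) * (S * Y) := mul_le_mul haY hbY hb.le (by positivity)
    have h4 : S * Y ≤ Y * Y := mul_le_mul_of_nonneg_right hSY hY0.le
    have h5 : (S * Y) * (S * Y) ≤ (Y * Y) * (Y * Y) :=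
      mul_le_mul h4 h4 (by positivity) (by positivity)
    calc a * b ≤ (Y * Y) * (Y * Y) := h3.trans h5
      _ = Y ^ 3 * Y := by ring
  have ha2 : a ≤ Y ^ 2 := by
    have h4 : S * Y ≤ Y * Y := mul_le_mul_of_nonneg_right hSY hY0.le
    calc a ≤ Y * Y := haY.trans h4
      _ = Y ^ 2 := by ring
  have hq1 : 2 * a + 1 ≤ Y ^ 4 := by
    have h3 : Y ^ 4 = Y ^ 2 * Y ^ 2 := by ring
    have h4 : 4 ≤ Y ^ 2 := by nlinarith
    nlinarith
  have hq2 : 2 * (a * b / Y) + 1 ≤ Y ^ 5 := by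
    have h3 : Y ^ 5 = Y ^ 3 * Y ^ 2 := by ring
    have h4 : 4 ≤ Y ^ 2 := by nlinarith
    have h5 : 8 ≤ Y ^ 3 := by
      have : Y ^ 3 = Y ^ 2 * Y := by ring
      nlinarith
    nlinarith
  have hprod : ((∏ i, (Finset.Icc (-⌊c i⌋) ⌊c i⌋).card : ℕ) : ℝ) ≤ ∏ i, (2 * c i + 1) := by
    rw [Nat.cast_prod]
    exact Finset.prod_le_prod (fun i _ => Nat.cast_nonneg _) (fun i _ => hcard i)
  have h2 : ((KS Y a b o).ncard : ℝ) ≤ ∏ i, (2 * c i + 1) :=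
    le_trans (by exact_mod_cast h1) hprod
  have h3 : ∏ i, (2 * c i + 1) = (2 * a + 1) * ((2 * (a * b / Y) + 1) * (2 * (a * b / Y) + 1)) := by
    rw [Fin.prod_univ_three]
    have e0 : c 0 = a := rfl
    have e1 : c 1 = a * b / Y := rfl
    have e2 : c 2 = a * b / Y := rfl
    rw [e0, e1, e2]
    ring
  rw [h3] at h2
  have hab0 : 0 ≤ a * b / Y := by positivity
  have h4 : (2 * (a * b / Y) + 1) * (2 * (a * b / Y) + 1) ≤ Y ^ 5 * Y ^ 5 :=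
    mul_le_mul hq2 hq2 (by linarith) (by positivity)
  have h5 : (2 * a + 1) * ((2 * (a * b / Y) + 1) * (2 * (a * b / Y) + 1)) ≤ Y ^ 4 * (Y ^ 5 * Y ^ 5) :=
    mul_le_mul hq1 h4 (by positivity) (by positivity)
  have h6 : Y ^ 4 * (Y ^ 5 * Y ^ 5) = Y ^ 14 := by ring
  have h7 : Y ^ 14 ≤ Y ^ 20 := pow_le_pow_right₀ (by linarith) (by norm_num)
  linarith

private theorem StpB_consts {Y S D lam : ℝ} (hC : Con Y S D) (hl : 0 < lam)
    (hl1 : 1152 * D ^ 2 * lam ^ 2 ≤ 1) :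
    100 ≤ D ∧ lam ^ 2 * S < 1 ∧ 1152 * (lam ^ 2 * S ^ 2) ≤ 1 ∧ 128 * lam ^ 2 ≤ 1 ∧ lam ^ 2 ≤ 1 := by
  have hlogY : 0 ≤ Real.log Y := Real.log_nonneg (by linarith [hC.hY])
  have hD : 100 ≤ D := by linarith [hC.hlog]
  have hD2 : 10000 ≤ D ^ 2 := by nlinarith
  have hl2 : 0 < lam ^ 2 := by positivity
  have hS1 := hC.hS1
  have hSD := hC.hSD
  have h1 : D ^ 2 * lam ^ 2 ≤ 1 / 1152 := by
    have : 1152 * D ^ 2 * lam ^ 2 = 1152 * (D ^ 2 * lam ^ 2) := by ring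
    linarith
  have h2 : 10000 * lam ^ 2 ≤ D ^ 2 * lam ^ 2 := mul_le_mul_of_nonneg_right hD2 hl2.le
  have h3 : S ^ 2 ≤ D ^ 2 := pow_le_pow_left₀ (by linarith) hSD 2
  have h4 : lam ^ 2 * S ^ 2 ≤ D ^ 2 * lam ^ 2 := by nlinarith
  have h5 : lam ^ 2 * S ≤ lam ^ 2 * S ^ 2 := by
    apply mul_le_mul_of_nonneg_left _ hl2.le
    nlinarith
  refine ⟨hD, by linarith, by linarith, by linarith, by linarith⟩

/-- Section 9: all objects of type PL with `n > c*`, `c* = a^2/(lam^6 b^2)` (`kappa = lam^4`).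
PROOF.  For each `o ∈ T` there is a unique `i` with `2^i < n(o) <= 2^(i+1)` (`n >= 2`: `c* >= 1` since `b <= lam^2 a`, `lam <= 1`);
`2^i < Y^20`, so `i < 20 log Y/log 2 <= 29 log Y`: at most `D` values of `i` (`29 log Y + 1 <= D`).  For such an `i` (with `T_i` not
empty) `2^(i+1) >= n > c*`.  Put `s = 8/sqrt(2^i)`, `s^2 = 128/2^(i+1) < 128/c*`, `s a <= sqrt 128 lam^3 b <= b <= S Y`
(`1152 D^2 lam^2 <= 1`), so `class_bound` applies (`b <= lam^2 a <= lam^2 S Y < Y`, `2b < Y^2` as `Y >= 2`, `a b <= lam^2 S^2Y^2 <= Y^2`).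
`a_i := 3 S s a`, `a_i^2 = 9 S^2 s^2 a^2 < 1152 S^2 a^2/c* = 1152 S^2 lam^6 b^2 <= (lam^2 b)^2`, so `ih` applies with `a' = a_i`:
`E Y S a_i b = E Y S b a_i <= G a_i^2 b^2/lam^6` (`E_symm`), `2^(i+1) a_i^2 = 9 S^2 * 128 a^2 = 1152 S^2 a^2`.  Sum over the `i`. -/
theorem big_sum {Y S D lam a b G : ℝ} (hC : Con Y S D) (hl : 0 < lam) (hl1 : 1152 * D ^ 2 * lam ^ 2 ≤ 1)
    (ha : 0 < a) (hb : 0 < b) (hba : b ≤ lam ^ 2 * a) (haY : a ≤ S * Y) (hG : 1 ≤ G)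
    (ih : ∀ a' : ℝ, 0 < a' → a' ≤ lam ^ 2 * b → (E Y S b a' : ℝ) ≤ G / lam ^ 6 * (a' ^ 2 * b ^ 2))
    (T : Finset Ob) (n : Ob → ℕ)
    (hT : ∀ o ∈ T, o ∈ Obj Y S b ∧ a ^ 2 / (lam ^ 6 * b ^ 2) < (n o : ℝ) ∧ (n o : ℝ) ≤ Y ^ 20 ∧ PLp Y S D a b o (n o)) :
    ((∑ o ∈ T, n o : ℕ) : ℝ) ≤
      D * ((2048 * S ^ 2 * D ^ 3 + 2048 * S ^ 2 * D + 256 * S ^ 2 * D ^ 4) + 1152 * S ^ 2 * G / lam ^ 6) * (a ^ 2 * b ^ 2) := by
  classical
  obtain ⟨hD, hlS, hlS2, hl128, hlam1⟩ := StpB_consts hC hl hl1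
  have hY := hC.hY
  have hS1 := hC.hS1
  have hY0 : 0 < Y := by linarith
  have hl2 : 0 < lam ^ 2 := by positivity
  have hl6 : 0 < lam ^ 6 := by positivity
  have hba' : b ≤ a := hba.trans (by nlinarith)
  have hbSY : b ≤ S * Y := hba'.trans haY
  have hbY : b < Y := by
    calc b ≤ lam ^ 2 * a := hba
      _ ≤ lam ^ 2 * (S * Y) := mul_le_mul_of_nonneg_left haY hl2.le
      _ = (lam ^ 2 * S) * Y := by ring
      _ < 1 * Y := mul_lt_mul_of_pos_right hlS hY0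
      _ = Y := one_mul Y
  have hb2 : 2 * b < Y ^ 2 := by nlinarith
  have hab : a * b ≤ Y ^ 2 := by
    have h1 : a * b ≤ a * (lam ^ 2 * a) := mul_le_mul_of_nonneg_left hba ha.le
    have h2 : a * a ≤ (S * Y) * (S * Y) := mul_le_mul haY haY ha.le (by positivity)
    have h3 : lam ^ 2 * (a * a) ≤ lam ^ 2 * ((S * Y) * (S * Y)) :=
      mul_le_mul_of_nonneg_left h2 hl2.le
    have h4 : lam ^ 2 * ((S * Y) * (S * Y)) = (lam ^ 2 * S ^ 2) * Y ^ 2 := by ring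
    have h5 : (lam ^ 2 * S ^ 2) * Y ^ 2 ≤ 1 * Y ^ 2 := by
      apply mul_le_mul_of_nonneg_right _ (by positivity)
      linarith
    have h6 : a * (lam ^ 2 * a) = lam ^ 2 * (a * a) := by ring
    linarith
  -- the dyadic index
  set J : Ob → ℕ := fun o => Nat.log 2 (n o - 1) with hJ
  have hcs : 1 ≤ a ^ 2 / (lam ^ 6 * b ^ 2) := by
    rw [one_le_div (by positivity)]
    have h1 : lam ^ 6 * b ^ 2 ≤ lam ^ 6 * (lam ^ 2 * a) ^ 2 :=
      mul_le_mul_of_nonneg_left (pow_le_pow_left₀ hb.le hba 2) hl6.le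
    have h2 : lam ^ 6 * (lam ^ 2 * a) ^ 2 = (lam ^ 2) ^ 5 * a ^ 2 := by ring
    have h3 : (lam ^ 2) ^ 5 ≤ 1 := pow_le_one₀ hl2.le hlam1
    have h4 : (lam ^ 2) ^ 5 * a ^ 2 ≤ 1 * a ^ 2 := mul_le_mul_of_nonneg_right h3 (by positivity)
    linarith
  have hn2 : ∀ o ∈ T, 2 ≤ n o := by
    intro o ho
    have h1 : (1 : ℝ) < (n o : ℝ) := lt_of_le_of_lt hcs (hT o ho).2.1
    have h2 : 1 < n o := by exact_mod_cast h1
    omega
  have hJlo : ∀ o ∈ T, 2 ^ (J o) < n o := by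
    intro o ho
    have h1 := hn2 o ho
    have h2 : 2 ^ (Nat.log 2 (n o - 1)) ≤ n o - 1 := Nat.pow_log_le_self 2 (by omega)
    have h3 : 2 ^ (J o) ≤ n o - 1 := h2
    omega
  have hJhi : ∀ o ∈ T, n o ≤ 2 ^ (J o + 1) := by
    intro o ho
    have h1 := hn2 o ho
    have h2 : n o - 1 < 2 ^ (Nat.log 2 (n o - 1) + 1) := Nat.lt_pow_succ_log_self (by norm_num) _
    have h3 : n o - 1 < 2 ^ (J o + 1) := h2
    omega
  have hlogY : 0 ≤ Real.log Y := Real.log_nonneg (by linarith)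
  set M : Finset ℕ := T.image J with hM
  have hMcard : (M.card : ℝ) ≤ D := by
    have hsub : M ⊆ Finset.range (⌊29 * Real.log Y⌋₊ + 1) := by
      intro i hi
      obtain ⟨o, ho, rfl⟩ := Finset.mem_image.mp hi
      rw [Finset.mem_range, Nat.lt_add_one_iff]
      apply Nat.le_floor
      have h1 : ((2 : ℝ) ^ (J o)) ≤ Y ^ 20 := by
        have h2 : ((2 ^ (J o) : ℕ) : ℝ) ≤ (n o : ℝ) := by exact_mod_cast (hJlo o ho).le
        push_cast at h2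
        exact h2.trans (hT o ho).2.2.1
      have h3 := Real.log_le_log (by positivity) h1
      rw [Real.log_pow, Real.log_pow] at h3
      push_cast at h3
      have h4 : (0.6931 : ℝ) < Real.log 2 := by
        have := Real.log_two_gt_d9
        linarith
      have h5 : (0 : ℝ) ≤ (J o : ℝ) := Nat.cast_nonneg _
      have h6 : (J o : ℝ) * 0.6931 ≤ 20 * Real.log Y :=
        le_trans (mul_le_mul_of_nonneg_left h4.le h5) h3
      linarith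
    have h1 : (M.card : ℝ) ≤ ((⌊29 * Real.log Y⌋₊ + 1 : ℕ) : ℝ) := by
      have h2 := Finset.card_le_card hsub
      rw [Finset.card_range] at h2
      exact_mod_cast h2
    push_cast at h1
    have h2 : ((⌊29 * Real.log Y⌋₊ : ℕ) : ℝ) ≤ 29 * Real.log Y :=
      Nat.floor_le (by positivity)
    have h3 := hC.hlog
    linarith
  -- one class
  have hclass : ∀ i ∈ M, ((∑ o ∈ T with J o = i, n o : ℕ) : ℝ) ≤
      ((2048 * S ^ 2 * D ^ 3 + 2048 * S ^ 2 * D + 256 * S ^ 2 * D ^ 4)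
        + 1152 * S ^ 2 * G / lam ^ 6) * (a ^ 2 * b ^ 2) := by
    intro i hi
    obtain ⟨o, ho, hoi⟩ := Finset.mem_image.mp hi
    have hP : (0 : ℝ) < 2 ^ i := by positivity
    have hP1 : (2 : ℝ) ^ (i + 1) = 2 * 2 ^ i := by ring
    have h1 : a ^ 2 < 2 ^ (i + 1) * (lam ^ 6 * b ^ 2) := by
      have h2 : a ^ 2 / (lam ^ 6 * b ^ 2) < (2 : ℝ) ^ (i + 1) := by
        refine lt_of_lt_of_le (hT o ho).2.1 ?_
        have h3 := hJhi o ho
        rw [hoi] at h3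
        exact_mod_cast h3
      rwa [div_lt_iff₀ (by positivity)] at h2
    set s : ℝ := 8 / Real.sqrt (2 ^ i) with hs
    have hsq : 0 < Real.sqrt (2 ^ i) := Real.sqrt_pos.mpr hP
    have hs0 : 0 < s := by rw [hs]; positivity
    have hs2 : s ^ 2 * 2 ^ (i + 1) = 128 := by
      rw [hs, div_pow, Real.sq_sqrt hP.le, hP1]
      field_simp
      norm_num
    have hsa2 : (s * a) ^ 2 ≤ 128 * (lam ^ 6 * b ^ 2) := by
      have h2 : (s * a) ^ 2 = s ^ 2 * a ^ 2 := by ring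
      have h3 : s ^ 2 * a ^ 2 ≤ s ^ 2 * (2 ^ (i + 1) * (lam ^ 6 * b ^ 2)) :=
        mul_le_mul_of_nonneg_left h1.le (by positivity)
      have h4 : s ^ 2 * (2 ^ (i + 1) * (lam ^ 6 * b ^ 2)) = (s ^ 2 * 2 ^ (i + 1)) * (lam ^ 6 * b ^ 2) := by
        ring
      rw [h2]
      rw [h4, hs2] at h3
      exact h3
    have hlam4 : (lam ^ 2) ^ 2 ≤ 1 := pow_le_one₀ hl2.le hlam1
    have hsa : s * a ≤ b := by
      have h2 : (s * a) ^ 2 ≤ b ^ 2 := by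
        have h3 : 128 * (lam ^ 6 * b ^ 2) = (128 * lam ^ 2) * ((lam ^ 2) ^ 2 * b ^ 2) := by ring
        have h4 : (lam ^ 2) ^ 2 * b ^ 2 ≤ 1 * b ^ 2 :=
          mul_le_mul_of_nonneg_right hlam4 (by positivity)
        have h5 : (128 * lam ^ 2) * ((lam ^ 2) ^ 2 * b ^ 2) ≤ 1 * ((lam ^ 2) ^ 2 * b ^ 2) :=
          mul_le_mul_of_nonneg_right hl128 (by positivity)
        linarith
      exact le_of_sq_le_sq h2 hb.le
    have hX : 8 / Real.sqrt (2 ^ i) * a ≤ S * Y := hsa.trans hbSY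
    have hcb := class_bound hC ha hb hbY hb2 haY hab i hX (T.filter (fun o => J o = i)) n (by
      intro o' ho'
      obtain ⟨h2, h3⟩ := Finset.mem_filter.mp ho'
      refine ⟨(hT o' h2).1, ?_, ?_, (hT o' h2).2.2.2⟩
      · have := hJlo o' h2
        rwa [h3] at this
      · have := hJhi o' h2
        rwa [h3] at this)
    have hai0 : 0 < 3 * S * s * a := by positivity
    have hai2 : (3 * S * s * a) ^ 2 * 2 ^ (i + 1) = 1152 * S ^ 2 * a ^ 2 := by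
      have : (3 * S * s * a) ^ 2 * 2 ^ (i + 1) = 9 * S ^ 2 * a ^ 2 * (s ^ 2 * 2 ^ (i + 1)) := by ring
      rw [this, hs2]
      ring
    have hai : 3 * S * s * a ≤ lam ^ 2 * b := by
      have h2 : (3 * S * s * a) ^ 2 ≤ (lam ^ 2 * b) ^ 2 := by
        have h3 : (3 * S * s * a) ^ 2 = 9 * S ^ 2 * (s * a) ^ 2 := by ring
        have h4 : 9 * S ^ 2 * (s * a) ^ 2 ≤ 9 * S ^ 2 * (128 * (lam ^ 6 * b ^ 2)) :=
          mul_le_mul_of_nonneg_left hsa2 (by positivity)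
        have h5 : 9 * S ^ 2 * (128 * (lam ^ 6 * b ^ 2)) = (1152 * (lam ^ 2 * S ^ 2)) * (lam ^ 2 * b) ^ 2 := by
          ring
        have h6 : (1152 * (lam ^ 2 * S ^ 2)) * (lam ^ 2 * b) ^ 2 ≤ 1 * (lam ^ 2 * b) ^ 2 :=
          mul_le_mul_of_nonneg_right hlS2 (by positivity)
        linarith
      exact le_of_sq_le_sq h2 (by positivity)
    have hE := ih _ hai0 hai
    rw [← E_symm Y S (3 * S * s * a) b] at hE
    have h2 : 2 ^ (i + 1) * (E Y S (3 * S * s * a) b : ℝ) ≤ 1152 * S ^ 2 * G / lam ^ 6 * (a ^ 2 * b ^ 2) := by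
      have h3 : 2 ^ (i + 1) * (E Y S (3 * S * s * a) b : ℝ)
          ≤ 2 ^ (i + 1) * (G / lam ^ 6 * ((3 * S * s * a) ^ 2 * b ^ 2)) :=
        mul_le_mul_of_nonneg_left hE (by positivity)
      have h4 : 2 ^ (i + 1) * (G / lam ^ 6 * ((3 * S * s * a) ^ 2 * b ^ 2))
          = G / lam ^ 6 * (((3 * S * s * a) ^ 2 * 2 ^ (i + 1)) * b ^ 2) := by ring
      rw [h4, hai2] at h3
      calc _ ≤ _ := h3
        _ = _ := by ring
    have h3 : ((2048 * S ^ 2 * D ^ 3 + 2048 * S ^ 2 * D + 256 * S ^ 2 * D ^ 4)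
        + 1152 * S ^ 2 * G / lam ^ 6) * (a ^ 2 * b ^ 2)
        = (2048 * S ^ 2 * D ^ 3 + 2048 * S ^ 2 * D + 256 * S ^ 2 * D ^ 4) * (a ^ 2 * b ^ 2)
          + 1152 * S ^ 2 * G / lam ^ 6 * (a ^ 2 * b ^ 2) := by ring
    rw [h3]
    linarith
  have hsum : ∑ o ∈ T, n o = ∑ i ∈ M, ∑ o ∈ T with J o = i, n o :=
    (Finset.sum_fiberwise_of_maps_to (fun o ho => Finset.mem_image_of_mem J ho) n).symm
  rw [hsum, Nat.cast_sum]
  set K : ℝ := ((2048 * S ^ 2 * D ^ 3 + 2048 * S ^ 2 * D + 256 * S ^ 2 * D ^ 4)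
        + 1152 * S ^ 2 * G / lam ^ 6) * (a ^ 2 * b ^ 2) with hK
  have hK0 : 0 ≤ K := by
    rw [hK]
    have : 0 ≤ G := by linarith
    positivity
  calc ∑ i ∈ M, ((∑ o ∈ T with J o = i, n o : ℕ) : ℝ) ≤ ∑ _i ∈ M, K := Finset.sum_le_sum hclass
    _ = M.card * K := by rw [Finset.sum_const, nsmul_eq_mul]
    _ ≤ D * K := mul_le_mul_of_nonneg_right hMcard hK0
    _ = _ := by rw [hK]; ring

end Pool.Agent.SLB
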