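import Pool.Agent.SLB.Sol
import Pool.Agent.SLB.Zer

namespace Pool.Agent.SLB

/-- Section 9: the three types.  `n <= 4^(i+1)` is not needed; `s = 8 / 2^i'` is written as a real number `s > 0` with
`64 <= s^2 n` (so `s >= 8/sqrt n`).
PROOF.  `n >= 2`.  Let `m` be the largest natural number with `m^2 < n`, so `m >= 1`, `(m+1)^2 >= n`, `2m >= m+1 >= sqrt n`,
`4/m <= 8/sqrt n <= s`.  `PLp` for this `m` gives `v, z` with `|v0| <= s a`, `|v1|,|v2| <= s ab/Y`, `|z| <= 17 S^2 (s a)^3/Y^2`.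
`v0 = 0`: then `(v1,v2) <> 0` and `Phi = y2 v1^3 + y3 v2^3 = Dl z`: `o ∈ VPs` (`U = s ab/Y`).
`v0 <> 0`, `z = 0`: `Phi(v) = 0`; by `zero_type` (`|y| <= b^3/Y^2 < Y` as `b < Y`) `v1, v2 <> 0`: `o ∈ VZs`, and the bound of `n`.
`v0 <> 0`, `z <> 0`: `v ∈ KS Y (3 S s a) b o`: `s a <= 3 S s a`, `17 S^2 (s a)^3 <= 27 S^3 (s a)^3 = (3 S s a)^3` (`S >= 1`). -/
theorem types {Y S D a b s : ℝ} (hC : Con Y S D) (ha : 0 < a) (hb : 0 < b) (hbY : b < Y) (hs : 0 < s)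
    {o : Ob} (ho : o ∈ Obj Y S b) {n : ℕ} (hn : 2 ≤ n) (hsn : 64 ≤ s ^ 2 * n) (hP : PLp Y S D a b o n) :
    o ∈ VPs Y S b (s * (a * b / Y)) ∨
    (o ∈ VZs Y S b (s * a) (s * (a * b / Y)) ∧ (n : ℝ) ≤ 8 * D * (a ^ 3 / Y ^ 2)) ∨
    o ∈ NDs Y S (3 * S * s * a) b := by
  have hY : 0 < Y := lt_of_lt_of_le two_pos hC.hY
  have hS1 := hC.hS1
  have hm1 : 1 ≤ Nat.sqrt (n - 1) := Nat.le_sqrt.mpr (by omega)
  have hmlt : Nat.sqrt (n - 1) ^ 2 < n := by
    have := Nat.sqrt_le' (n - 1)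
    omega
  have hmge : n ≤ (Nat.sqrt (n - 1) + 1) ^ 2 := by
    have := Nat.lt_succ_sqrt' (n - 1)
    rw [Nat.succ_eq_add_one] at this
    omega
  obtain ⟨m, hm⟩ : ∃ m : ℕ, m = Nat.sqrt (n - 1) := ⟨_, rfl⟩
  rw [← hm] at hm1 hmlt hmge
  have hm1' : (1 : ℝ) ≤ (m : ℝ) := by exact_mod_cast hm1
  have hm0 : (0 : ℝ) < (m : ℝ) := by linarith
  have h4m : 4 / (m : ℝ) ≤ s := by
    rw [div_le_iff₀ hm0]
    have h1 : (n : ℝ) ≤ ((m : ℝ) + 1) ^ 2 := by exact_mod_cast hmge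
    have h2 : (n : ℝ) ≤ 4 * (m : ℝ) ^ 2 := by nlinarith
    have h3 : (64 : ℝ) ≤ s ^ 2 * (4 * (m : ℝ) ^ 2) :=
      hsn.trans (mul_le_mul_of_nonneg_left h2 (by positivity))
    have h4 : (4 : ℝ) ^ 2 ≤ (s * m) ^ 2 := by nlinarith
    exact le_of_pow_le_pow_left₀ (n := 2) (by norm_num) (by positivity) h4
  have h40 : (0 : ℝ) ≤ 4 / (m : ℝ) := by positivity
  have hab : 0 ≤ a * b / Y := by positivity
  obtain ⟨v, hv, hv0, hv1, hv2, z, hz, hzb, hz0⟩ := hP m hm1 hmlt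
  have hv0' : |(v 0 : ℝ)| ≤ s * a := hv0.trans (mul_le_mul_of_nonneg_right h4m ha.le)
  have hv1' : |(v 1 : ℝ)| ≤ s * (a * b / Y) := hv1.trans (mul_le_mul_of_nonneg_right h4m hab)
  have hv2' : |(v 2 : ℝ)| ≤ s * (a * b / Y) := hv2.trans (mul_le_mul_of_nonneg_right h4m hab)
  by_cases c0 : v 0 = 0
  · left
    refine ⟨ho, v 1, v 2, ?_, hv1', hv2', ?_⟩
    · rintro ⟨e1, e2⟩
      apply hv
      funext i
      fin_cases i
      · exact c0
      · exact e1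
      · exact e2
    · refine ⟨z, ?_⟩
      rw [← hz]
      unfold PhiO Phi
      rw [c0]
      ring
  · right
    by_cases cz : z = 0
    · left
      have hPhi : PhiO o v = 0 := by rw [hz, cz, mul_zero]
      have hbx := ho.2
      have hylt : |(o.2.2 : ℝ)| < Y := by
        refine lt_of_le_of_lt hbx.2.2.2 ?_
        rw [div_lt_iff₀ (by positivity)]
        calc b ^ 3 < Y ^ 3 := pow_lt_pow_left₀ hbY hb.le (by norm_num)
          _ = Y * Y ^ 2 := by ring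
      obtain ⟨e1, e2⟩ := zero_type ho.1 hbx.2.1 (Or.inl hylt) c0 hPhi
      exact ⟨⟨ho, v, c0, e1, e2, hv0', hv1', hv2', hPhi⟩, hz0 cz c0 e1 e2⟩
    · right
      have hsa : s * a ≤ 3 * S * s * a := by
        have : 0 ≤ s * a := by positivity
        nlinarith
      refine ⟨ho, v, c0, hv0'.trans hsa, ?_, ?_, z, cz, ?_, hz⟩
      · refine hv1'.trans ?_
        calc s * (a * b / Y) = (s * a) * (b / Y) := by ring
          _ ≤ (3 * S * s * a) * (b / Y) := mul_le_mul_of_nonneg_right hsa (by positivity)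
          _ = 3 * S * s * a * b / Y := by ring
      · refine hv2'.trans ?_
        calc s * (a * b / Y) = (s * a) * (b / Y) := by ring
          _ ≤ (3 * S * s * a) * (b / Y) := mul_le_mul_of_nonneg_right hsa (by positivity)
          _ = 3 * S * s * a * b / Y := by ring
      · refine hzb.trans ?_
        have h1 : (4 / (m : ℝ) * a) ^ 3 ≤ (s * a) ^ 3 :=
          pow_le_pow_left₀ (by positivity) (mul_le_mul_of_nonneg_right h4m ha.le) 3
        have h2 : 17 * S ^ 2 * (4 / (m : ℝ) * a) ^ 3 ≤ (3 * S * s * a) ^ 3 := by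
          have h3 : 17 * S ^ 2 * (4 / (m : ℝ) * a) ^ 3 ≤ 17 * S ^ 2 * (s * a) ^ 3 :=
            mul_le_mul_of_nonneg_left h1 (by positivity)
          refine h3.trans ?_
          have h4 : 0 ≤ S ^ 2 * (s * a) ^ 3 := by positivity
          have h5 : (3 * S * s * a) ^ 3 = 27 * S * (S ^ 2 * (s * a) ^ 3) := by ring
          rw [h5]
          nlinarith
        gcongr

end Pool.Agent.SLB
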