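import Pool.Agent.SLB.Defs

namespace Pool.Agent.SLB

/-- the three linear factors of the norm form over a field `K` containing `th` (`th^3 = y2^2 y3`), `th2` and `om` -/
noncomputable def xi {K : Type*} [Field K] (p : ℤ) (th th2 om : K) (i : Fin 3) (k : V3) : K :=
  (p : K) * (k 0 : K) + om ^ (i : ℕ) * th * (k 1 : K) + om ^ (2 * (i : ℕ)) * th2 * (k 2 : K)

/-- PROOF: `a^3+b^3+c^3-3abc = (a+b+c)(a+om b+om^2 c)(a+om^2 b+om^4 c)` with `om^2+om+1 = 0` (so `om^3 = 1`),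
`a = p x, b = th u, c = th2 w`, `b^3 = y2^2 y3 u^3`, `c^3 = y2 y3^2 w^3`, `abc = y2 y3 p x u w`.
(`linear_combination (exp := 1) ...` or: `Fin.prod_univ_three`, then `ring_nf`, using the relations.) -/
theorem xi_prod {K : Type*} [Field K] {y2 y3 p : ℤ} {th th2 om : K}
    (h1 : th ^ 3 = (y2 : K) ^ 2 * y3) (h2 : th2 ^ 3 = (y2 : K) * (y3 : K) ^ 2) (h3 : th * th2 = (y2 : K) * y3)
    (h4 : om ^ 2 + om + 1 = 0) (k : V3) :
    xi p th th2 om 0 k * xi p th th2 om 1 k * xi p th th2 om 2 k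
      = ((Nm y2 y3 (p * k 0) (k 1) (k 2) : ℤ) : K) := by
  have e1 : ((1 : Fin 3) : ℕ) = 1 := rfl
  have e2 : ((2 : Fin 3) : ℕ) = 2 := rfl
  have e0 : ((0 : Fin 3) : ℕ) = 0 := rfl
  simp only [xi, Nm, e0, e1, e2]
  push_cast
  linear_combination (((p : K) * (k 0 : K) + th * (k 1 : K) + th2 * (k 2 : K)) *
      (((p : K) * (k 0 : K)) * (th * (k 1 : K))
        + ((p : K) * (k 0 : K)) * (th2 * (k 2 : K)) * (om ^ 2 - om + 1)
        + (th * (k 1 : K)) ^ 2 * (om - 1)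
        + (th * (k 1 : K)) * (th2 * (k 2 : K)) * (om ^ 3 - om + 1)
        + (th2 * (k 2 : K)) ^ 2 * ((om - 1) * (om ^ 3 + 1)))) * h4
    + (k 1 : K) ^ 3 * h1 + (k 2 : K) ^ 3 * h2
    - 3 * ((p : K) * (k 0 : K)) * (k 1 : K) * (k 2 : K) * h3

/-- PROOF: the matrix `xi_i(k_j)` is (coefficient matrix `(p, om^i th, om^(2i) th2)`) times `(k_j)`, its determinant is
`p th th2 V det3`, `V` = the Vandermonde determinant of `1, om, om^2`.  One can verify it directly: expand both sides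
(`det3` of the three vectors `fun i => xi i k_j`) and use `om^2 = - om - 1`, `th th2 = y2 y3`.
`V = det [[1,1,1],[1,om,om^2],[1,om^2,om^4]] = 3 om^2 - 3 om = -6 om - 3`, `V^2 = 36 om^2 + 36 om + 9 = -27`. -/
theorem xi_det {K : Type*} [Field K] {y2 y3 p : ℤ} {th th2 om : K}
    (h3 : th * th2 = (y2 : K) * y3) (h4 : om ^ 2 + om + 1 = 0) (a b c : V3) :
    ∃ V : K, V ^ 2 = -27 ∧
    det3 (fun i => xi p th th2 om i a) (fun i => xi p th th2 om i b) (fun i => xi p th th2 om i c)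
      = V * (((y2 * y3) * (p * det3 a b c) : ℤ) : K) := by
  have e1 : ((1 : Fin 3) : ℕ) = 1 := rfl
  have e2 : ((2 : Fin 3) : ℕ) = 2 := rfl
  have e0 : ((0 : Fin 3) : ℕ) = 0 := rfl
  refine ⟨-6 * om - 3, by linear_combination 36 * h4, ?_⟩
  simp only [xi, det3, e0, e1, e2]
  push_cast
  linear_combination ((om ^ 3 - 3 * om ^ 2 + 2 * om + 3) * (th * th2) * ((p : K) *
      ((a 0 : K) * ((b 1 : K) * (c 2 : K) - (b 2 : K) * (c 1 : K))
        - (a 1 : K) * ((b 0 : K) * (c 2 : K) - (b 2 : K) * (c 0 : K))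
        + (a 2 : K) * ((b 0 : K) * (c 1 : K) - (b 1 : K) * (c 0 : K))))) * h4
    + ((-6 * om - 3) * ((p : K) *
      ((a 0 : K) * ((b 1 : K) * (c 2 : K) - (b 2 : K) * (c 1 : K))
        - (a 1 : K) * ((b 0 : K) * (c 2 : K) - (b 2 : K) * (c 0 : K))
        + (a 2 : K) * ((b 0 : K) * (c 1 : K) - (b 1 : K) * (c 0 : K))))) * h3

end Pool.Agent.SLB
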