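import Pool.Agent.SLB.UnrA

namespace Pool.Agent.SLB

private theorem int4 {K : Type*} [NormedField K] {l : ℕ} (hl : l.Prime)
    (hint : ∀ (n : ℤ) (m : ℕ), ‖(n : K)‖ ≤ ((l : ℝ) ^ m)⁻¹ ↔ (l : ℤ) ^ m ∣ n)
    (hexact : ∀ n : ℤ, n ≠ 0 → ∃ m : ℕ, ‖(n : K)‖ = ((l : ℝ) ^ m)⁻¹)
    (n : ℤ) (e s : ℕ) (hs : 4 * e ≤ s + 2) (h : ‖(n : K)‖ ^ 4 ≤ ((l : ℝ) ^ s)⁻¹) : (l : ℤ) ^ e ∣ n := by
  by_cases hn : n = 0
  · rw [hn]; exact dvd_zero _
  obtain ⟨m, hm⟩ := hexact n hn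
  have hl1 : (1 : ℝ) < l := by exact_mod_cast hl.one_lt
  have hl0 : (0 : ℝ) < l := by linarith
  by_cases hme : e ≤ m
  · rw [← hint n e, hm]
    have := pow_le_pow_right₀ hl1.le hme
    exact inv_anti₀ (pow_pos hl0 _) this
  · exfalso
    push Not at hme
    rw [hm, inv_pow, ← pow_mul] at h
    have h1 : (l : ℝ) ^ s ≤ (l : ℝ) ^ (m * 4) := by
      rwa [inv_le_inv₀ (pow_pos hl0 _) (pow_pos hl0 _)] at h
    have h2 := (pow_le_pow_iff_right₀ hl1).1 h1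
    omega

private theorem xi_add {K : Type*} [Field K] (p : ℤ) (th th2 om : K) (i : Fin 3) (a b : V3) :
    xi p th th2 om i (a + b) = xi p th th2 om i a + xi p th th2 om i b := by
  simp only [xi, Pi.add_apply]
  push_cast
  ring

private theorem xi_neg {K : Type*} [Field K] (p : ℤ) (th th2 om : K) (i : Fin 3) (a : V3) :
    xi p th th2 om i (-a) = -xi p th th2 om i a := by
  simp only [xi, Pi.neg_apply]
  push_cast
  ring

private theorem xi_zero {K : Type*} [Field K] (p : ℤ) (th th2 om : K) (i : Fin 3) :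
    xi p th th2 om i 0 = 0 := by
  simp [xi]

/-- the subgroup `M_f` -/
private def Mf {K : Type*} [NormedField K] (hu : ∀ a b : K, ‖a + b‖ ≤ max ‖a‖ ‖b‖)
    (l : ℕ) (p : ℤ) (th th2 om : K) (f : Fin 3 → ℕ) : AddSubgroup V3 where
  carrier := {k | ∀ i, ‖xi p th th2 om i k‖ ^ 4 ≤ ((l : ℝ) ^ (f i))⁻¹}
  add_mem' := by
    intro a b ha hb i
    have h1 := ha i
    have h2 := hb i
    rw [xi_add]
    rcases le_total ‖xi p th th2 om i a‖ ‖xi p th th2 om i b‖ with h | h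
    · have h3 := hu (xi p th th2 om i a) (xi p th th2 om i b)
      rw [max_eq_right h] at h3
      exact le_trans (pow_le_pow_left₀ (norm_nonneg _) h3 4) h2
    · have h3 := hu (xi p th th2 om i a) (xi p th th2 om i b)
      rw [max_eq_left h] at h3
      exact le_trans (pow_le_pow_left₀ (norm_nonneg _) h3 4) h1
  zero_mem' := by
    intro i
    rw [xi_zero]
    simp
  neg_mem' := by
    intro a ha i
    have h1 := ha i
    rw [xi_neg, norm_neg]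
    exact h1

private theorem mem_Mf {K : Type*} [NormedField K] (hu : ∀ a b : K, ‖a + b‖ ≤ max ‖a‖ ‖b‖)
    (l : ℕ) (p : ℤ) (th th2 om : K) (f : Fin 3 → ℕ) (k : V3) :
    k ∈ Mf hu l p th th2 om f ↔ ∀ i, ‖xi p th th2 om i k‖ ^ 4 ≤ ((l : ℝ) ^ (f i))⁻¹ := Iff.rfl

private theorem le_one_of_pow {x : ℝ} {n : ℕ} (hn : n ≠ 0) (_h0 : 0 ≤ x) (h : x ^ n ≤ 1) : x ≤ 1 := by
  by_contra hc
  push Not at hc
  have := one_lt_pow₀ hc hn
  linarith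

private theorem det_bound {K : Type*} [NormedField K] (hu : ∀ a b : K, ‖a + b‖ ≤ max ‖a‖ ‖b‖)
    (A B C : Fin 3 → K) (t : Fin 3 → ℝ) (ht : ∀ i, 0 ≤ t i) (hA : ∀ i, ‖A i‖ ≤ t i)
    (hB : ∀ i, ‖B i‖ ≤ t i) (hC : ∀ i, ‖C i‖ ≤ t i) : ‖det3 A B C‖ ≤ t 0 * t 1 * t 2 := by
  have hs : ∀ a b : K, ∀ r : ℝ, ‖a‖ ≤ r → ‖b‖ ≤ r → ‖a + b‖ ≤ r := fun a b r ha hb =>
    le_trans (hu a b) (max_le ha hb)
  have hd : ∀ a b : K, ∀ r : ℝ, ‖a‖ ≤ r → ‖b‖ ≤ r → ‖a - b‖ ≤ r := fun a b r ha hb => by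
    rw [sub_eq_add_neg]
    exact hs a (-b) r ha (by rwa [norm_neg])
  have hm2 : ∀ a b : K, ∀ r s : ℝ, 0 ≤ r → ‖a‖ ≤ r → ‖b‖ ≤ s → ‖a * b‖ ≤ r * s := fun a b r s hr ha hb => by
    rw [norm_mul]
    exact mul_le_mul ha hb (norm_nonneg _) hr
  unfold det3
  have e1 : ‖B 1 * C 2 - B 2 * C 1‖ ≤ t 1 * t 2 := by
    apply hd
    · exact hm2 _ _ _ _ (ht 1) (hB 1) (hC 2)
    · rw [mul_comm (t 1)]
      exact hm2 _ _ _ _ (ht 2) (hB 2) (hC 1)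
  have e2 : ‖B 0 * C 2 - B 2 * C 0‖ ≤ t 0 * t 2 := by
    apply hd
    · exact hm2 _ _ _ _ (ht 0) (hB 0) (hC 2)
    · rw [mul_comm (t 0)]
      exact hm2 _ _ _ _ (ht 2) (hB 2) (hC 0)
  have e3 : ‖B 0 * C 1 - B 1 * C 0‖ ≤ t 0 * t 1 := by
    apply hd
    · exact hm2 _ _ _ _ (ht 0) (hB 0) (hC 1)
    · rw [mul_comm (t 0)]
      exact hm2 _ _ _ _ (ht 1) (hB 1) (hC 0)
  apply hs
  · apply hd
    · have := hm2 _ _ _ _ (ht 0) (hA 0) e1
      calc _ ≤ t 0 * (t 1 * t 2) := this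
        _ = _ := by ring
    · have := hm2 _ _ _ _ (ht 1) (hA 1) e2
      calc _ ≤ t 1 * (t 0 * t 2) := this
        _ = _ := by ring
  · have := hm2 _ _ _ _ (ht 2) (hA 2) e3
    calc _ ≤ t 2 * (t 0 * t 1) := this
      _ = _ := by ring

/-- The combinatorics of the classes, for one prime (section 2.1 of the notes), with the valued field abstract. -/
theorem unrB {K : Type*} [NormedField K] (hu : ∀ a b : K, ‖a + b‖ ≤ max ‖a‖ ‖b‖)
    {l : ℕ} (hl : l.Prime) (hint : ∀ (n : ℤ) (m : ℕ), ‖(n : K)‖ ≤ ((l : ℝ) ^ m)⁻¹ ↔ (l : ℤ) ^ m ∣ n)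
    (hexact : ∀ n : ℤ, n ≠ 0 → ∃ m : ℕ, ‖(n : K)‖ = ((l : ℝ) ^ m)⁻¹)
    {y2 y3 p y : ℤ} {th th2 om : K}
    (h1 : th ^ 3 = (y2 : K) ^ 2 * y3) (h2 : th2 ^ 3 = (y2 : K) * (y3 : K) ^ 2) (h3 : th * th2 = (y2 : K) * y3)
    (h4 : om ^ 2 + om + 1 = 0) (hP : ¬ (l : ℤ) ∣ y2 * y3) {e : ℕ} (hd : (l : ℤ) ^ e ∣ Dl y2 y3 p y) :
    LocCov l e y2 y3 p y := by
  classical
  have hl1 : (1 : ℝ) < l := by exact_mod_cast hl.one_lt
  have hl0 : (0 : ℝ) < l := by linarith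
  have hpr : Prime (l : ℤ) := Nat.prime_iff_prime_int.1 hl
  have hint1 : ∀ n : ℤ, ‖(n : K)‖ ≤ 1 := by
    intro n
    have := (hint n 0).2 (by simp)
    simpa using this
  -- integrality of the three numbers
  have hth : ‖th‖ ≤ 1 := by
    apply le_one_of_pow (n := 3) (by norm_num) (norm_nonneg _)
    rw [← norm_pow, h1]
    have := hint1 (y2 ^ 2 * y3)
    push_cast at this
    exact this
  have hth2 : ‖th2‖ ≤ 1 := by
    apply le_one_of_pow (n := 3) (by norm_num) (norm_nonneg _)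
    rw [← norm_pow, h2]
    have := hint1 (y2 * y3 ^ 2)
    push_cast at this
    exact this
  have hom : ‖om‖ ≤ 1 := by
    apply le_one_of_pow (n := 3) (by norm_num) (norm_nonneg _)
    have h5 : om ^ 3 = 1 := by
      linear_combination (om - 1) * h4
    rw [← norm_pow, h5, norm_one]
  have hxi : ∀ (i : Fin 3) (k : V3), ‖xi p th th2 om i k‖ ≤ 1 := by
    intro i k
    unfold xi
    have hom' : ∀ n : ℕ, ‖om ^ n‖ ≤ 1 := fun n => by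
      rw [norm_pow]
      exact pow_le_one₀ (norm_nonneg _) hom
    refine le_trans (hu _ _) (max_le (le_trans (hu _ _) (max_le ?_ ?_)) ?_)
    · rw [norm_mul]
      exact mul_le_one₀ (hint1 _) (norm_nonneg _) (hint1 _)
    · rw [norm_mul, norm_mul]
      exact mul_le_one₀ (mul_le_one₀ (hom' _) (norm_nonneg _) hth) (norm_nonneg _) (hint1 _)
    · rw [norm_mul, norm_mul]
      exact mul_le_one₀ (mul_le_one₀ (hom' _) (norm_nonneg _) hth2) (norm_nonneg _) (hint1 _)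
  have hid : ∀ k : V3, y2 * y3 * Phi y2 y3 p y (k 0) (k 1) (k 2)
      = Nm y2 y3 (p * k 0) (k 1) (k 2) + Dl y2 y3 p y * k 0 ^ 3 := by
    intro k
    simp only [Phi, Nm, Dl]
    ring
  have hcop : ∀ n : ℤ, (l : ℤ) ^ e ∣ y2 * y3 * n → (l : ℤ) ^ e ∣ n := by
    intro n hn
    have hc : IsCoprime ((l : ℤ) ^ e) (y2 * y3) :=
      IsCoprime.pow_left ((Prime.coprime_iff_not_dvd hpr).2 hP)
    exact hc.dvd_of_dvd_mul_left hn
  -- the product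
  have hprod : ∀ k : V3, ‖((Nm y2 y3 (p * k 0) (k 1) (k 2) : ℤ) : K)‖ ^ 4
      = ‖xi p th th2 om 0 k‖ ^ 4 * ‖xi p th th2 om 1 k‖ ^ 4 * ‖xi p th th2 om 2 k‖ ^ 4 := by
    intro k
    rw [← xi_prod h1 h2 h3 h4 k, norm_mul, norm_mul, mul_pow, mul_pow]
  let I : Finset (Fin 3 → Fin (4 * e + 1)) :=
    Finset.univ.filter (fun f => 4 * e ≤ (f 0 : ℕ) + (f 1 : ℕ) + (f 2 : ℕ) + 2)
  refine ⟨I.image (fun f => Mf hu l p th th2 om (fun i => (f i : ℕ))), ?_, ?_, ?_, ?_⟩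
  · refine le_trans Finset.card_image_le (le_trans (Finset.card_filter_le _ _) ?_)
    simp
  · -- (a)
    intro k hk
    have hN : (l : ℤ) ^ e ∣ Nm y2 y3 (p * k 0) (k 1) (k 2) := by
      have e1 : Nm y2 y3 (p * k 0) (k 1) (k 2)
          = y2 * y3 * Phi y2 y3 p y (k 0) (k 1) (k 2) - Dl y2 y3 p y * k 0 ^ 3 := by
        rw [hid k]; ring
      rw [e1]
      exact dvd_sub (Dvd.dvd.mul_left hk _) (Dvd.dvd.mul_right hd _)
    have hN4 : ‖((Nm y2 y3 (p * k 0) (k 1) (k 2) : ℤ) : K)‖ ^ 4 ≤ ((l : ℝ) ^ (e * 4))⁻¹ := by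
      have := (hint _ e).2 hN
      calc _ ≤ (((l : ℝ) ^ e)⁻¹) ^ 4 := pow_le_pow_left₀ (norm_nonneg _) this 4
        _ = _ := by rw [inv_pow, ← pow_mul]
    let Pr : Fin 3 → ℕ → Prop := fun i j => ‖xi p th th2 om i k‖ ^ 4 ≤ ((l : ℝ) ^ j)⁻¹
    let g : Fin 3 → ℕ := fun i => Nat.findGreatest (Pr i) (4 * e)
    have hg1 : ∀ i, g i ≤ 4 * e := fun i => Nat.findGreatest_le _
    have hg2 : ∀ i, Pr i (g i) := by
      intro i
      apply Nat.findGreatest_spec (P := Pr i) (m := 0) (Nat.zero_le _)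
      show ‖xi p th th2 om i k‖ ^ 4 ≤ ((l : ℝ) ^ 0)⁻¹
      rw [pow_zero, inv_one]
      exact pow_le_one₀ (norm_nonneg _) (hxi i k)
    have hg3 : ∀ i, g i < 4 * e → ((l : ℝ) ^ (g i + 1))⁻¹ < ‖xi p th th2 om i k‖ ^ 4 := by
      intro i hi
      have := Nat.findGreatest_is_greatest (P := Pr i) (n := 4 * e) (k := g i + 1) (Nat.lt_succ_self _) hi
      exact not_le.1 this
    have hsum : 4 * e ≤ g 0 + g 1 + g 2 + 2 := by
      by_cases hc : ∀ i, g i < 4 * e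
      · have a0 := hg3 0 (hc 0)
        have a1 := hg3 1 (hc 1)
        have a2 := hg3 2 (hc 2)
        have b0 : 0 < ((l : ℝ) ^ (g 0 + 1))⁻¹ := inv_pos.2 (pow_pos hl0 _)
        have b1 : 0 < ((l : ℝ) ^ (g 1 + 1))⁻¹ := inv_pos.2 (pow_pos hl0 _)
        have b2 : 0 < ((l : ℝ) ^ (g 2 + 1))⁻¹ := inv_pos.2 (pow_pos hl0 _)
        have c1 : ((l : ℝ) ^ (g 0 + 1))⁻¹ * ((l : ℝ) ^ (g 1 + 1))⁻¹ * ((l : ℝ) ^ (g 2 + 1))⁻¹
            < ((l : ℝ) ^ (e * 4))⁻¹ := by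
          refine lt_of_lt_of_le ?_ hN4
          rw [hprod k]
          exact mul_lt_mul'' (mul_lt_mul'' a0 a1 b0.le b1.le) a2 (mul_pos b0 b1).le b2.le
        rw [← mul_inv, ← mul_inv, ← pow_add, ← pow_add, inv_lt_inv₀ (pow_pos hl0 _) (pow_pos hl0 _)] at c1
        have c2 := (pow_lt_pow_iff_right₀ hl1).1 c1
        omega
      · push Not at hc
        obtain ⟨i, hi⟩ := hc
        fin_cases i
        · simp only [Fin.zero_eta] at hi; omega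
        · simp only [Fin.mk_one] at hi; omega
        · have : 4 * e ≤ g 2 := hi
          omega
    let f : Fin 3 → Fin (4 * e + 1) := fun i => ⟨g i, Nat.lt_succ_of_le (hg1 i)⟩
    refine ⟨Mf hu l p th th2 om (fun i => (f i : ℕ)), ?_, ?_⟩
    · apply Finset.mem_image_of_mem
      rw [Finset.mem_filter]
      exact ⟨Finset.mem_univ _, hsum⟩
    · rw [mem_Mf]
      intro i
      exact hg2 i
  · -- (b)
    intro M hM k hk
    obtain ⟨f, hf, rfl⟩ := Finset.mem_image.1 hM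
    rw [Finset.mem_filter] at hf
    rw [mem_Mf] at hk
    have hN4 : ‖((Nm y2 y3 (p * k 0) (k 1) (k 2) : ℤ) : K)‖ ^ 4
        ≤ ((l : ℝ) ^ ((f 0 : ℕ) + (f 1 : ℕ) + (f 2 : ℕ)))⁻¹ := by
      rw [hprod k, pow_add, pow_add, mul_inv, mul_inv]
      have n0 : 0 ≤ ‖xi p th th2 om 1 k‖ ^ 4 := pow_nonneg (norm_nonneg _) _
      have n1 : 0 ≤ ‖xi p th th2 om 2 k‖ ^ 4 := pow_nonneg (norm_nonneg _) _
      have b0 : 0 ≤ ((l : ℝ) ^ (f 0 : ℕ))⁻¹ := (inv_pos.2 (pow_pos hl0 _)).le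
      have b1 : 0 ≤ ((l : ℝ) ^ (f 1 : ℕ))⁻¹ := (inv_pos.2 (pow_pos hl0 _)).le
      exact mul_le_mul (mul_le_mul (hk 0) (hk 1) n0 b0) (hk 2) n1 (mul_nonneg b0 b1)
    have hN : (l : ℤ) ^ e ∣ Nm y2 y3 (p * k 0) (k 1) (k 2) := int4 hl hint hexact _ e _ hf.2 hN4
    apply hcop
    rw [hid k]
    exact dvd_add hN (Dvd.dvd.mul_right hd _)
  · -- (c)
    intro M hM a ha b hb c hc
    obtain ⟨f, hf, rfl⟩ := Finset.mem_image.1 hM
    rw [Finset.mem_filter] at hf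
    rw [mem_Mf] at ha hb hc
    let t : Fin 3 → ℝ := fun i => Real.sqrt (Real.sqrt (((l : ℝ) ^ (f i : ℕ))⁻¹))
    have ht : ∀ i, 0 ≤ t i := fun i => Real.sqrt_nonneg _
    have ht4 : ∀ i, t i ^ 4 = ((l : ℝ) ^ (f i : ℕ))⁻¹ := by
      intro i
      have hx : 0 ≤ ((l : ℝ) ^ (f i : ℕ))⁻¹ := (inv_pos.2 (pow_pos hl0 _)).le
      have e1 : t i ^ 4 = (t i ^ 2) ^ 2 := by ring
      rw [e1]
      show ((Real.sqrt (Real.sqrt (((l : ℝ) ^ (f i : ℕ))⁻¹))) ^ 2) ^ 2 = _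
      rw [Real.sq_sqrt (Real.sqrt_nonneg _), Real.sq_sqrt hx]
    have key : ∀ k : V3, (∀ i, ‖xi p th th2 om i k‖ ^ 4 ≤ ((l : ℝ) ^ (f i : ℕ))⁻¹) →
        ∀ i, ‖xi p th th2 om i k‖ ≤ t i := by
      intro k hk i
      have := hk i
      rw [← ht4 i] at this
      exact (pow_le_pow_iff_left₀ (norm_nonneg _) (ht i) (by norm_num)).1 this
    obtain ⟨V, hV, hdet⟩ := xi_det (p := p) (y2 := y2) (y3 := y3) h3 h4 a b c
    have hb1 := det_bound hu (fun i => xi p th th2 om i a) (fun i => xi p th th2 om i b)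
      (fun i => xi p th th2 om i c) t ht (key a ha) (key b hb) (key c hc)
    rw [hdet] at hb1
    have hb2 : ‖V * (((y2 * y3) * (p * det3 a b c) : ℤ) : K)‖ ^ 4
        ≤ ((l : ℝ) ^ ((f 0 : ℕ) + (f 1 : ℕ) + (f 2 : ℕ)))⁻¹ := by
      calc _ ≤ (t 0 * t 1 * t 2) ^ 4 := pow_le_pow_left₀ (norm_nonneg _) hb1 4
        _ = t 0 ^ 4 * t 1 ^ 4 * t 2 ^ 4 := by ring
        _ = _ := by rw [ht4, ht4, ht4, pow_add, pow_add, mul_inv, mul_inv]
    -- the integer `9 y2 y3 p det`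
    have hV2 : ‖V‖ ^ 2 = ‖((27 : ℤ) : K)‖ := by
      rw [← norm_pow, hV]
      push_cast
      rw [norm_neg]
    have h9 : ‖((9 : ℤ) : K)‖ ^ 4 ≤ ‖V‖ ^ 4 := by
      have e1 : ‖V‖ ^ 4 = ‖((27 : ℤ) : K)‖ ^ 2 := by rw [← hV2]; ring
      have e2 : ‖((9 : ℤ) : K)‖ ^ 4 = ‖((27 : ℤ) : K)‖ ^ 2 * ‖((9 : ℤ) : K)‖ := by
        rw [← norm_pow, ← norm_pow, ← norm_mul]
        congr 1
        norm_num
      rw [e1, e2]
      have := hint1 9
      have n0 : 0 ≤ ‖((27 : ℤ) : K)‖ ^ 2 := by positivity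
      exact mul_le_of_le_one_right n0 this
    have hfin : ‖((9 * ((y2 * y3) * (p * det3 a b c)) : ℤ) : K)‖ ^ 4
        ≤ ((l : ℝ) ^ ((f 0 : ℕ) + (f 1 : ℕ) + (f 2 : ℕ)))⁻¹ := by
      refine le_trans ?_ hb2
      rw [Int.cast_mul, norm_mul, norm_mul, mul_pow, mul_pow]
      exact mul_le_mul_of_nonneg_right h9 (by positivity)
    have hfin2 := int4 hl hint hexact _ e _ hf.2 hfin
    apply hcop
    have e3 : y2 * y3 * (9 * p * det3 a b c) = 9 * ((y2 * y3) * (p * det3 a b c)) := by ring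
    rw [e3]
    exact hfin2

end Pool.Agent.SLB
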