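import Pool.Agent.SLB.Defs

namespace Pool.Agent.SLB

/-- Roots of `p^3 == -m` modulo a squarefree `P` in an interval shorter than `P`.
PROOF.  The reduction `p ↦ (p mod P)` is injective on `|p| <= b`, `2b < P`.  Number of roots in `ZMod P`: by the Chinese
remainder theorem (induction on the prime factors, or the injection `p ↦ (p mod l)_{l | P}`: two numbers congruent modulo all
primes `l | P`, `P` squarefree, are congruent mod `P`) at most `prod_{l | P} 3` (`X^3 + m` has at most 3 roots in the field `ZMod l`),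
and `3 <= 4 = 2^2`, `prod_{l|P} 4 = d(P)^2` (`d(P) = 2^omega(P)`). -/
theorem cube_roots {P : ℤ} (hP : 2 ≤ P) (hsq : Squarefree P) (m : ℤ) {b : ℝ} (hb : 2 * b < P) :
    {p : ℤ | |(p : ℝ)| ≤ b ∧ P ∣ p ^ 3 + m}.ncard ≤ dN P ^ 2 := by
  classical
  set n := P.natAbs with hn
  have hPn : (n : ℤ) = P := by omega
  have hn0 : n ≠ 0 := by omega
  have hsqn : Squarefree n := Int.squarefree_natAbs.mpr hsq
  haveI hpr : ∀ l : n.primeFactors, Fact (l : ℕ).Prime :=
    fun l => ⟨Nat.prime_of_mem_primeFactors l.2⟩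
  let R : (l : n.primeFactors) → Finset (ZMod l) :=
    fun l => Finset.univ.filter (fun x => x ^ 3 + (m : ZMod l) = 0)
  have hR : ∀ l, (R l).card ≤ 4 := by
    intro l
    have hq0 : (Polynomial.X ^ 3 + Polynomial.C (m : ZMod l)) ≠ 0 :=
      Polynomial.X_pow_add_C_ne_zero (by norm_num) _
    have hdeg : (Polynomial.X ^ 3 + Polynomial.C (m : ZMod l)).natDegree = 3 :=
      Polynomial.natDegree_X_pow_add_C
    have hsub : R l ⊆ (Polynomial.X ^ 3 + Polynomial.C (m : ZMod l)).roots.toFinset := by
      intro x hx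
      rw [Finset.mem_filter] at hx
      rw [Multiset.mem_toFinset, Polynomial.mem_roots hq0, Polynomial.IsRoot.def]
      simpa using hx.2
    calc (R l).card ≤ (Polynomial.X ^ 3 + Polynomial.C (m : ZMod l)).roots.toFinset.card :=
          Finset.card_le_card hsub
      _ ≤ Multiset.card (Polynomial.X ^ 3 + Polynomial.C (m : ZMod l)).roots :=
          Multiset.toFinset_card_le _
      _ ≤ (Polynomial.X ^ 3 + Polynomial.C (m : ZMod l)).natDegree := Polynomial.card_roots' _
      _ ≤ 4 := by omega
  have h1 : {p : ℤ | |(p : ℝ)| ≤ b ∧ P ∣ p ^ 3 + m}.ncard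
      ≤ (↑(Fintype.piFinset R) : Set ((l : n.primeFactors) → ZMod l)).ncard := by
    refine Set.ncard_le_ncard_of_injOn (fun p l => (p : ZMod l)) ?_ ?_ (Finset.finite_toSet _)
    · rintro p ⟨-, hp⟩
      rw [Finset.mem_coe, Fintype.mem_piFinset]
      intro l
      rw [Finset.mem_filter]
      refine ⟨Finset.mem_univ _, ?_⟩
      have hl : ((l : ℕ) : ℤ) ∣ p ^ 3 + m := by
        refine dvd_trans ?_ hp
        rw [← hPn]
        exact_mod_cast Nat.dvd_of_mem_primeFactors l.2
      have h2 := (ZMod.intCast_zmod_eq_zero_iff_dvd (p ^ 3 + m) (l : ℕ)).mpr hl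
      simpa using h2
    · rintro p ⟨hp1, -⟩ q ⟨hq1, -⟩ hpq
      have h3 : (n : ℤ) ∣ p - q := by
        have h4 : (∏ l ∈ n.primeFactors, (l : ℕ)) ∣ (p - q).natAbs := by
          refine Finset.prod_primes_dvd _ (fun l hl => (Nat.prime_of_mem_primeFactors hl).prime) ?_
          intro l hl
          have h5 := congrFun hpq ⟨l, hl⟩
          have h6 : ((p - q : ℤ) : ZMod l) = 0 := by
            push_cast
            rw [sub_eq_zero]
            exact h5
          have h7 := (ZMod.intCast_zmod_eq_zero_iff_dvd (p - q) l).mp h6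
          exact Int.natCast_dvd.mp h7
        rw [Nat.prod_primeFactors_of_squarefree hsqn] at h4
        exact Int.natCast_dvd.mpr h4
      rw [hPn] at h3
      by_contra hne
      have h8 : p - q ≠ 0 := sub_ne_zero.mpr hne
      have h9 : |P| ≤ |p - q| := by
        have := Int.le_of_dvd (abs_pos.mpr h8) ((dvd_abs _ _).mpr h3)
        rw [abs_of_pos (by omega : (0 : ℤ) < P)]
        exact this
      have h10 : (P : ℝ) ≤ |((p : ℝ) - q)| := by
        have h11 : (P : ℤ) ≤ |p - q| := by
          rw [abs_of_pos (by omega : (0 : ℤ) < P)] at h9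
          exact h9
        have h12 : ((P : ℤ) : ℝ) ≤ ((|p - q| : ℤ) : ℝ) := by exact_mod_cast h11
        rw [Int.cast_abs] at h12
        push_cast at h12
        exact h12
      have h13 : |((p : ℝ) - q)| ≤ |(p : ℝ)| + |(q : ℝ)| := abs_sub _ _
      linarith
  rw [Set.ncard_coe_finset, Fintype.card_piFinset] at h1
  have h2 : dN P = 2 ^ n.primeFactors.card := by
    unfold dN
    rw [← hn, Nat.card_divisors hn0]
    rw [Finset.prod_congr rfl (g := fun _ => 2)]
    · rw [Finset.prod_const]
    · intro l hl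
      rw [(Nat.squarefree_iff_factorization_le_one hn0).mp hsqn l |>.antisymm ?_]
      exact (Nat.prime_of_mem_primeFactors hl).factorization_pos_of_dvd hn0
        (Nat.dvd_of_mem_primeFactors hl)
  calc _ ≤ ∏ l, (R l).card := h1
    _ ≤ ∏ _l : n.primeFactors, 4 := Finset.prod_le_prod' (fun l _ => hR l)
    _ = 4 ^ n.primeFactors.card := by simp
    _ = dN P ^ 2 := by
      rw [h2, ← pow_mul, mul_comm, pow_mul]
      norm_num

end Pool.Agent.SLB
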