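import Pool.Agent.SLB.Sol

namespace Pool.Agent.SLB

private theorem VzA_cop {y2 y3 p y x u w : ℤ} (hsq : Squarefree y3)
    (hprim : ∀ l : ℕ, l.Prime → (l : ℤ) ∣ x → (l : ℤ) ∣ u → ¬ (l : ℤ) ∣ w)
    (h : y * x ^ 3 + y2 * u ^ 3 + y3 * w ^ 3 - 3 * p * x * u * w = 0) : IsCoprime x u := by
  rw [Int.isCoprime_iff_gcd_eq_one]
  by_contra hne
  obtain ⟨l, hl, hd⟩ := Nat.exists_prime_and_dvd hne
  have h1 : (l : ℤ) ∣ x := (Int.natCast_dvd_natCast.2 hd).trans (Int.gcd_dvd_left x u)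
  have h2 : (l : ℤ) ∣ u := (Int.natCast_dvd_natCast.2 hd).trans (Int.gcd_dvd_right x u)
  have h3 := hprim l hl h1 h2
  obtain ⟨x', rfl⟩ := h1
  obtain ⟨u', rfl⟩ := h2
  have h4 : (l : ℤ) * l ∣ y3 * w ^ 3 := by
    refine ⟨3 * p * x' * u' * w - y * l * x' ^ 3 - y2 * l * u' ^ 3, ?_⟩
    linear_combination h
  have hlp : Prime (l : ℤ) := Nat.prime_iff_prime_int.1 hl
  have h5 : IsCoprime ((l : ℤ) * l) (w ^ 3) := by
    have h6 : IsCoprime (l : ℤ) w := (Prime.coprime_iff_not_dvd hlp).2 h3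
    exact (IsCoprime.mul_left h6 h6).pow_right
  have h7 : (l : ℤ) * l ∣ y3 := h5.dvd_of_dvd_mul_right h4
  exact hlp.not_isUnit (hsq _ h7)

private theorem VzA_class {T : Set ℤ} {lo hi : ℝ} {m : ℤ} (hm : 0 < m)
    (hT : ∀ y ∈ T, lo ≤ (y : ℝ) ∧ (y : ℝ) ≤ hi) (hc : ∀ y ∈ T, ∀ y' ∈ T, m ∣ y - y')
    (h : lo ≤ hi) : T.Finite ∧ (T.ncard : ℝ) ≤ (hi - lo) / (m : ℝ) + 1 := by
  classical
  have hm' : (0 : ℝ) < (m : ℝ) := by exact_mod_cast hm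
  have hfin : T.Finite := by
    refine (Set.finite_Icc ⌈lo⌉ ⌊hi⌋).subset fun y hy => ?_
    exact ⟨Int.ceil_le.2 (hT y hy).1, Int.le_floor.2 (hT y hy).2⟩
  refine ⟨hfin, ?_⟩
  rcases T.eq_empty_or_nonempty with rfl | hne
  · rw [Set.ncard_empty, Nat.cast_zero]
    have : 0 ≤ (hi - lo) / (m : ℝ) := div_nonneg (by linarith) hm'.le
    linarith
  · obtain ⟨y0, hy0, hmin⟩ := Set.exists_min_image T id hfin hne
    have hsub : T ⊆ ((Finset.range (⌊(hi - lo) / (m : ℝ)⌋₊ + 1)).image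
        (fun j : ℕ => y0 + m * j) : Finset ℤ) := by
      intro y hy
      obtain ⟨c, hcc⟩ := hc y hy y0 hy0
      have hge : y0 ≤ y := hmin y hy
      have hc0 : 0 ≤ c := by
        by_contra hneg
        have : m * c < 0 := mul_neg_of_pos_of_neg hm (not_le.1 hneg)
        linarith
      obtain ⟨j, rfl⟩ := Int.eq_ofNat_of_zero_le hc0
      rw [Finset.coe_image, Set.mem_image]
      refine ⟨j, ?_, by linarith⟩
      rw [Finset.coe_range, Set.mem_Iio, Nat.lt_succ_iff]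
      apply Nat.le_floor
      rw [le_div_iff₀ hm']
      have h1 : ((y - y0 : ℤ) : ℝ) = (m : ℝ) * (j : ℝ) := by rw [hcc]; push_cast; ring
      push_cast at h1
      have h2 := (hT y hy).2
      have h3 := (hT y0 hy0).1
      nlinarith
    have h1 : T.ncard ≤ ⌊(hi - lo) / (m : ℝ)⌋₊ + 1 := by
      refine (Set.ncard_le_ncard hsub (Finset.finite_toSet _)).trans ?_
      rw [Set.ncard_coe_finset]
      exact Finset.card_image_le.trans (by rw [Finset.card_range])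
    have h2 : ((⌊(hi - lo) / (m : ℝ)⌋₊ : ℕ) : ℝ) ≤ (hi - lo) / (m : ℝ) :=
      Nat.floor_le (div_nonneg (by linarith) hm'.le)
    have h3 : (T.ncard : ℝ) ≤ ((⌊(hi - lo) / (m : ℝ)⌋₊ + 1 : ℕ) : ℝ) := by exact_mod_cast h1
    push_cast at h3
    linarith

/-- (8.2) primitive reduction.
PROOF.  Divide `k` by `g = gcd(k0,k1,k2)`: `Phi(k) = g^3 Phi(k/g)`.  Let `l` be a prime dividing `k'0` and `k'1`.  From
`y k0^3 + y2 k1^3 + y3 k2^3 = 3 p k0 k1 k2`: `l^2 | y3 k2^3`; `l` does not divide `k2` (primitive), so `l^2 | y3`, contradiction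
to squarefree.  The same for `k'0`, `k'2` with `y2`. -/
theorem primitive {o : Ob} (ha : Ari o.1.1 o.1.2) {k : V3} (h0 : k 0 ≠ 0) (h1 : k 1 ≠ 0) (h2 : k 2 ≠ 0)
    (hk : PhiO o k = 0) :
    ∃ k' : V3, k' 0 ≠ 0 ∧ k' 1 ≠ 0 ∧ k' 2 ≠ 0 ∧ (∀ i, |k' i| ≤ |k i|) ∧ PhiO o k' = 0 ∧
      IsCoprime (k' 0) (k' 1) ∧ IsCoprime (k' 0) (k' 2) := by
  set g : ℕ := Int.gcd (k 0) (Int.gcd (k 1) (k 2)) with hg
  have hg0 : g ≠ 0 := by
    intro h
    rw [hg, Int.gcd_eq_zero_iff] at h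
    exact h0 h.1
  have hgz : (g : ℤ) ≠ 0 := by exact_mod_cast hg0
  have d0 : (g : ℤ) ∣ k 0 := Int.gcd_dvd_left _ _
  have d12 : (g : ℤ) ∣ (Int.gcd (k 1) (k 2) : ℤ) := Int.gcd_dvd_right _ _
  have d1 : (g : ℤ) ∣ k 1 := d12.trans (Int.gcd_dvd_left _ _)
  have d2 : (g : ℤ) ∣ k 2 := d12.trans (Int.gcd_dvd_right _ _)
  obtain ⟨a0, e0⟩ := d0
  obtain ⟨a1, e1⟩ := d1
  obtain ⟨a2, e2⟩ := d2
  have hprim : ∀ l : ℕ, l.Prime → (l : ℤ) ∣ a0 → (l : ℤ) ∣ a1 → ¬ (l : ℤ) ∣ a2 := by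
    intro l hl l0 l1 l2
    have m0 : ((g * l : ℕ) : ℤ) ∣ k 0 := by rw [e0]; push_cast; exact mul_dvd_mul_left _ l0
    have m1 : ((g * l : ℕ) : ℤ) ∣ k 1 := by rw [e1]; push_cast; exact mul_dvd_mul_left _ l1
    have m2 : ((g * l : ℕ) : ℤ) ∣ k 2 := by rw [e2]; push_cast; exact mul_dvd_mul_left _ l2
    have m12 : ((g * l : ℕ) : ℤ) ∣ (Int.gcd (k 1) (k 2) : ℤ) := Int.dvd_coe_gcd m1 m2
    have m : ((g * l : ℕ) : ℤ) ∣ (g : ℤ) := Int.dvd_coe_gcd m0 m12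
    have m' : g * l ∣ g := Int.natCast_dvd_natCast.1 m
    have hle := Nat.le_of_dvd (Nat.pos_of_ne_zero hg0) m'
    have h2l := hl.two_le
    have hgp := Nat.pos_of_ne_zero hg0
    nlinarith
  have hphi : o.2.2 * a0 ^ 3 + o.1.1 * a1 ^ 3 + o.1.2 * a2 ^ 3 - 3 * o.2.1 * a0 * a1 * a2 = 0 := by
    have h3 : (g : ℤ) ^ 3 * (o.2.2 * a0 ^ 3 + o.1.1 * a1 ^ 3 + o.1.2 * a2 ^ 3
        - 3 * o.2.1 * a0 * a1 * a2) = 0 := by
      have h4 : o.2.2 * (k 0) ^ 3 + o.1.1 * (k 1) ^ 3 + o.1.2 * (k 2) ^ 3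
          - 3 * o.2.1 * (k 0) * (k 1) * (k 2) = 0 := hk
      rw [e0, e1, e2] at h4
      linear_combination h4
    exact (mul_eq_zero.1 h3).resolve_left (pow_ne_zero 3 hgz)
  have n0 : a0 ≠ 0 := fun h => h0 (by rw [e0, h, mul_zero])
  have n1 : a1 ≠ 0 := fun h => h1 (by rw [e1, h, mul_zero])
  have n2 : a2 ≠ 0 := fun h => h2 (by rw [e2, h, mul_zero])
  have habs : ∀ a : ℤ, |a| ≤ |(g : ℤ) * a| := by
    intro a
    rw [abs_mul]
    have h5 : (1 : ℤ) ≤ |(g : ℤ)| := Int.one_le_abs hgz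
    nlinarith [abs_nonneg a]
  refine ⟨![a0, a1, a2], n0, n1, n2, ?_, hphi, ?_, ?_⟩
  · intro i
    fin_cases i
    · change |a0| ≤ |k 0|
      rw [e0]
      exact habs a0
    · change |a1| ≤ |k 1|
      rw [e1]
      exact habs a1
    · change |a2| ≤ |k 2|
      rw [e2]
      exact habs a2
  · exact VzA_cop ha.sq3 hprim hphi
  · have hfin : IsCoprime a0 a2 := by
      refine VzA_cop (y2 := o.1.2) (y3 := o.1.1) (p := o.2.1) (y := o.2.2) (x := a0) (u := a2)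
        (w := a1) ha.sq2 (fun l hl l0 l2 l1 => hprim l hl l0 l1 l2) ?_
      linear_combination hphi
    exact hfin

/-- (8.2) the number of `(p,y)` for given `y2,y3,x,u,w`.
PROOF.  `p` is determined by `y` (`3 x u w <> 0`).  For two solutions `x^3 (y - y0) = 3 x u w (p - p0)`, so
`u w | x^2 (y - y0)`, `x` coprime to `u w`, `u w | y - y0`.  Number of integers `y` in `[-B,B]`, `B = b^3/Y^2`, in one class modulo
`|u w|`: at most `2B/|uw| + 1`. -/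
theorem count_py {Y b : ℝ} (hY : 0 < Y) (hb : 0 < b) (y2 y3 x u w : ℤ) (hx : x ≠ 0) (hu : u ≠ 0) (hw : w ≠ 0)
    (c1 : IsCoprime x u) (c2 : IsCoprime x w) :
    ({q : ℤ × ℤ | |(q.2 : ℝ)| ≤ b ^ 3 / Y ^ 2 ∧ Phi y2 y3 q.1 q.2 x u w = 0}.ncard : ℝ)
      ≤ 1 + 2 * (b ^ 3 / Y ^ 2) / (|(u : ℝ)| * |(w : ℝ)|) := by
  set B : ℝ := b ^ 3 / Y ^ 2 with hB
  have hB0 : 0 ≤ B := by positivity
  set A : Set (ℤ × ℤ) := {q : ℤ × ℤ | |(q.2 : ℝ)| ≤ B ∧ Phi y2 y3 q.1 q.2 x u w = 0} with hA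
  have huw : u * w ≠ 0 := mul_ne_zero hu hw
  have hm : 0 < |u * w| := abs_pos.2 huw
  have hkey : ∀ q ∈ A, ∀ q' ∈ A, x ^ 2 * (q.2 - q'.2) = (u * w) * (3 * (q.1 - q'.1)) := by
    intro q hq q' hq'
    have e1 : q.2 * x ^ 3 + y2 * u ^ 3 + y3 * w ^ 3 - 3 * q.1 * x * u * w = 0 := hq.2
    have e2 : q'.2 * x ^ 3 + y2 * u ^ 3 + y3 * w ^ 3 - 3 * q'.1 * x * u * w = 0 := hq'.2
    have e3 : x * (x ^ 2 * (q.2 - q'.2)) = x * ((u * w) * (3 * (q.1 - q'.1))) := by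
      linear_combination e1 - e2
    exact mul_left_cancel₀ hx e3
  have hinj : Set.InjOn (fun q : ℤ × ℤ => q.2) A := by
    intro q hq q' hq' h
    have e := hkey q hq q' hq'
    simp only at h
    rw [h, sub_self, mul_zero] at e
    have e1 := (mul_eq_zero.1 e.symm).resolve_left huw
    have e2 : q.1 = q'.1 := by linarith
    exact Prod.ext e2 h
  have hcard : A.ncard = ((fun q : ℤ × ℤ => q.2) '' A).ncard := (Set.ncard_image_of_injOn hinj).symm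
  have hcl := (VzA_class (T := (fun q : ℤ × ℤ => q.2) '' A) (lo := -B) (hi := B) hm (by
    rintro y ⟨q, hq, rfl⟩
    exact abs_le.1 hq.1) (by
    rintro y ⟨q, hq, rfl⟩ y' ⟨q', hq', rfl⟩
    rw [abs_dvd]
    have e := hkey q hq q' hq'
    have hco : IsCoprime (u * w) (x ^ 2) := (IsCoprime.mul_right c1 c2).symm.pow_right
    exact hco.dvd_of_dvd_mul_left ⟨_, e⟩) (by linarith)).2
  rw [hcard]
  refine hcl.trans ?_
  have e1 : (((|u * w| : ℤ)) : ℝ) = |(u : ℝ)| * |(w : ℝ)| := by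
    rw [Int.cast_abs, Int.cast_mul, abs_mul]
  rw [e1]
  have e2 : (B - -B) = 2 * B := by ring
  rw [e2]
  linarith

/-- (8.2) the number of `(y2,y3)` for given `x,u,w`.
PROOF.  `y2`: at most `S Y - Y + 1 <= S Y` integers in `[Y, S Y]` (`Y >= 1`; the set is empty if `S < 1`).  For given `y2` all
`y3` lie in one class mod `|x|` (`w` is a unit mod `x`, so `w^3 (y3 - y3') == 0` implies `x | y3 - y3'`): at most
`(S Y - Y)/|x| + 1 <= 2 S Y/|x|` as `|x| <= S Y`. -/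
theorem count_yy {Y S : ℝ} (hY : 1 ≤ Y) (hS : 1 ≤ S) (x u w : ℤ) (hx : x ≠ 0) (hx2 : |(x : ℝ)| ≤ S * Y)
    (c2 : IsCoprime x w) :
    ({q : ℤ × ℤ | Y ≤ (q.1 : ℝ) ∧ (q.1 : ℝ) ≤ S * Y ∧ Y ≤ (q.2 : ℝ) ∧ (q.2 : ℝ) ≤ S * Y ∧
      x ∣ q.1 * u ^ 3 + q.2 * w ^ 3}.ncard : ℝ) ≤ 2 * S ^ 2 * Y ^ 2 / |(x : ℝ)| := by
  classical
  set A : Set (ℤ × ℤ) := {q : ℤ × ℤ | Y ≤ (q.1 : ℝ) ∧ (q.1 : ℝ) ≤ S * Y ∧ Y ≤ (q.2 : ℝ) ∧
    (q.2 : ℝ) ≤ S * Y ∧ x ∣ q.1 * u ^ 3 + q.2 * w ^ 3} with hA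
  have hY0 : 0 < Y := by linarith
  have hSY : Y ≤ S * Y := by nlinarith
  have hfin : A.Finite := by
    refine ((Set.finite_Icc ⌈Y⌉ ⌊S * Y⌋).prod (Set.finite_Icc ⌈Y⌉ ⌊S * Y⌋)).subset ?_
    rintro q ⟨h1, h2, h3, h4, _⟩
    exact ⟨⟨Int.ceil_le.2 h1, Int.le_floor.2 h2⟩, ⟨Int.ceil_le.2 h3, Int.le_floor.2 h4⟩⟩
  have hm : 0 < |x| := abs_pos.2 hx
  have hmr : (0 : ℝ) < |(x : ℝ)| := by
    have : (0 : ℝ) < ((|x| : ℤ) : ℝ) := by exact_mod_cast hm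
    rwa [Int.cast_abs] at this
  set s : Finset (ℤ × ℤ) := hfin.toFinset with hs
  have hcard : A.ncard = s.card := Set.ncard_eq_toFinset_card A hfin
  set N : ℕ := ⌊(S * Y - Y) / |(x : ℝ)| + 1⌋₊ with hN
  have hfib : ∀ c ∈ s.image (fun q : ℤ × ℤ => q.1), (s.filter fun q => q.1 = c).card ≤ N := by
    intro c _
    set T : Set ℤ := {z : ℤ | (c, z) ∈ A} with hT
    have hTcl := VzA_class (T := T) (lo := Y) (hi := S * Y) hm (by
      intro z hz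
      exact ⟨hz.2.2.1, hz.2.2.2.1⟩) (by
      intro z hz z' hz'
      rw [abs_dvd]
      have e1 : x ∣ c * u ^ 3 + z * w ^ 3 := hz.2.2.2.2
      have e2 : x ∣ c * u ^ 3 + z' * w ^ 3 := hz'.2.2.2.2
      have e3 : x ∣ (z - z') * w ^ 3 := by
        have := dvd_sub e1 e2
        have e4 : c * u ^ 3 + z * w ^ 3 - (c * u ^ 3 + z' * w ^ 3) = (z - z') * w ^ 3 := by ring
        rwa [e4] at this
      exact (IsCoprime.pow_right c2).dvd_of_dvd_mul_right e3) hSY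
    have h1 : (s.filter fun q => q.1 = c).card ≤ T.ncard := by
      rw [Set.ncard_eq_toFinset_card T hTcl.1]
      refine Finset.card_le_card_of_injOn (fun q => q.2) ?_ ?_
      · intro q hq
        rw [Finset.coe_filter, Set.mem_setOf_eq] at hq
        rw [Finset.mem_coe, Set.Finite.mem_toFinset]
        have h2 : q ∈ A := hfin.mem_toFinset.1 hq.1
        change (c, q.2) ∈ A
        rw [← hq.2]
        exact h2
      · intro q hq q' hq' h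
        rw [Finset.coe_filter, Set.mem_setOf_eq] at hq hq'
        exact Prod.ext (hq.2.trans hq'.2.symm) h
    refine h1.trans ?_
    apply Nat.le_floor
    have h3 := hTcl.2
    rwa [Int.cast_abs] at h3
  have h1 := Finset.card_le_mul_card_image s N hfib
  have h2 : ((s.image (fun q : ℤ × ℤ => q.1)).card : ℝ) ≤ S * Y := by
    have h3 := (VzA_class (T := ((s.image (fun q : ℤ × ℤ => q.1) : Finset ℤ) : Set ℤ)) (lo := Y)
      (hi := S * Y) one_pos (by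
      intro z hz
      rw [Finset.coe_image] at hz
      obtain ⟨q, hq, rfl⟩ := hz
      have h4 : q ∈ A := hfin.mem_toFinset.1 hq
      exact ⟨h4.1, h4.2.1⟩) (fun y _ y' _ => one_dvd _) hSY).2
    rw [Set.ncard_coe_finset] at h3
    refine h3.trans ?_
    push_cast
    linarith
  have h3 : (N : ℝ) ≤ 2 * (S * Y) / |(x : ℝ)| := by
    have h4 : (N : ℝ) ≤ (S * Y - Y) / |(x : ℝ)| + 1 :=
      Nat.floor_le (by
        have : 0 ≤ (S * Y - Y) / |(x : ℝ)| := div_nonneg (by linarith) hmr.le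
        linarith)
    refine h4.trans ?_
    have h5 : 1 ≤ S * Y / |(x : ℝ)| := by
      rw [le_div_iff₀ hmr]
      linarith
    have h6 : (S * Y - Y) / |(x : ℝ)| ≤ S * Y / |(x : ℝ)| :=
      div_le_div_of_nonneg_right (by linarith) hmr.le
    have h7 : 2 * (S * Y) / |(x : ℝ)| = S * Y / |(x : ℝ)| + S * Y / |(x : ℝ)| := by ring
    rw [h7]
    linarith
  rw [hcard]
  have h4 : (s.card : ℝ) ≤ (N : ℝ) * ((s.image (fun q : ℤ × ℤ => q.1)).card : ℝ) := by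
    exact_mod_cast h1
  refine h4.trans ((mul_le_mul h3 h2 (Nat.cast_nonneg _) (by positivity)).trans (le_of_eq ?_))
  ring

end Pool.Agent.SLB
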